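import Pool.Agent.H631.BG.Base

open MeasureTheory Filter Topology Set
open scoped ENNReal NNReal BigOperators

namespace BG631.JA

section asm
open Finset
variable {ι : Type} [Fintype ι] [DecidableEq ι]

omit [DecidableEq ι] in
theorem aux_integrable {f : (ι → E) → ℝ} (hm : Measurable f) (M : ℝ) (hb : ∀ x, ‖f x‖ ≤ M)
    {S : Set (ι → E)} (hS : IsCompact S) (hs : ∀ x, x ∉ S → f x = 0) : Integrable f := by
  have hsupp : Function.support f ⊆ S := by
    intro x hx
    by_contra h
    exact hx (hs x h)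
  rw [← integrableOn_iff_integrable_of_support_subset hsupp]
  exact Measure.integrableOn_of_bounded hS.measure_lt_top.ne hm.aestronglyMeasurable
    (Filter.Eventually.of_forall hb)

theorem aux_Vin_meas (K lam : ℝ) : Measurable (Vin K lam) := by
  unfold Vin
  exact Measurable.ite (measurableSet_lt measurable_id measurable_const) measurable_const
    measurable_const

theorem aux_Vin_bdd (K lam r : ℝ) : |Vin K lam r| ≤ |K| + |lam| := by
  unfold Vin
  split_ifs
  · have := abs_nonneg lam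
    linarith
  · rw [abs_neg]
    have := abs_nonneg K
    linarith

theorem aux_potC_meas (K lam : ℝ) (C : Finset ι) : Measurable (fun x : ι → E => potC K lam C x) := by
  unfold potC
  refine Measurable.const_mul ?_ _
  refine Finset.measurable_sum _ fun i _ => Finset.measurable_sum _ fun j _ => ?_
  exact (aux_Vin_meas K lam).comp ((measurable_pi_apply i).dist (measurable_pi_apply j))

theorem aux_potC_bdd (K lam : ℝ) (C : Finset ι) : ∃ M : ℝ, 0 ≤ M ∧ ∀ x : ι → E, |potC K lam C x| ≤ M := by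
  refine ⟨(1 / 2) * ∑ i ∈ C, ∑ j ∈ C.erase i, (|K| + |lam|), by positivity, fun x => ?_⟩
  unfold potC
  rw [abs_mul, abs_of_pos (by norm_num : (0 : ℝ) < 1 / 2)]
  refine mul_le_mul_of_nonneg_left ?_ (by norm_num)
  refine (Finset.abs_sum_le_sum_abs _ _).trans (Finset.sum_le_sum fun i _ => ?_)
  exact (Finset.abs_sum_le_sum_abs _ _).trans (Finset.sum_le_sum fun j _ => aux_Vin_bdd _ _ _)

omit [DecidableEq ι] in
theorem aux_om_meas (C : Finset ι) : MeasurableSet (Om C) := by
  have h1 : ∀ i j : ι, Measurable fun x : ι → E => dist (x i) (x j) < 1 := fun i j =>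
    measurableSet_setOf.1
      (measurableSet_lt ((measurable_pi_apply i).dist (measurable_pi_apply j)) measurable_const)
  have h2 : ∀ i j : ι, Measurable fun x : ι → E => 1 < dist (x i) (x j) := fun i j =>
    measurableSet_setOf.1
      (measurableSet_lt measurable_const ((measurable_pi_apply i).dist (measurable_pi_apply j)))
  unfold Om
  apply measurableSet_setOf.2
  refine Measurable.and ?_ ?_
  · refine Measurable.forall fun i => Measurable.imp measurable_const ?_
    refine Measurable.forall fun j => Measurable.imp measurable_const ?_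
    exact Measurable.imp measurable_const (h1 i j)
  · refine Measurable.forall fun i => Measurable.imp measurable_const ?_
    refine Measurable.forall fun j => Measurable.imp measurable_const ?_
    exact h2 i j

theorem aux_pd_meas (ψ : (ι → E) → ℝ) (i : ι) (k : Fin 3) : Measurable fun x => pd ψ x i k :=
  measurable_fderiv_apply_const ℝ ψ _

theorem aux_pd_bdd (ψ : (ι → E) → ℝ) (L : ℝ≥0) (hL : LipschitzWith L ψ) (x : ι → E) (i : ι)
    (k : Fin 3) :
    ‖pd ψ x i k‖ ≤ L * ‖(Pi.single i (EuclideanSpace.single k (1 : ℝ)) : ι → E)‖ := by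
  unfold pd
  refine (ContinuousLinearMap.le_opNorm _ _).trans ?_
  exact mul_le_mul_of_nonneg_right (norm_fderiv_le_of_lipschitz ℝ hL) (norm_nonneg _)

theorem aux_pd_supp (ψ : (ι → E) → ℝ) (x : ι → E) (hx : x ∉ tsupport ψ) (i : ι) (k : Fin 3) :
    pd ψ x i k = 0 := by
  unfold pd
  have : fderiv ℝ ψ x = 0 := by
    by_contra h
    exact hx (support_fderiv_subset ℝ h)
  rw [this]
  rfl

theorem aux_D_int (μ K lam : ℝ) (ψ : (ι → E) → ℝ) (hl : ∃ C : ℝ≥0, LipschitzWith C ψ)
    (hc : HasCompactSupport ψ) (C : Finset ι) :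
    Integrable (fun x : ι → E => μ * ∑ i ∈ C, ∑ k, ‖pd ψ x i k‖ ^ 2 + potC K lam C x * ‖ψ x‖ ^ 2) := by
  obtain ⟨L, hL⟩ := hl
  obtain ⟨M, hM0, hM⟩ := aux_potC_bdd K lam C
  obtain ⟨B, hB⟩ := hc.exists_bound_of_continuous hL.continuous
  refine aux_integrable ?_ (|μ| * (∑ i ∈ C, ∑ k : Fin 3,
    (L * ‖(Pi.single i (EuclideanSpace.single k (1 : ℝ)) : ι → E)‖) ^ 2) + M * B ^ 2) ?_ hc ?_
  · refine Measurable.add (Measurable.const_mul ?_ _) (Measurable.mul (aux_potC_meas K lam C) ?_)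
    · refine Finset.measurable_sum _ fun i _ => Finset.measurable_sum _ fun k _ => ?_
      exact (aux_pd_meas ψ i k).norm.pow_const 2
    · exact hL.continuous.measurable.norm.pow_const 2
  · intro x
    refine (norm_add_le _ _).trans (add_le_add ?_ ?_)
    · rw [norm_mul, Real.norm_eq_abs]
      refine mul_le_mul_of_nonneg_left ?_ (abs_nonneg _)
      rw [Real.norm_of_nonneg (Finset.sum_nonneg fun i _ => Finset.sum_nonneg fun k _ => sq_nonneg _)]
      refine Finset.sum_le_sum fun i _ => Finset.sum_le_sum fun k _ => ?_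
      exact pow_le_pow_left₀ (norm_nonneg _) (aux_pd_bdd ψ L hL x i k) 2
    · rw [norm_mul, Real.norm_eq_abs, Real.norm_of_nonneg (sq_nonneg _)]
      exact mul_le_mul (hM x) (pow_le_pow_left₀ (norm_nonneg _) (hB x) 2) (sq_nonneg _) hM0
  · intro x hx
    have h1 : ψ x = 0 := image_eq_zero_of_notMem_tsupport hx
    simp [h1, aux_pd_supp ψ x hx]

theorem aux_kin_int (ψ : (ι → E) → ℝ) (hl : ∃ C : ℝ≥0, LipschitzWith C ψ)
    (hc : HasCompactSupport ψ) : Integrable (fun x : ι → E => kin ψ x) := by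
  obtain ⟨L, hL⟩ := hl
  refine aux_integrable ?_ (∑ i : ι, ∑ k : Fin 3,
    (L * ‖(Pi.single i (EuclideanSpace.single k (1 : ℝ)) : ι → E)‖) ^ 2) ?_ hc ?_
  · refine Finset.measurable_sum _ fun i _ => Finset.measurable_sum _ fun k _ => ?_
    exact (aux_pd_meas ψ i k).norm.pow_const 2
  · intro x
    unfold kin
    rw [Real.norm_of_nonneg (Finset.sum_nonneg fun i _ => Finset.sum_nonneg fun k _ => sq_nonneg _)]
    refine Finset.sum_le_sum fun i _ => Finset.sum_le_sum fun k _ => ?_
    exact pow_le_pow_left₀ (norm_nonneg _) (aux_pd_bdd ψ L hL x i k) 2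
  · intro x hx
    unfold kin
    simp [aux_pd_supp ψ x hx]

open Classical in
/-- nonnegativity of the `N`-body energy (assembly) -/
theorem nonneg_real (μ K lam B : ℝ) (hμ : 0 ≤ μ) (hl : 0 ≤ lam) (hK : 729 * 731 * lam ≤ K) (hB : 64 * K ≤ B)
    (hB0 : 0 < B)
    (null_wall : ∀ (i j : ι), i ≠ j → ∀ r : ℝ, 0 < r → volume {x : ι → E | dist (x i) (x j) = r} = 0)
    (wall : ∀ (ψ : (ι → E) → ℝ), IsState (V0 K lam B) ψ → ∀ (x : ι → E) (i j : ι), i ≠ j →
      dist (x i) (x j) = 1 → ψ x = 0)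
    (pot_ge : ∀ (x : ι → E), (∀ i j, i ≠ j → dist (x i) (x j) ≠ 1) →
      ∑ C ∈ (univ : Finset (Finset ι)).filter (fun C => 2 ≤ C.card ∧ x ∈ Om C), potC K lam C x
        ≤ pot (V0 K lam B) x)
    (Om_disjoint : ∀ (x : ι → E) (C D : Finset ι), x ∈ Om C → x ∈ Om D → ∀ (i : ι), i ∈ C → i ∈ D → C = D)
    (slice : ∀ (C : Finset ι) (ψ : (ι → E) → ℝ), (∃ C : ℝ≥0, LipschitzWith C ψ) → HasCompactSupport ψ →
      (∀ x i j, i ≠ j → dist (x i) (x j) = 1 → ψ x = 0) →
      0 ≤ ∫ x in Om C, (μ * ∑ i ∈ C, ∑ k, ‖pd ψ x i k‖ ^ 2 + potC K lam C x * ‖ψ x‖ ^ 2))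
    (ψ : (ι → E) → ℝ) (hψ : IsState (V0 K lam B) ψ) :
    0 ≤ energy μ (V0 K lam B) ψ := by
  set 𝒞 : Finset (Finset ι) := univ.filter (fun C : Finset ι => 2 ≤ C.card) with h𝒞
  set D : Finset ι → (ι → E) → ℝ := fun C x =>
    μ * ∑ i ∈ C, ∑ k, ‖pd ψ x i k‖ ^ 2 + potC K lam C x * ‖ψ x‖ ^ 2 with hD
  have hDint : ∀ C, Integrable (D C) := fun C => aux_D_int μ K lam ψ hψ.lip hψ.cpt C
  have hae : ∀ᵐ x : ι → E, ∀ i j, i ≠ j → dist (x i) (x j) ≠ 1 := by
    refine ae_all_iff.2 fun i => ae_all_iff.2 fun j => ?_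
    by_cases hij : i = j
    · exact Filter.Eventually.of_forall fun x h => absurd hij h
    · have := measure_eq_zero_iff_ae_notMem.1 (null_wall i j hij 1 one_pos)
      filter_upwards [this] with x hx _ h
      exact hx h
  have hle : ∀ᵐ x : ι → E, ∑ C ∈ 𝒞, (Om C).indicator (D C) x ≤
      μ * kin ψ x + pot (V0 K lam B) x * ‖ψ x‖ ^ 2 := by
    filter_upwards [hae] with x hx
    have e1 : ∑ C ∈ 𝒞, (Om C).indicator (D C) x = ∑ C ∈ (univ : Finset (Finset ι)).filter
        (fun C => 2 ≤ C.card ∧ x ∈ Om C), D C x := by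
      rw [h𝒞, Finset.sum_filter, Finset.sum_filter]
      refine Finset.sum_congr rfl fun C _ => ?_
      by_cases h1 : 2 ≤ C.card
      · by_cases h2 : x ∈ Om C
        · rw [if_pos h1, if_pos ⟨h1, h2⟩, Set.indicator_of_mem h2]
        · rw [if_pos h1, if_neg (fun h => h2 h.2), Set.indicator_of_notMem h2]
      · rw [if_neg h1, if_neg (fun h => h1 h.1)]
    rw [e1, hD]
    simp only []
    rw [Finset.sum_add_distrib, ← Finset.mul_sum, ← Finset.sum_mul]
    refine add_le_add (mul_le_mul_of_nonneg_left ?_ hμ)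
      (mul_le_mul_of_nonneg_right (pot_ge x hx) (sq_nonneg _))
    rw [← Finset.sum_biUnion]
    · unfold kin
      refine Finset.sum_le_sum_of_subset_of_nonneg (Finset.subset_univ _) ?_
      intro i _ _
      exact Finset.sum_nonneg fun k _ => sq_nonneg _
    · intro C hC C' hC' hne
      rw [Finset.mem_coe, Finset.mem_filter] at hC hC'
      show Disjoint C C'
      rw [Finset.disjoint_left]
      intro i hi hi'
      exact hne (Om_disjoint x C C' hC.2.2 hC'.2.2 i hi hi')
  have hint1 : ∀ C ∈ 𝒞, Integrable (fun x => (Om C).indicator (D C) x) := fun C _ =>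
    (hDint C).indicator (aux_om_meas C)
  have hint2 : Integrable (fun x => μ * kin ψ x + pot (V0 K lam B) x * ‖ψ x‖ ^ 2) :=
    ((aux_kin_int ψ hψ.lip hψ.cpt).const_mul μ).add hψ.int
  unfold energy
  calc (0 : ℝ) ≤ ∑ C ∈ 𝒞, ∫ x, (Om C).indicator (D C) x := by
        refine Finset.sum_nonneg fun C _ => ?_
        rw [integral_indicator (aux_om_meas C)]
        exact slice C ψ hψ.lip hψ.cpt (wall ψ hψ)
    _ = ∫ x, ∑ C ∈ 𝒞, (Om C).indicator (D C) x := (integral_finset_sum _ hint1).symm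
    _ ≤ _ := integral_mono_ae (integrable_finset_sum _ hint1) hint2 hle

end asm

end BG631.JA
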