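import Pool.Agent.H631.BG.Up

/-! Elementary asymptotics of the upper bound. -/

open MeasureTheory Filter Topology Set
open scoped ENNReal NNReal BigOperators

namespace BG631

theorem b33_pos : 0 < b33 := by unfold b33; positivity
theorem b66_pos : 0 < b66 := by unfold b66; positivity
theorem I0_pos : 0 < I0 := by unfold I0; have := Real.pi_pos; apply div_pos <;> nlinarith

theorem asy_core (μ ρ L n m κ : ℝ) (hμ : 0 < μ) (hρ : 0 < ρ) (hρ1 : ρ < 1 / 10 ^ 8) (hL : 20000 ≤ L)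
    (hn : 2 ≤ n) (hm0 : 0 ≤ m) (hm : m * n ≤ ρ * L ^ 3) (hκ : κ = (L - 24) ^ 3 - m * b33) :
    0 < κ ∧ m * (μ * ρ + μ * n⁻¹ * ((1 + 1 / 10) * I0 * (m / κ) * (1 + b66 * m / κ) +
      (1 + 1 / (1 / 10)) * (6 * (L - 20) ^ 2 / κ))) ≤ ρ * L ^ 3 * μ * (13.7 * Real.pi * ρ + 17 / L) := by
  have hpi := Real.pi_pos
  have hpi3 := Real.pi_gt_three
  have hpi4 := Real.pi_lt_d2
  have hL0 : 0 < L := by linarith
  have hX : 0 < L ^ 3 := by positivity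
  have hm2 : m * 2 ≤ ρ * L ^ 3 := by
    have : m * 2 ≤ m * n := mul_le_mul_of_nonneg_left hn hm0
    linarith
  have hb33 : b33 < 151000 := by unfold b33; norm_num; linarith
  have hb66 : b66 < 1210000 := by unfold b66; norm_num; linarith
  have hb33' := b33_pos
  have hb66' := b66_pos
  have hI0 : I0 < 95.34 * Real.pi := by unfold I0; nlinarith
  have hI0' := I0_pos
  have h1 : 0.99 * L ^ 3 ≤ (L - 24) ^ 3 := by nlinarith [mul_nonneg hL0.le hL0.le, sq_nonneg L]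
  have h2 : m * b33 ≤ 0.001 * L ^ 3 := by
    have h3 : m ≤ ρ * L ^ 3 / 2 := by linarith
    have h4 : ρ * L ^ 3 ≤ 1 / 10 ^ 8 * L ^ 3 := by gcongr
    have h5 : m ≤ 1 / 10 ^ 8 * L ^ 3 / 2 := by linarith
    calc m * b33 ≤ (1 / 10 ^ 8 * L ^ 3 / 2) * 151000 := by gcongr
      _ ≤ 0.001 * L ^ 3 := by nlinarith
  have hκ1 : 0.98 * L ^ 3 ≤ κ := by rw [hκ]; linarith
  have hκ0 : 0 < κ := lt_of_lt_of_le (by positivity) hκ1
  refine ⟨hκ0, ?_⟩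
  have hmκ : m / κ ≤ ρ / 1.96 := by
    rw [div_le_div_iff₀ hκ0 (by norm_num)]
    have hh := mul_le_mul_of_nonneg_left hκ1 hρ.le
    linarith
  have hmκ0 : 0 ≤ m / κ := by positivity
  have h6 : b66 * m / κ ≤ 0.01 := by
    rw [mul_div_assoc]
    calc b66 * (m / κ) ≤ 1210000 * (ρ / 1.96) := by gcongr
      _ ≤ 1210000 * ((1 / 10 ^ 8) / 1.96) := by gcongr
      _ ≤ 0.01 := by norm_num
  have h7 : (1 + 1 / 10) * I0 * (m / κ) * (1 + b66 * m / κ) ≤ 54.1 * Real.pi * ρ := by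
    calc (1 + 1 / 10) * I0 * (m / κ) * (1 + b66 * m / κ) ≤ (1 + 1 / 10) * (95.34 * Real.pi) * (ρ / 1.96) * (1 + 0.01) := by
          gcongr
      _ = ((1 + 1 / 10) * 95.34 / 1.96 * (1 + 0.01)) * (Real.pi * ρ) := by ring
      _ ≤ 54.1 * (Real.pi * ρ) := by
          have : 0 < Real.pi * ρ := by positivity
          apply mul_le_mul_of_nonneg_right _ this.le
          norm_num
      _ = 54.1 * Real.pi * ρ := by ring
  have h8 : (1 + 1 / (1 / 10)) * (6 * (L - 20) ^ 2 / κ) ≤ 68 / L := by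
    have h9 : (L - 20) ^ 2 ≤ L ^ 2 := by nlinarith
    have h10 : 6 * (L - 20) ^ 2 / κ ≤ 6 * L ^ 2 / (0.98 * L ^ 3) := by gcongr
    have h11 : 6 * L ^ 2 / (0.98 * L ^ 3) = (6 / 0.98) / L := by field_simp
    rw [h11] at h10
    calc (1 + 1 / (1 / 10)) * (6 * (L - 20) ^ 2 / κ) ≤ (1 + 1 / (1 / 10)) * ((6 / 0.98) / L) := by gcongr
      _ = (11 * 6 / 0.98) / L := by ring
      _ ≤ 68 / L := by gcongr; norm_num
  set T := (1 + 1 / 10) * I0 * (m / κ) * (1 + b66 * m / κ) + (1 + 1 / (1 / 10)) * (6 * (L - 20) ^ 2 / κ) with hT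
  have hTle : T ≤ 54.1 * Real.pi * ρ + 68 / L := by rw [hT]; linarith
  have hninv : n⁻¹ ≤ 1 / 2 := by
    rw [inv_le_comm₀ (by linarith) (by norm_num)]; linarith
  have hninv0 : 0 < n⁻¹ := by positivity
  have hT2 : 0 ≤ 54.1 * Real.pi * ρ + 68 / L := by positivity
  have h12 : μ * n⁻¹ * T ≤ μ * (1 / 2) * (54.1 * Real.pi * ρ + 68 / L) := by
    calc μ * n⁻¹ * T ≤ μ * n⁻¹ * (54.1 * Real.pi * ρ + 68 / L) := by gcongr
      _ ≤ _ := by gcongr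
  have h13 : 0 ≤ μ * ρ + μ * (1 / 2) * (54.1 * Real.pi * ρ + 68 / L) := by positivity
  calc m * (μ * ρ + μ * n⁻¹ * T) ≤ m * (μ * ρ + μ * (1 / 2) * (54.1 * Real.pi * ρ + 68 / L)) := by gcongr
    _ ≤ (ρ * L ^ 3 / 2) * (μ * ρ + μ * (1 / 2) * (54.1 * Real.pi * ρ + 68 / L)) := by
        apply mul_le_mul_of_nonneg_right _ h13
        linarith
    _ = ρ * L ^ 3 * μ * (ρ / 2 + 13.525 * Real.pi * ρ + 17 / L) := by ring
    _ ≤ ρ * L ^ 3 * μ * (13.7 * Real.pi * ρ + 17 / L) := by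
        gcongr
        nlinarith

theorem asy (μ ρ C : ℝ) (hμ : 0 < μ) (hρ : 0 < ρ) (hρ1 : ρ < 1 / 10 ^ 8) (hC : 0 ≤ C) :
    ∀ᶠ L : ℝ in atTop, ∀ n : ℕ, 2 ≤ n → n < 2 * 729 →
      24 < L ∧ 11 * ((⌊ρ * L ^ 3⌋₊ % n : ℕ) : ℝ) + 6 ≤ L ∧
      0 < (L - 24) ^ 3 - ((⌊ρ * L ^ 3⌋₊ / n : ℕ) : ℝ) * b33 ∧
      ((⌊ρ * L ^ 3⌋₊ / n : ℕ) : ℝ) * (μ * ρ + μ * (n : ℝ)⁻¹ *
        TT (1 / 10) ((L - 24) ^ 3 - ((⌊ρ * L ^ 3⌋₊ / n : ℕ) : ℝ) * b33) (⌊ρ * L ^ 3⌋₊ / n) (L - 20))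
        + C * ((⌊ρ * L ^ 3⌋₊ % n : ℕ) : ℝ) ≤ 16 * Real.pi * μ * ρ * (ρ * L ^ 3) := by
  have hpi := Real.pi_pos
  have hpi3 := Real.pi_gt_three
  filter_upwards [eventually_ge_atTop (20000 : ℝ), eventually_ge_atTop (17 / ρ),
    eventually_ge_atTop (1458 * C / (μ * ρ ^ 2))] with L h1 h2 h3 n hn hn2
  have hL0 : 0 < L := by linarith
  have hX : 0 < L ^ 3 := by positivity
  have hs : ((⌊ρ * L ^ 3⌋₊ % n : ℕ) : ℝ) ≤ 1458 := by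
    have : ⌊ρ * L ^ 3⌋₊ % n < n := Nat.mod_lt _ (by omega)
    exact_mod_cast (by omega : ⌊ρ * L ^ 3⌋₊ % n ≤ 1458)
  have hs0 : (0:ℝ) ≤ ((⌊ρ * L ^ 3⌋₊ % n : ℕ) : ℝ) := Nat.cast_nonneg _
  have hfl : (⌊ρ * L ^ 3⌋₊ : ℝ) ≤ ρ * L ^ 3 := Nat.floor_le (by positivity)
  have hmn : ((⌊ρ * L ^ 3⌋₊ / n : ℕ) : ℝ) * n ≤ ρ * L ^ 3 := by
    refine le_trans ?_ hfl
    exact_mod_cast Nat.div_mul_le_self _ _
  have hm0 : (0:ℝ) ≤ ((⌊ρ * L ^ 3⌋₊ / n : ℕ) : ℝ) := Nat.cast_nonneg _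
  obtain ⟨k1, k2⟩ := asy_core μ ρ L n ((⌊ρ * L ^ 3⌋₊ / n : ℕ) : ℝ) _ hμ hρ hρ1 h1 (by exact_mod_cast hn) hm0 hmn rfl
  refine ⟨by linarith, by linarith, k1, ?_⟩
  have k3 : C * ((⌊ρ * L ^ 3⌋₊ % n : ℕ) : ℝ) ≤ μ * ρ ^ 2 * L ^ 3 := by
    have h4 : 1458 * C ≤ L * (μ * ρ ^ 2) := by
      rw [div_le_iff₀ (by positivity)] at h3
      exact h3
    have h5 : L ≤ L ^ 3 := by nlinarith [mul_pos hL0 hL0]
    calc C * ((⌊ρ * L ^ 3⌋₊ % n : ℕ) : ℝ) ≤ C * 1458 := by gcongr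
      _ ≤ L * (μ * ρ ^ 2) := by linarith
      _ ≤ L ^ 3 * (μ * ρ ^ 2) := by gcongr
      _ = μ * ρ ^ 2 * L ^ 3 := by ring
  have k4 : 17 / L ≤ ρ := by
    rw [div_le_iff₀ hL0]
    rw [div_le_iff₀ hρ] at h2
    linarith
  unfold TT
  refine le_trans (add_le_add k2 k3) ?_
  have k5 : ρ * L ^ 3 * μ * (13.7 * Real.pi * ρ + 17 / L) ≤ ρ * L ^ 3 * μ * (13.7 * Real.pi * ρ + ρ) := by gcongr
  refine le_trans (add_le_add k5 (le_refl _)) ?_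
  have k6 : 0 < ρ ^ 2 * L ^ 3 * μ := by positivity
  nlinarith

end BG631
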