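import Pool.Agent.H631.BG.Stmt

/-! Bose gas counterexample: auxiliary definitions used in the proof. -/

open MeasureTheory Filter Topology Set
open scoped ENNReal NNReal BigOperators

namespace BG631

section defs
variable {ι : Type} [Fintype ι] [DecidableEq ι]

/-- all particles within mutual distance `< 1` -/
def clump (x : ι → E) : Prop := ∀ i j, i ≠ j → dist (x i) (x j) < 1

end defs

/-- the pair potential -/
noncomputable def V0 (K lam B : ℝ) (r : ℝ) : ℝ :=
  if r < 1 / 2 then K else if r ≤ 1 then -lam else if r < 9 then B / (r - 1) ^ 2 else 0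

/-- its interior part -/
noncomputable def Vin (K lam : ℝ) (r : ℝ) : ℝ := if r < 1 / 2 then K else -lam

/-- nonnegativity of the energy of a clump -/
def PosLump (μ K lam : ℝ) (κ : Type) [Fintype κ] [DecidableEq κ] : Prop :=
  ∀ g : (κ → E) → ℝ, (∃ C : ℝ≥0, LipschitzWith C g) → HasCompactSupport g → (∀ x, g x ≠ 0 → clump x) →
    0 ≤ energy μ (Vin K lam) g

section region
variable {ι : Type} [Fintype ι] [DecidableEq ι]

/-- configurations in which the particles of `C` form a clump separated (distance `> 1`) from all others -/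
def Om (C : Finset ι) : Set (ι → E) :=
  {x | (∀ i ∈ C, ∀ j ∈ C, i ≠ j → dist (x i) (x j) < 1) ∧ (∀ i ∈ C, ∀ j, j ∉ C → 1 < dist (x i) (x j))}

/-- interior potential energy of the clump `C` -/
noncomputable def potC (K lam : ℝ) (C : Finset ι) (x : ι → E) : ℝ :=
  (1 / 2) * ∑ i ∈ C, ∑ j ∈ C.erase i, Vin K lam (dist (x i) (x j))

end region

section counts
open Finset
variable {ι : Type} [Fintype ι] [DecidableEq ι]

/-- number of other particles within distance `≤ 1` -/
noncomputable def dN (x : ι → E) (i : ι) : ℕ := by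
  classical exact ((univ.erase i).filter (fun j => dist (x i) (x j) ≤ 1)).card
/-- number of other particles at distance in `(1, 9)` -/
noncomputable def bN (x : ι → E) (i : ι) : ℕ := by
  classical exact ((univ.erase i).filter (fun j => 1 < dist (x i) (x j) ∧ dist (x i) (x j) < 9)).card
/-- number of other particles at distance `< 1/2` -/
noncomputable def cN (x : ι → E) (i : ι) : ℕ := by
  classical exact ((univ.erase i).filter (fun j => dist (x i) (x j) < 1 / 2)).card
end counts

section cmdefs
/-- centre of mass -/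
noncomputable def cm {n : ℕ} (x : Fin n → E) : E := (n : ℝ)⁻¹ • ∑ i, x i

/-- the half-open unit cube -/
def Q1 : Set E := {y | ∀ k, 0 ≤ y k ∧ y k < 1}

/-- integral over the relative coordinates -/
noncomputable def relInt {n : ℕ} (h : (Fin n → E) → ℝ) : ℝ := ∫ x in {x | cm x ∈ Q1}, h x
end cmdefs

section psidef
variable {n m : ℕ}
/-- `m` clumps with internal wave function `φ` and centre-of-mass wave function `Φ` -/
noncomputable def Psi (φ : (Fin n → E) → ℝ) (Φ : (Fin m → E) → ℝ) (x : Fin m × Fin n → E) : ℝ :=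
  (∏ A, φ (fun i => x (A, i))) * Φ (fun A => cm (fun i => x (A, i)))
end psidef

section hsdefs
/-- radial cut-off: `0` for `|z| ≤ 11`, `1` for `|z| ≥ 33` -/
noncomputable def ff (z : E) : ℝ := max 0 (min 1 ((‖z‖ - 11) / 22))
/-- box cut-off: `1` on `[2, L-2]^3`, `0` outside `(1, L-1)^3` -/
noncomputable def chi (L : ℝ) (z : E) : ℝ :=
  max 0 (min 1 (min (min (z 0 - 1) (L - 1 - z 0)) (min (min (z 1 - 1) (L - 1 - z 1)) (min (z 2 - 1) (L - 1 - z 2)))))
/-- one-particle factor, the other particles sitting at `c` -/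
noncomputable def uu {m : ℕ} (L : ℝ) (c : Fin m → E) (z : E) : ℝ := chi L z * ∏ B, ff (z - c B)
/-- Jastrow function of `m` points -/
noncomputable def Fm (m : ℕ) (L : ℝ) (c : Fin m → E) : ℝ :=
  (∏ A, chi L (c A)) * ∏ p ∈ Finset.univ.filter (fun p : Fin m × Fin m => p.1 < p.2), ff (c p.1 - c p.2)
noncomputable def b33 : ℝ := 4 / 3 * Real.pi * 33 ^ 3
noncomputable def b66 : ℝ := 4 / 3 * Real.pi * 66 ^ 3
noncomputable def I0 : ℝ := 4 / 3 * Real.pi * (33 ^ 3 - 11 ^ 3) / 22 ^ 2
open Classical in
/-- number of ordered pairs of distinct points at distance `≤ 66` -/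
noncomputable def closeN {m : ℕ} (c : Fin m → E) : ℝ :=
  ∑ B, ∑ C ∈ Finset.univ.erase B, if dist (c B) (c C) ≤ 66 then (1 : ℝ) else 0
end hsdefs


end BG631
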