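import Pool.Agent.H631.BG.Base

open MeasureTheory Filter Topology Set
open scoped ENNReal NNReal BigOperators

namespace BG631.JC

section cubes
open Finset
variable {ι : Type} [Fintype ι] [DecidableEq ι]





/-- the index of the cube of side `1/4` containing the `i`-th particle -/
noncomputable def cb_q (x : ι → E) (i : ι) : Fin 3 → ℤ := fun k => ⌊4 * (x i) k⌋

/-- differences of cubes at distance at most `1` -/
noncomputable def cb_Box : Finset (Fin 3 → ℤ) := Fintype.piFinset (fun _ => Finset.Icc (-4) 4)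

theorem cb_card : cb_Box.card = 729 := by
  unfold cb_Box
  rw [Fintype.card_piFinset]
  simp

theorem cb_coord (y z : E) (k : Fin 3) : |y k - z k| ≤ dist y z := by
  rw [dist_eq_norm]
  have := PiLp.norm_apply_le (p := 2) (y - z) k
  rwa [PiLp.sub_apply, Real.norm_eq_abs] at this

theorem cb_q_eq {x : ι → E} {i j : ι} (h : cb_q x i = cb_q x j) : dist (x i) (x j) < 1 / 2 := by
  have h1 : ∀ k, (x i k - x j k) ^ 2 ≤ 1 / 16 := by
    intro k
    have h2 : ⌊4 * (x i) k⌋ = ⌊4 * (x j) k⌋ := congrFun h k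
    have h3 := Int.abs_sub_lt_one_of_floor_eq_floor h2
    have h4 : |x i k - x j k| < 1 / 4 := by
      rw [← mul_sub, abs_mul, abs_of_pos (by norm_num : (0:ℝ) < 4)] at h3
      linarith
    have h5 := (abs_lt.1 h4)
    nlinarith [h5.1, h5.2]
  rw [EuclideanSpace.dist_eq]
  rw [Real.sqrt_lt' (by norm_num)]
  rw [Fin.sum_univ_three]
  have h2 : ∀ k, dist (x i k) (x j k) ^ 2 = (x i k - x j k) ^ 2 := by
    intro k
    rw [Real.dist_eq, sq_abs]
  rw [h2, h2, h2]
  have := h1 0
  have := h1 1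
  have := h1 2
  norm_num
  linarith

theorem cb_q_near {x : ι → E} {i j : ι} (h : dist (x i) (x j) ≤ 1) :
    cb_q x j - cb_q x i ∈ cb_Box := by
  unfold cb_Box
  rw [Fintype.mem_piFinset]
  intro k
  have h1 := (cb_coord (x i) (x j) k).trans h
  rw [abs_le] at h1
  rw [Finset.mem_Icc]
  show -4 ≤ ⌊4 * (x j) k⌋ - ⌊4 * (x i) k⌋ ∧ ⌊4 * (x j) k⌋ - ⌊4 * (x i) k⌋ ≤ 4
  have a1 := Int.floor_le (4 * (x j) k)
  have a2 := Int.lt_floor_add_one (4 * (x j) k)
  have a3 := Int.floor_le (4 * (x i) k)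
  have a4 := Int.lt_floor_add_one (4 * (x i) k)
  constructor
  · have : (-5 : ℝ) < (⌊4 * (x j) k⌋ : ℝ) - ⌊4 * (x i) k⌋ := by linarith [h1.1, h1.2]
    have h6 : (-5 : ℤ) < ⌊4 * (x j) k⌋ - ⌊4 * (x i) k⌋ := by exact_mod_cast this
    omega
  · have : (⌊4 * (x j) k⌋ : ℝ) - ⌊4 * (x i) k⌋ < 5 := by linarith [h1.1, h1.2]
    have h6 : ⌊4 * (x j) k⌋ - ⌊4 * (x i) k⌋ < (5 : ℤ) := by exact_mod_cast this
    omega

theorem cb_dN (x : ι → E) (i : ι) :
    dN x i = ((univ.erase i).filter (fun j => dist (x i) (x j) ≤ 1)).card := by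
  unfold dN
  congr!

theorem cb_cN (x : ι → E) (i : ι) :
    cN x i = ((univ.erase i).filter (fun j => dist (x i) (x j) < 1 / 2)).card := by
  unfold cN
  congr!

theorem cb_card_le (x : ι → E) (U : Finset ι) (i : ι) :
    (U.filter (fun j => cb_q x j = cb_q x i)).card ≤ 1 + cN x i := by
  rw [cb_cN, add_comm]
  refine (Finset.card_le_card (t := insert i ((univ.erase i).filter
    (fun j => dist (x i) (x j) < 1 / 2))) ?_).trans (card_insert_le _ _)
  intro j hj
  rw [mem_filter] at hj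
  rw [Finset.mem_insert]
  by_cases h : j = i
  · exact Or.inl h
  · right
    rw [mem_filter]
    exact ⟨mem_erase.2 ⟨h, mem_univ _⟩, cb_q_eq hj.2.symm⟩

theorem cb_P_le (x : ι → E) (U : Finset ι) :
    ∑ i ∈ U, (U.filter (fun j => cb_q x j = cb_q x i)).card ≤ U.card + ∑ i ∈ U, cN x i := by
  refine (sum_le_sum (fun i _ => cb_card_le x U i)).trans ?_
  rw [sum_add_distrib, sum_const, smul_eq_mul, mul_one]

theorem cb_P_eq (x : ι → E) (U : Finset ι) :
    ∑ i ∈ U, (U.filter (fun j => cb_q x j = cb_q x i)).card =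
      ∑ Q ∈ U.image (cb_q x), (U.filter (fun j => cb_q x j = Q)).card ^ 2 := by
  rw [Finset.sum_comp (fun Q => (U.filter (fun j => cb_q x j = Q)).card) (cb_q x)]
  refine sum_congr rfl (fun Q _ => ?_)
  rw [smul_eq_mul, sq]

theorem cb_shift (x : ι → E) (U : Finset ι) (δ : Fin 3 → ℤ) :
    ∑ i ∈ U, (U.filter (fun j => cb_q x j = cb_q x i + δ)).card ≤
      ∑ i ∈ U, (U.filter (fun j => cb_q x j = cb_q x i)).card := by
  have h1 : ∑ i ∈ U, (U.filter (fun j => cb_q x j = cb_q x i + δ)).card =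
      ∑ Q ∈ U.image (cb_q x), (U.filter (fun j => cb_q x j = Q)).card *
        (U.filter (fun j => cb_q x j = Q + δ)).card := by
    rw [Finset.sum_comp (fun Q => (U.filter (fun j => cb_q x j = Q + δ)).card) (cb_q x)]
    refine sum_congr rfl (fun Q _ => ?_)
    rw [smul_eq_mul]
  rw [h1, cb_P_eq]
  have h2 : ∑ Q ∈ U.image (cb_q x), (U.filter (fun j => cb_q x j = Q + δ)).card ^ 2 ≤
      ∑ Q ∈ U.image (cb_q x), (U.filter (fun j => cb_q x j = Q)).card ^ 2 := by
    have h3 : ∑ Q ∈ U.image (cb_q x), (U.filter (fun j => cb_q x j = Q + δ)).card ^ 2 =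
        ∑ Q ∈ (U.image (cb_q x)).image (· + δ), (U.filter (fun j => cb_q x j = Q)).card ^ 2 := by
      exact (Finset.sum_image (f := fun Q => (U.filter (fun j => cb_q x j = Q)).card ^ 2)
        (fun a _ b _ hab => add_right_cancel hab)).symm
    rw [h3]
    apply sum_le_sum_of_ne_zero
    intro Q _ hQ
    have h4 : (U.filter (fun j => cb_q x j = Q)).card ≠ 0 := by
      intro h
      rw [h] at hQ
      exact hQ rfl
    obtain ⟨j, hj⟩ := card_pos.1 (Nat.pos_of_ne_zero h4)
    rw [mem_filter] at hj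
    exact mem_image.2 ⟨j, hj.1, hj.2⟩
  have h5 : 2 * ∑ Q ∈ U.image (cb_q x), (U.filter (fun j => cb_q x j = Q)).card *
        (U.filter (fun j => cb_q x j = Q + δ)).card ≤
      ∑ Q ∈ U.image (cb_q x), (U.filter (fun j => cb_q x j = Q)).card ^ 2 +
      ∑ Q ∈ U.image (cb_q x), (U.filter (fun j => cb_q x j = Q + δ)).card ^ 2 := by
    rw [mul_sum, ← sum_add_distrib]
    refine sum_le_sum (fun Q _ => ?_)
    rw [← mul_assoc]
    exact two_mul_le_add_sq _ _
  omega

theorem cb_G (x : ι → E) (U : Finset ι) :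
    ∑ i ∈ U, (U.filter (fun j => cb_q x j - cb_q x i ∈ cb_Box)).card ≤
      729 * (U.card + ∑ i ∈ U, cN x i) := by
  have h1 : ∀ i ∈ U, (U.filter (fun j => cb_q x j - cb_q x i ∈ cb_Box)).card =
      ∑ δ ∈ cb_Box, (U.filter (fun j => cb_q x j = cb_q x i + δ)).card := by
    intro i _
    rw [card_eq_sum_card_fiberwise (f := fun j => cb_q x j - cb_q x i) (t := cb_Box)]
    · refine sum_congr rfl (fun δ hδ => ?_)
      rw [filter_filter]
      congr 1
      refine filter_congr (fun j _ => ?_)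
      constructor
      · rintro ⟨_, h⟩
        rw [← h]; abel
      · intro h
        have h' : cb_q x j - cb_q x i = δ := by rw [h]; abel
        exact ⟨by rw [h']; exact hδ, h'⟩
    · intro j hj
      exact (mem_filter.1 hj).2
  rw [sum_congr rfl h1, sum_comm]
  refine (sum_le_sum (fun δ _ => (cb_shift x U δ).trans (cb_P_le x U))).trans ?_
  rw [sum_const, cb_card, smul_eq_mul]

/-- bookkeeping of attractive bonds against repulsive pairs -/
theorem cubes (x : ι → E) (U : Finset ι)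
    (hcl : ∀ i ∈ U, ∀ j, j ≠ i → dist (x i) (x j) ≤ 1 → j ∈ U)
    (hU : ∀ i ∈ U, 1 ≤ dN x i → 1 ≤ bN x i ∨ 1 ≤ cN x i ∨ ∃ j, j ≠ i ∧ dist (x i) (x j) ≤ 1 ∧ 1 ≤ bN x j) :
    ∑ i ∈ U, dN x i ≤ 729 * 731 * ∑ i ∈ U, (bN x i + cN x i) := by
  classical
  set U' := U.filter (fun i => 1 ≤ dN x i) with hU'
  have hsub : U' ⊆ U := filter_subset _ _
  have e1 : ∑ i ∈ U, dN x i = ∑ i ∈ U', dN x i := by
    symm
    apply sum_subset hsub
    intro i hi hni
    rw [hU', mem_filter, not_and] at hni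
    have := hni hi
    omega
  have e2 : ∑ i ∈ U', dN x i ≤ ∑ i ∈ U', (U'.filter (fun j => cb_q x j - cb_q x i ∈ cb_Box)).card := by
    refine sum_le_sum (fun i hi => ?_)
    rw [cb_dN]
    apply Finset.card_le_card
    intro j hj
    rw [mem_filter, mem_erase] at hj
    have hiU : i ∈ U := hsub hi
    have hjU : j ∈ U := hcl i hiU j hj.1.1 hj.2
    rw [mem_filter]
    refine ⟨?_, cb_q_near hj.2⟩
    rw [hU', mem_filter]
    refine ⟨hjU, ?_⟩
    rw [cb_dN]
    apply card_pos.2
    refine ⟨i, ?_⟩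
    rw [mem_filter, mem_erase]
    exact ⟨⟨hj.1.1.symm, mem_univ _⟩, by rw [dist_comm]; exact hj.2⟩
  have e3 := cb_G x U'
  -- the exceptional set
  set Z := U'.filter (fun i => bN x i = 0 ∧ cN x i = 0) with hZ
  have e4 : U'.card ≤ ∑ i ∈ U', bN x i + ∑ i ∈ U', cN x i + Z.card := by
    have h1 : U'.card = ∑ i ∈ U', 1 := by simp
    have h2 : Z.card = ∑ i ∈ U', (if bN x i = 0 ∧ cN x i = 0 then 1 else 0) := by
      rw [hZ, card_filter]
    rw [h1, h2, ← sum_add_distrib, ← sum_add_distrib]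
    refine sum_le_sum (fun i _ => ?_)
    split_ifs with h
    · omega
    · have : ¬ (bN x i + cN x i = 0) := by omega
      omega
  have e5 : Z.card ≤ ∑ j ∈ U, 729 * bN x j := by
    set J := U.filter (fun j => 1 ≤ bN x j) with hJ
    set Sj : ι → Finset ι := fun j => Z.filter (fun i => j ≠ i ∧ dist (x i) (x j) ≤ 1) with hSj
    have h1 : Z ⊆ J.biUnion Sj := by
      intro i hi
      have hi' := hi
      rw [hZ, mem_filter, hU', mem_filter] at hi'
      obtain ⟨⟨hiU, hid⟩, hib, hic⟩ := hi'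
      rcases hU i hiU hid with h | h | ⟨j, hji, hd, hb⟩
      · omega
      · omega
      · rw [Finset.mem_biUnion]
        refine ⟨j, ?_, ?_⟩
        · rw [hJ, mem_filter]
          exact ⟨hcl i hiU j hji hd, hb⟩
        · rw [hSj, mem_filter]
          exact ⟨hi, hji, hd⟩
    have h2 : ∀ j, (Sj j).card ≤ 729 := by
      intro j
      rw [← cb_card]
      apply card_le_card_of_injOn (fun i => cb_q x i - cb_q x j)
      · intro i hi
        have hi' := (mem_filter.1 hi).2
        apply cb_q_near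
        rw [dist_comm]
        exact hi'.2
      · intro i hi i' hi' hEq
        have hq : cb_q x i = cb_q x i' := sub_left_injective hEq
        by_contra hne
        have hd := cb_q_eq hq
        have hiZ : i ∈ Z := (mem_filter.1 hi).1
        have hic : cN x i = 0 := (mem_filter.1 hiZ).2.2
        rw [cb_cN, card_eq_zero, filter_eq_empty_iff] at hic
        exact hic (mem_erase.2 ⟨fun h => hne h.symm, mem_univ i'⟩) hd
    calc Z.card ≤ (J.biUnion Sj).card := Finset.card_le_card h1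
      _ ≤ ∑ j ∈ J, (Sj j).card := card_biUnion_le
      _ ≤ ∑ j ∈ J, 729 * bN x j := by
          refine sum_le_sum (fun j hj => ?_)
          have hb : 1 ≤ bN x j := (mem_filter.1 hj).2
          have := h2 j
          omega
      _ ≤ ∑ j ∈ U, 729 * bN x j := sum_le_sum_of_subset (filter_subset _ _)
  have e6 : ∑ i ∈ U', bN x i ≤ ∑ i ∈ U, bN x i := sum_le_sum_of_subset hsub
  have e7 : ∑ i ∈ U', cN x i ≤ ∑ i ∈ U, cN x i := sum_le_sum_of_subset hsub
  rw [← mul_sum] at e5
  rw [sum_add_distrib]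
  have e8 := e2.trans e3
  rw [← e1] at e8
  omega

/-- in a clump of at least `2·729` particles there are many very close pairs -/
theorem clump_core (x : ι → E) (hx : ∀ i j, i ≠ j → dist (x i) (x j) < 1) (hn : 2 * 729 ≤ Fintype.card ι) :
    Fintype.card ι * Fintype.card ι ≤ 2 * 729 * ∑ i, cN x i := by
  classical
  have hne : Nonempty ι := Fintype.card_pos_iff.1 (by omega)
  obtain ⟨i0⟩ := hne
  have hmem : ∀ i, cb_q x i - cb_q x i0 ∈ cb_Box := by
    intro i
    apply cb_q_near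
    by_cases h : i0 = i
    · rw [h, dist_self]; norm_num
    · exact (hx _ _ h).le
  set f : (Fin 3 → ℤ) → ℕ := fun δ => (univ.filter (fun i => cb_q x i - cb_q x i0 = δ)).card with hf
  have h1 : Fintype.card ι = ∑ δ ∈ cb_Box, f δ := by
    rw [← card_univ, card_eq_sum_card_fiberwise (f := fun j => cb_q x j - cb_q x i0) (t := cb_Box)]
    intro i _
    exact hmem i
  have h2 : (∑ δ ∈ cb_Box, f δ) ^ 2 ≤ cb_Box.card * ∑ δ ∈ cb_Box, f δ ^ 2 :=
    sq_sum_le_card_mul_sum_sq
  have h3 : ∑ δ ∈ cb_Box, f δ ^ 2 = ∑ i : ι, (univ.filter (fun j => cb_q x j = cb_q x i)).card := by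
    have h4 : ∑ i : ι, (univ.filter (fun j => cb_q x j = cb_q x i)).card =
        ∑ i : ι, f (cb_q x i - cb_q x i0) := by
      refine sum_congr rfl (fun i _ => ?_)
      rw [hf]
      congr 1
      refine filter_congr (fun j _ => ?_)
      rw [sub_left_inj]
    rw [h4, Finset.sum_comp f (fun i => cb_q x i - cb_q x i0)]
    symm
    have h5 : Finset.image (fun i => cb_q x i - cb_q x i0) Finset.univ ⊆ cb_Box := by
      intro Q hQ
      obtain ⟨i, _, rfl⟩ := mem_image.1 hQ
      exact hmem i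
    rw [← sum_subset h5 (f := fun δ => f δ ^ 2)]
    · refine sum_congr rfl (fun Q _ => ?_)
      rw [smul_eq_mul, sq]
    · intro Q _ hQ
      have : f Q = 0 := by
        rw [hf]
        simp only
        rw [card_eq_zero, filter_eq_empty_iff]
        intro i _ hi
        exact hQ (mem_image.2 ⟨i, mem_univ _, hi⟩)
      rw [this]
      rfl
  have h6 := cb_P_le x univ
  rw [← h3] at h6
  rw [← h1, cb_card] at h2
  rw [card_univ] at h6
  have h7 : Fintype.card ι ^ 2 ≤ 729 * (Fintype.card ι + ∑ i, cN x i) :=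
    h2.trans (Nat.mul_le_mul_left _ h6)
  have h8 : 2 * 729 * Fintype.card ι ≤ Fintype.card ι * Fintype.card ι := Nat.mul_le_mul_right _ hn
  rw [sq] at h7
  omega

end cubes

end BG631.JC
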