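import Pool.Agent.H631.BG.Base

open MeasureTheory Filter Topology Set
open scoped ENNReal NNReal BigOperators

namespace BG631.JE

section scale
variable {ι : Type} [Fintype ι] [DecidableEq ι]

theorem kin_scale (c : ℝ) (Φ : (ι → E) → ℝ) (x : ι → E) :
    kin (fun x => c * Φ x) x = c ^ 2 * kin Φ x := by
  unfold kin
  rw [Finset.mul_sum]
  refine Finset.sum_congr rfl fun i _ => ?_
  rw [Finset.mul_sum]
  refine Finset.sum_congr rfl fun k _ => ?_
  have h : pd (fun x => c * Φ x) x i k = c * pd Φ x i k := by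
    unfold pd
    have h1 : (fun x => c * Φ x) = c • Φ := by funext y; simp [smul_eq_mul]
    rw [h1, fderiv_const_smul_field]
    simp [smul_eq_mul]
  rw [h, norm_mul, mul_pow, Real.norm_eq_abs, sq_abs]

theorem energy_scale (c μ : ℝ) (v : ℝ → ℝ) (Φ : (ι → E) → ℝ) :
    energy μ v (fun x => c * Φ x) = c ^ 2 * energy μ v Φ := by
  unfold energy
  rw [← integral_const_mul]
  refine integral_congr_ae (Filter.Eventually.of_forall fun x => ?_)
  show μ * kin (fun x => c * Φ x) x + pot v x * ‖c * Φ x‖ ^ 2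
    = c ^ 2 * (μ * kin Φ x + pot v x * ‖Φ x‖ ^ 2)
  rw [kin_scale, norm_mul, mul_pow, Real.norm_eq_abs c, sq_abs]
  ring

theorem isState_scale (c : ℝ) (v : ℝ → ℝ) (Φ : (ι → E) → ℝ) (h : IsState v Φ) :
    IsState v (fun x => c * Φ x) := by
  obtain ⟨C, hC⟩ := h.lip
  refine ⟨⟨‖c‖₊ * C, ?_⟩, ?_, ?_⟩
  · refine LipschitzWith.of_dist_le_mul fun x y => ?_
    rw [Real.dist_eq, ← mul_sub, abs_mul, ← Real.dist_eq]
    have := hC.dist_le_mul x y
    simp only [NNReal.coe_mul, coe_nnnorm, Real.norm_eq_abs]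
    rw [mul_assoc]
    exact mul_le_mul_of_nonneg_left this (abs_nonneg c)
  · exact h.cpt.mul_left
  · have h1 := h.int.const_mul (c ^ 2)
    refine h1.congr (Filter.Eventually.of_forall fun x => ?_)
    show c ^ 2 * (pot v x * ‖Φ x‖ ^ 2) = pot v x * ‖c * Φ x‖ ^ 2
    rw [norm_mul, mul_pow, Real.norm_eq_abs c, sq_abs]
    ring

theorem convex_box (L : ℝ) : Convex ℝ {x : ι → E | ∀ i, x i ∈ box L} := by
  intro x hx y hy a b ha hb hab i k
  have h1 := hx i k
  have h2 := hy i k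
  have e : (a • x + b • y) i k = a * x i k + b * y i k := by
    simp [smul_eq_mul]
  rw [e]
  constructor
  · rcases ha.eq_or_lt with h0 | h0
    · have : b = 1 := by linarith
      subst this
      rw [← h0]
      linarith [h2.1]
    · have := mul_pos h0 h1.1
      have := mul_nonneg hb h2.1.le
      linarith
  · rcases ha.eq_or_lt with h0 | h0
    · have : b = 1 := by linarith
      subst this
      rw [← h0]
      linarith [h2.2]
    · have h3 := mul_lt_mul_of_pos_left h1.2 h0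
      have h4 := mul_le_mul_of_nonneg_left h2.2.le hb
      calc a * x i k + b * y i k < a * L + b * L := by linarith
        _ = L := by rw [← add_mul, hab, one_mul]

theorem isOpen_box (L : ℝ) : IsOpen {x : ι → E | ∀ i, x i ∈ box L} := by
  have h : {x : ι → E | ∀ i, x i ∈ box L} = ⋂ i, ⋂ k, {x : ι → E | 0 < x i k ∧ x i k < L} := by
    ext x
    simp [box]
  rw [h]
  refine isOpen_iInter_of_finite fun i => isOpen_iInter_of_finite fun k => ?_
  have hc : Continuous fun x : ι → E => x i k := by fun_prop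
  exact (isOpen_lt continuous_const hc).inter (isOpen_lt hc continuous_const)

theorem kin_ae_zero (L : ℝ) (ψ : (ι → E) → ℂ) (h : ∀ x, ψ x ≠ 0 → ∀ i, x i ∈ box L) :
    ∀ᵐ x : ι → E, x ∉ {x : ι → E | ∀ i, x i ∈ box L} → kin ψ x = 0 := by
  have h1 : ∀ᵐ x : ι → E, x ∉ frontier {x : ι → E | ∀ i, x i ∈ box L} :=
    measure_eq_zero_iff_ae_notMem.mp ((convex_box L).addHaar_frontier volume)
  filter_upwards [h1] with x hx hxS
  have h2 : x ∉ closure {x : ι → E | ∀ i, x i ∈ box L} := by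
    intro h3
    apply hx
    rw [frontier, (isOpen_box L).interior_eq]
    exact ⟨h3, hxS⟩
  have h3 : ψ =ᶠ[𝓝 x] fun _ => 0 := by
    have : (closure {x : ι → E | ∀ i, x i ∈ box L})ᶜ ∈ 𝓝 x :=
      isClosed_closure.isOpen_compl.mem_nhds h2
    filter_upwards [this] with y hy
    by_contra hne
    exact hy (subset_closure (h y hne))
  have h4 : fderiv ℝ ψ x = 0 := by
    rw [h3.fderiv_eq]
    simp
  unfold kin pd
  rw [h4]
  simp

theorem pot_ge (v : ℝ → ℝ) (b : ℝ) (hb : ∀ r, -b ≤ v r) (x : ι → E) :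
    -(|b| * (Fintype.card ι) ^ 2) ≤ pot v x := by
  unfold pot
  have hin : ∀ i : ι, -(|b| * (Fintype.card ι)) ≤ ∑ j ∈ Finset.univ.erase i, v (dist (x i) (x j)) := by
    intro i
    have h1 : ∑ j ∈ Finset.univ.erase i, (-|b|) ≤ ∑ j ∈ Finset.univ.erase i, v (dist (x i) (x j)) :=
      Finset.sum_le_sum fun j _ => (neg_le_neg (le_abs_self b)).trans (hb _)
    refine le_trans ?_ h1
    rw [Finset.sum_const, nsmul_eq_mul]
    have h2 : ((Finset.univ.erase i).card : ℝ) ≤ (Fintype.card ι : ℝ) := by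
      exact_mod_cast Finset.card_le_univ _
    have h3 := mul_le_mul_of_nonneg_right h2 (abs_nonneg b)
    linarith
  have h4 : ∑ i : ι, (-(|b| * (Fintype.card ι))) ≤ ∑ i, ∑ j ∈ Finset.univ.erase i, v (dist (x i) (x j)) :=
    Finset.sum_le_sum fun i _ => hin i
  rw [Finset.sum_const, nsmul_eq_mul, Finset.card_univ] at h4
  have h5 : 0 ≤ |b| * (Fintype.card ι : ℝ) ^ 2 := by positivity
  nlinarith

theorem kin_nonneg (ψ : (ι → E) → ℂ) (x : ι → E) : 0 ≤ kin ψ x := by
  unfold kin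
  positivity

end scale

theorem bddBelow_neu (N : ℕ) (μ : ℝ) (hμ : 0 ≤ μ) (v : ℝ → ℝ) (b : ℝ) (hb : ∀ r, -b ≤ v r) (L : ℝ) :
    BddBelow (NeuEnergies μ v N L) := by
  have hpotge : ∀ x : Fin N → E, -(|b| * (N : ℝ) ^ 2) ≤ pot v x := by
    intro x
    have := pot_ge v b hb x
    rwa [Fintype.card_fin] at this
  have hM : 0 ≤ |b| * (N : ℝ) ^ 2 := by positivity
  refine ⟨-(|b| * (N : ℝ) ^ 2), ?_⟩
  rintro e ⟨ψ, ⟨hlip, -, hint, hnorm⟩, rfl⟩
  by_cases hI : IntegrableOn (fun x => μ * kin ψ x + pot v x * ‖ψ x‖ ^ 2)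
    {x : Fin N → E | ∀ i, x i ∈ box L}
  · have h1 : Integrable (fun x => ‖ψ x‖ ^ 2)
        (volume.restrict {x : Fin N → E | ∀ i, x i ∈ box L}) := by
      apply Integrable.of_integral_ne_zero
      rw [hnorm]
      exact one_ne_zero
    have h2 : ∫ x in {x : Fin N → E | ∀ i, x i ∈ box L}, -(|b| * (N : ℝ) ^ 2) * ‖ψ x‖ ^ 2
        ≤ ∫ x in {x : Fin N → E | ∀ i, x i ∈ box L}, (μ * kin ψ x + pot v x * ‖ψ x‖ ^ 2) := by
      refine integral_mono (h1.const_mul _) hI fun x => ?_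
      show -(|b| * (N : ℝ) ^ 2) * ‖ψ x‖ ^ 2 ≤ μ * kin ψ x + pot v x * ‖ψ x‖ ^ 2
      have h3 := mul_nonneg hμ (kin_nonneg ψ x)
      have h4 := mul_le_mul_of_nonneg_right (hpotge x) (sq_nonneg ‖ψ x‖)
      linarith
    rw [integral_const_mul, hnorm, mul_one] at h2
    exact h2
  · have h1 : ∫ x in {x : Fin N → E | ∀ i, x i ∈ box L}, (μ * kin ψ x + pot v x * ‖ψ x‖ ^ 2) = 0 :=
      integral_undef hI
    rw [h1]
    linarith

theorem dir_subset_neu (N : ℕ) (μ : ℝ) (v : ℝ → ℝ) (L : ℝ) : DirEnergies μ v N L ⊆ NeuEnergies μ v N L := by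
  rintro e ⟨ψ, ⟨h1, h2, h3, h4⟩, rfl⟩
  refine ⟨ψ, ⟨h1.lip, h2, h1.int.integrableOn, ?_⟩, ?_⟩
  · rw [setIntegral_eq_integral_of_forall_compl_eq_zero, h4]
    intro x hx
    have : ψ x = 0 := by
      by_contra hne'
      exact hx (h3 x hne')
    rw [this]
    simp
  · unfold energy
    rw [setIntegral_eq_integral_of_ae_compl_eq_zero]
    filter_upwards [kin_ae_zero L ψ h3] with x hx hxS
    have : ψ x = 0 := by
      by_contra hne'
      exact hxS (h3 x hne')
    rw [hx hxS, this]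
    simp

/-- the Neumann energy is at most the Dirichlet energy -/
theorem E0N_le_E0 (N : ℕ) (μ : ℝ) (hμ : 0 ≤ μ) (v : ℝ → ℝ) (b : ℝ) (hb : ∀ r, -b ≤ v r) (L : ℝ)
    (hne : (DirEnergies μ v N L).Nonempty) :
    E0N μ v N L ≤ E0 μ v N L :=
  csInf_le_csInf (bddBelow_neu N μ hμ v b hb L) hne (dir_subset_neu N μ v L)

end BG631.JE
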