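import Pool.Agent.H631.BG.Base

open MeasureTheory Filter Topology Set
open scoped ENNReal NNReal BigOperators

namespace BG631.JG

section aux
variable {n : ℕ}

theorem cm_add (x y : Fin n → E) : cm (x + y) = cm x + cm y := by
  simp [cm, Finset.sum_add_distrib, smul_add]

theorem cm_smul (c : ℝ) (x : Fin n → E) : cm (c • x) = c • cm x := by
  simp only [cm, Pi.smul_apply, ← Finset.smul_sum]
  rw [smul_comm]

theorem cm_const (hn : 1 ≤ n) (s : E) : cm (fun _ : Fin n => s) = s := by
  have h0 : (n : ℝ) ≠ 0 := by exact_mod_cast (by omega : n ≠ 0)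
  simp only [cm, Finset.sum_const, Finset.card_univ, Fintype.card_fin]
  rw [← Nat.cast_smul_eq_nsmul ℝ, smul_smul, inv_mul_cancel₀ h0, one_smul]

/-- shifted configuration with centre of mass `t` -/
noncomputable def sh (t : E) (x : Fin n → E) : Fin n → E := fun i => x i - cm x + t

theorem cm_sh (hn : 1 ≤ n) (t : E) (x : Fin n → E) : cm (sh t x) = t := by
  have h : sh t x = x + fun _ => (t - cm x) := by
    funext i
    simp only [sh, Pi.add_apply]
    abel
  rw [h, cm_add, cm_const hn]
  abel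

variable (n) in
/-- the measure preserving involution -/
noncomputable def Psi : (E × (Fin n → E)) →ₗ[ℝ] (E × (Fin n → E)) where
  toFun p := (cm p.2, sh p.1 p.2)
  map_add' p q := by
    refine Prod.ext ?_ ?_
    · show cm (p.2 + q.2) = cm p.2 + cm q.2
      exact cm_add _ _
    · funext i
      show (p.2 + q.2) i - cm (p.2 + q.2) + (p.1 + q.1) = (p.2 i - cm p.2 + p.1) + (q.2 i - cm q.2 + q.1)
      rw [cm_add, Pi.add_apply]
      abel
  map_smul' c p := by
    refine Prod.ext ?_ ?_
    · show cm (c • p.2) = c • cm p.2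
      exact cm_smul _ _
    · funext i
      show (c • p.2) i - cm (c • p.2) + (c • p.1) = c • (p.2 i - cm p.2 + p.1)
      rw [cm_smul, Pi.smul_apply]
      simp only [smul_add, smul_sub]

theorem Psi_apply (p : E × (Fin n → E)) : Psi n p = (cm p.2, sh p.1 p.2) := rfl

theorem Psi_Psi (hn : 1 ≤ n) (p : E × (Fin n → E)) : Psi n (Psi n p) = p := by
  rw [Psi_apply, Psi_apply]
  refine Prod.ext ?_ ?_
  · exact cm_sh hn _ _
  · funext i
    show sh p.1 p.2 i - cm (sh p.1 p.2) + cm p.2 = p.2 i
    rw [cm_sh hn]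
    simp only [sh]
    abel

theorem det_Psi (hn : 1 ≤ n) : |(LinearMap.det (Psi n))⁻¹| = 1 ∧ LinearMap.det (Psi n) ≠ 0 := by
  have h1 : (Psi n) ∘ₗ (Psi n) = LinearMap.id := by
    apply LinearMap.ext
    intro p
    exact Psi_Psi hn p
  have h2 : LinearMap.det (Psi n) * LinearMap.det (Psi n) = 1 := by
    rw [← LinearMap.det_comp, h1, LinearMap.det_id]
  constructor
  · rw [abs_inv]
    have h3 : |LinearMap.det (Psi n)| = 1 := by
      rcases mul_self_eq_one_iff.1 h2 with h | h <;> simp [h]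
    rw [h3, inv_one]
  · intro h
    rw [h] at h2
    simp at h2

theorem map_Psi (hn : 1 ≤ n) :
    Measure.map (Psi n) ((volume : Measure E).prod (volume : Measure (Fin n → E))) =
      (volume : Measure E).prod (volume : Measure (Fin n → E)) := by
  have : ((volume : Measure E).prod (volume : Measure (Fin n → E))).IsAddHaarMeasure :=
    Measure.prod.instIsAddHaarMeasure _ _
  have h := Measure.map_linearMap_addHaar_eq_smul_addHaar
    ((volume : Measure E).prod (volume : Measure (Fin n → E))) (det_Psi hn).2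
  rw [h, (det_Psi hn).1]
  simp

theorem meas_Psi : Measurable (Psi n) := (LinearMap.continuous_of_finiteDimensional (Psi n)).measurable

theorem mp_Psi (hn : 1 ≤ n) : MeasurePreserving (Psi n)
    ((volume : Measure E).prod (volume : Measure (Fin n → E)))
    ((volume : Measure E).prod (volume : Measure (Fin n → E))) := ⟨meas_Psi, map_Psi hn⟩

theorem Q1_eq : Q1 = (@WithLp.ofLp 2 (Fin 3 → ℝ)) ⁻¹' (Set.pi univ fun _ => Ico (0 : ℝ) 1) := by
  ext y
  simp [Q1, Set.mem_pi]

theorem meas_Q1 : MeasurableSet Q1 := by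
  rw [Q1_eq]
  exact (PiLp.volume_preserving_ofLp (Fin 3)).measurable
    (MeasurableSet.univ_pi fun _ => measurableSet_Ico)

theorem vol_Q1 : volume Q1 = 1 := by
  rw [Q1_eq, (PiLp.volume_preserving_ofLp (Fin 3)).measure_preimage
    (MeasurableSet.univ_pi fun _ => measurableSet_Ico).nullMeasurableSet]
  rw [Real.volume_pi_Ico]
  simp

/-- relative part, linear -/
noncomputable def relL (n : ℕ) : (Fin n → E) →L[ℝ] (Fin n → E) :=
  ContinuousLinearMap.pi fun i => ContinuousLinearMap.proj i -
    (n : ℝ)⁻¹ • ∑ j, ContinuousLinearMap.proj (R := ℝ) (φ := fun _ : Fin n => E) j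

theorem relL_apply (x : Fin n → E) (i : Fin n) : relL n x i = x i - cm x := by
  simp [relL, cm]

theorem sh_eq (t : E) (x : Fin n → E) : sh t x = relL n x + fun _ => t := by
  funext i
  simp [sh, relL_apply]

theorem relL_single (i : Fin n) (v : E) :
    relL n (Pi.single i v) = Pi.single i v - (n : ℝ)⁻¹ • ∑ j, Pi.single (M := fun _ : Fin n => E) j v := by
  funext k
  rw [relL_apply]
  simp only [cm, Pi.sub_apply, Pi.smul_apply, Finset.sum_apply]
  congr 2
  rw [Finset.sum_pi_single', Finset.sum_pi_single]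
  simp

theorem pd_sh (g : (Fin n → E) → ℝ) (t : E) (x : Fin n → E) (hd : DifferentiableAt ℝ g (sh t x))
    (i : Fin n) (k : Fin 3) :
    pd (fun x => g (sh t x)) x i k = pd g (sh t x) i k - (n : ℝ)⁻¹ * ∑ j, pd g (sh t x) j k := by
  have h1 : HasFDerivAt (fun x : Fin n → E => sh t x) (relL n) x := by
    have h2 : (fun x : Fin n → E => sh t x) = fun x => relL n x + fun _ => t := by
      funext x
      exact sh_eq t x
    rw [h2]
    exact (relL n).hasFDerivAt.add_const _
  have h3 : HasFDerivAt (fun x => g (sh t x)) ((fderiv ℝ g (sh t x)).comp (relL n)) x :=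
    hd.hasFDerivAt.comp x h1
  unfold pd
  rw [h3.fderiv, ContinuousLinearMap.comp_apply, relL_single, map_sub, map_smul, map_sum, smul_eq_mul]

theorem kin_sh_le (hn : 1 ≤ n) (g : (Fin n → E) → ℝ) (t : E) (x : Fin n → E)
    (hd : DifferentiableAt ℝ g (sh t x)) : kin (fun x => g (sh t x)) x ≤ kin g (sh t x) := by
  unfold kin
  rw [Finset.sum_comm, Finset.sum_comm (f := fun i k => ‖pd g (sh t x) i k‖ ^ 2)]
  refine Finset.sum_le_sum fun k _ => ?_
  simp only [Real.norm_eq_abs, sq_abs]
  have hn0 : (n : ℝ) ≠ 0 := by exact_mod_cast (by omega : n ≠ 0)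
  obtain ⟨m, hm⟩ : ∃ m, m = (n : ℝ)⁻¹ * ∑ j, pd g (sh t x) j k := ⟨_, rfl⟩
  have hs : ∑ j, pd g (sh t x) j k = n * m := by
    rw [hm]
    field_simp
  have h1 : ∀ i : Fin n, (pd (fun x => g (sh t x)) x i k) ^ 2 =
      (pd g (sh t x) i k) ^ 2 - 2 * m * pd g (sh t x) i k + m ^ 2 := by
    intro i
    rw [pd_sh g t x hd i k, ← hm]
    ring
  rw [Finset.sum_congr rfl fun i _ => h1 i, Finset.sum_add_distrib, Finset.sum_sub_distrib,
    ← Finset.mul_sum, hs]
  simp only [Finset.sum_const, Finset.card_univ, Fintype.card_fin, nsmul_eq_mul]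
  have : 0 ≤ (n : ℝ) * m ^ 2 := by positivity
  nlinarith [this]

theorem dist_sh (t : E) (x : Fin n → E) (i j : Fin n) : dist (sh t x i) (sh t x j) = dist (x i) (x j) := by
  simp only [sh, dist_eq_norm]
  congr 1
  abel

theorem pot_sh (v : ℝ → ℝ) (t : E) (x : Fin n → E) : pot v (sh t x) = pot v x := by
  simp only [pot, dist_sh]

theorem clump_sh (t : E) (x : Fin n → E) : clump (sh t x) ↔ clump x := by
  simp only [clump, dist_sh]


theorem kin_nonneg (φ : (Fin n → E) → ℝ) (x : Fin n → E) : 0 ≤ kin φ x := by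
  unfold kin
  positivity

theorem kin_bdd {C : ℝ≥0} {φ : (Fin n → E) → ℝ} (h : LipschitzWith C φ) :
    ∃ M, 0 ≤ M ∧ ∀ x, kin φ x ≤ M := by
  refine ⟨∑ i : Fin n, ∑ k : Fin 3,
    (C * ‖(Pi.single i (EuclideanSpace.single k (1 : ℝ)) : Fin n → E)‖) ^ 2, by positivity, fun x => ?_⟩
  unfold kin
  refine Finset.sum_le_sum fun i _ => Finset.sum_le_sum fun k _ => ?_
  apply pow_le_pow_left₀ (norm_nonneg _)
  unfold pd
  refine (ContinuousLinearMap.le_opNorm _ _).trans ?_
  gcongr
  exact norm_fderiv_le_of_lipschitz ℝ h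

theorem kin_meas (φ : (Fin n → E) → ℝ) : Measurable (kin φ) := by
  unfold kin pd
  refine Finset.measurable_sum _ fun i _ => Finset.measurable_sum _ fun k _ => ?_
  exact (measurable_fderiv_apply_const ℝ φ _).norm.pow_const 2

theorem pot_meas (K lam : ℝ) : Measurable (fun x : Fin n → E => pot (Vin K lam) x) := by
  have hV : Measurable (Vin K lam) := by
    unfold Vin
    exact Measurable.ite measurableSet_Iio measurable_const measurable_const
  unfold pot
  refine Measurable.const_mul (Finset.measurable_sum _ fun i _ =>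
    Finset.measurable_sum _ fun j _ => ?_) _
  exact hV.comp ((measurable_pi_apply i).dist (measurable_pi_apply j))

theorem pot_bdd (K lam : ℝ) : ∃ P, 0 ≤ P ∧ ∀ x : Fin n → E, |pot (Vin K lam) x| ≤ P := by
  refine ⟨(1 / 2) * ∑ i : Fin n, ∑ j ∈ Finset.univ.erase i, (|K| + |lam|), by positivity, fun x => ?_⟩
  unfold pot
  rw [abs_mul, abs_of_pos (by norm_num : (0 : ℝ) < 1 / 2)]
  gcongr
  refine (Finset.abs_sum_le_sum_abs _ _).trans (Finset.sum_le_sum fun i _ => ?_)
  refine (Finset.abs_sum_le_sum_abs _ _).trans (Finset.sum_le_sum fun j _ => ?_)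
  unfold Vin
  split_ifs
  · have := abs_nonneg lam
    linarith
  · rw [abs_neg]
    have := abs_nonneg K
    linarith

theorem kin_supp (φ : (Fin n → E) → ℝ) (hcl : ∀ x, φ x ≠ 0 → clump x) (x : Fin n → E)
    (h : kin φ x ≠ 0) : ∀ i j, dist (x i) (x j) ≤ 1 := by
  have hclosed : IsClosed {x : Fin n → E | ∀ i j, dist (x i) (x j) ≤ 1} := by
    simp only [Set.ofPred_forall]
    refine isClosed_iInter fun i => isClosed_iInter fun j => ?_
    exact isClosed_le (by fun_prop) continuous_const
  have hsub : tsupport φ ⊆ {x : Fin n → E | ∀ i j, dist (x i) (x j) ≤ 1} := by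
    apply closure_minimal _ hclosed
    intro y hy i j
    by_cases hij : i = j
    · subst hij
      simp
    · exact (hcl y hy i j hij).le
  by_contra hne
  have hx : x ∉ tsupport φ := fun hx => hne (hsub hx)
  apply h
  unfold kin pd
  simp [fderiv_of_notMem_tsupport ℝ hx]

theorem norm_Q1 {y : E} (hy : y ∈ Q1) : ‖y‖ ≤ 2 := by
  rw [EuclideanSpace.norm_eq, Fin.sum_univ_three]
  rw [show (2 : ℝ) = √4 by rw [show (4 : ℝ) = 2 ^ 2 by norm_num, Real.sqrt_sq (by norm_num)]]
  apply Real.sqrt_le_sqrt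
  simp only [Real.norm_eq_abs, sq_abs]
  have h0 := hy 0
  have h1 := hy 1
  have h2 := hy 2
  nlinarith [h0.1, h0.2, h1.1, h1.2, h2.1, h2.2]

theorem norm_le_three (hn : 1 ≤ n) {x : Fin n → E} (h : ∀ i j, dist (x i) (x j) ≤ 1)
    (hq : cm x ∈ Q1) : ‖x‖ ≤ 3 := by
  rw [pi_norm_le_iff_of_nonneg (by norm_num)]
  intro i
  have hn0 : (0 : ℝ) < n := by exact_mod_cast hn
  have h1 : x i - cm x = (n : ℝ)⁻¹ • ∑ j, (x i - x j) := by
    rw [Finset.sum_sub_distrib, smul_sub]
    have := cm_const hn (x i)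
    unfold cm at this ⊢
    rw [this]
  have h2 : ‖x i - cm x‖ ≤ 1 := by
    rw [h1, norm_smul, norm_inv, Real.norm_of_nonneg hn0.le]
    have h3 : ‖∑ j, (x i - x j)‖ ≤ n := by
      refine (norm_sum_le _ _).trans ?_
      refine (Finset.sum_le_sum (g := fun _ => (1 : ℝ)) fun j _ => ?_).trans ?_
      · rw [← dist_eq_norm]
        exact h i j
      · simp
    rw [inv_mul_le_iff₀ hn0]
    linarith
  calc ‖x i‖ = ‖(x i - cm x) + cm x‖ := by rw [sub_add_cancel]
    _ ≤ ‖x i - cm x‖ + ‖cm x‖ := norm_add_le _ _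
    _ ≤ 1 + 2 := add_le_add h2 (norm_Q1 hq)
    _ = 3 := by norm_num

theorem cm_meas : Measurable (fun x : Fin n → E => cm x) := by
  unfold cm
  have : Continuous (fun x : Fin n → E => (n : ℝ)⁻¹ • ∑ i, x i) := by fun_prop
  exact this.measurable

theorem meas_S : MeasurableSet {x : Fin n → E | cm x ∈ Q1} := cm_meas meas_Q1

theorem rel_integrable (hn : 1 ≤ n) (h : (Fin n → E) → ℝ) (hm : Measurable h) (M : ℝ)
    (hM : ∀ x, |h x| ≤ M) (hz : ∀ x, h x ≠ 0 → ∀ i j, dist (x i) (x j) ≤ 1) :
    IntegrableOn h {x | cm x ∈ Q1} := by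
  have h1 : IntegrableOn h (Metric.closedBall 0 3) :=
    IntegrableOn.of_bound (isCompact_closedBall _ _).measure_lt_top hm.aestronglyMeasurable M
      (ae_of_all _ hM)
  refine IntegrableOn.of_forall_sdiff_eq_zero h1 meas_S ?_
  intro x hx
  by_contra hne
  apply hx.2
  rw [mem_closedBall_zero_iff]
  exact norm_le_three hn (hz x hne) hx.1

theorem integrable_aux (h : (Fin n → E) → ℝ) (hm : Measurable h) (M : ℝ) (hM : ∀ x, |h x| ≤ M)
    (S : Set (Fin n → E)) (hS : IsCompact S) (hz : ∀ x, x ∉ S → h x = 0) : Integrable h := by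
  rw [← integrableOn_iff_integrable_of_support_subset (s := S)]
  · exact IntegrableOn.of_bound hS.measure_lt_top hm.aestronglyMeasurable M (ae_of_all _ hM)
  · intro x hx
    by_contra hc
    exact hx (hz x hc)

end aux

/-- passage to a translation invariant (internal) wave function -/
theorem internal (n : ℕ) (hn : 1 ≤ n) (μ K lam ε : ℝ) (hμ : 0 ≤ μ)
    (g : (Fin n → E) → ℝ) (hlip : ∃ C : ℝ≥0, LipschitzWith C g) (hcpt : HasCompactSupport g)
    (hcl : ∀ x, g x ≠ 0 → clump x) (hen : energy μ (Vin K lam) g < ε * ∫ x, ‖g x‖ ^ 2) :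
    ∃ φ : (Fin n → E) → ℝ, (∃ C : ℝ≥0, LipschitzWith C φ) ∧ (∃ b, ∀ x, |φ x| ≤ b) ∧
      (∀ x (s : E), φ (fun i => x i + s) = φ x) ∧ (∀ x, φ x ≠ 0 → clump x) ∧
      0 < relInt (fun x => ‖φ x‖ ^ 2) ∧
      relInt (fun x => μ * kin φ x + pot (Vin K lam) x * ‖φ x‖ ^ 2) < ε * relInt (fun x => ‖φ x‖ ^ 2) := by
  classical
  obtain ⟨C, hC⟩ := hlip
  obtain ⟨M, hM0, hM⟩ := kin_bdd hC
  obtain ⟨P, hP0, hP⟩ := pot_bdd (n := n) K lam
  obtain ⟨b, hb⟩ : ∃ b, ∀ x, |g x| ≤ b := by
    obtain ⟨b, hb⟩ := hC.continuous.bounded_above_of_compact_support hcpt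
    exact ⟨b, hb⟩
  have hb0 : 0 ≤ b := (abs_nonneg _).trans (hb 0)
  have hgm : Measurable g := hC.continuous.measurable
  -- integrability of the two parts
  have hsq : ∀ x, ‖g x‖ ^ 2 ≤ b ^ 2 := fun x => pow_le_pow_left₀ (norm_nonneg _) (hb x) 2
  have hbound : ∀ a c p : ℝ, 0 ≤ a → a ≤ M → 0 ≤ c → c ≤ b ^ 2 → |p| ≤ P →
      |μ * a + p * c| ≤ μ * M + P * b ^ 2 := by
    intro a c p ha haM hc hcb hp
    refine (abs_add_le _ _).trans (add_le_add ?_ ?_)
    · rw [abs_of_nonneg (mul_nonneg hμ ha)]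
      exact mul_le_mul_of_nonneg_left haM hμ
    · rw [abs_mul, abs_of_nonneg hc]
      exact mul_le_mul hp hcb hc hP0
  have hkinz : ∀ x, x ∉ tsupport g → kin g x = 0 := by
    intro x hx
    unfold kin pd
    simp [fderiv_of_notMem_tsupport ℝ hx]
  have hgz : ∀ x, x ∉ tsupport g → g x = 0 := fun x hx => image_eq_zero_of_notMem_tsupport hx
  have hi1 : Integrable (fun y => μ * kin g y + pot (Vin K lam) y * ‖g y‖ ^ 2) := by
    refine integrable_aux _ ?_ (μ * M + P * b ^ 2) ?_ (tsupport g) hcpt ?_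
    · exact ((kin_meas g).const_mul μ).add ((pot_meas K lam).mul (hgm.norm.pow_const 2))
    · intro x
      exact hbound _ _ _ (kin_nonneg _ _) (hM x) (by positivity) (hsq x) (hP x)
    · intro x hx
      rw [hkinz x hx, hgz x hx]
      simp
  have hi2 : Integrable (fun y => ‖g y‖ ^ 2) := by
    refine integrable_aux _ (hgm.norm.pow_const 2) (b ^ 2) ?_ (tsupport g) hcpt ?_
    · intro x
      rw [abs_of_nonneg (by positivity)]
      exact hsq x
    · intro x hx
      rw [hgz x hx]
      simp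
  let D : (Fin n → E) → ℝ := fun y => (μ * kin g y + pot (Vin K lam) y * ‖g y‖ ^ 2) - ε * ‖g y‖ ^ 2
  have hD : Integrable D := hi1.sub (hi2.const_mul ε)
  have hDneg : ∫ y, D y < 0 := by
    have : ∫ y, D y = energy μ (Vin K lam) g - ε * ∫ x, ‖g x‖ ^ 2 := by
      rw [integral_sub hi1 (hi2.const_mul ε), integral_const_mul]
      rfl
    rw [this]
    linarith
  let q : E → ℝ := Q1.indicator fun _ => (1 : ℝ)
  have hq : Integrable q := by
    rw [integrable_indicator_iff meas_Q1]
    exact integrableOn_const (by rw [vol_Q1]; simp) (by simp)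
  have hqi : ∫ s, q s = 1 := by
    rw [integral_indicator meas_Q1, setIntegral_const]
    simp [Measure.real, vol_Q1]
  let F : E × (Fin n → E) → ℝ := fun p => q p.1 * D p.2
  have hF : Integrable F ((volume : Measure E).prod volume) := Integrable.mul_prod hq hD
  have hFi : ∫ p, F p ∂((volume : Measure E).prod volume) = ∫ y, D y := by
    have := integral_prod_mul (μ := (volume : Measure E)) (ν := (volume : Measure (Fin n → E))) q D
    rw [hqi, one_mul] at this
    exact this
  have hFP : Integrable (fun p => F (Psi n p)) ((volume : Measure E).prod volume) := by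
    have h : Integrable F (Measure.map (Psi n)
        ((volume : Measure E).prod (volume : Measure (Fin n → E)))) := by
      rw [map_Psi hn]
      exact hF
    exact h.comp_measurable meas_Psi
  have hFPi : ∫ p, F (Psi n p) ∂((volume : Measure E).prod volume) = ∫ y, D y := by
    rw [← hFi]
    have h := integral_map (μ := (volume : Measure E).prod (volume : Measure (Fin n → E)))
      (φ := Psi n) meas_Psi.aemeasurable (f := F) (by rw [map_Psi hn]; exact hF.aestronglyMeasurable)
    rw [map_Psi hn] at h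
    exact h.symm
  rw [integral_prod _ hFP] at hFPi
  have hint := hFP.prod_right_ae
  have hdiff : ∀ᵐ t : E, ∀ᵐ x : Fin n → E, DifferentiableAt ℝ g (sh t x) := by
    have h1 : ∀ᵐ y : Fin n → E, DifferentiableAt ℝ g y := hC.ae_differentiableAt
    have h2 : ∀ᵐ p ∂((volume : Measure E).prod (volume : Measure (Fin n → E))),
        DifferentiableAt ℝ g p.2 := Measure.quasiMeasurePreserving_snd.ae h1
    have h3 : ∀ᵐ p ∂((volume : Measure E).prod (volume : Measure (Fin n → E))),
        DifferentiableAt ℝ g (Psi n p).2 := (mp_Psi hn).quasiMeasurePreserving.ae h2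
    exact Measure.ae_ae_of_ae_prod h3
  -- the functions φ_t
  have hlipt : ∀ t : E, ∃ C : ℝ≥0, LipschitzWith C (fun x : Fin n → E => g (sh t x)) := by
    intro t
    refine ⟨C * (‖relL n‖₊ + 0), ?_⟩
    refine hC.comp ?_
    have h2 : (fun x : Fin n → E => sh t x) = fun x => relL n x + fun _ => t := by
      funext x
      exact sh_eq t x
    show LipschitzWith _ (fun x : Fin n → E => sh t x)
    rw [h2]
    exact (relL n).lipschitz.add (LipschitzWith.const _)
  have hclt : ∀ (t : E) (x : Fin n → E), g (sh t x) ≠ 0 → clump x := fun t x h =>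
    (clump_sh t x).1 (hcl _ h)
  have hdistt : ∀ (t : E) (x : Fin n → E), g (sh t x) ≠ 0 → ∀ i j, dist (x i) (x j) ≤ 1 := by
    intro t x h i j
    by_cases hij : i = j
    · subst hij
      simp
    · exact (hclt t x h i j hij).le
  have hj2 : ∀ t : E, IntegrableOn (fun x : Fin n → E => ‖g (sh t x)‖ ^ 2) {x | cm x ∈ Q1} := by
    intro t
    obtain ⟨Ct, hCt⟩ := hlipt t
    refine rel_integrable hn _ (hCt.continuous.measurable.norm.pow_const 2) (b ^ 2) ?_ ?_
    · intro x
      rw [abs_of_nonneg (by positivity)]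
      exact hsq _
    · intro x hx
      apply hdistt t x
      intro h0
      apply hx
      simp [h0]
  have hj1 : ∀ t : E, IntegrableOn (fun x : Fin n → E => μ * kin (fun x => g (sh t x)) x +
      pot (Vin K lam) x * ‖g (sh t x)‖ ^ 2) {x | cm x ∈ Q1} := by
    intro t
    obtain ⟨Ct, hCt⟩ := hlipt t
    obtain ⟨Mt, hMt0, hMt⟩ := kin_bdd hCt
    refine rel_integrable hn _ ?_ (μ * Mt + P * b ^ 2) ?_ ?_
    · exact ((kin_meas _).const_mul μ).add
        ((pot_meas K lam).mul (hCt.continuous.measurable.norm.pow_const 2))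
    · intro x
      refine (abs_add_le _ _).trans (add_le_add ?_ ?_)
      · rw [abs_of_nonneg (mul_nonneg hμ (kin_nonneg _ _))]
        exact mul_le_mul_of_nonneg_left (hMt x) hμ
      · rw [abs_mul, abs_of_nonneg (by positivity : (0 : ℝ) ≤ ‖g (sh t x)‖ ^ 2)]
        exact mul_le_mul (hP x) (hsq _) (by positivity) hP0
    · intro x hx
      by_cases hg0 : g (sh t x) = 0
      · apply kin_supp (fun x => g (sh t x)) (hclt t) x
        intro hk
        apply hx
        rw [hk, hg0]
        simp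
      · exact hdistt t x hg0
  have hA : ∃ t : E, relInt (fun x => μ * kin (fun x => g (sh t x)) x +
      pot (Vin K lam) x * ‖g (sh t x)‖ ^ 2) - ε * relInt (fun x : Fin n → E => ‖g (sh t x)‖ ^ 2) < 0 := by
    by_contra hne
    push Not at hne
    have h1 : ∀ᵐ t : E, 0 ≤ ∫ x, F (Psi n (t, x)) := by
      filter_upwards [hint, hdiff] with t hit hdt
      refine (hne t).trans ?_
      unfold relInt
      rw [← integral_const_mul, ← integral_sub (hj1 t) ((hj2 t).const_mul ε),
        ← integral_indicator meas_S]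
      refine integral_mono_ae ?_ hit ?_
      · rw [integrable_indicator_iff meas_S]
        exact (hj1 t).sub ((hj2 t).const_mul ε)
      · filter_upwards [hdt] with x hx
        show _ ≤ q (cm x) * D (sh t x)
        by_cases hxS : cm x ∈ Q1
        · have hxS' : x ∈ {x : Fin n → E | cm x ∈ Q1} := hxS
          rw [Set.indicator_of_mem hxS']
          have hq1 : q (cm x) = 1 := Set.indicator_of_mem hxS _
          rw [hq1, one_mul]
          show _ ≤ (μ * kin g (sh t x) + pot (Vin K lam) (sh t x) * ‖g (sh t x)‖ ^ 2) - ε * ‖g (sh t x)‖ ^ 2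
          rw [pot_sh]
          have := mul_le_mul_of_nonneg_left (kin_sh_le hn g t x hx) hμ
          linarith
        · have hxS' : x ∉ {x : Fin n → E | cm x ∈ Q1} := hxS
          rw [Set.indicator_of_notMem hxS']
          have hq1 : q (cm x) = 0 := Set.indicator_of_notMem hxS _
          rw [hq1, zero_mul]
    have h2 := integral_nonneg_of_ae h1
    rw [hFPi] at h2
    linarith
  obtain ⟨t, ht⟩ := hA
  have hnn : 0 ≤ relInt (fun x : Fin n → E => ‖g (sh t x)‖ ^ 2) :=
    integral_nonneg fun x => by positivity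
  refine ⟨fun x => g (sh t x), hlipt t, ⟨b, fun x => hb _⟩, ?_, hclt t, ?_, by linarith⟩
  · intro x s
    have h1 : sh t (fun i => x i + s) = sh t x := by
      funext i
      have h2 : (fun i => x i + s) = x + fun _ => s := rfl
      show x i + s - cm (fun i => x i + s) + t = x i - cm x + t
      rw [h2, cm_add, cm_const hn]
      abel
    show g _ = g _
    rw [h1]
  · refine lt_of_le_of_ne hnn fun h0 => ?_
    rw [← h0, mul_zero, sub_zero] at ht
    have h1 : (fun x : Fin n → E => ‖g (sh t x)‖ ^ 2) =ᵐ[volume.restrict {x | cm x ∈ Q1}] 0 := by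
      rw [← integral_eq_zero_iff_of_nonneg (fun x => by positivity) (hj2 t)]
      exact h0.symm
    have h2 : relInt (fun x => μ * kin (fun x => g (sh t x)) x +
        pot (Vin K lam) x * ‖g (sh t x)‖ ^ 2) = relInt (fun x => μ * kin (fun x => g (sh t x)) x) := by
      unfold relInt
      refine integral_congr_ae ?_
      filter_upwards [h1] with x hx
      have hx' : ‖g (sh t x)‖ ^ 2 = 0 := hx
      rw [hx', mul_zero, add_zero]
    rw [h2] at ht
    have h3 : 0 ≤ relInt (fun x => μ * kin (fun x => g (sh t x)) x) :=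
      integral_nonneg fun x => mul_nonneg hμ (kin_nonneg _ _)
    linarith

end BG631.JG
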