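import Pool.Agent.H631.BG.Base

/-! A dimer trial function. -/

open MeasureTheory Filter Topology Set
open scoped ENNReal NNReal BigOperators

namespace BG631.JT1

/-- radial profile, supported in `5/8 < |z| < 7/8` -/
noncomputable def eta (z : E) : ℝ := max 0 (1 / 8 - |‖z‖ - 3 / 4|)
/-- cut-off near the origin -/
noncomputable def cut (z : E) : ℝ := max 0 (1 - ‖z‖)

theorem lip_eta : LipschitzWith 1 eta := by
  have h1 : LipschitzWith 1 (fun z : E => ‖z‖ - 3 / 4) := by
    have := (lipschitzWith_one_norm (E := E))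
    refine LipschitzWith.of_dist_le_mul (fun x y => ?_)
    have h := this.dist_le_mul x y
    simpa [Real.dist_eq] using h
  have h2 : LipschitzWith 1 (fun z : E => |‖z‖ - 3 / 4|) := by
    refine LipschitzWith.of_dist_le_mul (fun x y => ?_)
    have h := h1.dist_le_mul x y
    refine le_trans ?_ h
    rw [Real.dist_eq, Real.dist_eq]
    exact abs_abs_sub_abs_le_abs_sub _ _
  have h3 : LipschitzWith 1 (fun z : E => 1 / 8 - |‖z‖ - 3 / 4|) := by
    refine LipschitzWith.of_dist_le_mul (fun x y => ?_)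
    have h := h2.dist_le_mul x y
    refine le_trans (le_of_eq ?_) h
    rw [Real.dist_eq, Real.dist_eq, ← abs_neg]
    congr 1; ring
  exact h3.const_max 0

theorem lip_cut : LipschitzWith 1 cut := by
  have h3 : LipschitzWith 1 (fun z : E => 1 - ‖z‖) := by
    refine LipschitzWith.of_dist_le_mul (fun x y => ?_)
    have h := (lipschitzWith_one_norm (E := E)).dist_le_mul x y
    refine le_trans (le_of_eq ?_) h
    rw [Real.dist_eq, Real.dist_eq, ← abs_neg]
    congr 1; ring
  exact h3.const_max 0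

theorem eta_bd (z : E) : |eta z| ≤ 1 := by
  unfold eta
  rw [abs_of_nonneg (le_max_left _ _)]
  refine max_le (by norm_num) ?_
  have := abs_nonneg (‖z‖ - 3 / 4)
  linarith

theorem cut_bd (z : E) : |cut z| ≤ 1 := by
  unfold cut
  rw [abs_of_nonneg (le_max_left _ _)]
  refine max_le (by norm_num) ?_
  have := norm_nonneg z
  linarith

theorem eta_supp (z : E) (h : eta z ≠ 0) : 5 / 8 < ‖z‖ ∧ ‖z‖ < 7 / 8 := by
  unfold eta at h
  have h1 : 0 < 1 / 8 - |‖z‖ - 3 / 4| := by
    by_contra h2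
    exact h (max_eq_left (not_lt.1 h2))
  have h2 : |‖z‖ - 3 / 4| < 1 / 8 := by linarith
  rw [abs_lt] at h2
  constructor <;> linarith [h2.1, h2.2]

theorem cut_supp (z : E) (h : cut z ≠ 0) : ‖z‖ < 1 := by
  unfold cut at h
  by_contra h2
  exact h (max_eq_left (by linarith [not_lt.1 h2]))

/-- a dimer trial function living in the shell -/
theorem dimer : ∃ φ : (Fin 2 → E) → ℝ, (∃ C : ℝ≥0, LipschitzWith C φ) ∧ HasCompactSupport φ ∧
    (∀ x, φ x ≠ 0 → 1 / 2 ≤ dist (x 0) (x 1) ∧ dist (x 0) (x 1) < 1) ∧ 0 < ∫ x, ‖φ x‖ ^ 2 := by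
  set φ : (Fin 2 → E) → ℝ := fun x => eta (x 0 - x 1) * cut (x 0) with hφ
  have hlip : LipschitzWith 3 φ := by
    refine LipschitzWith.of_dist_le_mul (fun x y => ?_)
    have h0 : dist (x 0) (y 0) ≤ dist x y := dist_le_pi_dist x y 0
    have h1 : dist (x 1) (y 1) ≤ dist x y := dist_le_pi_dist x y 1
    have a1 := lip_eta.dist_le_mul (x 0 - x 1) (y 0 - y 1)
    have a2 := lip_cut.dist_le_mul (x 0) (y 0)
    have a3 : dist (x 0 - x 1) (y 0 - y 1) ≤ dist (x 0) (y 0) + dist (x 1) (y 1) := dist_sub_sub_le _ _ _ _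
    rw [Real.dist_eq] at a1 a2 ⊢
    simp only [NNReal.coe_one, one_mul] at a1 a2
    have a4 := eta_bd (y 0 - y 1)
    have a5 := cut_bd (x 0)
    have e : φ x - φ y = (eta (x 0 - x 1) - eta (y 0 - y 1)) * cut (x 0) + eta (y 0 - y 1) * (cut (x 0) - cut (y 0)) := by
      simp only [hφ]; ring
    rw [e]
    refine (abs_add_le _ _).trans ?_
    rw [abs_mul, abs_mul]
    have b1 : |eta (x 0 - x 1) - eta (y 0 - y 1)| * |cut (x 0)| ≤ |eta (x 0 - x 1) - eta (y 0 - y 1)| * 1 := by gcongr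
    have b2 : |eta (y 0 - y 1)| * |cut (x 0) - cut (y 0)| ≤ 1 * |cut (x 0) - cut (y 0)| := by gcongr
    have b3 : ((3 : ℝ≥0) : ℝ) = 3 := rfl
    rw [b3]
    linarith
  have hcpt : HasCompactSupport φ := by
    refine HasCompactSupport.intro (isCompact_closedBall (0 : Fin 2 → E) 3) (fun x hx => ?_)
    by_contra h
    apply hx
    have h1 : eta (x 0 - x 1) ≠ 0 := left_ne_zero_of_mul h
    have h2 : cut (x 0) ≠ 0 := right_ne_zero_of_mul h
    have h3 := (eta_supp _ h1).2
    have h4 := cut_supp _ h2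
    rw [mem_closedBall_zero_iff, pi_norm_le_iff_of_nonneg (by norm_num)]
    intro i
    fin_cases i
    · show ‖x 0‖ ≤ 3
      linarith
    · show ‖x 1‖ ≤ 3
      have h5 : ‖x 1‖ ≤ ‖x 0‖ + ‖x 0 - x 1‖ := by
        have : x 1 = x 0 - (x 0 - x 1) := by abel
        calc ‖x 1‖ = ‖x 0 - (x 0 - x 1)‖ := by rw [← this]
          _ ≤ _ := norm_sub_le _ _
      linarith
  refine ⟨φ, ⟨3, hlip⟩, hcpt, ?_, ?_⟩
  · intro x h
    have h1 : eta (x 0 - x 1) ≠ 0 := left_ne_zero_of_mul h
    have h2 := eta_supp _ h1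
    rw [dist_eq_norm]
    constructor <;> linarith [h2.1, h2.2]
  · have hc : Continuous (fun x => ‖φ x‖ ^ 2) := (hlip.continuous.norm).pow 2
    have hcs : HasCompactSupport (fun x => ‖φ x‖ ^ 2) :=
      HasCompactSupport.comp_left (g := fun y : ℝ => ‖y‖ ^ 2) hcpt (by simp)
    have hi : Integrable (fun x => ‖φ x‖ ^ 2) := hc.integrable_of_hasCompactSupport hcs
    have hne : ∃ x, ‖φ x‖ ^ 2 ≠ 0 := by
      refine ⟨fun i => if i = 0 then 0 else EuclideanSpace.single 0 (3 / 4 : ℝ), ?_⟩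
      have h1 : ‖(EuclideanSpace.single (0 : Fin 3) (3 / 4 : ℝ) : E)‖ = 3 / 4 := by
        rw [EuclideanSpace.norm_single]; norm_num
      have h2 : φ (fun i => if i = 0 then 0 else EuclideanSpace.single 0 (3 / 4 : ℝ)) = 1 / 8 := by
        simp only [hφ, eta, cut]
        simp [h1]
      rw [h2]; norm_num
    obtain ⟨x0, hx0⟩ := hne
    exact hc.integral_pos_of_hasCompactSupport_nonneg_nonzero hcs (fun x => by positivity) hx0

end BG631.JT1
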