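import Pool.Agent.H631.BG.Base

open MeasureTheory Filter Topology Set
open scoped ENNReal NNReal BigOperators

namespace BG631.JT2

section cd
open Finset


theorem core_dom
    (clump_core : ∀ (n : ℕ) (x : Fin n → E), (∀ i j, i ≠ j → dist (x i) (x j) < 1) → 2 * 729 ≤ Fintype.card (Fin n) →
      Fintype.card (Fin n) * Fintype.card (Fin n) ≤ 2 * 729 * ∑ i, cN x i)
    (n : ℕ) (K Λ : ℝ) (hΛ : 0 ≤ Λ) (hn : 2 * 729 ≤ n) (hK : 2 * 729 * Λ ≤ K) (x : Fin n → E) (hx : clump x) :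
    0 ≤ pot (Vin K Λ) x := by
  classical
  have hcl : ∀ i j, i ≠ j → dist (x i) (x j) < 1 := hx
  have hcard : 2 * 729 ≤ Fintype.card (Fin n) := by simpa using hn
  have hcore := clump_core n x hcl hcard
  rw [Fintype.card_fin] at hcore
  have hcoreR : (n : ℝ) * n ≤ 2 * 729 * ∑ i, (cN x i : ℝ) := by
    have := (Nat.cast_le (α := ℝ)).2 hcore
    push_cast at this
    linarith
  have hpt : ∀ r : ℝ, (if r < 1 / 2 then K else 0) - Λ ≤ Vin K Λ r := by
    intro r
    unfold Vin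
    split_ifs <;> linarith
  have hrow : ∀ i : Fin n, K * (cN x i : ℝ) - Λ * n ≤
      ∑ j ∈ univ.erase i, Vin K Λ (dist (x i) (x j)) := by
    intro i
    have h1 : ∑ j ∈ univ.erase i, ((if dist (x i) (x j) < 1 / 2 then K else 0) - Λ) ≤
        ∑ j ∈ univ.erase i, Vin K Λ (dist (x i) (x j)) :=
      Finset.sum_le_sum (fun j _ => hpt _)
    have h2 : ∑ j ∈ univ.erase i, ((if dist (x i) (x j) < 1 / 2 then K else 0) - Λ) =
        K * (cN x i : ℝ) - Λ * ((univ.erase i).card : ℝ) := by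
      rw [Finset.sum_sub_distrib, ← Finset.sum_filter, Finset.sum_const, Finset.sum_const]
      unfold cN
      simp only [nsmul_eq_mul]
      ring_nf
    have h3 : ((univ.erase i).card : ℝ) ≤ n := by
      have : (univ.erase i).card ≤ n := by
        calc (univ.erase i).card ≤ (univ : Finset (Fin n)).card := Finset.card_le_card (Finset.erase_subset _ _)
          _ = n := by simp
      exact_mod_cast this
    have h4 : Λ * ((univ.erase i).card : ℝ) ≤ Λ * n := mul_le_mul_of_nonneg_left h3 hΛ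
    linarith
  have hsum : ∑ i, (K * (cN x i : ℝ) - Λ * n) ≤
      ∑ i, ∑ j ∈ univ.erase i, Vin K Λ (dist (x i) (x j)) :=
    Finset.sum_le_sum (fun i _ => hrow i)
  have hl : ∑ i, (K * (cN x i : ℝ) - Λ * n) = K * ∑ i, (cN x i : ℝ) - Λ * (n * n) := by
    rw [Finset.sum_sub_distrib, ← Finset.mul_sum, Finset.sum_const]
    simp only [nsmul_eq_mul, Finset.card_univ, Fintype.card_fin]
    ring
  have hS0 : 0 ≤ ∑ i, (cN x i : ℝ) := Finset.sum_nonneg (fun i _ => Nat.cast_nonneg _)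
  have h5 : Λ * ((n : ℝ) * n) ≤ Λ * (2 * 729 * ∑ i, (cN x i : ℝ)) :=
    mul_le_mul_of_nonneg_left hcoreR hΛ
  have h6 : 2 * 729 * Λ * ∑ i, (cN x i : ℝ) ≤ K * ∑ i, (cN x i : ℝ) :=
    mul_le_mul_of_nonneg_right hK hS0
  have h7 : 0 ≤ ∑ i, ∑ j ∈ univ.erase i, Vin K Λ (dist (x i) (x j)) := by
    rw [hl] at hsum
    nlinarith
  unfold pot
  linarith
end cd

end BG631.JT2
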