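import Pool.Agent.H631.BG.Base

open MeasureTheory Filter Topology Set
open scoped ENNReal NNReal BigOperators

namespace BG631.JT3

/-- hard core part -/
noncomputable def core (r : ℝ) : ℝ := if r < 1 / 2 then 1 else 0
/-- shell part -/
noncomputable def shell (r : ℝ) : ℝ := if r < 1 / 2 then 0 else 1

lemma core_meas : Measurable core := Measurable.ite measurableSet_Iio measurable_const measurable_const
lemma shell_meas : Measurable shell := Measurable.ite measurableSet_Iio measurable_const measurable_const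
lemma core_nonneg (r : ℝ) : 0 ≤ core r := by unfold core; split_ifs <;> norm_num
lemma shell_nonneg (r : ℝ) : 0 ≤ shell r := by unfold shell; split_ifs <;> norm_num
lemma core_le (r : ℝ) : core r ≤ 1 := by unfold core; split_ifs <;> norm_num
lemma shell_le (r : ℝ) : shell r ≤ 1 := by unfold shell; split_ifs <;> norm_num

lemma pot_meas {n : ℕ} {v : ℝ → ℝ} (hv : Measurable v) : Measurable (fun x : Fin n → E => pot v x) := by
  unfold pot
  refine measurable_const.mul ?_
  refine Finset.measurable_sum _ fun i _ => Finset.measurable_sum _ fun j _ => ?_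
  exact hv.comp ((measurable_pi_apply i).dist (measurable_pi_apply j))

lemma pot_nonneg {n : ℕ} {v : ℝ → ℝ} (hv : ∀ r, 0 ≤ v r) (x : Fin n → E) : 0 ≤ pot v x := by
  unfold pot
  exact mul_nonneg (by norm_num) (Finset.sum_nonneg fun i _ => Finset.sum_nonneg fun j _ => hv _)

lemma pot_le {n : ℕ} {v : ℝ → ℝ} (hv : ∀ r, 0 ≤ v r) (hv1 : ∀ r, v r ≤ 1) (x : Fin n → E) :
    pot v x ≤ (n : ℝ) ^ 2 / 2 := by
  unfold pot
  have h1 : ∑ i : Fin n, ∑ j ∈ Finset.univ.erase i, v (dist (x i) (x j)) ≤ ∑ i : Fin n, ∑ j : Fin n, (1 : ℝ) := by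
    refine Finset.sum_le_sum fun i _ => ?_
    calc ∑ j ∈ Finset.univ.erase i, v (dist (x i) (x j)) ≤ ∑ j : Fin n, v (dist (x i) (x j)) :=
          Finset.sum_le_sum_of_subset_of_nonneg (Finset.erase_subset _ _) fun j _ _ => hv _
      _ ≤ ∑ j : Fin n, (1 : ℝ) := Finset.sum_le_sum fun j _ => hv1 _
  have h2 : ∑ i : Fin n, ∑ j : Fin n, (1 : ℝ) = (n : ℝ) ^ 2 := by
    simp [sq]
  rw [h2] at h1
  linarith

lemma pot_Vin {n : ℕ} (K lam : ℝ) (x : Fin n → E) :
    pot (Vin K lam) x = K * pot core x - lam * pot shell x := by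
  unfold pot
  have h : ∀ r, Vin K lam r = K * core r - lam * shell r := by
    intro r; unfold Vin core shell; split_ifs <;> ring
  simp only [h, Finset.sum_sub_distrib, ← Finset.mul_sum]
  ring

lemma int_sq {n : ℕ} {g : (Fin n → E) → ℝ} (hg : ∃ C : ℝ≥0, LipschitzWith C g) (hc : HasCompactSupport g) :
    Integrable (fun x => ‖g x‖ ^ 2) := by
  obtain ⟨C, hC⟩ := hg
  have hcont : Continuous (fun x => ‖g x‖ ^ 2) := (hC.continuous.norm).pow 2
  refine hcont.integrable_of_hasCompactSupport ?_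
  exact hc.comp_left (g := fun t : ℝ => ‖t‖ ^ 2) (by simp)

lemma int_pot {n : ℕ} {v : ℝ → ℝ} (hvm : Measurable v) (hv : ∀ r, 0 ≤ v r) (hv1 : ∀ r, v r ≤ 1)
    {g : (Fin n → E) → ℝ} (hg : ∃ C : ℝ≥0, LipschitzWith C g) (hc : HasCompactSupport g) :
    Integrable (fun x => pot v x * ‖g x‖ ^ 2) := by
  refine (int_sq hg hc).bdd_mul (c := (n : ℝ) ^ 2 / 2) (pot_meas hvm).aestronglyMeasurable ?_
  refine Eventually.of_forall fun x => ?_
  rw [Real.norm_eq_abs, abs_of_nonneg (pot_nonneg hv x)]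
  exact pot_le hv hv1 x

lemma int_kin {n : ℕ} {g : (Fin n → E) → ℝ} (hg : ∃ C : ℝ≥0, LipschitzWith C g) (hc : HasCompactSupport g) :
    Integrable (fun x => kin g x) := by
  obtain ⟨C, hC⟩ := hg
  unfold kin
  refine integrable_finsetSum _ fun i _ => integrable_finsetSum _ fun k _ => ?_
  set e : Fin n → E := Pi.single i (EuclideanSpace.single k (1 : ℝ)) with he
  have hb : ∀ x, ‖pd g x i k‖ ^ 2 ≤ ((C : ℝ) * ‖e‖) ^ 2 := by
    intro x
    refine pow_le_pow_left₀ (norm_nonneg _) ?_ 2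
    calc ‖pd g x i k‖ ≤ ‖fderiv ℝ g x‖ * ‖e‖ := (fderiv ℝ g x).le_opNorm e
      _ ≤ C * ‖e‖ := mul_le_mul_of_nonneg_right (norm_fderiv_le_of_lipschitz ℝ hC) (norm_nonneg _)
  have hm : Measurable (fun x => ‖pd g x i k‖ ^ 2) := by
    have := measurable_fderiv_apply_const ℝ g e
    exact this.norm.pow_const 2
  have hz : ∀ x, x ∉ tsupport g → ‖pd g x i k‖ ^ 2 = 0 := by
    intro x hx
    have : fderiv ℝ g x = 0 := by
      by_contra hne
      exact hx (support_fderiv_subset ℝ hne)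
    simp [pd, this]
  have hI : Integrable (Set.indicator (tsupport g) (fun _ : Fin n → E => ((C : ℝ) * ‖e‖) ^ 2)) := by
    refine (integrable_indicator_iff (isClosed_tsupport g).measurableSet).2 ?_
    exact integrableOn_const (hc.isCompact.measure_lt_top.ne)
  refine hI.mono' hm.aestronglyMeasurable (Eventually.of_forall fun x => ?_)
  by_cases hx : x ∈ tsupport g
  · rw [Set.indicator_of_mem hx, Real.norm_eq_abs, abs_of_nonneg (by positivity)]
    exact hb x
  · rw [Set.indicator_of_notMem hx, hz x hx]; simp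

lemma kin_nonneg {n : ℕ} (g : (Fin n → E) → ℝ) (x : Fin n → E) : 0 ≤ kin g x := by
  unfold kin; positivity

lemma energy_eq {n : ℕ} {g : (Fin n → E) → ℝ} (hg : ∃ C : ℝ≥0, LipschitzWith C g) (hc : HasCompactSupport g)
    (μ K lam : ℝ) :
    energy μ (Vin K lam) g = μ * (∫ x, kin g x) + K * (∫ x, pot core x * ‖g x‖ ^ 2)
      - lam * ∫ x, pot shell x * ‖g x‖ ^ 2 := by
  unfold energy
  have h1 := int_kin hg hc
  have h2 := int_pot core_meas core_nonneg core_le hg hc
  have h3 := int_pot shell_meas shell_nonneg shell_le hg hc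
  have : (fun x => μ * kin g x + pot (Vin K lam) x * ‖g x‖ ^ 2)
      = fun x => (μ * kin g x + K * (pot core x * ‖g x‖ ^ 2)) - lam * (pot shell x * ‖g x‖ ^ 2) := by
    funext x; rw [pot_Vin]; ring
  have h12 : Integrable (fun x => μ * kin g x + K * (pot core x * ‖g x‖ ^ 2)) :=
    (h1.const_mul μ).add (h2.const_mul K)
  rw [this, integral_sub h12 (h3.const_mul lam),
    integral_add (h1.const_mul μ) (h2.const_mul K), integral_const_mul, integral_const_mul, integral_const_mul]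

/-- existence of the threshold: all clumps have nonnegative energy, and clumps of bounded size with energy as close to
`0` as we like exist -/
theorem threshold
    (dimer : ∃ φ : (Fin 2 → E) → ℝ, (∃ C : ℝ≥0, LipschitzWith C φ) ∧ HasCompactSupport φ ∧
      (∀ x, φ x ≠ 0 → 1 / 2 ≤ dist (x 0) (x 1) ∧ dist (x 0) (x 1) < 1) ∧ 0 < ∫ x, ‖φ x‖ ^ 2)
    (core_dom : ∀ (n : ℕ) (K Λ : ℝ), 0 ≤ Λ → 2 * 729 ≤ n → 2 * 729 * Λ ≤ K → ∀ x : Fin n → E, clump x →
      0 ≤ pot (Vin K Λ) x)
    (μ : ℝ) (hμ : 0 < μ) :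
    ∃ K lam : ℝ, 0 ≤ lam ∧ 729 * 731 * lam ≤ K ∧ 0 < K ∧ (∀ n : ℕ, PosLump μ K lam (Fin n)) ∧
      ∀ ε : ℝ, 0 < ε → ∃ n : ℕ, 2 ≤ n ∧ n < 2 * 729 ∧ ∃ g : (Fin n → E) → ℝ,
        (∃ C : ℝ≥0, LipschitzWith C g) ∧ HasCompactSupport g ∧ (∀ x, g x ≠ 0 → clump x) ∧
        energy μ (Vin K lam) g < ε * ∫ x, ‖g x‖ ^ 2 := by
  obtain ⟨φ, hφL, hφC, hφS, hφP⟩ := dimer
  -- abbreviations
  have hTnn : ∀ {n : ℕ} (g : (Fin n → E) → ℝ), 0 ≤ μ * ∫ x, kin g x := fun g =>
    mul_nonneg hμ.le (integral_nonneg fun x => kin_nonneg g x)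
  have hConn : ∀ {n : ℕ} (g : (Fin n → E) → ℝ), 0 ≤ ∫ x, pot core x * ‖g x‖ ^ 2 := fun g =>
    integral_nonneg fun x => mul_nonneg (pot_nonneg core_nonneg x) (by positivity)
  have hShnn : ∀ {n : ℕ} (g : (Fin n → E) → ℝ), 0 ≤ ∫ x, pot shell x * ‖g x‖ ^ 2 := fun g =>
    integral_nonneg fun x => mul_nonneg (pot_nonneg shell_nonneg x) (by positivity)
  have hdist : ∀ x : Fin 2 → E, φ x ≠ 0 → ∀ i j, i ≠ j → 1 / 2 ≤ dist (x i) (x j) ∧ dist (x i) (x j) < 1 := by
    intro x hx i j hij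
    have h := hφS x hx
    fin_cases i <;> fin_cases j
    · exact absurd rfl hij
    · exact h
    · have h' := h
      rw [dist_comm] at h'
      exact h'
    · exact absurd rfl hij
  have hCoφ : ∫ x, pot core x * ‖φ x‖ ^ 2 = 0 := by
    have : (fun x => pot core x * ‖φ x‖ ^ 2) = fun _ => 0 := by
      funext x
      by_cases hx : φ x = 0
      · simp [hx]
      · have : pot core x = 0 := by
          unfold pot
          rw [Finset.sum_eq_zero, mul_zero]
          intro i _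
          refine Finset.sum_eq_zero fun j hj => ?_
          have hij : i ≠ j := fun h => (Finset.mem_erase.1 hj).1 h.symm
          have := (hdist x hx i j hij).1
          unfold core
          rw [if_neg (not_lt.2 this)]
        rw [this, zero_mul]
    rw [this]; simp
  have hShφ : ∫ x, pot shell x * ‖φ x‖ ^ 2 = ∫ x, ‖φ x‖ ^ 2 := by
    congr 1
    funext x
    by_cases hx : φ x = 0
    · simp [hx]
    · have : pot shell x = 1 := by
        unfold pot
        have h2 : ∀ i ∈ (Finset.univ : Finset (Fin 2)), ∑ j ∈ Finset.univ.erase i, shell (dist (x i) (x j)) = 1 := by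
          intro i _
          have : ∀ j ∈ Finset.univ.erase i, shell (dist (x i) (x j)) = 1 := by
            intro j hj
            have hij : i ≠ j := fun h => (Finset.mem_erase.1 hj).1 h.symm
            have := (hdist x hx i j hij).1
            unfold shell
            rw [if_neg (not_lt.2 this)]
          rw [Finset.sum_congr rfl this]
          simp
        rw [Finset.sum_congr rfl h2]
        simp
      rw [this, one_mul]
  set Λ : ℝ := (μ * ∫ x, kin φ x) / ∫ x, ‖φ x‖ ^ 2 with hΛ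
  have hΛ0 : 0 ≤ Λ := div_nonneg (hTnn φ) hφP.le
  set K : ℝ := 729 * 731 * (Λ + 1) with hK
  have hK0 : 0 < K := by positivity
  let S : Set ℝ := {t | ∃ n : ℕ, 2 ≤ n ∧ ∃ g : (Fin n → E) → ℝ, (∃ C : ℝ≥0, LipschitzWith C g) ∧
    HasCompactSupport g ∧ (∀ x, g x ≠ 0 → clump x) ∧ 0 < ∫ x, pot shell x * ‖g x‖ ^ 2 ∧
    t = (μ * (∫ x, kin g x) + K * ∫ x, pot core x * ‖g x‖ ^ 2) / ∫ x, pot shell x * ‖g x‖ ^ 2}
  have hΛS : Λ ∈ S := by
    refine ⟨2, le_rfl, φ, hφL, hφC, ?_, ?_, ?_⟩
    · intro x hx i j hij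
      exact (hdist x hx i j hij).2
    · rw [hShφ]; exact hφP
    · rw [hShφ, hCoφ, mul_zero, add_zero]
  have hbdd : BddBelow S := by
    refine ⟨0, ?_⟩
    rintro t ⟨n, _, g, _, _, _, hsh, rfl⟩
    exact div_nonneg (add_nonneg (hTnn g) (mul_nonneg hK0.le (hConn g))) hsh.le
  have hlam0 : 0 ≤ sInf S := by
    refine le_csInf ⟨Λ, hΛS⟩ ?_
    rintro t ⟨n, _, g, _, _, _, hsh, rfl⟩
    exact div_nonneg (add_nonneg (hTnn g) (mul_nonneg hK0.le (hConn g))) hsh.le
  have hlamΛ : sInf S ≤ Λ := csInf_le hbdd hΛS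
  refine ⟨K, sInf S, hlam0, ?_, hK0, ?_, ?_⟩
  · rw [hK]; nlinarith
  · intro n g hL hC hS
    rw [energy_eq hL hC]
    rcases (hShnn g).eq_or_lt with h0 | h0
    · rw [← h0]
      have := hTnn g
      have := mul_nonneg hK0.le (hConn g)
      linarith
    · have hn : 2 ≤ n := by
        by_contra hn
        have hz : (fun x : Fin n → E => pot shell x * ‖g x‖ ^ 2) = fun _ => 0 := by
          funext x
          have : pot shell x = 0 := by
            unfold pot
            rw [Finset.sum_eq_zero, mul_zero]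
            intro i _
            refine Finset.sum_eq_zero fun j hj => ?_
            exfalso
            have hji := (Finset.mem_erase.1 hj).1
            apply hji
            ext
            have := i.2
            have := j.2
            omega
          rw [this, zero_mul]
        rw [hz] at h0
        simp at h0
      have hmem : (μ * (∫ x, kin g x) + K * ∫ x, pot core x * ‖g x‖ ^ 2) / (∫ x, pot shell x * ‖g x‖ ^ 2) ∈ S :=
        ⟨n, hn, g, hL, hC, hS, h0, rfl⟩
      have := csInf_le hbdd hmem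
      rw [le_div_iff₀ h0] at this
      linarith
  · intro ε hε
    set ε' : ℝ := min (ε / (2 * 729) ^ 2) (1 / 2) with hε'
    have hε'0 : 0 < ε' := by
      rw [hε']
      exact lt_min (by positivity) (by norm_num)
    have hε'1 : ε' < 1 := lt_of_le_of_lt (min_le_right _ _) (by norm_num)
    have hε'2 : ε' ≤ ε / (2 * 729) ^ 2 := min_le_left _ _
    obtain ⟨t, ⟨n, hn, g, hL, hC, hS, hsh, ht⟩, htl⟩ := exists_lt_of_csInf_lt ⟨Λ, hΛS⟩ (lt_add_of_pos_right (sInf S) hε'0)
    have hteq : t * (∫ x, pot shell x * ‖g x‖ ^ 2) = μ * (∫ x, kin g x) + K * ∫ x, pot core x * ‖g x‖ ^ 2 := by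
      rw [ht, div_mul_cancel₀ _ hsh.ne']
    have hnlt : n < 2 * 729 := by
      by_contra hge
      push Not at hge
      have hcd := core_dom n K (Λ + 1) (by linarith) hge (by rw [hK]; nlinarith)
      have hle : (Λ + 1) * (∫ x, pot shell x * ‖g x‖ ^ 2) ≤ K * ∫ x, pot core x * ‖g x‖ ^ 2 := by
        rw [← integral_const_mul, ← integral_const_mul]
        refine integral_mono ((int_pot shell_meas shell_nonneg shell_le hL hC).const_mul _)
          ((int_pot core_meas core_nonneg core_le hL hC).const_mul _) fun x => ?_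
        by_cases hx : g x = 0
        · simp [hx]
        · have h1 := hcd x (hS x hx)
          rw [pot_Vin] at h1
          have h2 : 0 ≤ ‖g x‖ ^ 2 := by positivity
          show (Λ + 1) * (pot shell x * ‖g x‖ ^ 2) ≤ K * (pot core x * ‖g x‖ ^ 2)
          nlinarith
      have h3 : (Λ + 1) * (∫ x, pot shell x * ‖g x‖ ^ 2) ≤ t * (∫ x, pot shell x * ‖g x‖ ^ 2) := by
        rw [hteq]
        have := hTnn g
        linarith
      have h4 : Λ + 1 ≤ t := le_of_mul_le_mul_right h3 hsh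
      linarith
    refine ⟨n, hn, hnlt, g, hL, hC, hS, ?_⟩
    rw [energy_eq hL hC, ← hteq]
    have h5 : t * (∫ x, pot shell x * ‖g x‖ ^ 2) - sInf S * (∫ x, pot shell x * ‖g x‖ ^ 2)
        < ε' * ∫ x, pot shell x * ‖g x‖ ^ 2 := by
      rw [← sub_mul]
      exact mul_lt_mul_of_pos_right (by linarith) hsh
    refine h5.trans_le ?_
    have h6 : (∫ x, pot shell x * ‖g x‖ ^ 2) ≤ ((n : ℝ) ^ 2 / 2) * ∫ x, ‖g x‖ ^ 2 := by
      rw [← integral_const_mul]
      refine integral_mono (int_pot shell_meas shell_nonneg shell_le hL hC) ((int_sq hL hC).const_mul _) fun x => ?_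
      exact mul_le_mul_of_nonneg_right (pot_le shell_nonneg shell_le x) (by positivity)
    have h7 : 0 ≤ ∫ x, ‖g x‖ ^ 2 := integral_nonneg fun x => by positivity
    have hnR : (n : ℝ) ≤ 2 * 729 := by
      have : (n : ℝ) ≤ ((2 * 729 : ℕ) : ℝ) := Nat.cast_le.2 hnlt.le
      push_cast at this
      linarith
    have hn0 : (0 : ℝ) ≤ n := Nat.cast_nonneg n
    have h8 : (n : ℝ) ^ 2 / 2 ≤ (2 * 729) ^ 2 := by nlinarith
    calc ε' * (∫ x, pot shell x * ‖g x‖ ^ 2) ≤ ε' * (((n : ℝ) ^ 2 / 2) * ∫ x, ‖g x‖ ^ 2) :=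
          mul_le_mul_of_nonneg_left h6 hε'0.le
      _ ≤ ε' * ((2 * 729) ^ 2 * ∫ x, ‖g x‖ ^ 2) :=
          mul_le_mul_of_nonneg_left (mul_le_mul_of_nonneg_right h8 h7) hε'0.le
      _ ≤ (ε / (2 * 729) ^ 2) * ((2 * 729) ^ 2 * ∫ x, ‖g x‖ ^ 2) :=
          mul_le_mul_of_nonneg_right hε'2 (by positivity)
      _ = ε * ∫ x, ‖g x‖ ^ 2 := by
          field_simp

end BG631.JT3
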