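import Pool.Agent.H631.BG.Base

open MeasureTheory Filter Topology Set
open scoped ENNReal NNReal BigOperators

namespace BG631.JX

theorem glueX (f g f' g' : ℝ → ℝ) (c : ℝ) (hf : ∀ r, HasDerivAt f (f' r) r)
    (hg : ∀ r, HasDerivAt g (g' r) r) (h0 : f c = g c) (h1 : f' c = g' c) (r : ℝ) :
    HasDerivAt (fun r => if r ≤ c then f r else g r) (if r ≤ c then f' r else g' r) r := by
  rcases lt_trichotomy r c with h | h | h
  · rw [if_pos h.le]
    refine (hf r).congr_of_eventuallyEq ?_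
    filter_upwards [Iio_mem_nhds h] with x hx
    rw [if_pos (le_of_lt hx)]
  · subst h
    rw [if_pos le_rfl]
    have hl : HasDerivWithinAt (fun x => if x ≤ r then f x else g x) (f' r) (Iic r) r := by
      refine (hf r).hasDerivWithinAt.congr ?_ ?_
      · intro x hx
        exact if_pos hx
      · exact if_pos le_rfl
    have hr : HasDerivWithinAt (fun x => if x ≤ r then f x else g x) (f' r) (Ici r) r := by
      rw [h1]
      refine (hg r).hasDerivWithinAt.congr ?_ ?_
      · intro x hx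
        rcases eq_or_lt_of_le (show r ≤ x from hx) with h | h
        · subst h
          simp [h0]
        · exact if_neg (not_le.2 h)
      · simp [h0]
    have := hl.union hr
    rw [Iic_union_Ici] at this
    exact hasDerivWithinAt_univ.1 this
  · rw [if_neg (not_le.2 h)]
    refine (hg r).congr_of_eventuallyEq ?_
    filter_upwards [Ioi_mem_nhds h] with x hx
    rw [if_neg (not_le.2 hx)]

noncomputable def W0X (q : ℕ) (r : ℝ) : ℝ :=
  if r ≤ 1 then 0 else if r ≤ 9 then (r - 1) ^ (q + 2) else 8 ^ (q + 2) + (q + 2) * 8 ^ (q + 1) * (r - 9)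

noncomputable def W1X (q : ℕ) (r : ℝ) : ℝ :=
  if r ≤ 1 then 0 else if r ≤ 9 then (q + 2) * (r - 1) ^ (q + 1) else (q + 2) * 8 ^ (q + 1)

theorem W0X_deriv (q : ℕ) (r : ℝ) : HasDerivAt (W0X q) (W1X q r) r := by
  have hin : ∀ r : ℝ, HasDerivAt (fun r : ℝ => if r ≤ 9 then (r - 1) ^ (q + 2)
      else 8 ^ (q + 2) + (q + 2) * 8 ^ (q + 1) * (r - 9))
      (if r ≤ 9 then ((q:ℝ) + 2) * (r - 1) ^ (q + 1) else ((q:ℝ) + 2) * 8 ^ (q + 1)) r := by
    intro r
    refine glueX (fun r : ℝ => (r - 1) ^ (q + 2)) (fun r : ℝ => 8 ^ (q + 2) + (q + 2) * 8 ^ (q + 1) * (r - 9))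
      (fun r => ((q:ℝ) + 2) * (r - 1) ^ (q + 1)) (fun r => ((q:ℝ) + 2) * 8 ^ (q + 1)) 9 ?_ ?_ ?_ ?_ r
    · intro r
      have h := ((hasDerivAt_id r).sub_const (1:ℝ)).pow (q + 2)
      exact h.congr_deriv (by push_cast; simp)
    · intro r
      have h := (((hasDerivAt_id r).sub_const (9:ℝ)).const_mul (((q:ℝ) + 2) * 8 ^ (q + 1))).const_add ((8:ℝ) ^ (q + 2))
      exact h.congr_deriv (by simp)
    · norm_num
    · norm_num
  refine glueX (fun _ => (0:ℝ)) (fun r : ℝ => if r ≤ 9 then (r - 1) ^ (q + 2)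
      else 8 ^ (q + 2) + (q + 2) * 8 ^ (q + 1) * (r - 9)) (fun _ => (0:ℝ))
      (fun r => if r ≤ 9 then ((q:ℝ) + 2) * (r - 1) ^ (q + 1) else ((q:ℝ) + 2) * 8 ^ (q + 1)) 1 ?_ hin ?_ ?_ r
  · intro r
    exact hasDerivAt_const r (0:ℝ)
  · norm_num
  · norm_num

theorem W1X_cont (q : ℕ) : Continuous (W1X q) := by
  unfold W1X
  refine Continuous.if_le continuous_const ?_ continuous_id continuous_const ?_
  · refine Continuous.if_le (by fun_prop) continuous_const continuous_id continuous_const ?_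
    intro x hx
    have : x = 9 := hx
    subst this
    norm_num
  · intro x hx
    have : x = 1 := hx
    subst this
    norm_num

theorem prodX (μ : ℝ) (K lam : ℝ) (q : ℕ) (r : ℝ) :
    V0 K lam (2 * μ * ((q + 2 : ℕ) : ℝ) * (((q + 2 : ℕ) : ℝ) - 1)) r * W0X q r =
      (Ioo (1:ℝ) 9).indicator (fun r => 2 * μ * (q + 2) * (q + 1) * (r - 1) ^ q) r := by
  push_cast
  unfold V0 W0X
  by_cases h1 : r ≤ 1
  · rw [indicator_of_notMem (show r ∉ Ioo (1:ℝ) 9 from fun h => absurd h.1 (not_lt.2 h1))]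
    simp only [if_pos h1, mul_zero]
  · have h1' : 1 < r := not_le.1 h1
    rw [if_neg (by linarith : ¬ r < 1 / 2), if_neg h1, if_neg h1]
    by_cases h9 : r < 9
    · rw [if_pos h9, if_pos h9.le, indicator_of_mem (show r ∈ Ioo (1:ℝ) 9 from ⟨h1', h9⟩)]
      have h0 : r - 1 ≠ 0 := by linarith
      field_simp
      ring
    · rw [if_neg h9, zero_mul, indicator_of_notMem]
      intro h
      exact h9 h.2

theorem W0X_scat (μ : ℝ) (K lam : ℝ) (q : ℕ) :
    IsScat μ (V0 K lam (2 * μ * ((q + 2 : ℕ) : ℝ) * (((q + 2 : ℕ) : ℝ) - 1))) (W0X q) := by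
  have hfun : (fun r => V0 K lam (2 * μ * ((q + 2 : ℕ) : ℝ) * (((q + 2 : ℕ) : ℝ) - 1)) r * W0X q r) =
      (Ioo (1:ℝ) 9).indicator (fun r => 2 * μ * (q + 2) * (q + 1) * (r - 1) ^ q) := by
    funext r
    exact prodX μ K lam q r
  have hint : ∀ s t : ℝ, 0 < s → s ≤ t → IntervalIntegrable
      ((Ioo (1:ℝ) 9).indicator (fun r => 2 * μ * (q + 2) * (q + 1) * (r - 1) ^ q)) volume s t := by
    intro s t _ hst
    rw [intervalIntegrable_iff_integrableOn_Ioc_of_le hst]
    refine IntegrableOn.indicator ?_ measurableSet_Ioo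
    exact (Continuous.integrableOn_Ioc (by fun_prop))
  refine ⟨?_, ?_, ?_, ?_, ?_⟩
  · simp [W0X]
  · exact (W0X_deriv q 0).continuousAt.continuousWithinAt
  · intro r _
    exact (W0X_deriv q r).differentiableAt
  · intro s t hs hst
    rw [hfun]
    exact hint s t hs hst
  · intro s t hs hst
    rw [hfun, (W0X_deriv q t).deriv, (W0X_deriv q s).deriv]
    have h := MeasureTheory.integral_eq_of_hasDerivAt_off_countable (fun r => 2 * μ * W1X q r)
      ((Ioo (1:ℝ) 9).indicator (fun r => 2 * μ * (q + 2) * (q + 1) * (r - 1) ^ q)) (a := s) (b := t)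
      (s := {1, 9}) (Set.Finite.countable (by simp)) ((W1X_cont q).const_smul (2 * μ)).continuousOn
      ?_ (hint s t hs hst)
    · rw [h]
      ring
    · intro x hx
      have hx1 : x ≠ 1 := by
        intro h
        exact hx.2 (by simp [h])
      have hx9 : x ≠ 9 := by
        intro h
        exact hx.2 (by simp [h])
      rcases lt_or_gt_of_ne hx1 with h1 | h1
      · rw [indicator_of_notMem (by intro h; exact absurd h.1 (not_lt.2 h1.le))]
        refine (hasDerivAt_const x (0:ℝ)).congr_of_eventuallyEq ?_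
        filter_upwards [Iio_mem_nhds h1] with y hy
        have : W1X q y = 0 := by
          unfold W1X
          exact if_pos (le_of_lt hy)
        rw [this, mul_zero]
      · rcases lt_or_gt_of_ne hx9 with h9 | h9
        · rw [indicator_of_mem (show x ∈ Ioo (1:ℝ) 9 from ⟨h1, h9⟩)]
          have h := (((hasDerivAt_id x).sub_const (1:ℝ)).pow (q + 1)).const_mul (2 * μ * (q + 2))
          have h2 : HasDerivAt (fun y : ℝ => 2 * μ * (q + 2) * (y - 1) ^ (q + 1))
              (2 * μ * (q + 2) * (q + 1) * (x - 1) ^ q) x := by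
            exact h.congr_deriv (by push_cast; simp; ring)
          refine h2.congr_of_eventuallyEq ?_
          filter_upwards [Ioo_mem_nhds h1 h9] with y hy
          have : W1X q y = (q + 2) * (y - 1) ^ (q + 1) := by
            unfold W1X
            rw [if_neg (not_le.2 hy.1), if_pos (le_of_lt hy.2)]
          rw [this]
          ring
        · rw [indicator_of_notMem (by intro h; exact absurd h.2 (not_lt.2 (le_of_lt h9)))]
          refine (hasDerivAt_const x (2 * μ * ((q + 2) * 8 ^ (q + 1)))).congr_of_eventuallyEq ?_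
          filter_upwards [Ioi_mem_nhds h9] with y hy
          have hy9 : 9 < y := hy
          have : W1X q y = (q + 2) * 8 ^ (q + 1) := by
            unfold W1X
            rw [if_neg (by linarith), if_neg (not_le.2 hy9)]
          rw [this]

theorem contDX {μ : ℝ} (hμ : 0 < μ) {v u : ℝ → ℝ} (h : IsScat μ v u) (t₀ : ℝ) (ht : 0 < t₀) :
    ContinuousAt (deriv u) t₀ := by
  have hs : 0 < t₀ / 2 := by linarith
  have hI : IntervalIntegrable (fun r => v r * u r) volume (t₀ / 2) (t₀ + 1) :=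
    h.int _ _ hs (by linarith)
  have hc : ContinuousOn (fun t => ∫ r in (t₀ / 2)..t, v r * u r) (Icc (t₀ / 2) (t₀ + 1)) := by
    have := intervalIntegral.continuousOn_primitive_interval' hI (a := t₀ / 2) (left_mem_uIcc)
    rwa [uIcc_of_le (by linarith)] at this
  have hc' : ContinuousAt (fun t => ∫ r in (t₀ / 2)..t, v r * u r) t₀ :=
    hc.continuousAt (Icc_mem_nhds (by linarith) (by linarith))
  have hc2 : ContinuousAt (fun t => deriv u (t₀ / 2) + (∫ r in (t₀ / 2)..t, v r * u r) / (2 * μ)) t₀ :=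
    continuousAt_const.add (hc'.div_const _)
  refine hc2.congr ?_
  filter_upwards [Ioi_mem_nhds (show t₀ / 2 < t₀ by linarith)] with t ht2
  have := h.eq (t₀ / 2) t hs (le_of_lt ht2)
  rw [← this]
  field_simp
  ring

theorem derivDX {μ : ℝ} (hμ : 0 < μ) {v u : ℝ → ℝ} (h : IsScat μ v u) (t₀ : ℝ) (ht : 0 < t₀)
    (hv : ∀ᶠ r in 𝓝 t₀, ContinuousAt v r) :
    HasDerivAt (deriv u) (v t₀ * u t₀ / (2 * μ)) t₀ := by
  have hs : 0 < t₀ / 2 := by linarith
  have hI : IntervalIntegrable (fun r => v r * u r) volume (t₀ / 2) t₀ :=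
    h.int _ _ hs (by linarith)
  have hcu : ∀ᶠ r in 𝓝 t₀, ContinuousAt u r := by
    filter_upwards [Ioi_mem_nhds ht] with r hr
    exact (h.diff r hr).continuousAt
  have hcv : ∀ᶠ r in 𝓝 t₀, ContinuousAt (fun r => v r * u r) r := by
    filter_upwards [hv, hcu] with r h1 h2
    exact h1.mul h2
  obtain ⟨U, hU, hUo, hUm⟩ := eventually_nhds_iff.1 hcv
  have hmeas : StronglyMeasurableAtFilter (fun r => v r * u r) (𝓝 t₀) volume := by
    refine ContinuousOn.stronglyMeasurableAtFilter hUo ?_ t₀ hUm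
    intro x hx
    exact (hU x hx).continuousWithinAt
  have hd := intervalIntegral.integral_hasDerivAt_right hI hmeas hcv.self_of_nhds
  have hd2 : HasDerivAt (fun t => deriv u (t₀ / 2) + (∫ r in (t₀ / 2)..t, v r * u r) / (2 * μ))
      (v t₀ * u t₀ / (2 * μ)) t₀ := by
    exact (hd.div_const (2 * μ)).const_add _
  refine hd2.congr_of_eventuallyEq ?_
  filter_upwards [Ioi_mem_nhds (show t₀ / 2 < t₀ by linarith)] with t ht2
  have := h.eq (t₀ / 2) t hs (le_of_lt ht2)
  rw [← this]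
  field_simp
  ring

theorem V0_contX (K lam B r : ℝ) (h1 : 1 < r) (h9 : r < 9) : ContinuousAt (V0 K lam B) r := by
  have h : ContinuousAt (fun r : ℝ => B / (r - 1) ^ 2) r := by
    refine ContinuousAt.div continuousAt_const (by fun_prop) ?_
    have : r - 1 ≠ 0 := by linarith
    positivity
  refine h.congr ?_
  filter_upwards [Ioo_mem_nhds h1 h9] with y hy
  unfold V0
  rw [if_neg (by linarith [hy.1]), if_neg (not_le.2 hy.1), if_pos hy.2]

theorem keyX (μ : ℝ) (hμ : 0 < μ) (K lam : ℝ) (q : ℕ) (u : ℝ → ℝ)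
    (h : IsScat μ (V0 K lam (2 * μ * ((q + 2 : ℕ) : ℝ) * (((q + 2 : ℕ) : ℝ) - 1))) u) :
    8 * deriv u 9 = (q + 2) * u 9 := by
  set v := V0 K lam (2 * μ * ((q + 2 : ℕ) : ℝ) * (((q + 2 : ℕ) : ℝ) - 1)) with hvdef
  have hcont : ContinuousOn (fun r => deriv u r * (r - 1) ^ (q + 2) - u r * ((q + 2) * (r - 1) ^ (q + 1)))
      (Icc 1 9) := by
    intro r hr
    have hr0 : 0 < r := by linarith [hr.1]
    have hD := contDX hμ h r hr0
    have hu := (h.diff r hr0).continuousAt
    refine ContinuousAt.continuousWithinAt ?_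
    exact (hD.mul (by fun_prop)).sub (hu.mul (by fun_prop))
  have hder : ∀ r ∈ Ioo (1:ℝ) 9,
      HasDerivAt (fun r => deriv u r * (r - 1) ^ (q + 2) - u r * ((q + 2) * (r - 1) ^ (q + 1))) 0 r := by
    intro r hr
    have hr0 : 0 < r := by linarith [hr.1]
    have hD := derivDX hμ h r hr0 (by
      filter_upwards [Ioo_mem_nhds hr.1 hr.2] with y hy
      exact V0_contX K lam _ y hy.1 hy.2)
    have hu : HasDerivAt u (deriv u r) r := (h.diff r hr0).hasDerivAt
    have hp2 : HasDerivAt (fun y : ℝ => (y - 1) ^ (q + 2)) ((q + 2) * (r - 1) ^ (q + 1)) r := by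
      have := ((hasDerivAt_id r).sub_const (1:ℝ)).pow (q + 2)
      exact this.congr_deriv (by push_cast; simp)
    have hp1 : HasDerivAt (fun y : ℝ => ((q:ℝ) + 2) * (y - 1) ^ (q + 1))
        (((q:ℝ) + 2) * ((q + 1) * (r - 1) ^ q)) r := by
      have := (((hasDerivAt_id r).sub_const (1:ℝ)).pow (q + 1)).const_mul ((q:ℝ) + 2)
      exact this.congr_deriv (by push_cast; simp)
    have := (hD.mul hp2).sub (hu.mul hp1)
    refine HasDerivAt.congr_deriv this ?_
    have hv : v r = 2 * μ * (q + 2) * (q + 1) / (r - 1) ^ 2 := by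
      rw [hvdef]
      unfold V0
      rw [if_neg (by linarith [hr.1]), if_neg (not_le.2 hr.1), if_pos hr.2]
      push_cast
      ring
    rw [hv]
    have h0 : r - 1 ≠ 0 := by linarith [hr.1]
    have hμ0 : μ ≠ 0 := hμ.ne'
    field_simp
    ring
  obtain ⟨c, hc, hc2⟩ := exists_hasDerivAt_eq_slope
    (fun r => deriv u r * (r - 1) ^ (q + 2) - u r * ((q + 2) * (r - 1) ^ (q + 1))) (fun _ => 0)
    (by norm_num : (1:ℝ) < 9) hcont hder
  have h8 : (9:ℝ) - 1 ≠ 0 := by norm_num
  rw [eq_div_iff h8, zero_mul] at hc2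
  have e1 : (1:ℝ) - 1 = 0 := by norm_num
  have e9 : (9:ℝ) - 1 = 8 := by norm_num
  simp only [e1, e9] at hc2
  have z1 : (0:ℝ) ^ (q + 2) = 0 := by simp
  have z2 : (0:ℝ) ^ (q + 1) = 0 := by simp
  rw [z1, z2] at hc2
  have h8p : (8:ℝ) ^ (q + 1) ≠ 0 := by positivity
  have : (8:ℝ) ^ (q + 1) * (8 * deriv u 9) = (8:ℝ) ^ (q + 1) * ((q + 2) * u 9) := by
    have e : (8:ℝ) ^ (q + 2) = 8 ^ (q + 1) * 8 := by ring
    rw [e] at hc2
    linarith
  exact mul_left_cancel₀ h8p this

theorem farX (μ : ℝ) (hμ : 0 < μ) (K lam B : ℝ) (u : ℝ → ℝ)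
    (h : IsScat μ (V0 K lam B) u) (r : ℝ) (hr : 9 ≤ r) :
    deriv u r = deriv u 9 := by
  have h1 := h.eq 9 r (by norm_num) hr
  have h2 : (∫ x in (9:ℝ)..r, V0 K lam B x * u x) = 0 := by
    rw [intervalIntegral.integral_of_le hr]
    refine setIntegral_eq_zero_of_forall_eq_zero ?_
    intro x hx
    have hx9 : 9 < x := hx.1
    unfold V0
    rw [if_neg (by linarith), if_neg (by linarith), if_neg (by linarith), zero_mul]
  rw [h2] at h1
  have : (2 * μ) * (deriv u r - deriv u 9) = (2 * μ) * 0 := by rw [h1, mul_zero]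
  have h3 := mul_left_cancel₀ (by positivity : (2 * μ) ≠ 0) this
  linarith

theorem farUX (μ : ℝ) (hμ : 0 < μ) (K lam B : ℝ) (u : ℝ → ℝ)
    (h : IsScat μ (V0 K lam B) u) (r : ℝ) (hr : 9 < r) :
    u r = u 9 + deriv u 9 * (r - 9) := by
  obtain ⟨c, hc, hc2⟩ := exists_hasDerivAt_eq_slope u (deriv u) hr
    (fun x hx => (h.diff x (by linarith [hx.1])).continuousAt.continuousWithinAt)
    (fun x hx => (h.diff x (by linarith [hx.1])).hasDerivAt)
  rw [farX μ hμ K lam B u h c hc.1.le, eq_div_iff (by linarith)] at hc2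
  linarith

theorem scat (μ : ℝ) (hμ : 0 < μ) (K lam : ℝ) (p : ℕ) (hp : 2 ≤ p) :
    HasScatLen μ (V0 K lam (2 * μ * p * (p - 1))) (9 - 8 / p) := by
  obtain ⟨q, rfl⟩ : ∃ q, p = q + 2 := ⟨p - 2, by omega⟩
  refine ⟨⟨W0X q, W0X_scat μ K lam q, ?_⟩, ?_⟩
  · intro hev
    obtain ⟨r, hr⟩ := (hev.and (eventually_gt_atTop (9:ℝ))).exists
    have h1 := hr.1
    have h9 : 9 < r := hr.2
    unfold W0X at h1
    rw [if_neg (by linarith), if_neg (not_le.2 h9)] at h1
    have h2 : 0 < (8:ℝ) ^ (q + 2) := by positivity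
    have h3 : 0 ≤ ((q:ℝ) + 2) * 8 ^ (q + 1) * (r - 9) := by
      have : 0 ≤ r - 9 := by linarith
      positivity
    linarith
  · intro u hu hne
    have hk := keyX μ hμ K lam q u hu
    have hu9 : u 9 ≠ 0 := by
      intro h0
      apply hne
      filter_upwards [eventually_gt_atTop (9:ℝ)] with r hr
      rw [farUX μ hμ K lam _ u hu r hr]
      rw [h0, mul_zero] at hk
      have : deriv u 9 = 0 := by linarith
      rw [this, h0]
      ring
    have hev : (fun r => r - u r / deriv u r) =ᶠ[atTop] fun _ => (9 - 8 / ((q + 2 : ℕ) : ℝ)) := by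
      filter_upwards [eventually_gt_atTop (9:ℝ)] with r hr
      rw [farUX μ hμ K lam _ u hu r hr, farX μ hμ K lam _ u hu r hr.le]
      have hD : deriv u 9 = (q + 2) * u 9 / 8 := by linarith
      rw [hD]
      have hq : ((q:ℝ) + 2) ≠ 0 := by positivity
      push_cast
      field_simp
      ring
    exact tendsto_const_nhds.congr' hev.symm

end BG631.JX
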