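import Pool.Agent.H631.BG.Base

open MeasureTheory Filter Topology Set
open scoped ENNReal NNReal BigOperators

namespace BG631.JY

section symm
variable {ι : Type} [Fintype ι] [DecidableEq ι]

/-- relabelling as a continuous linear equivalence -/
noncomputable def RL_bg (σ : Equiv.Perm ι) : (ι → E) ≃L[ℝ] (ι → E) :=
  (LinearEquiv.funCongrLeft ℝ E σ).toContinuousLinearEquiv

omit [DecidableEq ι] in
theorem RL_apply_bg (σ : Equiv.Perm ι) (x : ι → E) : RL_bg σ x = fun i => x (σ i) := rfl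

omit [DecidableEq ι] in
theorem mp_bg (σ : Equiv.Perm ι) :
    MeasurePreserving (fun x : ι → E => fun i => x (σ i)) volume volume := by
  have h := volume_measurePreserving_piCongrLeft (fun _ : ι => E) σ.symm
  have h2 : (⇑(MeasurableEquiv.piCongrLeft (fun _ : ι => E) σ.symm)) =
      (fun x : ι → E => fun i => x (σ i)) := by
    funext x i
    simp [MeasurableEquiv.coe_piCongrLeft, Equiv.piCongrLeft_apply]
  rw [h2] at h
  exact h

omit [DecidableEq ι] in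
theorem emb_bg (σ : Equiv.Perm ι) :
    MeasurableEmbedding (fun x : ι → E => fun i => x (σ i)) :=
  (RL_bg σ).toHomeomorph.measurableEmbedding

theorem pot_bg (v : ℝ → ℝ) (σ : Equiv.Perm ι) (x : ι → E) :
    pot v (fun i => x (σ i)) = pot v x := by
  unfold pot
  congr 1
  simp only [Finset.sum_erase_eq_sub (Finset.mem_univ _)]
  have h1 : ∀ i, ∑ j, v (dist (x (σ i)) (x (σ j))) = ∑ j, v (dist (x (σ i)) (x j)) := fun i =>
    Equiv.sum_comp σ (fun j => v (dist (x (σ i)) (x j)))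
  simp only [h1]
  exact Equiv.sum_comp σ (fun i => ∑ j, v (dist (x i) (x j)) - v (dist (x i) (x i)))

/-- the vector of relabelled values -/
noncomputable def vec_bg (ψ : (ι → E) → ℝ) (x : ι → E) : EuclideanSpace ℝ (Equiv.Perm ι) :=
  WithLp.toLp 2 (fun σ => ψ (fun i => x (σ i)))

/-- the symmetrised function -/
noncomputable def Phi_bg (ψ : (ι → E) → ℝ) (x : ι → E) : ℝ := ‖vec_bg ψ x‖

theorem Phi_sq_bg (ψ : (ι → E) → ℝ) (x : ι → E) :
    Phi_bg ψ x ^ 2 = ∑ σ : Equiv.Perm ι, ψ (fun i => x (σ i)) ^ 2 := by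
  unfold Phi_bg
  rw [EuclideanSpace.norm_sq_eq]
  refine Finset.sum_congr rfl fun σ _ => ?_
  rw [Real.norm_eq_abs, sq_abs]
  rfl

theorem Phi_diff_bg (ψ : (ι → E) → ℝ) (x y : ι → E) :
    (Phi_bg ψ y - Phi_bg ψ x) ^ 2 ≤
      ∑ σ : Equiv.Perm ι, (ψ (fun i => y (σ i)) - ψ (fun i => x (σ i))) ^ 2 := by
  have h1 : |Phi_bg ψ y - Phi_bg ψ x| ≤ ‖vec_bg ψ y - vec_bg ψ x‖ := abs_norm_sub_norm_le _ _
  have h2 : ‖vec_bg ψ y - vec_bg ψ x‖ ^ 2 =
      ∑ σ : Equiv.Perm ι, (ψ (fun i => y (σ i)) - ψ (fun i => x (σ i))) ^ 2 := by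
    rw [EuclideanSpace.norm_sq_eq]
    refine Finset.sum_congr rfl fun σ _ => ?_
    rw [Real.norm_eq_abs, sq_abs]
    rfl
  rw [← h2, ← sq_abs]
  exact pow_le_pow_left₀ (abs_nonneg _) h1 2

omit [DecidableEq ι] in
theorem lip_rel_bg {ψ : (ι → E) → ℝ} {C : ℝ≥0} (h : LipschitzWith C ψ) (σ : Equiv.Perm ι) :
    LipschitzWith C (fun x : ι → E => ψ (fun i => x (σ i))) := by
  refine LipschitzWith.of_dist_le_mul fun x y => ?_
  refine (h.dist_le_mul _ _).trans ?_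
  refine mul_le_mul_of_nonneg_left ?_ C.2
  exact (dist_pi_le_iff dist_nonneg).2 fun i => dist_le_pi_dist x y (σ i)

theorem Phi_lip_bg {ψ : (ι → E) → ℝ} {C : ℝ≥0} (h : LipschitzWith C ψ) :
    ∃ C' : ℝ≥0, LipschitzWith C' (Phi_bg ψ) := by
  have h1 : LipschitzWith C (fun x : ι → E => fun σ : Equiv.Perm ι => ψ (fun i => x (σ i))) := by
    refine LipschitzWith.of_dist_le_mul fun x y => ?_
    refine (dist_pi_le_iff (by positivity)).2 fun σ => ?_
    exact (lip_rel_bg h σ).dist_le_mul x y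
  have h2 := (PiLp.lipschitzWith_toLp 2 (fun _ : Equiv.Perm ι => ℝ)).comp h1
  exact ⟨_, lipschitzWith_one_norm.comp h2⟩

theorem Phi_zero_bg {ψ : (ι → E) → ℝ} {x : ι → E}
    (h : ∀ σ : Equiv.Perm ι, ψ (fun i => x (σ i)) = 0) : Phi_bg ψ x = 0 := by
  have h1 := Phi_sq_bg ψ x
  simp only [h] at h1
  simpa using h1

theorem Phi_cpt_bg {ψ : (ι → E) → ℝ} (h : HasCompactSupport ψ) :
    HasCompactSupport (Phi_bg ψ) := by
  have h1 : IsCompact (⋃ σ : Equiv.Perm ι, (RL_bg σ).toHomeomorph ⁻¹' (tsupport ψ)) :=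
    isCompact_iUnion fun σ => (RL_bg σ).toHomeomorph.isCompact_preimage.2 h
  refine HasCompactSupport.intro h1 fun x hx => Phi_zero_bg fun σ => ?_
  by_contra hne
  apply hx
  refine mem_iUnion.2 ⟨σ, ?_⟩
  exact subset_tsupport ψ hne

/-- gradient inequality at a point of differentiability -/
theorem fderiv_bg (ψ : (ι → E) → ℝ) (x w : ι → E) (hΦ : DifferentiableAt ℝ (Phi_bg ψ) x)
    (hψ : ∀ σ : Equiv.Perm ι, DifferentiableAt ℝ (fun x : ι → E => ψ (fun i => x (σ i))) x) :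
    (fderiv ℝ (Phi_bg ψ) x w) ^ 2 ≤
      ∑ σ : Equiv.Perm ι, (fderiv ℝ (fun x : ι → E => ψ (fun i => x (σ i))) x w) ^ 2 := by
  have hline : HasDerivAt (fun t : ℝ => x + t • w) w 0 := by
    have := ((hasDerivAt_id (0:ℝ)).smul_const w).const_add x
    simpa using this
  have h0 : (fun t : ℝ => x + t • w) 0 = x := by simp
  have key : ∀ f : (ι → E) → ℝ, DifferentiableAt ℝ f x →
      Tendsto (fun t => (slope (fun t : ℝ => f (x + t • w)) 0 t) ^ 2) (𝓝[≠] 0)
        (𝓝 ((fderiv ℝ f x w) ^ 2)) := by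
    intro f hf
    have h1 : HasFDerivAt f (fderiv ℝ f x) ((fun t : ℝ => x + t • w) 0) := by
      rw [h0]; exact hf.hasFDerivAt
    have h2 := h1.comp_hasDerivAt 0 hline
    exact (hasDerivAt_iff_tendsto_slope.1 h2).pow 2
  have hL := key _ hΦ
  have hR : Tendsto (fun t => ∑ σ : Equiv.Perm ι,
      (slope (fun t : ℝ => ψ (fun i => (x + t • w) (σ i))) 0 t) ^ 2) (𝓝[≠] 0)
      (𝓝 (∑ σ : Equiv.Perm ι, (fderiv ℝ (fun x : ι → E => ψ (fun i => x (σ i))) x w) ^ 2)) :=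
    tendsto_finsetSum _ fun σ _ => key (fun x : ι → E => ψ (fun i => x (σ i))) (hψ σ)
  refine le_of_tendsto_of_tendsto' hL hR fun t => ?_
  have hd := Phi_diff_bg ψ x (x + t • w)
  simp only [slope_def_field, sub_zero, zero_smul, add_zero]
  simp only [div_pow]
  rw [← Finset.sum_div]
  exact div_le_div_of_nonneg_right hd (by positivity)

omit [DecidableEq ι] in
theorem fderiv_rel_bg (ψ : (ι → E) → ℝ) (σ : Equiv.Perm ι) (x w : ι → E) :
    fderiv ℝ (fun x : ι → E => ψ (fun i => x (σ i))) x w =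
      fderiv ℝ ψ (fun i => x (σ i)) (fun i => w (σ i)) := by
  have h := (RL_bg σ).comp_right_fderiv (f := ψ) (x := x)
  have h2 := congrArg (fun L : (ι → E) →L[ℝ] ℝ => L w) h
  exact h2

theorem kin_rel_bg (ψ : (ι → E) → ℝ) (σ : Equiv.Perm ι) (x : ι → E) :
    kin (fun x : ι → E => ψ (fun i => x (σ i))) x = kin ψ (fun i => x (σ i)) := by
  unfold kin pd
  simp only [fderiv_rel_bg]
  have h1 : ∀ (i : ι) (e : E), (fun j => (Pi.single i e : ι → E) (σ j)) =
      Pi.single (σ.symm i) e := by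
    intro i e
    funext j
    by_cases hj : σ j = i
    · have : j = σ.symm i := by rw [← hj]; simp
      rw [hj, this, Pi.single_eq_same, Pi.single_eq_same]
    · have : j ≠ σ.symm i := by
        intro h; apply hj; rw [h]; simp
      rw [Pi.single_eq_of_ne hj, Pi.single_eq_of_ne this]
  simp only [h1]
  exact Equiv.sum_comp σ.symm (fun i => ∑ k, ‖fderiv ℝ ψ (fun i => x (σ i))
    (Pi.single i (EuclideanSpace.single k (1 : ℝ)))‖ ^ 2)

theorem kin_int_bg {ψ : (ι → E) → ℝ} (hlip : ∃ C : ℝ≥0, LipschitzWith C ψ)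
    (hcpt : HasCompactSupport ψ) : Integrable (kin ψ) := by
  obtain ⟨C, hC⟩ := hlip
  unfold kin
  refine integrable_finsetSum _ fun i _ => integrable_finsetSum _ fun k _ => ?_
  set w : ι → E := Pi.single i (EuclideanSpace.single k (1 : ℝ)) with hw
  have hm : Measurable (fun x => fderiv ℝ ψ x w) := measurable_fderiv_apply_const ℝ ψ w
  have hsub : Function.support (fun x => ‖fderiv ℝ ψ x w‖ ^ 2) ⊆ tsupport ψ := by
    intro x hx
    apply support_fderiv_subset ℝ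
    intro h
    apply hx
    simp [h]
  have hK : IsCompact (tsupport ψ) := hcpt
  show Integrable (fun x => ‖fderiv ℝ ψ x w‖ ^ 2)
  rw [← integrableOn_iff_integrable_of_support_subset hsub]
  refine Measure.integrableOn_of_bounded (M := (C * ‖w‖) ^ 2) hK.measure_lt_top.ne
    ((hm.norm.pow_const 2).aestronglyMeasurable) ?_
  refine Eventually.of_forall fun x => ?_
  rw [Real.norm_eq_abs, abs_of_nonneg (by positivity)]
  refine pow_le_pow_left₀ (norm_nonneg _) ?_ 2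
  refine (ContinuousLinearMap.le_opNorm _ _).trans ?_
  exact mul_le_mul_of_nonneg_right (norm_fderiv_le_of_lipschitz ℝ hC) (norm_nonneg _)

/-- symmetrisation: the bosonic and the unrestricted variational problems agree -/
theorem symmetrise (v : ℝ → ℝ) (ψ : (ι → E) → ℝ) (h : IsState v ψ) :
    ∃ Φ : (ι → E) → ℝ, IsState v Φ ∧ (∀ (σ : Equiv.Perm ι) x, Φ (fun i => x (σ i)) = Φ x) ∧
      (∀ x, Φ x ≠ 0 → ∃ σ : Equiv.Perm ι, ψ (fun i => x (σ i)) ≠ 0) ∧
      ∫ x, ‖Φ x‖ ^ 2 = (Fintype.card ι).factorial * ∫ x, ‖ψ x‖ ^ 2 ∧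
      ∀ μ : ℝ, 0 ≤ μ → energy μ v Φ ≤ (Fintype.card ι).factorial * energy μ v ψ := by
  obtain ⟨C, hC⟩ := h.lip
  have hΦlip := Phi_lip_bg hC
  have hΦcpt := Phi_cpt_bg h.cpt
  have hnorm : ∀ x, ‖Phi_bg ψ x‖ ^ 2 = ∑ σ : Equiv.Perm ι, ‖ψ (fun i => x (σ i))‖ ^ 2 := by
    intro x
    rw [Real.norm_eq_abs, sq_abs, Phi_sq_bg]
    refine Finset.sum_congr rfl fun σ _ => ?_
    rw [Real.norm_eq_abs, sq_abs]
  have hpotint : ∀ σ : Equiv.Perm ι, Integrable
      (fun x : ι → E => pot v (fun i => x (σ i)) * ‖ψ (fun i => x (σ i))‖ ^ 2) := fun σ =>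
    ((mp_bg σ).integrable_comp_emb (emb_bg σ) (g := fun x => pot v x * ‖ψ x‖ ^ 2)).2 h.int
  have hpoteq : ∀ x : ι → E, pot v x * ‖Phi_bg ψ x‖ ^ 2 =
      ∑ σ : Equiv.Perm ι, pot v (fun i => x (σ i)) * ‖ψ (fun i => x (σ i))‖ ^ 2 := by
    intro x
    rw [hnorm, Finset.mul_sum]
    refine Finset.sum_congr rfl fun σ _ => ?_
    rw [pot_bg]
  have hΦint : Integrable (fun x => pot v x * ‖Phi_bg ψ x‖ ^ 2) := by
    simp only [hpoteq]
    exact integrable_finsetSum _ fun σ _ => hpotint σ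
  have hcard : (Fintype.card (Equiv.Perm ι) : ℝ) = (Fintype.card ι).factorial := by
    rw [Fintype.card_perm]
  refine ⟨Phi_bg ψ, ⟨hΦlip, hΦcpt, hΦint⟩, ?_, ?_, ?_, ?_⟩
  · intro σ x
    have h1 : Phi_bg ψ (fun i => x (σ i)) ^ 2 = Phi_bg ψ x ^ 2 := by
      rw [Phi_sq_bg, Phi_sq_bg]
      exact Equiv.sum_comp (Equiv.mulLeft σ)
        (fun τ : Equiv.Perm ι => ψ (fun i => x (τ i)) ^ 2)
    exact (sq_eq_sq₀ (norm_nonneg _) (norm_nonneg _)).1 h1
  · intro x hx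
    by_contra hcon
    push Not at hcon
    exact hx (Phi_zero_bg hcon)
  · simp only [hnorm]
    have hsqint : Integrable (fun x : ι → E => ‖ψ x‖ ^ 2) := by
      refine Continuous.integrable_of_hasCompactSupport (hC.continuous.norm.pow 2) ?_
      exact h.cpt.norm.comp_left (g := fun t : ℝ => t ^ 2) (by norm_num)
    have hi : ∀ σ : Equiv.Perm ι, Integrable (fun x : ι → E => ‖ψ (fun i => x (σ i))‖ ^ 2) :=
      fun σ => ((mp_bg σ).integrable_comp_emb (emb_bg σ) (g := fun x => ‖ψ x‖ ^ 2)).2 hsqint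
    rw [integral_finsetSum _ fun σ _ => hi σ]
    have h1 : ∀ σ : Equiv.Perm ι, ∫ x : ι → E, ‖ψ (fun i => x (σ i))‖ ^ 2 = ∫ x, ‖ψ x‖ ^ 2 :=
      fun σ => (mp_bg σ).integral_comp (emb_bg σ) (fun x => ‖ψ x‖ ^ 2)
    simp only [h1]
    rw [Finset.sum_const, Finset.card_univ, nsmul_eq_mul, hcard]
  · intro μ hμ
    unfold energy
    have hkψ : Integrable (kin ψ) := kin_int_bg h.lip h.cpt
    have hkΦ : Integrable (kin (Phi_bg ψ)) := kin_int_bg hΦlip hΦcpt
    have hF : Integrable (fun x : ι → E => μ * kin ψ x + pot v x * ‖ψ x‖ ^ 2) :=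
      (hkψ.const_mul μ).add h.int
    have hFσ : ∀ σ : Equiv.Perm ι, Integrable (fun x : ι → E =>
        μ * kin ψ (fun i => x (σ i)) + pot v (fun i => x (σ i)) * ‖ψ (fun i => x (σ i))‖ ^ 2) :=
      fun σ => ((mp_bg σ).integrable_comp_emb (emb_bg σ)
        (g := fun x => μ * kin ψ x + pot v x * ‖ψ x‖ ^ 2)).2 hF
    have hFI : ∀ σ : Equiv.Perm ι, ∫ x : ι → E,
        (μ * kin ψ (fun i => x (σ i)) + pot v (fun i => x (σ i)) * ‖ψ (fun i => x (σ i))‖ ^ 2) =
        ∫ x, (μ * kin ψ x + pot v x * ‖ψ x‖ ^ 2) :=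
      fun σ => (mp_bg σ).integral_comp (emb_bg σ) (fun x => μ * kin ψ x + pot v x * ‖ψ x‖ ^ 2)
    have hrhs : (Fintype.card ι).factorial * ∫ x, (μ * kin ψ x + pot v x * ‖ψ x‖ ^ 2) =
        ∫ x : ι → E, ∑ σ : Equiv.Perm ι, (μ * kin ψ (fun i => x (σ i)) +
          pot v (fun i => x (σ i)) * ‖ψ (fun i => x (σ i))‖ ^ 2) := by
      rw [integral_finsetSum _ fun σ _ => hFσ σ]
      simp only [hFI]
      rw [Finset.sum_const, Finset.card_univ, nsmul_eq_mul, hcard]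
    rw [hrhs]
    obtain ⟨C', hC'⟩ := hΦlip
    have hdΦ : ∀ᵐ x : ι → E, DifferentiableAt ℝ (Phi_bg ψ) x := hC'.ae_differentiableAt
    have hdψ : ∀ᵐ x : ι → E, ∀ σ : Equiv.Perm ι,
        DifferentiableAt ℝ (fun x : ι → E => ψ (fun i => x (σ i))) x :=
      ae_all_iff.2 fun σ => (lip_rel_bg hC σ).ae_differentiableAt
    refine integral_mono_ae ((hkΦ.const_mul μ).add hΦint)
      (integrable_finsetSum _ fun σ _ => hFσ σ) ?_
    filter_upwards [hdΦ, hdψ] with x hx1 hx2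
    have hk : μ * kin (Phi_bg ψ) x ≤ μ * ∑ σ : Equiv.Perm ι, kin ψ (fun i => x (σ i)) := by
      refine mul_le_mul_of_nonneg_left ?_ hμ
      simp only [← kin_rel_bg]
      unfold kin
      have e : ∑ σ : Equiv.Perm ι, ∑ i, ∑ k, ‖pd (fun x : ι → E => ψ (fun i => x (σ i))) x i k‖ ^ 2 =
          ∑ i, ∑ k, ∑ σ : Equiv.Perm ι,
            ‖pd (fun x : ι → E => ψ (fun i => x (σ i))) x i k‖ ^ 2 := by
        rw [Finset.sum_comm]
        exact Finset.sum_congr rfl fun i _ => Finset.sum_comm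
      rw [e]
      refine Finset.sum_le_sum fun i _ => ?_
      refine Finset.sum_le_sum fun k _ => ?_
      have := fderiv_bg ψ x (Pi.single i (EuclideanSpace.single k (1 : ℝ))) hx1 hx2
      simp only [pd, Real.norm_eq_abs, sq_abs]
      exact this
    rw [hpoteq, Finset.sum_add_distrib, ← Finset.mul_sum]
    linarith
end symm

end BG631.JY
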