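import Pool.Agent.H631.BG.Pos
import Pool.Agent.H631.BG.Asy
import Pool.Agent.H631.BG.T1
import Pool.Agent.H631.BG.T2
import Pool.Agent.H631.BG.T3
import Pool.Agent.H631.BG.G
import Pool.Agent.H631.BG.Y
import Pool.Agent.H631.BG.E
import Pool.Agent.H631.BG.X

/-! Assembly of the counterexample. -/

open MeasureTheory Filter Topology Set
open scoped ENNReal NNReal BigOperators

namespace BG631

/-- from a real trial state to a normalised bosonic state -/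
theorem exists_state (N : ℕ) (μ : ℝ) (hμ : 0 ≤ μ) (v : ℝ → ℝ) (L : ℝ)
    (ψ : (Fin N → E) → ℝ) (hψ : IsState v ψ) (hbox : ∀ x, ψ x ≠ 0 → ∀ i, x i ∈ box L)
    (hnorm : 0 < ∫ x, ‖ψ x‖ ^ 2) :
    ∃ χ : (Fin N → E) → ℂ, IsState v χ ∧ (∀ (σ : Equiv.Perm (Fin N)) x, χ (fun i => x (σ i)) = χ x) ∧
      (∀ x, χ x ≠ 0 → ∀ i, x i ∈ box L) ∧ ∫ x, ‖χ x‖ ^ 2 = 1 ∧
      energy μ v χ ≤ energy μ v ψ / ∫ x, ‖ψ x‖ ^ 2 := by
  obtain ⟨Φ, hΦ, hsym, hsupp, hint, hen⟩ := JY.symmetrise v ψ hψ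
  set f : ℝ := ((Fintype.card (Fin N)).factorial : ℝ) with hf
  have hfpos : 0 < f := by rw [hf]; exact_mod_cast Nat.factorial_pos _
  set I : ℝ := ∫ x, ‖ψ x‖ ^ 2 with hI
  have hn2 : 0 < ∫ x, ‖Φ x‖ ^ 2 := by rw [hint]; positivity
  set c : ℝ := (Real.sqrt (∫ x, ‖Φ x‖ ^ 2))⁻¹ with hc
  have hc2 : c ^ 2 = (f * I)⁻¹ := by
    rw [hc, inv_pow, Real.sq_sqrt hn2.le, hint]
  have hcpos : 0 < c := by rw [hc]; exact inv_pos.mpr (Real.sqrt_pos.mpr hn2)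
  have hS := JE.isState_scale c v Φ hΦ
  obtain ⟨hS1, hS2, hS3⟩ := JZ.ofReal_state μ v (fun x => c * Φ x) hS
  refine ⟨fun x => ((c * Φ x : ℝ) : ℂ), hS1, ?_, ?_, ?_, ?_⟩
  · intro σ x
    show ((c * Φ (fun i => x (σ i)) : ℝ) : ℂ) = ((c * Φ x : ℝ) : ℂ)
    rw [hsym]
  · intro x hx i
    have h1 : Φ x ≠ 0 := by
      intro h0
      apply hx
      show ((c * Φ x : ℝ) : ℂ) = 0
      rw [h0, mul_zero]
      simp
    obtain ⟨σ, hσ⟩ := hsupp x h1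
    have h2 := hbox _ hσ (σ.symm i)
    simpa using h2
  · have h1 : ∀ x, ‖((c * Φ x : ℝ) : ℂ)‖ ^ 2 = c ^ 2 * ‖Φ x‖ ^ 2 := by
      intro x
      rw [hS2, norm_mul, mul_pow, Real.norm_eq_abs c, sq_abs]
    simp_rw [h1]
    rw [integral_const_mul, hc2, hint]
    exact inv_mul_cancel₀ (by positivity)
  · rw [hS3, JE.energy_scale, hc2]
    have h2 := hen μ hμ
    have h3 : (f * I)⁻¹ * energy μ v Φ ≤ (f * I)⁻¹ * (f * energy μ v ψ) :=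
      mul_le_mul_of_nonneg_left h2 (by positivity)
    refine h3.trans (le_of_eq ?_)
    field_simp

theorem clump_exists
    (dimer : ∃ φ : (Fin 2 → E) → ℝ, (∃ C : ℝ≥0, LipschitzWith C φ) ∧ HasCompactSupport φ ∧
      (∀ x, φ x ≠ 0 → 1 / 2 ≤ dist (x 0) (x 1) ∧ dist (x 0) (x 1) < 1) ∧ 0 < ∫ x, ‖φ x‖ ^ 2)
    (μ : ℝ) (hμ : 0 < μ) :
    ∃ K lam : ℝ, 0 ≤ lam ∧ 729 * 731 * lam ≤ K ∧ 0 < K ∧ (∀ n : ℕ, PosLump μ K lam (Fin n)) ∧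
      ∀ ε : ℝ, 0 < ε → ∃ n : ℕ, 2 ≤ n ∧ n < 2 * 729 ∧ ∃ φ : (Fin n → E) → ℝ, Clmp μ K lam ε n φ := by
  obtain ⟨K, lam, h1, h2, h3, h4, h5⟩ := JT3.threshold dimer
    (fun n K Λ a b c x hx => JT2.core_dom (fun n x hx hn => JC.clump_core x hx hn) n K Λ a b c x hx) μ hμ
  refine ⟨K, lam, h1, h2, h3, h4, ?_⟩
  intro ε hε
  obtain ⟨n, k1, k2, g, k3, k4, k5, k6⟩ := h5 ε hε
  obtain ⟨φ, l1, l2, l3, l4, l5, l6⟩ := JG.internal n (by omega) μ K lam ε hμ.le g k3 k4 k5 k6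
  exact ⟨n, k1, k2, φ, ⟨l1, l2, l3, l4, l5, l6⟩⟩

/-- the main construction -/
theorem main (μ : ℝ) (hμ : 0 < μ) :
    ∃ (v : ℝ → ℝ) (a : ℝ), Measurable v ∧ (∀ r, 9 ≤ r → v r = 0) ∧ (∃ b, ∀ r, -b ≤ v r) ∧ 8 ≤ a ∧
      HasScatLen μ v a ∧ NoBoundStates μ v ∧
      ∀ ρ : ℝ, 0 < ρ → ρ < 1 / 10 ^ 8 → ∀ᶠ L : ℝ in atTop,
        ∃ χ : (Fin ⌊ρ * L ^ 3⌋₊ → E) → ℂ, IsDir v ⌊ρ * L ^ 3⌋₊ L χ ∧
          energy μ v χ ≤ 16 * Real.pi * μ * ρ * (ρ * L ^ 3) := by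
  obtain ⟨K, lam, h1, h2, h3, h4, h5⟩ := clump_exists JT1.dimer μ hμ
  obtain ⟨q, hq⟩ := exists_nat_gt (64 * K / μ)
  set p : ℕ := q + 8 with hp
  have hpq : (p : ℝ) = q + 8 := by rw [hp]; push_cast; ring
  have hq0 : (0:ℝ) ≤ q := Nat.cast_nonneg q
  have hB : 64 * K ≤ 2 * μ * p * (p - 1) := by
    rw [div_lt_iff₀ hμ] at hq
    rw [hpq]
    have : 0 ≤ q * μ := by positivity
    nlinarith
  have hB0 : 0 < 2 * μ * (p : ℝ) * (p - 1) := by linarith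
  have hpos := nonneg_complex μ K lam (2 * μ * p * (p - 1)) hμ.le h1 h2 hB hB0 h4
  obtain ⟨C, hC0, hC⟩ := singles_closed μ hμ.le
  refine ⟨V0 K lam (2 * μ * p * (p - 1)), 9 - 8 / p, measurable_V0 _ _ _, ?_, ⟨lam, ?_⟩, ?_, ?_, ?_, ?_⟩
  · intro r hr
    unfold V0
    rw [if_neg (by linarith), if_neg (by linarith), if_neg (by linarith)]
  · intro r
    unfold V0
    split_ifs
    · linarith
    · linarith
    · have : 0 ≤ 2 * μ * (p : ℝ) * (p - 1) / (r - 1) ^ 2 := by positivity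
      linarith
    · linarith
  · have : 8 / (p : ℝ) ≤ 1 := by
      rw [div_le_one (by rw [hpq]; linarith), hpq]; linarith
    linarith
  · exact JX.scat μ hμ K lam p (by omega)
  · intro N ψ hψ
    exact hpos (Fin N) ψ hψ
  · intro ρ hρ hρ1
    obtain ⟨n, k1, k2, φ, hφ⟩ := h5 (μ * ρ) (by positivity)
    filter_upwards [asy μ ρ C hμ hρ hρ1 hC0] with L hL
    obtain ⟨l1, l2, l3, l4⟩ := hL n k1 k2
    obtain ⟨ψ, m1, m2, m3, m4⟩ := total μ K lam (2 * μ * p * (p - 1)) (μ * ρ) C hμ.le hC n (by omega) φ hφ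
      (⌊ρ * L ^ 3⌋₊ / n) (⌊ρ * L ^ 3⌋₊ % n) ⌊ρ * L ^ 3⌋₊ (by rw [Nat.div_add_mod']) L (1 / 10) _ l1 l2
      (by norm_num) rfl l3
    obtain ⟨χ, n1, n2, n3, n4, n5⟩ := exists_state ⌊ρ * L ^ 3⌋₊ μ hμ.le _ L ψ m1 m2 m3
    refine ⟨χ, ⟨n1, n2, n3, n4⟩, n5.trans ?_⟩
    rw [div_le_iff₀ m3]
    exact m4.trans (mul_le_mul_of_nonneg_right l4 m3.le)

end BG631
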