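import Pool.Agent.H631.BG.Base

open MeasureTheory Filter Topology Set
open scoped ENNReal NNReal BigOperators

namespace BG631.JH1

theorem H1_int_bound (g : E → ℝ) (c : ℝ) (S : Set E) (hSm : MeasurableSet S)
    (hSf : volume S ≠ ⊤) (hg0 : ∀ z, 0 ≤ g z) (hgc : ∀ z, g z ≤ c)
    (hout : ∀ z, z ∉ S → g z = 0) : ∫ z, g z ≤ c * volume.real S := by
  have h1 : ∫ z, g z ≤ ∫ z, S.indicator (fun _ => c) z := by
    apply integral_mono_of_nonneg (ae_of_all _ hg0)
    · exact (integrable_indicator_iff hSm).2 (integrableOn_const hSf)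
    · refine ae_of_all _ fun z => ?_
      show g z ≤ S.indicator (fun _ => c) z
      by_cases hz : z ∈ S
      · rw [indicator_of_mem hz]; exact hgc z
      · rw [indicator_of_notMem hz, hout z hz]
  rw [integral_indicator_const c hSm, smul_eq_mul, mul_comm] at h1
  exact h1

theorem ff_props : (∀ z, 0 ≤ ff z ∧ ff z ≤ 1) ∧ LipschitzWith (Real.toNNReal (1 / 22)) ff ∧
    (∀ z, ‖z‖ ≤ 11 → ff z = 0) ∧ (∀ z, 33 ≤ ‖z‖ → ff z = 1) ∧ (∀ z, ff (-z) = ff z) ∧
    (∀ z, (‖z‖ < 11 ∨ 33 < ‖z‖) → fderiv ℝ ff z = 0) ∧ (∀ z, ‖fderiv ℝ ff z‖ ≤ 1 / 22) ∧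
    ∫ z, ‖fderiv ℝ ff z‖ ^ 2 ≤ I0 := by
  have h22 : ((Real.toNNReal (1 / 22) : ℝ≥0) : ℝ) = 1 / 22 := Real.coe_toNNReal _ (by norm_num)
  have hlip : LipschitzWith (Real.toNNReal (1 / 22)) ff := by
    have h1 : LipschitzWith (Real.toNNReal (1 / 22)) (fun z : E => (‖z‖ - 11) / 22) := by
      apply LipschitzWith.of_dist_le_mul
      intro x y
      rw [h22, Real.dist_eq]
      have e : (‖x‖ - 11) / 22 - (‖y‖ - 11) / 22 = (1 / 22) * (‖x‖ - ‖y‖) := by ring
      rw [e, abs_mul, abs_of_pos (by norm_num : (0 : ℝ) < 1 / 22), dist_eq_norm]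
      exact mul_le_mul_of_nonneg_left (abs_norm_sub_norm_le x y) (by norm_num)
    exact (h1.const_min 1).const_max 0
  have h0 : ∀ z : E, ‖z‖ ≤ 11 → ff z = 0 := by
    intro z hz
    unfold ff
    apply max_eq_left
    refine (min_le_right _ _).trans ?_
    rw [div_le_iff₀ (by norm_num)]
    linarith
  have h1 : ∀ z : E, 33 ≤ ‖z‖ → ff z = 1 := by
    intro z hz
    unfold ff
    have : 1 ≤ (‖z‖ - 11) / 22 := by
      rw [le_div_iff₀ (by norm_num)]
      linarith
    rw [min_eq_left this]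
    norm_num
  have hd0 : ∀ z : E, (‖z‖ < 11 ∨ 33 < ‖z‖) → fderiv ℝ ff z = 0 := by
    rintro z (hz | hz)
    · have : ff =ᶠ[𝓝 z] fun _ => (0 : ℝ) := by
        filter_upwards [continuous_norm.continuousAt.eventually_lt
          (continuousAt_const (y := (11 : ℝ))) hz] with w hw
        exact h0 w (le_of_lt hw)
      rw [this.fderiv_eq]
      simp
    · have : ff =ᶠ[𝓝 z] fun _ => (1 : ℝ) := by
        filter_upwards [(continuousAt_const (y := (33 : ℝ))).eventually_lt
          continuous_norm.continuousAt hz] with w hw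
        exact h1 w (le_of_lt hw)
      rw [this.fderiv_eq]
      simp
  have hd1 : ∀ z, ‖fderiv ℝ ff z‖ ≤ 1 / 22 := by
    intro z
    have := norm_fderiv_le_of_lipschitz ℝ (x₀ := z) hlip
    rwa [h22] at this
  refine ⟨fun z => ⟨le_max_left _ _, max_le (by norm_num) (min_le_left _ _)⟩, hlip, h0, h1,
    fun z => by simp [ff], hd0, hd1, ?_⟩
  have hcb : volume (Metric.closedBall (0 : E) 33) =
      ENNReal.ofReal (33 ^ 3 * (Real.pi * 4 / 3)) := by
    rw [EuclideanSpace.volume_closedBall_fin_three, ENNReal.ofReal_mul (by norm_num),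
      ENNReal.ofReal_pow (by norm_num)]
  have hb : volume (Metric.ball (0 : E) 11) = ENNReal.ofReal (11 ^ 3 * (Real.pi * 4 / 3)) := by
    rw [EuclideanSpace.volume_ball_fin_three, ENNReal.ofReal_mul (by norm_num),
      ENNReal.ofReal_pow (by norm_num)]
  have hmain := H1_int_bound (fun z => ‖fderiv ℝ ff z‖ ^ 2) ((1 / 22) ^ 2)
    (Metric.closedBall (0 : E) 33 \ Metric.ball (0 : E) 11)
    (measurableSet_closedBall.diff measurableSet_ball)
    (ne_top_of_le_ne_top (by rw [hcb]; exact ENNReal.ofReal_ne_top)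
      (measure_mono sdiff_subset))
    (fun z => by positivity)
    (fun z => pow_le_pow_left₀ (norm_nonneg _) (hd1 z) 2)
    (fun z hz => by
      have : ‖z‖ < 11 ∨ 33 < ‖z‖ := by
        by_contra hcon
        push Not at hcon
        apply hz
        simp only [Set.mem_sdiff, mem_closedBall_zero_iff, mem_ball_zero_iff, not_lt]
        exact ⟨hcon.2, hcon.1⟩
      simp [hd0 z this])
  refine hmain.trans (le_of_eq ?_)
  rw [measureReal_sdiff (Metric.ball_subset_closedBall.trans
    (Metric.closedBall_subset_closedBall (by norm_num))) measurableSet_ball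
    (by rw [hcb]; exact ENNReal.ofReal_ne_top)]
  rw [measureReal_def, measureReal_def, hcb, hb, ENNReal.toReal_ofReal (by positivity),
    ENNReal.toReal_ofReal (by positivity)]
  unfold I0
  ring

theorem H1_chi_zero {L : ℝ} {z : E} (k : Fin 3) (h : z k ≤ 1 ∨ L - 1 ≤ z k) : chi L z = 0 := by
  unfold chi
  apply max_eq_left
  rw [min_le_iff]; right
  simp only [min_le_iff]
  fin_cases k
  · simp only [Fin.zero_eta, Fin.isValue] at h
    left
    rcases h with h | h
    · left; linarith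
    · right; linarith
  · simp only [Fin.mk_one, Fin.isValue] at h
    right; left
    rcases h with h | h
    · left; linarith
    · right; linarith
  · have h' : z 2 ≤ 1 ∨ L - 1 ≤ z 2 := h
    right; right
    rcases h' with h | h
    · left; linarith
    · right; linarith

theorem H1_chi_one {L : ℝ} {z : E} (h : ∀ k, 2 ≤ z k ∧ z k ≤ L - 2) : chi L z = 1 := by
  unfold chi
  have h0 := h 0
  have h1 := h 1
  have h2 := h 2
  rw [min_eq_left]
  · norm_num
  · simp only [le_min_iff]
    refine ⟨⟨?_, ?_⟩, ⟨?_, ?_⟩, ?_, ?_⟩ <;> linarith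

theorem H1_coord_lip (k : Fin 3) : LipschitzWith 1 (fun z : E => z k) := by
  apply LipschitzWith.of_dist_le_mul
  intro x y
  rw [NNReal.coe_one, one_mul, Real.dist_eq, dist_eq_norm]
  have := PiLp.norm_apply_le (x - y) k
  simpa using this

theorem H1_vol_Icc (a b : ℝ) (hab : a ≤ b) :
    volume {z : E | ∀ k, a ≤ z k ∧ z k ≤ b} = ENNReal.ofReal ((b - a) ^ 3) := by
  have e : {z : E | ∀ k, a ≤ z k ∧ z k ≤ b} =
      (@WithLp.ofLp 2 (Fin 3 → ℝ)) ⁻¹' (Icc (fun _ => a) (fun _ => b)) := by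
    ext z
    simp only [mem_ofPred_eq, mem_preimage, mem_Icc, Pi.le_def]
    exact forall_and
  rw [e, (PiLp.volume_preserving_ofLp (Fin 3)).measure_preimage
    measurableSet_Icc.nullMeasurableSet, Real.volume_Icc_pi]
  rw [Finset.prod_const, Finset.card_univ, Fintype.card_fin, ENNReal.ofReal_pow (by linarith)]

theorem H1_vol_Ioo (a b : ℝ) (hab : a ≤ b) :
    volume {z : E | ∀ k, a < z k ∧ z k < b} = ENNReal.ofReal ((b - a) ^ 3) := by
  have e : {z : E | ∀ k, a < z k ∧ z k < b} =
      (@WithLp.ofLp 2 (Fin 3 → ℝ)) ⁻¹' (pi univ fun _ => Ioo a b) := by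
    ext z
    simp only [mem_ofPred_eq, mem_preimage, Set.mem_pi, mem_univ, true_imp_iff, mem_Ioo]
  rw [e, (PiLp.volume_preserving_ofLp (Fin 3)).measure_preimage
    (MeasurableSet.univ_pi fun _ => measurableSet_Ioo).nullMeasurableSet, Real.volume_pi_Ioo]
  rw [Finset.prod_const, Finset.card_univ, Fintype.card_fin, ENNReal.ofReal_pow (by linarith)]

theorem H1_coord_cont (k : Fin 3) : Continuous (fun z : E => z k) := (H1_coord_lip k).continuous

theorem H1_open (a b : ℝ) : IsOpen {z : E | ∀ k, a < z k ∧ z k < b} := by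
  simp only [ ofPred_forall]
  exact isOpen_iInter_of_finite fun k =>
    (isOpen_lt continuous_const (H1_coord_cont k)).inter (isOpen_lt (H1_coord_cont k) continuous_const)

theorem H1_closed (a b : ℝ) : IsClosed {z : E | ∀ k, a ≤ z k ∧ z k ≤ b} := by
  simp only [ofPred_forall]
  exact isClosed_iInter fun k =>
    (isClosed_le continuous_const (H1_coord_cont k)).inter
      (isClosed_le (H1_coord_cont k) continuous_const)

theorem chi_props (L : ℝ) (hL : 4 < L) : (∀ z, 0 ≤ chi L z ∧ chi L z ≤ 1) ∧ LipschitzWith 1 (chi L) ∧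
    (∀ z, chi L z ≠ 0 → ∀ k, 1 < z k ∧ z k < L - 1) ∧ (∀ z, (∀ k, 2 ≤ z k ∧ z k ≤ L - 2) → chi L z = 1) ∧
    (∀ z, ‖fderiv ℝ (chi L) z‖ ≤ 1) ∧ ∫ z, ‖fderiv ℝ (chi L) z‖ ^ 2 ≤ 6 * L ^ 2 ∧ HasCompactSupport (chi L) := by
  have hlip : LipschitzWith 1 (chi L) := by
    have ha : ∀ k : Fin 3, LipschitzWith 1 (fun z : E => z k - 1) := by
      intro k
      apply LipschitzWith.of_dist_le_mul
      intro x y
      rw [dist_sub_right]
      exact (H1_coord_lip k).dist_le_mul x y
    have hb : ∀ k : Fin 3, LipschitzWith 1 (fun z : E => L - 1 - z k) := by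
      intro k
      apply LipschitzWith.of_dist_le_mul
      intro x y
      rw [dist_sub_left]
      exact (H1_coord_lip k).dist_le_mul x y
    have hc : ∀ k : Fin 3, LipschitzWith 1 (fun z : E => min (z k - 1) (L - 1 - z k)) := by
      intro k
      have := (ha k).min (hb k)
      rwa [max_self] at this
    have h12 := (hc 1).min (hc 2)
    rw [max_self] at h12
    have h012 := (hc 0).min h12
    rw [max_self] at h012
    exact (h012.const_min 1).const_max 0
  have hne : ∀ z, chi L z ≠ 0 → ∀ k, 1 < z k ∧ z k < L - 1 := by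
    intro z hz k
    constructor
    · by_contra hn
      exact hz (H1_chi_zero k (Or.inl (not_lt.1 hn)))
    · by_contra hn
      exact hz (H1_chi_zero k (Or.inr (not_lt.1 hn)))
  have hd1 : ∀ z, ‖fderiv ℝ (chi L) z‖ ≤ 1 := by
    intro z
    have := norm_fderiv_le_of_lipschitz ℝ (x₀ := z) hlip
    rwa [NNReal.coe_one] at this
  have hd0 : ∀ z : E, z ∉ ({z : E | ∀ k, 1 ≤ z k ∧ z k ≤ L - 1} \
      {z : E | ∀ k, 2 < z k ∧ z k < L - 2}) → fderiv ℝ (chi L) z = 0 := by
    intro z hz
    rw [Set.mem_sdiff, not_and_or, not_not] at hz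
    rcases hz with hz | hz
    · have : chi L =ᶠ[𝓝 z] fun _ => (0 : ℝ) := by
        filter_upwards [(H1_closed 1 (L - 1)).isOpen_compl.mem_nhds hz] with w hw
        by_contra hn
        exact hw fun k => ⟨(hne w hn k).1.le, (hne w hn k).2.le⟩
      rw [this.fderiv_eq]
      simp
    · have : chi L =ᶠ[𝓝 z] fun _ => (1 : ℝ) := by
        filter_upwards [(H1_open 2 (L - 2)).mem_nhds hz] with w hw
        exact H1_chi_one fun k => ⟨(hw k).1.le, (hw k).2.le⟩
      rw [this.fderiv_eq]
      simp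
  refine ⟨fun z => ⟨le_max_left _ _, max_le (by norm_num) (min_le_left _ _)⟩, hlip, hne,
    fun z hz => H1_chi_one hz, hd1, ?_, ?_⟩
  · have hv1 := H1_vol_Icc 1 (L - 1) (by linarith)
    have hv2 := H1_vol_Ioo 2 (L - 2) (by linarith)
    have hmain := H1_int_bound (fun z => ‖fderiv ℝ (chi L) z‖ ^ 2) (1 ^ 2)
      ({z : E | ∀ k, 1 ≤ z k ∧ z k ≤ L - 1} \ {z : E | ∀ k, 2 < z k ∧ z k < L - 2})
      ((H1_closed 1 (L - 1)).measurableSet.diff (H1_open 2 (L - 2)).measurableSet)
      (ne_top_of_le_ne_top (by rw [hv1]; exact ENNReal.ofReal_ne_top)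
        (measure_mono sdiff_subset))
      (fun z => by positivity)
      (fun z => pow_le_pow_left₀ (norm_nonneg _) (hd1 z) 2)
      (fun z hz => by simp [hd0 z hz])
    refine hmain.trans ?_
    rw [measureReal_sdiff (fun z hz k => ⟨by linarith [(hz k).1], by linarith [(hz k).2]⟩)
      (H1_open 2 (L - 2)).measurableSet (by rw [hv1]; exact ENNReal.ofReal_ne_top)]
    rw [measureReal_def, measureReal_def, hv1, hv2,
      ENNReal.toReal_ofReal (pow_nonneg (by linarith) 3),
      ENNReal.toReal_ofReal (pow_nonneg (by linarith) 3)]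
    nlinarith
  · apply HasCompactSupport.intro (isCompact_closedBall (0 : E) (2 * L))
    intro z hz
    by_contra hn
    apply hz
    have h := hne z hn
    rw [mem_closedBall_zero_iff, EuclideanSpace.norm_eq]
    rw [Real.sqrt_le_left (by linarith)]
    rw [Fin.sum_univ_three]
    have hk : ∀ k, ‖z k‖ ^ 2 ≤ L ^ 2 := by
      intro k
      apply pow_le_pow_left₀ (norm_nonneg _)
      rw [Real.norm_eq_abs, abs_le]
      have := h k
      constructor <;> linarith [this.1, this.2]
    have := hk 0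
    have := hk 1
    have := hk 2
    nlinarith

end BG631.JH1
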