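import Pool.Agent.H631.BG.Base

open MeasureTheory Filter Topology Set
open scoped ENNReal NNReal BigOperators

namespace BG631.JH2

theorem prod_fderiv_bound {κ : Type*} (s : Finset κ) (f : κ → E → ℝ) (z : E)
    (h01 : ∀ i, 0 ≤ f i z ∧ f i z ≤ 1) (hd : ∀ i, DifferentiableAt ℝ (f i) z) :
    DifferentiableAt ℝ (fun w => ∏ i ∈ s, f i w) z ∧
    ‖fderiv ℝ (fun w => ∏ i ∈ s, f i w) z‖ ≤ ∑ i ∈ s, ‖fderiv ℝ (f i) z‖ ∧
    0 ≤ ∏ i ∈ s, f i z ∧ ∏ i ∈ s, f i z ≤ 1 := by
  classical
  induction s using Finset.induction_on with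
  | empty => simp
  | insert a s ha ih =>
    obtain ⟨h1, h2, h3, h4⟩ := ih
    have e : (fun w => ∏ i ∈ insert a s, f i w) = fun w => f a w * ∏ i ∈ s, f i w := by
      funext w; rw [Finset.prod_insert ha]
    rw [e, Finset.sum_insert ha, Finset.prod_insert ha]
    refine ⟨(hd a).mul h1, ?_, mul_nonneg (h01 a).1 h3, mul_le_one₀ (h01 a).2 h3 h4⟩
    rw [fderiv_fun_mul (hd a) h1]
    refine (norm_add_le _ _).trans ?_
    rw [norm_smul, norm_smul, Real.norm_of_nonneg (h01 a).1, Real.norm_of_nonneg h3]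
    have ha1 : f a z * ‖fderiv ℝ (fun w => ∏ i ∈ s, f i w) z‖ ≤ 1 * ∑ i ∈ s, ‖fderiv ℝ (f i) z‖ :=
      mul_le_mul (h01 a).2 h2 (norm_nonneg _) zero_le_one
    have ha2 : (∏ i ∈ s, f i z) * ‖fderiv ℝ (f a) z‖ ≤ 1 * ‖fderiv ℝ (f a) z‖ :=
      mul_le_mul_of_nonneg_right h4 (norm_nonneg _)
    linarith

theorem grad_uu
    (ff_props : (∀ z, 0 ≤ ff z ∧ ff z ≤ 1) ∧ LipschitzWith (Real.toNNReal (1 / 22)) ff ∧
      (∀ z, ‖z‖ ≤ 11 → ff z = 0) ∧ (∀ z, 33 ≤ ‖z‖ → ff z = 1) ∧ (∀ z, ff (-z) = ff z) ∧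
      (∀ z, (‖z‖ < 11 ∨ 33 < ‖z‖) → fderiv ℝ ff z = 0) ∧ (∀ z, ‖fderiv ℝ ff z‖ ≤ 1 / 22) ∧
      ∫ z, ‖fderiv ℝ ff z‖ ^ 2 ≤ I0)
    (chi_props : ∀ (L : ℝ), 4 < L → (∀ z, 0 ≤ chi L z ∧ chi L z ≤ 1) ∧ LipschitzWith 1 (chi L) ∧
      (∀ z, chi L z ≠ 0 → ∀ k, 1 < z k ∧ z k < L - 1) ∧ (∀ z, (∀ k, 2 ≤ z k ∧ z k ≤ L - 2) → chi L z = 1) ∧
      (∀ z, ‖fderiv ℝ (chi L) z‖ ≤ 1) ∧ ∫ z, ‖fderiv ℝ (chi L) z‖ ^ 2 ≤ 6 * L ^ 2 ∧ HasCompactSupport (chi L))
    (m : ℕ) (L τ : ℝ) (hL : 4 < L) (hτ : 0 < τ) (c : Fin m → E) :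
    ∫ z, ‖fderiv ℝ (uu L c) z‖ ^ 2 ≤ (1 + τ) * I0 * (m + closeN c) + (1 + 1 / τ) * (6 * L ^ 2) := by
  classical
  obtain ⟨hff01, hffL, hff0, hff1, hffs, hffd, hffd1, hffI⟩ := ff_props
  obtain ⟨hc01, hcL, hcs, hc1, hcd, hcI, hcc⟩ := chi_props L hL
  set G : E → ℝ := fun z => ‖fderiv ℝ ff z‖ with hG
  have hGm : Measurable G := (measurable_fderiv ℝ ff).norm
  have hG0 : ∀ z, 0 ≤ G z := fun z => norm_nonneg _
  have hGsupp : ∀ z, 33 < ‖z‖ → G z = 0 := by
    intro z hz; simp [hG, hffd z (Or.inr hz)]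
  -- integrability of G^2
  have hG2i : Integrable (fun z => G z ^ 2) := by
    have hb : IntegrableOn (fun _ : E => (1 : ℝ)) (Metric.closedBall (0 : E) 33) := by
      exact integrableOn_const (isCompact_closedBall (0 : E) 33).measure_lt_top.ne (by simp)
    have hb' : Integrable (Set.indicator (Metric.closedBall (0 : E) 33) (fun _ => (1 : ℝ))) :=
      hb.integrable_indicator Metric.isClosed_closedBall.measurableSet
    refine hb'.mono' (hGm.pow_const 2).aestronglyMeasurable (Eventually.of_forall fun z => ?_)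
    rw [Real.norm_of_nonneg (sq_nonneg _)]
    by_cases hz : z ∈ Metric.closedBall (0 : E) 33
    · rw [Set.indicator_of_mem hz]
      have := hffd1 z
      have h2 : G z ≤ 1 := this.trans (by norm_num)
      exact pow_le_one₀ (hG0 z) h2
    · rw [Set.indicator_of_notMem hz]
      have : 33 < ‖z‖ := by
        simpa [Metric.mem_closedBall, dist_zero_right] using hz
      rw [hGsupp z this]; norm_num
  -- g_B
  set g : Fin m → E → ℝ := fun B z => G (z - c B) with hg
  have hg0 : ∀ B z, 0 ≤ g B z := fun B z => hG0 _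
  have hgm : ∀ B, Measurable (g B) := fun B => hGm.comp (measurable_id.sub_const _)
  have hg2i : ∀ B, Integrable (fun z => g B z ^ 2) := fun B => hG2i.comp_sub_right (c B)
  have hg2I : ∀ B, ∫ z, g B z ^ 2 ≤ I0 := by
    intro B
    have : ∫ z, g B z ^ 2 = ∫ z, G z ^ 2 := integral_sub_right_eq_self (fun z => G z ^ 2) (c B)
    rw [this]; exact hffI
  have hggi : ∀ B C, Integrable (fun z => g B z * g C z) := by
    intro B C
    refine ((hg2i B).add (hg2i C)).mono' ((hgm B).mul (hgm C)).aestronglyMeasurable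
      (Eventually.of_forall fun z => ?_)
    rw [Real.norm_of_nonneg (mul_nonneg (hg0 B z) (hg0 C z))]
    show g B z * g C z ≤ g B z ^ 2 + g C z ^ 2
    nlinarith [sq_nonneg (g B z - g C z), sq_nonneg (g B z), sq_nonneg (g C z)]
  have hggI : ∀ B C, ∫ z, g B z * g C z ≤ I0 * (if dist (c B) (c C) ≤ 66 then (1 : ℝ) else 0) := by
    intro B C
    by_cases hd : dist (c B) (c C) ≤ 66
    · rw [if_pos hd, mul_one]
      have h1 : ∫ z, g B z * g C z ≤ ∫ z, ((1 / 2 : ℝ) * g B z ^ 2 + (1 / 2 : ℝ) * g C z ^ 2) := by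
        refine integral_mono (hggi B C) (((hg2i B).const_mul _).add ((hg2i C).const_mul _)) fun z => ?_
        show g B z * g C z ≤ (1 / 2 : ℝ) * g B z ^ 2 + (1 / 2 : ℝ) * g C z ^ 2
        nlinarith [sq_nonneg (g B z - g C z)]
      rw [integral_add ((hg2i B).const_mul _) ((hg2i C).const_mul _), integral_const_mul,
        integral_const_mul] at h1
      linarith [hg2I B, hg2I C]
    · rw [if_neg hd, mul_zero]
      have : (fun z => g B z * g C z) = fun _ => 0 := by
        funext z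
        by_cases h1 : 33 < ‖z - c B‖
        · have : g B z = 0 := hGsupp _ h1
          rw [this, zero_mul]
        · have h2 : 33 < ‖z - c C‖ := by
            by_contra h3
            push Not at h1 h3 hd
            have : dist (c B) (c C) ≤ ‖z - c B‖ + ‖z - c C‖ := by
              rw [dist_eq_norm]
              have : c B - c C = (z - c C) - (z - c B) := by abel
              rw [this]
              exact (norm_sub_le _ _).trans (by linarith)
            linarith
          have : g C z = 0 := hGsupp _ h2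
          rw [this, mul_zero]
      rw [this]; simp
  -- chi part
  set H : E → ℝ := fun z => ‖fderiv ℝ (chi L) z‖ with hH
  have hHm : Measurable H := (measurable_fderiv ℝ (chi L)).norm
  have hH2i : Integrable (fun z => H z ^ 2) := by
    have hcc' : HasCompactSupport (fderiv ℝ (chi L)) := hcc.fderiv ℝ
    have hK : IsCompact (tsupport (fderiv ℝ (chi L))) := hcc'
    have hb : IntegrableOn (fun _ : E => (1 : ℝ)) (tsupport (fderiv ℝ (chi L))) := by
      exact integrableOn_const hK.measure_lt_top.ne (by simp)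
    have hb' : Integrable (Set.indicator (tsupport (fderiv ℝ (chi L))) (fun _ => (1 : ℝ))) :=
      hb.integrable_indicator (isClosed_tsupport _).measurableSet
    refine hb'.mono' (hHm.pow_const 2).aestronglyMeasurable (Eventually.of_forall fun z => ?_)
    rw [Real.norm_of_nonneg (sq_nonneg _)]
    by_cases hz : z ∈ tsupport (fderiv ℝ (chi L))
    · rw [Set.indicator_of_mem hz]
      exact pow_le_one₀ (norm_nonneg _) (hcd z)
    · rw [Set.indicator_of_notMem hz]
      have : fderiv ℝ (chi L) z = 0 := image_eq_zero_of_notMem_tsupport hz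
      simp [hH, this]
  -- the pointwise bound
  have hpt : ∀ᵐ z, ‖fderiv ℝ (uu L c) z‖ ^ 2 ≤
      (1 + 1 / τ) * H z ^ 2 + (1 + τ) * ∑ B, (g B z ^ 2 + ∑ C ∈ Finset.univ.erase B, g B z * g C z) := by
    have h1 : ∀ᵐ z, DifferentiableAt ℝ (chi L) z := hcL.ae_differentiableAt
    have h2 : ∀ᵐ z : E, ∀ B : Fin m, DifferentiableAt ℝ (fun w => ff (w - c B)) z := by
      rw [ae_all_iff]
      intro B
      have hl : LipschitzWith (Real.toNNReal (1 / 22)) (fun w => ff (w - c B)) := by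
        refine LipschitzWith.of_dist_le_mul fun x y => ?_
        have := hffL.dist_le_mul (x - c B) (y - c B)
        simpa [dist_sub_right] using this
      exact hl.ae_differentiableAt
    filter_upwards [h1, h2] with z hz1 hz2
    obtain ⟨p1, p2, p3, p4⟩ := prod_fderiv_bound Finset.univ (fun B w => ff (w - c B)) z
      (fun B => hff01 _) hz2
    have e1 : ‖fderiv ℝ (uu L c) z‖ ≤ H z + ∑ B, g B z := by
      have e : uu L c = fun w => chi L w * ∏ B, ff (w - c B) := rfl
      rw [e, fderiv_fun_mul hz1 p1]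
      refine (norm_add_le _ _).trans ?_
      rw [norm_smul, norm_smul, Real.norm_of_nonneg (hc01 z).1, Real.norm_of_nonneg p3]
      have q1 : chi L z * ‖fderiv ℝ (fun w => ∏ B, ff (w - c B)) z‖ ≤ 1 * ∑ B, g B z := by
        refine mul_le_mul (hc01 z).2 (p2.trans (le_of_eq ?_)) (norm_nonneg _) zero_le_one
        refine Finset.sum_congr rfl fun B _ => ?_
        rw [fderiv_comp_sub]
      have q2 : (∏ B, ff (z - c B)) * ‖fderiv ℝ (chi L) z‖ ≤ 1 * H z :=
        mul_le_mul_of_nonneg_right p4 (norm_nonneg _)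
      linarith
    have e2 : ‖fderiv ℝ (uu L c) z‖ ^ 2 ≤ (H z + ∑ B, g B z) ^ 2 :=
      pow_le_pow_left₀ (norm_nonneg _) e1 2
    have e3 : (∑ B, g B z) ^ 2 = ∑ B, (g B z ^ 2 + ∑ C ∈ Finset.univ.erase B, g B z * g C z) := by
      rw [sq, Finset.sum_mul_sum]
      refine Finset.sum_congr rfl fun B _ => ?_
      rw [← Finset.add_sum_erase _ _ (Finset.mem_univ B)]
      ring
    rw [← e3]
    refine e2.trans ?_
    have e4 : ∀ a b : ℝ, (a + b) ^ 2 ≤ (1 + 1 / τ) * a ^ 2 + (1 + τ) * b ^ 2 := by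
      intro a b
      have : (1 + 1 / τ) * a ^ 2 + (1 + τ) * b ^ 2 - (a + b) ^ 2 = (a - τ * b) ^ 2 / τ := by
        field_simp
        ring
      have h5 : 0 ≤ (a - τ * b) ^ 2 / τ := by positivity
      linarith
    exact e4 _ _
  have hCi : ∀ B : Fin m, Integrable (fun z => ∑ C ∈ Finset.univ.erase B, g B z * g C z) :=
    fun B => integrable_finsetSum _ fun C _ => hggi B C
  have hBi : ∀ B : Fin m, Integrable (fun z => g B z ^ 2 + ∑ C ∈ Finset.univ.erase B, g B z * g C z) :=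
    fun B => (hg2i B).add (hCi B)
  have hSi : Integrable (fun z => ∑ B, (g B z ^ 2 + ∑ C ∈ Finset.univ.erase B, g B z * g C z)) :=
    integrable_finsetSum _ fun B _ => hBi B
  have hRi : Integrable (fun z => (1 + 1 / τ) * H z ^ 2 +
      (1 + τ) * ∑ B, (g B z ^ 2 + ∑ C ∈ Finset.univ.erase B, g B z * g C z)) :=
    (hH2i.const_mul _).add (hSi.const_mul _)
  have hmain : ∫ z, ‖fderiv ℝ (uu L c) z‖ ^ 2 ≤ ∫ z, ((1 + 1 / τ) * H z ^ 2 +
      (1 + τ) * ∑ B, (g B z ^ 2 + ∑ C ∈ Finset.univ.erase B, g B z * g C z)) :=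
    integral_mono_of_nonneg (Eventually.of_forall fun z => sq_nonneg _) hRi hpt
  refine hmain.trans ?_
  rw [integral_add (hH2i.const_mul _) (hSi.const_mul _), integral_const_mul,
    integral_const_mul, integral_finsetSum _ fun B _ => hBi B]
  have hS : ∑ B, ∫ z, (g B z ^ 2 + ∑ C ∈ Finset.univ.erase B, g B z * g C z) ≤
      I0 * (m + closeN c) := by
    have : I0 * (m + closeN c) = ∑ B : Fin m, (I0 + ∑ C ∈ Finset.univ.erase B,
        I0 * (if dist (c B) (c C) ≤ 66 then (1 : ℝ) else 0)) := by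
      rw [Finset.sum_add_distrib, Finset.sum_const, Finset.card_univ, Fintype.card_fin, closeN,
        mul_add, Finset.mul_sum]
      congr 1
      · rw [nsmul_eq_mul, mul_comm]
      · refine Finset.sum_congr rfl fun B _ => ?_
        rw [Finset.mul_sum]
    rw [this]
    refine Finset.sum_le_sum fun B _ => ?_
    rw [integral_add (hg2i B) (hCi B), integral_finsetSum _ fun C _ => hggi B C]
    exact add_le_add (hg2I B) (Finset.sum_le_sum fun C _ => hggI B C)
  have k1 : (1 + 1 / τ) * ∫ z, H z ^ 2 ≤ (1 + 1 / τ) * (6 * L ^ 2) :=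
    mul_le_mul_of_nonneg_left hcI (by positivity)
  have k2 := mul_le_mul_of_nonneg_left hS (by positivity : (0 : ℝ) ≤ 1 + τ)
  nlinarith [k1, k2]

/-- lower bound for the norm of the one-particle factor -/
theorem norm_uu
    (ff_props : (∀ z, 0 ≤ ff z ∧ ff z ≤ 1) ∧ LipschitzWith (Real.toNNReal (1 / 22)) ff ∧
      (∀ z, ‖z‖ ≤ 11 → ff z = 0) ∧ (∀ z, 33 ≤ ‖z‖ → ff z = 1) ∧ (∀ z, ff (-z) = ff z) ∧
      (∀ z, (‖z‖ < 11 ∨ 33 < ‖z‖) → fderiv ℝ ff z = 0) ∧ (∀ z, ‖fderiv ℝ ff z‖ ≤ 1 / 22) ∧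
      ∫ z, ‖fderiv ℝ ff z‖ ^ 2 ≤ I0)
    (chi_props : ∀ (L : ℝ), 4 < L → (∀ z, 0 ≤ chi L z ∧ chi L z ≤ 1) ∧ LipschitzWith 1 (chi L) ∧
      (∀ z, chi L z ≠ 0 → ∀ k, 1 < z k ∧ z k < L - 1) ∧ (∀ z, (∀ k, 2 ≤ z k ∧ z k ≤ L - 2) → chi L z = 1) ∧
      (∀ z, ‖fderiv ℝ (chi L) z‖ ≤ 1) ∧ ∫ z, ‖fderiv ℝ (chi L) z‖ ^ 2 ≤ 6 * L ^ 2 ∧ HasCompactSupport (chi L))
    (m : ℕ) (L : ℝ) (hL : 4 < L) (c : Fin m → E) :
    (L - 4) ^ 3 - m * b33 ≤ ∫ z, uu L c z ^ 2 := by
  classical
  obtain ⟨hff01, hffL, hff0, hff1, hffs, hffd, hffd1, hffI⟩ := ff_props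
  obtain ⟨hc01, hcL, hcs, hc1, hcd, hcI, hcc⟩ := chi_props L hL
  have hcont : Continuous (uu L c) := by
    unfold uu
    exact hcL.continuous.mul (continuous_finsetProd _ fun B _ =>
      hffL.continuous.comp (continuous_id.sub continuous_const))
  have hcomp : HasCompactSupport (uu L c) := by
    unfold uu
    exact HasCompactSupport.mul_right hcc
  have hint : Integrable (fun z => uu L c z ^ 2) := by
    have h2 : (fun z => uu L c z ^ 2) = fun z => uu L c z * uu L c z := by funext z; ring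
    rw [h2]
    exact (hcont.mul hcont).integrable_of_hasCompactSupport (HasCompactSupport.mul_right hcomp)
  -- cube
  set Q : Set E := {z | ∀ k, 2 ≤ z k ∧ z k ≤ L - 2} with hQ
  have hQpre : Q = (@WithLp.ofLp 2 (Fin 3 → ℝ)) ⁻¹' (Set.pi Set.univ fun _ : Fin 3 => Set.Icc (2 : ℝ) (L - 2)) := by
    ext z
    simp only [hQ, Set.mem_ofPred_eq, Set.mem_preimage, Set.mem_pi, Set.mem_univ, true_implies,
      Set.mem_Icc]
  have hQm : MeasurableSet Q := by
    rw [hQpre]
    exact (PiLp.volume_preserving_ofLp (Fin 3)).measurable (MeasurableSet.univ_pi fun _ => measurableSet_Icc)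
  have hQv : volume Q = ENNReal.ofReal ((L - 4) ^ 3) := by
    rw [hQpre, (PiLp.volume_preserving_ofLp (Fin 3)).measure_preimage
      (MeasurableSet.univ_pi fun _ => measurableSet_Icc).nullMeasurableSet, volume_pi_pi]
    simp only [Real.volume_Icc, Finset.prod_const, Finset.card_univ, Fintype.card_fin]
    rw [← ENNReal.ofReal_pow (by linarith)]
    congr 2
    ring
  have hQr : ∫ z, Q.indicator (fun _ => (1 : ℝ)) z = (L - 4) ^ 3 := by
    rw [integral_indicator hQm, integral_const, smul_eq_mul, mul_one, Measure.real,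
      Measure.restrict_apply_univ, hQv, ENNReal.toReal_ofReal (pow_nonneg (by linarith) 3)]
  have hQi : Integrable (Q.indicator (fun _ => (1 : ℝ))) := by
    refine (integrableOn_const (by rw [hQv]; exact ENNReal.ofReal_ne_top) (by simp)).integrable_indicator hQm
  have hBv : ∀ B : Fin m, volume (Metric.ball (c B) (33 : ℝ)) = ENNReal.ofReal b33 := by
    intro B
    rw [EuclideanSpace.volume_ball_fin_three, ← ENNReal.ofReal_pow (by norm_num), ← ENNReal.ofReal_mul (by norm_num), b33]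
    congr 1
    ring
  have hb0 : 0 ≤ b33 := by unfold b33; positivity
  have hBr : ∀ B : Fin m, ∫ z, (Metric.ball (c B) (33 : ℝ)).indicator (fun _ => (1 : ℝ)) z = b33 := by
    intro B
    rw [integral_indicator measurableSet_ball, integral_const, smul_eq_mul, mul_one, Measure.real,
      Measure.restrict_apply_univ, hBv, ENNReal.toReal_ofReal hb0]
  have hBi : ∀ B : Fin m, Integrable ((Metric.ball (c B) (33 : ℝ)).indicator (fun _ => (1 : ℝ))) := by
    intro B
    exact (integrableOn_const (by rw [hBv]; exact ENNReal.ofReal_ne_top) (by simp)).integrable_indicator measurableSet_ball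
  have hle : ∫ z, (Q.indicator (fun _ => (1 : ℝ)) z -
      ∑ B : Fin m, (Metric.ball (c B) (33 : ℝ)).indicator (fun _ => (1 : ℝ)) z) ≤ ∫ z, uu L c z ^ 2 := by
    refine integral_mono (hQi.sub (integrable_finsetSum _ fun B _ => hBi B)) hint fun z => ?_
    show Q.indicator (fun _ => (1 : ℝ)) z -
      ∑ B : Fin m, (Metric.ball (c B) (33 : ℝ)).indicator (fun _ => (1 : ℝ)) z ≤ uu L c z ^ 2
    have hs0 : ∀ B : Fin m, 0 ≤ (Metric.ball (c B) (33 : ℝ)).indicator (fun _ => (1 : ℝ)) z := fun B =>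
      Set.indicator_nonneg (fun _ _ => zero_le_one) z
    have hs : 0 ≤ ∑ B : Fin m, (Metric.ball (c B) (33 : ℝ)).indicator (fun _ => (1 : ℝ)) z :=
      Finset.sum_nonneg fun B _ => hs0 B
    by_cases hz : z ∈ Q
    · rw [Set.indicator_of_mem hz]
      by_cases hB : ∃ B, z ∈ Metric.ball (c B) (33 : ℝ)
      · obtain ⟨B, hB⟩ := hB
        have : (Metric.ball (c B) (33 : ℝ)).indicator (fun _ => (1 : ℝ)) z ≤
            ∑ B : Fin m, (Metric.ball (c B) (33 : ℝ)).indicator (fun _ => (1 : ℝ)) z :=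
          Finset.single_le_sum (fun B _ => hs0 B) (Finset.mem_univ B)
        rw [Set.indicator_of_mem hB] at this
        nlinarith [sq_nonneg (uu L c z)]
      · push Not at hB
        have h1 : uu L c z = 1 := by
          unfold uu
          rw [hc1 z hz, one_mul]
          refine Finset.prod_eq_one fun B _ => hff1 _ ?_
          have := hB B
          rw [Metric.mem_ball, dist_eq_norm, not_lt] at this
          exact this
        rw [h1]; linarith
    · rw [Set.indicator_of_notMem hz]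
      nlinarith [sq_nonneg (uu L c z)]
  rw [integral_sub hQi (integrable_finsetSum _ fun B _ => hBi B), hQr,
    integral_finsetSum _ fun B _ => hBi B] at hle
  simp only [hBr, Finset.sum_const, Finset.card_univ, Fintype.card_fin, nsmul_eq_mul] at hle
  exact hle

end BG631.JH2
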