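import Pool.Agent.H631.BG.Base

open MeasureTheory Filter Topology Set
open scoped ENNReal NNReal BigOperators

namespace BG631.JH3

theorem fm_pair (m : ℕ) (c : Fin m → E) :
    (∏ p ∈ Finset.univ.filter (fun p : Fin m × Fin m => p.1 < p.2), ff (c p.1 - c p.2))
      = ∏ A, ∏ B, if A < B then ff (c A - c B) else 1 := by
  rw [Finset.prod_filter, Fintype.prod_prod_type]

theorem Fm_cons (m : ℕ) (L : ℝ) (z : E) (c : Fin m → E) :
    Fm (m + 1) L (Fin.cons z c) = uu L c z * Fm m L c := by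
  unfold Fm uu
  rw [fm_pair, fm_pair, Fin.prod_univ_succ, Fin.prod_univ_succ]
  simp only [Fin.cons_zero, Fin.cons_succ]
  have h1 : (∏ B : Fin (m + 1), if (0 : Fin (m + 1)) < B then
      ff (z - (Fin.cons z c : Fin (m + 1) → E) B) else 1) = ∏ B, ff (z - c B) := by
    rw [Fin.prod_univ_succ]
    simp only [lt_self_iff_false, if_false, one_mul, Fin.succ_pos, if_true, Fin.cons_succ]
  have h2 : (∏ A : Fin m, ∏ B : Fin (m + 1), if A.succ < B then
      ff (c A - (Fin.cons z c : Fin (m + 1) → E) B) else 1)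
      = ∏ A, ∏ B, if A < B then ff (c A - c B) else 1 := by
    apply Finset.prod_congr rfl
    intro A _
    rw [Fin.prod_univ_succ]
    simp only [Fin.not_lt_zero, if_false, one_mul, Fin.succ_lt_succ_iff, Fin.cons_succ]
  rw [h1, h2]
  ring

theorem fm_lip_prod {X : Type} [PseudoMetricSpace X] {ι : Type} (s : Finset ι) (g : ι → X → ℝ)
    (h01 : ∀ i x, 0 ≤ g i x ∧ g i x ≤ 1) (hl : ∀ i, ∃ C : ℝ≥0, LipschitzWith C (g i)) :
    ∃ C : ℝ≥0, LipschitzWith C (fun x => ∏ i ∈ s, g i x) := by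
  classical
  induction s using Finset.induction_on with
  | empty => exact ⟨0, by simp⟩
  | insert a s ha ih =>
    obtain ⟨C, hC⟩ := ih
    obtain ⟨C', hC'⟩ := hl a
    refine ⟨C' + C, ?_⟩
    apply LipschitzWith.of_dist_le_mul
    intro x y
    rw [Finset.prod_insert ha, Finset.prod_insert ha, Real.dist_eq]
    have e1 := hC.dist_le_mul x y
    have e2 := hC'.dist_le_mul x y
    rw [Real.dist_eq] at e1 e2
    have b1 := h01 a x
    have b2 : 0 ≤ ∏ i ∈ s, g i y := Finset.prod_nonneg (fun i _ => (h01 i y).1)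
    have b3 : ∏ i ∈ s, g i y ≤ 1 := Finset.prod_le_one (fun i _ => (h01 i y).1)
      (fun i _ => (h01 i y).2)
    have e3 : g a x * ∏ i ∈ s, g i x - g a y * ∏ i ∈ s, g i y
        = g a x * (∏ i ∈ s, g i x - ∏ i ∈ s, g i y) + (g a x - g a y) * ∏ i ∈ s, g i y := by ring
    rw [e3]
    refine (abs_add_le _ _).trans ?_
    rw [abs_mul, abs_mul, abs_of_nonneg b1.1, abs_of_nonneg b2]
    have f1 : g a x * |∏ i ∈ s, g i x - ∏ i ∈ s, g i y| ≤ 1 * (C * dist x y) := by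
      apply mul_le_mul b1.2 e1 (abs_nonneg _) zero_le_one
    have f2 : |g a x - g a y| * ∏ i ∈ s, g i y ≤ (C' * dist x y) * 1 := by
      apply mul_le_mul e2 b3 b2 (by positivity)
    push_cast
    linarith

/-- ordered image of a pair -/
def fmT {m : ℕ} (σ : Equiv.Perm (Fin m)) (p : Fin m × Fin m) : Fin m × Fin m :=
  if σ p.1 < σ p.2 then (σ p.1, σ p.2) else (σ p.2, σ p.1)

theorem fmT_mem {m : ℕ} (σ : Equiv.Perm (Fin m)) (p : Fin m × Fin m) (hp : p.1 < p.2) :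
    (fmT σ p).1 < (fmT σ p).2 := by
  unfold fmT
  by_cases h : σ p.1 < σ p.2
  · rw [if_pos h]; exact h
  · rw [if_neg h]
    have hne : σ p.1 ≠ σ p.2 := fun e => hp.ne (σ.injective e)
    exact lt_of_le_of_ne (not_lt.mp h) hne.symm

theorem fmT_inv {m : ℕ} (σ τ : Equiv.Perm (Fin m)) (h : ∀ a, τ (σ a) = a) (p : Fin m × Fin m)
    (hp : p.1 < p.2) : fmT τ (fmT σ p) = p := by
  unfold fmT
  by_cases h1 : σ p.1 < σ p.2
  · rw [if_pos h1]
    simp only [h]
    rw [if_pos hp]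
  · rw [if_neg h1]
    simp only [h]
    rw [if_neg (not_lt.mpr hp.le)]

theorem fm_perm (m : ℕ) (σ : Equiv.Perm (Fin m)) (c : Fin m → E)
    (he : ∀ z, ff (-z) = ff z) :
    (∏ p ∈ Finset.univ.filter (fun p : Fin m × Fin m => p.1 < p.2),
        ff (c (σ p.1) - c (σ p.2)))
      = ∏ p ∈ Finset.univ.filter (fun p : Fin m × Fin m => p.1 < p.2), ff (c p.1 - c p.2) := by
  apply Finset.prod_nbij' (fmT σ) (fmT σ⁻¹)
  · intro p hp
    rw [Finset.mem_filter] at hp ⊢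
    exact ⟨Finset.mem_univ _, fmT_mem σ p hp.2⟩
  · intro p hp
    rw [Finset.mem_filter] at hp ⊢
    exact ⟨Finset.mem_univ _, fmT_mem _ p hp.2⟩
  · intro p hp
    rw [Finset.mem_filter] at hp
    exact fmT_inv σ σ⁻¹ (fun a => by simp) p hp.2
  · intro p hp
    rw [Finset.mem_filter] at hp
    exact fmT_inv σ⁻¹ σ (fun a => by simp) p hp.2
  · intro p _
    unfold fmT
    by_cases h : σ p.1 < σ p.2
    · rw [if_pos h]
    · rw [if_neg h, ← he, neg_sub]

theorem Fm_basic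
    (ff_props : (∀ z, 0 ≤ ff z ∧ ff z ≤ 1) ∧ LipschitzWith (Real.toNNReal (1 / 22)) ff ∧
      (∀ z, ‖z‖ ≤ 11 → ff z = 0) ∧ (∀ z, 33 ≤ ‖z‖ → ff z = 1) ∧ (∀ z, ff (-z) = ff z) ∧
      (∀ z, (‖z‖ < 11 ∨ 33 < ‖z‖) → fderiv ℝ ff z = 0) ∧ (∀ z, ‖fderiv ℝ ff z‖ ≤ 1 / 22) ∧
      ∫ z, ‖fderiv ℝ ff z‖ ^ 2 ≤ I0)
    (chi_props : ∀ (L : ℝ), 4 < L → (∀ z, 0 ≤ chi L z ∧ chi L z ≤ 1) ∧ LipschitzWith 1 (chi L) ∧
      (∀ z, chi L z ≠ 0 → ∀ k, 1 < z k ∧ z k < L - 1) ∧ (∀ z, (∀ k, 2 ≤ z k ∧ z k ≤ L - 2) → chi L z = 1) ∧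
      (∀ z, ‖fderiv ℝ (chi L) z‖ ≤ 1) ∧ ∫ z, ‖fderiv ℝ (chi L) z‖ ^ 2 ≤ 6 * L ^ 2 ∧ HasCompactSupport (chi L))
    (m : ℕ) (L : ℝ) (hL : 4 < L) :
    (∀ c, 0 ≤ Fm m L c ∧ Fm m L c ≤ 1) ∧ (∃ C : ℝ≥0, LipschitzWith C (Fm m L)) ∧ HasCompactSupport (Fm m L) ∧
    (∀ c, Fm m L c ≠ 0 → ∀ A B, A ≠ B → 11 ≤ dist (c A) (c B)) ∧
    (∀ c, Fm m L c ≠ 0 → ∀ A k, 1 < c A k ∧ c A k < L - 1) ∧
    (∀ (σ : Equiv.Perm (Fin m)) c, Fm m L (fun A => c (σ A)) = Fm m L c) := by
  obtain ⟨f01, flip, fz, _, feven, _⟩ := ff_props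
  obtain ⟨c01, clip, cbox, _, _, _, ccpt⟩ := chi_props L hL
  have hne : ∀ c, Fm m L c ≠ 0 → (∀ A, chi L (c A) ≠ 0) ∧
      ∀ A B, A < B → ff (c A - c B) ≠ 0 := by
    intro c h
    unfold Fm at h
    have h1 := left_ne_zero_of_mul h
    have h2 := right_ne_zero_of_mul h
    rw [Finset.prod_ne_zero_iff] at h1 h2
    refine ⟨fun A => h1 A (Finset.mem_univ _), fun A B hAB => ?_⟩
    exact h2 (A, B) (Finset.mem_filter.mpr ⟨Finset.mem_univ _, hAB⟩)
  refine ⟨?_, ?_, ?_, ?_, ?_, ?_⟩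
  · intro c
    unfold Fm
    have a1 : 0 ≤ ∏ A, chi L (c A) := Finset.prod_nonneg (fun A _ => (c01 _).1)
    have a2 : ∏ A, chi L (c A) ≤ 1 := Finset.prod_le_one (fun A _ => (c01 _).1)
      (fun A _ => (c01 _).2)
    have a3 : 0 ≤ ∏ p ∈ Finset.univ.filter (fun p : Fin m × Fin m => p.1 < p.2),
        ff (c p.1 - c p.2) := Finset.prod_nonneg (fun A _ => (f01 _).1)
    have a4 : ∏ p ∈ Finset.univ.filter (fun p : Fin m × Fin m => p.1 < p.2),
        ff (c p.1 - c p.2) ≤ 1 := Finset.prod_le_one (fun A _ => (f01 _).1)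
      (fun A _ => (f01 _).2)
    exact ⟨mul_nonneg a1 a3, mul_le_one₀ a2 a3 a4⟩
  · obtain ⟨C1, hC1⟩ := fm_lip_prod (X := Fin m → E) (Finset.univ : Finset (Fin m))
      (fun A c => chi L (c A)) (fun A c => c01 _)
      (fun A => ⟨1 * 1, clip.comp (LipschitzWith.eval A)⟩)
    obtain ⟨C2, hC2⟩ := fm_lip_prod (X := Fin m → E)
      (Finset.univ.filter (fun p : Fin m × Fin m => p.1 < p.2))
      (fun p c => ff (c p.1 - c p.2)) (fun A c => f01 _)
      (fun p => ⟨_, flip.comp ((LipschitzWith.eval p.1).sub (LipschitzWith.eval p.2))⟩)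
    obtain ⟨C, hC⟩ := fm_lip_prod (X := Fin m → E) (Finset.univ : Finset Bool)
      (fun b c => if b then ∏ A, chi L (c A) else
        ∏ p ∈ Finset.univ.filter (fun p : Fin m × Fin m => p.1 < p.2), ff (c p.1 - c p.2))
      (by
        intro b c
        cases b
        · simp only [Bool.false_eq_true, if_false]
          exact ⟨Finset.prod_nonneg (fun A _ => (f01 _).1),
            Finset.prod_le_one (fun A _ => (f01 _).1) (fun A _ => (f01 _).2)⟩
        · simp only [if_true]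
          exact ⟨Finset.prod_nonneg (fun A _ => (c01 _).1),
            Finset.prod_le_one (fun A _ => (c01 _).1) (fun A _ => (c01 _).2)⟩)
      (by
        intro b
        cases b
        · exact ⟨C2, by simpa using hC2⟩
        · exact ⟨C1, by simpa using hC1⟩)
    refine ⟨C, ?_⟩
    have e : (Fm m L) = fun c => ∏ b : Bool, (if b then ∏ A, chi L (c A) else
        ∏ p ∈ Finset.univ.filter (fun p : Fin m × Fin m => p.1 < p.2), ff (c p.1 - c p.2)) := by
      funext c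
      unfold Fm
      rw [Fintype.prod_bool]
      simp only [if_true, Bool.false_eq_true, if_false]
    rw [e]
    exact hC
  · have hK : IsCompact (Set.pi (Set.univ : Set (Fin m)) (fun _ => tsupport (chi L))) :=
      isCompact_univ_pi (fun _ => ccpt)
    apply HasCompactSupport.of_support_subset_isCompact hK
    intro c hc A _
    exact subset_tsupport _ ((hne c hc).1 A)
  · intro c hc A B hAB
    have key : ∀ A B, A < B → 11 ≤ dist (c A) (c B) := by
      intro A B hlt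
      by_contra h
      push Not at h
      rw [dist_eq_norm] at h
      exact (hne c hc).2 A B hlt (fz _ h.le)
    rcases lt_or_gt_of_ne hAB with h | h
    · exact key A B h
    · rw [dist_comm]
      exact key B A h
  · intro c hc A k
    exact cbox _ ((hne c hc).1 A) k
  · intro σ c
    unfold Fm
    rw [fm_perm m σ c feven, Equiv.prod_comp σ (fun A => chi L (c A))]

end BG631.JH3
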