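import Pool.Agent.H631.BG.Base

open MeasureTheory Filter Topology Set
open scoped ENNReal NNReal BigOperators

namespace BG631.JH4

theorem symm_cons (m : ℕ) (p : E × (Fin m → E)) :
    (MeasurableEquiv.piFinSuccAbove (fun _ : Fin (m+1) => E) 0).symm p = Fin.cons p.1 p.2 := by
  show Fin.insertNth (α := fun _ => E) 0 p.1 p.2 = _
  rw [Fin.insertNth_zero']

theorem split0 (m : ℕ) (g : (Fin (m+1) → E) → ℝ) (hg : Integrable g) :
    ∫ c, g c = ∫ c : Fin m → E, ∫ z : E, g (Fin.cons z c) := by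
  have mp := (volume_preserving_piFinSuccAbove (fun _ : Fin (m+1) => E) 0)
  have h1 : ∫ c, g c = ∫ p : E × (Fin m → E), g (Fin.cons p.1 p.2) := by
    have := mp.symm.integral_comp' (g := g)
    rw [← this]
    congr 1
    funext p
    rw [symm_cons]
  rw [h1]
  have hint : Integrable (fun p : E × (Fin m → E) => g (Fin.cons p.1 p.2)) (volume.prod volume) := by
    have := (mp.symm.integrable_comp_emb (MeasurableEquiv.measurableEmbedding _) (g := g)).2 hg
    have h2 : (g ∘ (MeasurableEquiv.piFinSuccAbove (fun _ : Fin (m+1) => E) 0).symm) = (fun p : E × (Fin m → E) => g (Fin.cons p.1 p.2)) := by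
      funext p
      simp only [Function.comp, symm_cons]
    rw [h2] at this
    exact this
  rw [Measure.volume_eq_prod, integral_prod_symm _ hint]

theorem split0_int (m : ℕ) (g : (Fin (m+1) → E) → ℝ) (hg : Integrable g) :
    Integrable (fun c : Fin m → E => ∫ z : E, g (Fin.cons z c)) := by
  have mp := (volume_preserving_piFinSuccAbove (fun _ : Fin (m+1) => E) 0)
  have hint : Integrable (fun p : E × (Fin m → E) => g (Fin.cons p.1 p.2)) (volume.prod volume) := by
    have := (mp.symm.integrable_comp_emb (MeasurableEquiv.measurableEmbedding _) (g := g)).2 hg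
    have h2 : (g ∘ (MeasurableEquiv.piFinSuccAbove (fun _ : Fin (m+1) => E) 0).symm) = (fun p : E × (Fin m → E) => g (Fin.cons p.1 p.2)) := by
      funext p
      simp only [Function.comp, symm_cons]
    rw [h2] at this
    exact this
  exact hint.integral_prod_right

theorem sq_int (m : ℕ) (L : ℝ) (hlip : ∃ C : ℝ≥0, LipschitzWith C (Fm m L)) (hc : HasCompactSupport (Fm m L)) :
    Integrable (fun c => Fm m L c ^ 2) := by
  obtain ⟨C, hC⟩ := hlip
  have hcont : Continuous (Fm m L) := hC.continuous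
  have : HasCompactSupport (fun c => Fm m L c ^ 2) := by
    apply hc.comp_left (g := fun t : ℝ => t ^ 2); simp
  exact (hcont.pow 2).integrable_of_hasCompactSupport this

theorem Nrec
    (Fm_cons : ∀ (m : ℕ) (L : ℝ) (z : E) (c : Fin m → E), Fm (m + 1) L (Fin.cons z c) = uu L c z * Fm m L c)
    (Fm_basic : ∀ (m : ℕ) (L : ℝ), 4 < L →
      (∀ c, 0 ≤ Fm m L c ∧ Fm m L c ≤ 1) ∧ (∃ C : ℝ≥0, LipschitzWith C (Fm m L)) ∧ HasCompactSupport (Fm m L) ∧
      (∀ c, Fm m L c ≠ 0 → ∀ A B, A ≠ B → 11 ≤ dist (c A) (c B)) ∧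
      (∀ c, Fm m L c ≠ 0 → ∀ A k, 1 < c A k ∧ c A k < L - 1) ∧
      (∀ (σ : Equiv.Perm (Fin m)) c, Fm m L (fun A => c (σ A)) = Fm m L c))
    (norm_uu : ∀ (m : ℕ) (L : ℝ), 4 < L → ∀ (c : Fin m → E), (L - 4) ^ 3 - m * b33 ≤ ∫ z, uu L c z ^ 2)
    (m : ℕ) (L : ℝ) (hL : 4 < L) :
    ((L - 4) ^ 3 - m * b33) * ∫ c, Fm m L c ^ 2 ≤ ∫ c, Fm (m + 1) L c ^ 2 := by
  obtain ⟨h01, hlip, hcs, -⟩ := Fm_basic m L hL
  obtain ⟨h01', hlip', hcs', -⟩ := Fm_basic (m+1) L hL
  have hI := sq_int m L hlip hcs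
  have hI' := sq_int (m+1) L hlip' hcs'
  rw [split0 m _ hI', ← integral_const_mul]
  apply integral_mono (hI.const_mul _) (split0_int m _ hI')
  intro c
  show ((L - 4) ^ 3 - m * b33) * Fm m L c ^ 2 ≤ ∫ z : E, Fm (m + 1) L (Fin.cons z c) ^ 2
  have : ∀ z : E, Fm (m + 1) L (Fin.cons z c) ^ 2 = uu L c z ^ 2 * Fm m L c ^ 2 := by
    intro z; rw [Fm_cons]; ring
  simp_rw [this]
  rw [integral_mul_const]
  exact mul_le_mul_of_nonneg_right (norm_uu m L hL c) (sq_nonneg _)

open Classical in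
theorem Nclose
    (Fm_cons : ∀ (m : ℕ) (L : ℝ) (z : E) (c : Fin m → E), Fm (m + 1) L (Fin.cons z c) = uu L c z * Fm m L c)
    (Fm_basic : ∀ (m : ℕ) (L : ℝ), 4 < L →
      (∀ c, 0 ≤ Fm m L c ∧ Fm m L c ≤ 1) ∧ (∃ C : ℝ≥0, LipschitzWith C (Fm m L)) ∧ HasCompactSupport (Fm m L) ∧
      (∀ c, Fm m L c ≠ 0 → ∀ A B, A ≠ B → 11 ≤ dist (c A) (c B)) ∧
      (∀ c, Fm m L c ≠ 0 → ∀ A k, 1 < c A k ∧ c A k < L - 1) ∧
      (∀ (σ : Equiv.Perm (Fin m)) c, Fm m L (fun A => c (σ A)) = Fm m L c))
    (uu01 : ∀ (m : ℕ) (L : ℝ), 4 < L → ∀ (c : Fin m → E) z, 0 ≤ uu L c z ∧ uu L c z ≤ 1)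
    (m : ℕ) (L : ℝ) (hL : 4 < L) (A B : Fin (m + 1)) (hAB : A ≠ B) :
    ∫ c, (if dist (c A) (c B) ≤ 66 then (1 : ℝ) else 0) * Fm (m + 1) L c ^ 2 ≤ b66 * ∫ c, Fm m L c ^ 2 := by
  obtain ⟨h01, hlip, hcs, -⟩ := Fm_basic m L hL
  obtain ⟨h01', hlip', hcs', -, -, hperm⟩ := Fm_basic (m+1) L hL
  have hI := sq_int m L hlip hcs
  have hI' := sq_int (m+1) L hlip' hcs'
  -- reduce to A = 0
  have hmeas : ∀ A B : Fin (m+1), MeasurableSet {c : Fin (m+1) → E | dist (c A) (c B) ≤ 66} := by
    intro A B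
    exact measurableSet_le ((measurable_pi_apply A).dist (measurable_pi_apply B)) measurable_const
  have hJ : ∀ A B : Fin (m+1), Integrable (fun c : Fin (m+1) → E => (if dist (c A) (c B) ≤ 66 then (1 : ℝ) else 0) * Fm (m + 1) L c ^ 2) := by
    intro A B
    have : (fun c : Fin (m+1) → E => (if dist (c A) (c B) ≤ 66 then (1 : ℝ) else 0) * Fm (m + 1) L c ^ 2)
        = Set.indicator {c : Fin (m+1) → E | dist (c A) (c B) ≤ 66} (fun c => Fm (m + 1) L c ^ 2) := by
      funext c
      by_cases h : dist (c A) (c B) ≤ 66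
      · simp [Set.indicator, h]
      · simp [Set.indicator, h]
    rw [this]
    exact hI'.indicator (hmeas A B)
  have main : ∀ B : Fin m, ∫ c : Fin (m+1) → E, (if dist (c 0) (c B.succ) ≤ 66 then (1 : ℝ) else 0) * Fm (m + 1) L c ^ 2 ≤ b66 * ∫ c, Fm m L c ^ 2 := by
    intro B
    rw [split0 m _ (hJ 0 B.succ), ← integral_const_mul]
    apply integral_mono (split0_int m _ (hJ 0 B.succ)) (hI.const_mul _)
    intro c
    show ∫ z : E, (if dist ((Fin.cons z c : Fin (m+1) → E) 0) ((Fin.cons z c : Fin (m+1) → E) B.succ) ≤ 66 then (1 : ℝ) else 0) * Fm (m + 1) L (Fin.cons z c) ^ 2 ≤ b66 * Fm m L c ^ 2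
    simp only [Fin.cons_zero, Fin.cons_succ]
    have hball : ∫ z : E, (Metric.closedBall (c B) 66).indicator (fun _ => (1:ℝ)) z = b66 := by
      rw [integral_indicator_const _ Metric.isClosed_closedBall.measurableSet]
      rw [Measure.real, EuclideanSpace.volume_closedBall_fin_three]
      rw [ENNReal.toReal_mul, ENNReal.toReal_pow, ENNReal.toReal_ofReal (by norm_num), ENNReal.toReal_ofReal (by positivity)]
      unfold b66
      simp; ring
    have hfin : Integrable (fun z : E => (Metric.closedBall (c B) 66).indicator (fun _ => (1:ℝ)) z) := by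
      rw [integrable_indicator_iff Metric.isClosed_closedBall.measurableSet]
      exact integrableOn_const (measure_closedBall_lt_top).ne
    calc _ ≤ ∫ z : E, (Metric.closedBall (c B) 66).indicator (fun _ => (1:ℝ)) z * Fm m L c ^ 2 := by
          apply integral_mono_of_nonneg
          · exact Filter.Eventually.of_forall (fun z => by
              show 0 ≤ (if dist z (c B) ≤ 66 then (1 : ℝ) else 0) * Fm (m + 1) L (Fin.cons z c) ^ 2
              apply mul_nonneg
              · split_ifs <;> norm_num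
              · positivity)
          · exact hfin.mul_const _
          · refine Filter.Eventually.of_forall (fun z => ?_)
            show (if dist z (c B) ≤ 66 then (1 : ℝ) else 0) * Fm (m + 1) L (Fin.cons z c) ^ 2 ≤ (Metric.closedBall (c B) 66).indicator (fun _ => (1:ℝ)) z * Fm m L c ^ 2
            by_cases h : dist z (c B) ≤ 66
            · have hz : z ∈ Metric.closedBall (c B) 66 := h
              rw [if_pos h, Set.indicator_of_mem hz, Fm_cons]
              obtain ⟨u0, u1⟩ := uu01 m L hL c z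
              have : uu L c z ^ 2 ≤ 1 := by nlinarith
              rw [mul_pow]
              nlinarith [sq_nonneg (Fm m L c)]
            · have hz : z ∉ Metric.closedBall (c B) 66 := h
              rw [if_neg h, Set.indicator_of_notMem hz]; simp
      _ = b66 * Fm m L c ^ 2 := by rw [integral_mul_const, hball]
  -- permutation
  have hex : ∃ (σ : Equiv.Perm (Fin (m+1))) (B' : Fin m), σ A = 0 ∧ σ B = B'.succ := by
    refine ⟨Equiv.swap A 0, ?_⟩
    have h1 : Equiv.swap A 0 A = 0 := Equiv.swap_apply_left A 0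
    have h2 : Equiv.swap A 0 B ≠ 0 := by
      intro h
      apply hAB
      apply (Equiv.swap A 0).injective
      rw [h1, h]
    obtain ⟨B', hB'⟩ := Fin.exists_succ_eq.2 h2
    exact ⟨B', h1, hB'.symm⟩
  obtain ⟨σ, B', h1, h2⟩ := hex
  have mp : MeasurePreserving (fun c : Fin (m+1) → E => fun i => c (σ i)) volume volume := by
    have := volume_measurePreserving_piCongrLeft (fun _ : Fin (m+1) => E) σ.symm
    convert this using 1
    funext c i
    have := MeasurableEquiv.piCongrLeft_apply_apply (β := fun _ : Fin (m+1) => E) σ.symm c (σ i)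
    simpa using this.symm
  have hemb : MeasurableEmbedding (fun c : Fin (m+1) → E => fun i => c (σ i)) := by
    have h := (MeasurableEquiv.piCongrLeft (fun _ : Fin (m+1) => E) σ.symm).measurableEmbedding
    convert h using 1
    funext c i
    have := MeasurableEquiv.piCongrLeft_apply_apply (β := fun _ : Fin (m+1) => E) σ.symm c (σ i)
    simpa using this.symm
  have := mp.integral_comp hemb (fun c : Fin (m+1) → E => (if dist (c A) (c B) ≤ 66 then (1 : ℝ) else 0) * Fm (m + 1) L c ^ 2)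
  rw [← this]
  simp only [hperm σ]
  rw [h1, h2]
  exact main B'

end BG631.JH4
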