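import Pool.Agent.H631.BG.Base

open MeasureTheory Filter Topology Set
open scoped ENNReal NNReal BigOperators

namespace BG631.JH5

theorem kf_riesz (l : E →L[ℝ] ℝ) :
    ∑ k, ‖l (EuclideanSpace.single k (1 : ℝ))‖ ^ 2 ≤ ‖l‖ ^ 2 := by
  have h1 : ∀ x, l x = inner ℝ ((InnerProductSpace.toDual ℝ E).symm l) x :=
    fun x => (InnerProductSpace.toDual_symm_apply).symm
  have h2 : ‖l‖ = ‖(InnerProductSpace.toDual ℝ E).symm l‖ :=
    ((InnerProductSpace.toDual ℝ E).symm.norm_map l).symm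
  have h3 : ∀ (v : E) (k : Fin 3), inner ℝ v (EuclideanSpace.single k (1 : ℝ)) = v k := by
    intro v k
    simp [EuclideanSpace.inner_single_right]
  rw [h2, EuclideanSpace.norm_sq_eq]
  refine le_of_eq (Finset.sum_congr rfl fun k _ => ?_)
  rw [h1, h3]

theorem kf_int {X : Type} [NormedAddCommGroup X] [NormedSpace ℝ X] [FiniteDimensional ℝ X]
    [MeasurableSpace X] [BorelSpace X] (μ : Measure X) [IsFiniteMeasureOnCompacts μ]
    (f : X → ℝ) (C : ℝ≥0) (hf : LipschitzWith C f) (hc : HasCompactSupport f)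
    (q : (X →L[ℝ] ℝ) → ℝ) (hq : Continuous q) (K : ℝ) (hK : 0 ≤ K)
    (hqb : ∀ l, |q l| ≤ K * ‖l‖ ^ 2) : Integrable (fun x => q (fderiv ℝ f x)) μ := by
  have hm : Measurable (fun x => q (fderiv ℝ f x)) := hq.measurable.comp (measurable_fderiv ℝ f)
  have hs : Function.support (fun x => q (fderiv ℝ f x)) ⊆ tsupport f := by
    intro x hx
    refine support_fderiv_subset ℝ ?_
    rw [Function.mem_support] at hx ⊢
    intro h0
    apply hx
    have := hqb (fderiv ℝ f x)
    rw [h0, norm_zero] at this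
    rw [h0]
    have h1 : |q 0| ≤ 0 := by
      refine this.trans ?_
      simp
    exact abs_nonpos_iff.mp h1
  rw [← integrableOn_iff_integrable_of_support_subset hs]
  refine Measure.integrableOn_of_bounded (M := K * C ^ 2) ?_ hm.aestronglyMeasurable ?_
  · exact (IsCompact.measure_lt_top hc).ne
  · refine Filter.Eventually.of_forall (fun x => ?_)
    rw [Real.norm_eq_abs]
    refine (hqb _).trans ?_
    have h1 : ‖fderiv ℝ f x‖ ≤ C := norm_fderiv_le_of_lipschitz ℝ hf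
    have h2 : ‖fderiv ℝ f x‖ ^ 2 ≤ (C : ℝ) ^ 2 := pow_le_pow_left₀ (norm_nonneg _) h1 2
    exact mul_le_mul_of_nonneg_left h2 hK

theorem kf_pd_int {m : ℕ} (G : (Fin m → E) → ℝ) (C : ℝ≥0) (hf : LipschitzWith C G)
    (hc : HasCompactSupport G) (A : Fin m) :
    Integrable (fun c => ∑ k, ‖pd G c A k‖ ^ 2) := by
  refine integrable_finsetSum _ (fun k _ => ?_)
  refine kf_int volume G C hf hc (fun l => ‖l (Pi.single A (EuclideanSpace.single k (1 : ℝ)))‖ ^ 2)
    ?_ (‖(Pi.single A (EuclideanSpace.single k (1 : ℝ)) : Fin m → E)‖ ^ 2) (by positivity) ?_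
  · have h1 : Continuous (fun l : (Fin m → E) →L[ℝ] ℝ =>
        l (Pi.single A (EuclideanSpace.single k (1 : ℝ)))) :=
      (ContinuousLinearMap.apply ℝ ℝ (Pi.single A (EuclideanSpace.single k (1 : ℝ)) :
        Fin m → E)).continuous
    exact (continuous_norm.comp h1).pow 2
  · intro l
    show |‖l (Pi.single A (EuclideanSpace.single k (1 : ℝ)))‖ ^ 2| ≤ _
    rw [abs_of_nonneg (by positivity), mul_comm, ← mul_pow]
    exact pow_le_pow_left₀ (norm_nonneg _) (l.le_opNorm _) 2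

theorem kf_sym {m : ℕ} (G : (Fin (m + 1) → E) → ℝ)
    (hG : ∀ (σ : Equiv.Perm (Fin (m + 1))) c, G (fun A => c (σ A)) = G c) (A : Fin (m + 1)) :
    ∫ c, ∑ k, ‖pd G c A k‖ ^ 2 = ∫ c, ∑ k, ‖pd G c 0 k‖ ^ 2 := by
  set σ : Equiv.Perm (Fin (m + 1)) := Equiv.swap 0 A with hσ
  let T : (Fin (m + 1) → E) ≃L[ℝ] (Fin (m + 1) → E) :=
    (LinearEquiv.funCongrLeft ℝ E σ).toContinuousLinearEquiv
  have hT : ∀ c B, T c B = c (σ B) := fun c B => rfl
  have hσA : σ A = 0 := Equiv.swap_apply_right 0 A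
  have hσ0 : σ 0 = A := Equiv.swap_apply_left 0 A
  have hsing : ∀ v : E, T (Pi.single A v) = Pi.single 0 v := by
    intro v
    funext B
    rw [hT]
    by_cases hB : B = 0
    · subst hB
      rw [hσ0, Pi.single_eq_same, Pi.single_eq_same]
    · have h1 : σ B ≠ A := by
        intro h
        apply hB
        apply σ.injective
        rw [h, hσ0]
      rw [Pi.single_eq_of_ne h1, Pi.single_eq_of_ne hB]
  have hGT : G ∘ T = G := by
    funext c
    exact hG σ c
  have hpd : ∀ c k, pd G c A k = pd G (T c) 0 k := by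
    intro c k
    unfold pd
    have h1 : fderiv ℝ G c = (fderiv ℝ G (T c)).comp (T : (Fin (m + 1) → E) →L[ℝ] _) := by
      conv_lhs => rw [← hGT]
      exact T.comp_right_fderiv
    rw [h1]
    show fderiv ℝ G (T c) (T (Pi.single A (EuclideanSpace.single k (1 : ℝ)))) = _
    rw [hsing]
  have hmp := volume_measurePreserving_piCongrLeft (fun _ : Fin (m + 1) => E) σ.symm
  have he : ∀ c, MeasurableEquiv.piCongrLeft (fun _ : Fin (m + 1) => E) σ.symm c = T c := by
    intro c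
    funext B
    have h1 := MeasurableEquiv.piCongrLeft_apply_apply (β := fun _ : Fin (m + 1) => E) σ.symm c
      (σ B)
    rw [Equiv.symm_apply_apply] at h1
    rw [h1, hT]
  rw [← hmp.integral_comp' (fun c => ∑ k, ‖pd G c 0 k‖ ^ 2)]
  refine integral_congr_ae (Filter.Eventually.of_forall (fun c => ?_))
  show ∑ k, ‖pd G c A k‖ ^ 2 =
    ∑ k, ‖pd G (MeasurableEquiv.piCongrLeft (fun _ : Fin (m + 1) => E) σ.symm c) 0 k‖ ^ 2
  rw [he c]
  exact Finset.sum_congr rfl (fun k _ => by rw [hpd c k])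

theorem kf_cons {m : ℕ} (z : E) (c : Fin m → E) :
    (MeasurableEquiv.piFinSuccAbove (fun _ : Fin (m + 1) => E) 0).symm (z, c) =
      (Fin.cons z c : Fin (m + 1) → E) := by
  simp only [MeasurableEquiv.piFinSuccAbove_symm_apply, Fin.insertNthEquiv, Fin.insertNth_zero,
    Equiv.coe_fn_mk, Fin.zero_succAbove]
  funext B
  refine Fin.cases ?_ (fun j => ?_) B
  · rfl
  · rfl

theorem kf_split {m : ℕ} (H : (Fin (m + 1) → E) → ℝ) (hH : Integrable H) :
    ∫ c, H c = ∫ c' : Fin m → E, ∫ z : E, H (Fin.cons z c') := by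
  have hmp := volume_preserving_piFinSuccAbove (fun _ : Fin (m + 1) => E) 0
  have h1 := hmp.symm.integral_comp' H
  have hi : Integrable (fun p : E × (Fin m → E) =>
      H ((MeasurableEquiv.piFinSuccAbove (fun _ : Fin (m + 1) => E) 0).symm p))
      (volume.prod volume) :=
    hmp.symm.integrable_comp_of_integrable hH
  rw [← h1]
  have h2 := integral_prod_symm _ hi
  refine Eq.trans h2 ?_
  refine integral_congr_ae (Filter.Eventually.of_forall (fun c' => ?_))
  refine integral_congr_ae (Filter.Eventually.of_forall (fun z => ?_))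
  show H _ = H _
  rw [kf_cons z c']

theorem kf_ae {m : ℕ} (P : (Fin (m + 1) → E) → Prop) (hP : ∀ᵐ c, P c) :
    ∀ᵐ c' : Fin m → E, ∀ᵐ z : E, P (Fin.cons z c') := by
  have hmp := volume_preserving_piFinSuccAbove (fun _ : Fin (m + 1) => E) 0
  have h1 := hmp.symm.quasiMeasurePreserving.ae hP
  have h2 := (Measure.measurePreserving_swap (μ := (volume : Measure (Fin m → E)))
    (ν := (volume : Measure E))).quasiMeasurePreserving.ae h1
  have h3 := Measure.ae_ae_of_ae_prod h2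
  filter_upwards [h3] with c' hc'
  filter_upwards [hc'] with z hz
  have h4 : P ((MeasurableEquiv.piFinSuccAbove (fun _ : Fin (m + 1) => E) 0).symm (z, c')) := hz
  rwa [kf_cons z c'] at h4

theorem kf_hasFDeriv_cons {m : ℕ} (c' : Fin m → E) (z : E) :
    HasFDerivAt (fun z : E => (Fin.cons z c' : Fin (m + 1) → E))
      (ContinuousLinearMap.single ℝ (fun _ : Fin (m + 1) => E) 0) z := by
  have h1 : (fun z : E => (Fin.cons z c' : Fin (m + 1) → E)) =
      fun z : E => ContinuousLinearMap.single ℝ (fun _ : Fin (m + 1) => E) 0 z +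
        (Fin.cons 0 c' : Fin (m + 1) → E) := by
    funext z B
    refine Fin.cases ?_ (fun j => ?_) B
    · show z = (Pi.single 0 z : Fin (m + 1) → E) 0 + (0 : E)
      rw [Pi.single_eq_same, add_zero]
    · show c' j = (Pi.single 0 z : Fin (m + 1) → E) j.succ + c' j
      rw [Pi.single_eq_of_ne (Fin.succ_ne_zero j), zero_add]
  rw [h1]
  exact (ContinuousLinearMap.hasFDerivAt _).add_const _

theorem kf_pt {m : ℕ} (G : (Fin (m + 1) → E) → ℝ) (c' : Fin m → E) (z : E) (u : E → ℝ) (b : ℝ)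
    (hu : ∀ z, G (Fin.cons z c') = u z * b) (hd : DifferentiableAt ℝ G (Fin.cons z c')) :
    ∑ k, ‖pd G (Fin.cons z c') 0 k‖ ^ 2 ≤ b ^ 2 * ‖fderiv ℝ u z‖ ^ 2 := by
  have h1 : fderiv ℝ (fun z => G (Fin.cons z c')) z =
      (fderiv ℝ G (Fin.cons z c')).comp
        (ContinuousLinearMap.single ℝ (fun _ : Fin (m + 1) => E) 0) :=
    (hd.hasFDerivAt.comp z (kf_hasFDeriv_cons c' z)).fderiv
  have h2 : (fun z => G (Fin.cons z c')) = b • u := by
    funext z
    rw [hu z]
    show u z * b = b * u z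
    ring
  have h3 : fderiv ℝ (b • u) z = b • fderiv ℝ u z := by
    rw [fderiv_const_smul_field]
    rfl
  rw [h2, h3] at h1
  have h4 : ∀ k, pd G (Fin.cons z c') 0 k = b * fderiv ℝ u z (EuclideanSpace.single k (1 : ℝ)) := by
    intro k
    have h5 := congrArg (fun l : E →L[ℝ] ℝ => l (EuclideanSpace.single k (1 : ℝ))) h1
    exact h5.symm
  calc ∑ k, ‖pd G (Fin.cons z c') 0 k‖ ^ 2
      = b ^ 2 * ∑ k, ‖fderiv ℝ u z (EuclideanSpace.single k (1 : ℝ))‖ ^ 2 := by
        rw [Finset.mul_sum]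
        refine Finset.sum_congr rfl (fun k _ => ?_)
        rw [h4, norm_mul, mul_pow, Real.norm_eq_abs b, sq_abs]
    _ ≤ b ^ 2 * ‖fderiv ℝ u z‖ ^ 2 :=
        mul_le_mul_of_nonneg_left (kf_riesz _) (sq_nonneg b)

theorem kf_cons_isom {m : ℕ} (c' : Fin m → E) :
    Isometry (fun z : E => (Fin.cons z c' : Fin (m + 1) → E)) := by
  refine Isometry.of_dist_eq (fun z w => ?_)
  refine le_antisymm ?_ ?_
  · rw [dist_pi_le_iff dist_nonneg]
    intro B
    refine Fin.cases ?_ (fun j => ?_) B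
    · exact le_rfl
    · show dist (c' j) (c' j) ≤ dist z w
      rw [dist_self]
      exact dist_nonneg
  · exact dist_le_pi_dist (Fin.cons z c' : Fin (m + 1) → E) (Fin.cons w c' : Fin (m + 1) → E) 0

theorem kf_inner {m : ℕ} (G : (Fin (m + 1) → E) → ℝ) (C : ℝ≥0) (hf : LipschitzWith C G)
    (hc : HasCompactSupport G) (c' : Fin m → E) (u : E → ℝ) (b : ℝ)
    (hu : ∀ z, G (Fin.cons z c') = u z * b) (hd : ∀ᵐ z : E, DifferentiableAt ℝ G (Fin.cons z c')) :
    ∫ z : E, ∑ k, ‖pd G (Fin.cons z c') 0 k‖ ^ 2 ≤ b ^ 2 * ∫ z : E, ‖fderiv ℝ u z‖ ^ 2 := by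
  rw [← integral_const_mul]
  refine integral_mono_of_nonneg (Filter.Eventually.of_forall (fun z => ?_)) ?_ ?_
  · exact Finset.sum_nonneg (fun k _ => by positivity)
  · have h2 : (fun z => G (Fin.cons z c')) = b • u := by
      funext z
      rw [hu z]
      show u z * b = b * u z
      ring
    have h3 : (fun z => b ^ 2 * ‖fderiv ℝ u z‖ ^ 2) =
        fun z => (fun l : E →L[ℝ] ℝ => ‖l‖ ^ 2) (fderiv ℝ (fun z => G (Fin.cons z c')) z) := by
      funext z
      rw [h2, fderiv_const_smul_field]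
      show b ^ 2 * ‖fderiv ℝ u z‖ ^ 2 = ‖b • fderiv ℝ u z‖ ^ 2
      rw [norm_smul, mul_pow, Real.norm_eq_abs, sq_abs]
    rw [h3]
    refine kf_int volume _ (C * 1) (hf.comp (kf_cons_isom c').lipschitz) ?_
      (fun l : E →L[ℝ] ℝ => ‖l‖ ^ 2) (continuous_norm.pow 2) 1 zero_le_one (fun l => ?_)
    · exact hc.comp_isClosedEmbedding (kf_cons_isom c').isClosedEmbedding
    · show |‖l‖ ^ 2| ≤ 1 * ‖l‖ ^ 2
      rw [one_mul, abs_of_nonneg (by positivity)]
  · filter_upwards [hd] with z hz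
    exact kf_pt G c' z u b hu hz

theorem kf_closeN_meas (m : ℕ) : Measurable (fun c : Fin m → E => closeN c) := by
  unfold closeN
  refine Finset.measurable_fun_sum _ (fun B _ => Finset.measurable_fun_sum _ (fun D _ => ?_))
  refine Measurable.ite ?_ measurable_const measurable_const
  refine measurableSet_le ?_ measurable_const
  exact (measurable_pi_apply B).dist (measurable_pi_apply D)

theorem kf_closeN_bd (m : ℕ) (c : Fin m → E) : ‖closeN c‖ ≤ (m : ℝ) * m := by
  unfold closeN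
  refine (norm_sum_le _ _).trans ?_
  have h1 : ∀ B ∈ (Finset.univ : Finset (Fin m)),
      ‖∑ D ∈ Finset.univ.erase B, (if dist (c B) (c D) ≤ 66 then (1 : ℝ) else 0)‖ ≤ (m : ℝ) := by
    intro B _
    refine (norm_sum_le _ _).trans ?_
    have h2 : ∀ D ∈ Finset.univ.erase B,
        ‖(if dist (c B) (c D) ≤ 66 then (1 : ℝ) else 0)‖ ≤ 1 := by
      intro D _
      split_ifs
      · simp
      · simp
    refine (Finset.sum_le_sum h2).trans ?_
    rw [Finset.sum_const, nsmul_eq_mul, mul_one]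
    have h3 : (Finset.univ.erase B).card ≤ m := by
      refine (Finset.card_le_univ _).trans ?_
      rw [Fintype.card_fin]
    exact_mod_cast h3
  refine (Finset.sum_le_sum h1).trans ?_
  rw [Finset.sum_const, nsmul_eq_mul, Finset.card_univ, Fintype.card_fin]

theorem kinFm
    (Fm_cons : ∀ (m : ℕ) (L : ℝ) (z : E) (c : Fin m → E), Fm (m + 1) L (Fin.cons z c) = uu L c z * Fm m L c)
    (Fm_basic : ∀ (m : ℕ) (L : ℝ), 4 < L →
      (∀ c, 0 ≤ Fm m L c ∧ Fm m L c ≤ 1) ∧ (∃ C : ℝ≥0, LipschitzWith C (Fm m L)) ∧ HasCompactSupport (Fm m L) ∧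
      (∀ c, Fm m L c ≠ 0 → ∀ A B, A ≠ B → 11 ≤ dist (c A) (c B)) ∧
      (∀ c, Fm m L c ≠ 0 → ∀ A k, 1 < c A k ∧ c A k < L - 1) ∧
      (∀ (σ : Equiv.Perm (Fin m)) c, Fm m L (fun A => c (σ A)) = Fm m L c))
    (grad_uu : ∀ (m : ℕ) (L τ : ℝ), 4 < L → 0 < τ → ∀ (c : Fin m → E),
      ∫ z, ‖fderiv ℝ (uu L c) z‖ ^ 2 ≤ (1 + τ) * I0 * (m + closeN c) + (1 + 1 / τ) * (6 * L ^ 2))
    (m : ℕ) (L τ : ℝ) (hL : 4 < L) (hτ : 0 < τ) :
    ∫ c, kin (Fm (m + 1) L) c ≤ (m + 1) *
      ((1 + τ) * I0 * (m * (∫ c, Fm m L c ^ 2) + ∫ c, closeN c * Fm m L c ^ 2)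
        + (1 + 1 / τ) * (6 * L ^ 2) * ∫ c, Fm m L c ^ 2) := by
  obtain ⟨_, ⟨C, hC⟩, hcs, _, _, hsym⟩ := Fm_basic (m + 1) L hL
  obtain ⟨_, ⟨C', hC'⟩, hcs', _, _, _⟩ := Fm_basic m L hL
  have hkin : ∫ c, kin (Fm (m + 1) L) c = (m + 1) * ∫ c, ∑ k, ‖pd (Fm (m + 1) L) c 0 k‖ ^ 2 := by
    unfold kin
    rw [integral_finsetSum _ (fun A _ => kf_pd_int _ C hC hcs A),
      Finset.sum_congr rfl (fun A _ => kf_sym _ hsym A), Finset.sum_const, Finset.card_univ,
      Fintype.card_fin, nsmul_eq_mul]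
    push_cast
    ring
  rw [hkin]
  have hm0 : (0 : ℝ) ≤ (m : ℝ) + 1 := by positivity
  refine mul_le_mul_of_nonneg_left ?_ hm0
  rw [kf_split _ (kf_pd_int _ C hC hcs 0)]
  have hi1 : Integrable (fun c => Fm m L c ^ 2) := by
    refine Continuous.integrable_of_hasCompactSupport (hC'.continuous.pow 2) ?_
    have h1 : (fun c => Fm m L c ^ 2) = (fun t : ℝ => t ^ 2) ∘ Fm m L := rfl
    rw [h1]
    exact hcs'.comp_left (by simp)
  have hi2 : Integrable (fun c => closeN c * Fm m L c ^ 2) := by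
    refine hi1.bdd_mul (c := (m : ℝ) * m) (kf_closeN_meas m).aestronglyMeasurable ?_
    exact Filter.Eventually.of_forall (kf_closeN_bd m)
  have hR : (1 + τ) * I0 * (m * (∫ c, Fm m L c ^ 2) + ∫ c, closeN c * Fm m L c ^ 2)
        + (1 + 1 / τ) * (6 * L ^ 2) * ∫ c, Fm m L c ^ 2 =
      ∫ c : Fin m → E, (((1 + τ) * I0 * m + (1 + 1 / τ) * (6 * L ^ 2)) * Fm m L c ^ 2 +
        ((1 + τ) * I0) * (closeN c * Fm m L c ^ 2)) := by
    rw [integral_add (hi1.const_mul _) (hi2.const_mul _), integral_const_mul, integral_const_mul]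
    ring
  rw [hR]
  have hd := kf_ae _ (hC.ae_differentiableAt (μ := (volume : Measure (Fin (m + 1) → E))))
  refine integral_mono_of_nonneg (Filter.Eventually.of_forall (fun c' => ?_))
    ((hi1.const_mul _).add (hi2.const_mul _)) ?_
  · exact integral_nonneg (fun z => Finset.sum_nonneg (fun k _ => by positivity))
  · filter_upwards [hd] with c' hc'
    have h1 := kf_inner (Fm (m + 1) L) C hC hcs c' (uu L c') (Fm m L c')
      (fun z => Fm_cons m L z c') hc'
    refine h1.trans ?_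
    have h2 := mul_le_mul_of_nonneg_left (grad_uu m L τ hL hτ c') (sq_nonneg (Fm m L c'))
    refine h2.trans (le_of_eq ?_)
    ring

end BG631.JH5
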