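import Pool.Agent.H631.BG.Base

open MeasureTheory Filter Topology Set
open scoped ENNReal NNReal BigOperators

namespace BG631.JH6

theorem h6_vol0 : ∫ c : Fin 0 → E, (1 : ℝ) = 1 := by
  rw [volume_pi, Measure.pi_of_empty (fun _ : Fin 0 => (volume : Measure E)) (fun i => i.elim0)]
  simp

theorem h6_Fm0 (L : ℝ) (c : Fin 0 → E) : Fm 0 L c = 1 := by
  unfold Fm
  simp

theorem h6_b33 : 0 ≤ b33 := by unfold b33; positivity
theorem h6_b66 : 0 ≤ b66 := by unfold b66; positivity
theorem h6_I0 : 0 ≤ I0 := by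
  unfold I0
  have : (0:ℝ) ≤ 33 ^ 3 - 11 ^ 3 := by norm_num
  positivity


open Classical in
theorem hs
    (Fm_basic : ∀ (m : ℕ) (L : ℝ), 4 < L →
      (∀ c, 0 ≤ Fm m L c ∧ Fm m L c ≤ 1) ∧ (∃ C : ℝ≥0, LipschitzWith C (Fm m L)) ∧ HasCompactSupport (Fm m L) ∧
      (∀ c, Fm m L c ≠ 0 → ∀ A B, A ≠ B → 11 ≤ dist (c A) (c B)) ∧
      (∀ c, Fm m L c ≠ 0 → ∀ A k, 1 < c A k ∧ c A k < L - 1) ∧
      (∀ (σ : Equiv.Perm (Fin m)) c, Fm m L (fun A => c (σ A)) = Fm m L c))
    (Nrec : ∀ (m : ℕ) (L : ℝ), 4 < L →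
      ((L - 4) ^ 3 - m * b33) * ∫ c, Fm m L c ^ 2 ≤ ∫ c, Fm (m + 1) L c ^ 2)
    (Nclose : ∀ (m : ℕ) (L : ℝ), 4 < L → ∀ (A B : Fin (m + 1)), A ≠ B →
      ∫ c, (if dist (c A) (c B) ≤ 66 then (1 : ℝ) else 0) * Fm (m + 1) L c ^ 2 ≤ b66 * ∫ c, Fm m L c ^ 2)
    (kinFm : ∀ (m : ℕ) (L τ : ℝ), 4 < L → 0 < τ →
      ∫ c, kin (Fm (m + 1) L) c ≤ (m + 1) *
        ((1 + τ) * I0 * (m * (∫ c, Fm m L c ^ 2) + ∫ c, closeN c * Fm m L c ^ 2)
          + (1 + 1 / τ) * (6 * L ^ 2) * ∫ c, Fm m L c ^ 2))
    (m : ℕ) (L τ κ : ℝ) (hL : 4 < L) (hτ : 0 < τ) (hκ : κ = (L - 4) ^ 3 - m * b33) (h0 : 0 < κ) :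
    ∃ Φ : (Fin m → E) → ℝ, (∃ C : ℝ≥0, LipschitzWith C Φ) ∧ HasCompactSupport Φ ∧
      (∀ c, Φ c ≠ 0 → ∀ A B, A ≠ B → 11 ≤ dist (c A) (c B)) ∧
      (∀ c, Φ c ≠ 0 → ∀ A k, 1 < c A k ∧ c A k < L - 1) ∧
      0 < ∫ c, ‖Φ c‖ ^ 2 ∧
      ∫ c, kin Φ c ≤ m * ((1 + τ) * I0 * (m / κ) * (1 + b66 * m / κ) + (1 + 1 / τ) * (6 * L ^ 2 / κ)) *
        ∫ c, ‖Φ c‖ ^ 2 := by
  set N : ℕ → ℝ := fun j => ∫ c, Fm j L c ^ 2 with hN
  have hN0 : ∀ j, 0 ≤ N j := fun j => integral_nonneg (fun c => sq_nonneg _)
  have hNzero : N 0 = 1 := by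
    simp only [hN, h6_Fm0, one_pow]
    exact h6_vol0
  have hrec : ∀ j, j ≤ m → κ * N j ≤ N (j + 1) := by
    intro j hj
    have h1 := Nrec j L hL
    have hjm : (j : ℝ) ≤ m := by exact_mod_cast hj
    have h2 : κ ≤ (L - 4) ^ 3 - j * b33 := by
      rw [hκ]
      have := mul_le_mul_of_nonneg_right hjm h6_b33
      linarith
    exact (mul_le_mul_of_nonneg_right h2 (hN0 j)).trans h1
  have hNpos : ∀ j, j ≤ m → 0 < N j := by
    intro j
    induction j with
    | zero => intro _; rw [hNzero]; exact one_pos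
    | succ j ih =>
      intro hj
      have h1 := ih (by omega)
      have h2 := hrec j (by omega)
      exact lt_of_lt_of_le (mul_pos h0 h1) h2
  obtain ⟨f1, f2, f3, f4, f5, f6⟩ := Fm_basic m L hL
  have hnorm : ∀ c, ‖Fm m L c‖ ^ 2 = Fm m L c ^ 2 := fun c => by
    rw [Real.norm_eq_abs, sq_abs]
  refine ⟨Fm m L, f2, f3, f4, f5, ?_, ?_⟩
  · simp only [hnorm]
    exact hNpos m le_rfl
  · simp only [hnorm]
    change _ ≤ _ * N m
    rcases m with _ | m'
    · have : ∀ c, kin (Fm 0 L) c = 0 := fun c => by unfold kin; simp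
      simp only [this, integral_zero]
      simp
    · have hk := kinFm m' L τ hL hτ
      have hclose : ∫ c, closeN c * Fm m' L c ^ 2 ≤ (m' : ℝ) ^ 2 * b66 * (N m' / κ) := by
        rcases m' with _ | m''
        · have : ∀ c : Fin 0 → E, closeN c * Fm 0 L c ^ 2 = 0 := fun c => by
            unfold closeN; simp
          simp only [this, integral_zero]
          simp
        · obtain ⟨g1, ⟨C, g2⟩, g3, -, -, -⟩ := Fm_basic (m'' + 1) L hL
          have hint : Integrable (fun c => Fm (m'' + 1) L c ^ 2) := by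
            apply Continuous.integrable_of_hasCompactSupport
            · exact g2.continuous.pow 2
            · exact g3.comp_left (g := fun t : ℝ => t ^ 2) (by simp)
          have hterm : ∀ B D : Fin (m'' + 1), Integrable (fun c : Fin (m'' + 1) → E =>
              (if dist (c B) (c D) ≤ 66 then (1 : ℝ) else 0) * Fm (m'' + 1) L c ^ 2) := by
            intro B D
            have hms : MeasurableSet {c : Fin (m'' + 1) → E | dist (c B) (c D) ≤ 66} := by
              apply IsClosed.measurableSet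
              exact isClosed_le (by fun_prop) continuous_const
            refine (hint.indicator hms).congr ?_
            filter_upwards with c
            by_cases h : dist (c B) (c D) ≤ 66
            · rw [Set.indicator_of_mem (by exact h), if_pos h, one_mul]
            · rw [Set.indicator_of_notMem (by exact h), if_neg h, zero_mul]
          have hexp : ∀ c : Fin (m'' + 1) → E, closeN c * Fm (m'' + 1) L c ^ 2
              = ∑ B, ∑ D ∈ Finset.univ.erase B,
                (if dist (c B) (c D) ≤ 66 then (1 : ℝ) else 0) * Fm (m'' + 1) L c ^ 2 := by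
            intro c
            unfold closeN
            rw [Finset.sum_mul]
            apply Finset.sum_congr rfl
            intro B _
            rw [Finset.sum_mul]
          simp only [hexp]
          rw [integral_finset_sum _ (fun B _ => integrable_finset_sum _ (fun D _ => hterm B D))]
          have hb : ∀ B : Fin (m'' + 1), ∫ c : Fin (m'' + 1) → E, ∑ D ∈ Finset.univ.erase B,
                (if dist (c B) (c D) ≤ 66 then (1 : ℝ) else 0) * Fm (m'' + 1) L c ^ 2
              ≤ ((m'' + 1 : ℕ) : ℝ) * (b66 * N m'') := by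
            intro B
            rw [integral_finset_sum _ (fun D _ => hterm B D)]
            calc ∑ D ∈ Finset.univ.erase B, ∫ c : Fin (m'' + 1) → E,
                  (if dist (c B) (c D) ≤ 66 then (1 : ℝ) else 0) * Fm (m'' + 1) L c ^ 2
                ≤ ∑ D ∈ Finset.univ.erase B, b66 * N m'' := by
                  apply Finset.sum_le_sum
                  intro D hD
                  exact Nclose m'' L hL B D (Finset.ne_of_mem_erase hD).symm
              _ = ((Finset.univ.erase B).card : ℝ) * (b66 * N m'') := by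
                  rw [Finset.sum_const, nsmul_eq_mul]
              _ ≤ ((m'' + 1 : ℕ) : ℝ) * (b66 * N m'') := by
                  apply mul_le_mul_of_nonneg_right _ (mul_nonneg h6_b66 (hN0 _))
                  have : (Finset.univ.erase B).card ≤ m'' + 1 := by
                    calc _ ≤ (Finset.univ : Finset (Fin (m'' + 1))).card :=
                          Finset.card_le_card (Finset.erase_subset _ _)
                      _ = m'' + 1 := by simp
                  exact_mod_cast this
          calc ∑ B : Fin (m'' + 1), ∫ c : Fin (m'' + 1) → E, ∑ D ∈ Finset.univ.erase B,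
                (if dist (c B) (c D) ≤ 66 then (1 : ℝ) else 0) * Fm (m'' + 1) L c ^ 2
              ≤ ∑ B : Fin (m'' + 1), ((m'' + 1 : ℕ) : ℝ) * (b66 * N m'') :=
                Finset.sum_le_sum (fun B _ => hb B)
            _ = ((m'' + 1 : ℕ) : ℝ) ^ 2 * b66 * N m'' := by
                rw [Finset.sum_const, nsmul_eq_mul, Finset.card_univ, Fintype.card_fin]; ring
            _ ≤ ((m'' + 1 : ℕ) : ℝ) ^ 2 * b66 * (N (m'' + 1) / κ) := by
                apply mul_le_mul_of_nonneg_left _ (mul_nonneg (by positivity) h6_b66)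
                rw [le_div_iff₀ h0]
                have := hrec m'' (by omega)
                linarith
      have hNm : N m' ≤ N (m' + 1) / κ := by
        rw [le_div_iff₀ h0]
        have := hrec m' (by omega)
        linarith
      have hm0 : (0 : ℝ) ≤ (m' : ℝ) := Nat.cast_nonneg _
      have hcast : ((m' + 1 : ℕ) : ℝ) = (m' : ℝ) + 1 := by push_cast; ring
      have hI := h6_I0
      have hB := h6_b66
      have hτ' : 0 < 1 + 1 / τ := by positivity
      set M : ℝ := (m' : ℝ) + 1 with hM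
      have hMm : (m' : ℝ) ≤ M := by rw [hM]; linarith
      have hM0 : 0 ≤ M := hm0.trans hMm
      rw [hcast]
      have hstep1 : (m' : ℝ) * N m' + ∫ c, closeN c * Fm m' L c ^ 2
          ≤ (M + M ^ 2 * b66 / κ) * N m' := by
        have h1 : (m' : ℝ) * N m' ≤ M * N m' := mul_le_mul_of_nonneg_right hMm (hN0 _)
        have h2 : (m' : ℝ) ^ 2 * b66 * (N m' / κ) ≤ M ^ 2 * b66 * (N m' / κ) := by
          apply mul_le_mul_of_nonneg_right _ (div_nonneg (hN0 _) h0.le)
          apply mul_le_mul_of_nonneg_right _ hB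
          exact pow_le_pow_left₀ hm0 hMm 2
        calc _ ≤ M * N m' + M ^ 2 * b66 * (N m' / κ) := add_le_add h1 (hclose.trans h2)
          _ = _ := by ring
      have hcoef : 0 ≤ M + M ^ 2 * b66 / κ := by positivity
      have hstep2 : (M + M ^ 2 * b66 / κ) * N m' ≤ (M + M ^ 2 * b66 / κ) * (N (m' + 1) / κ) :=
        mul_le_mul_of_nonneg_left hNm hcoef
      calc ∫ c, kin (Fm (m' + 1) L) c
          ≤ M * ((1 + τ) * I0 * ((m' : ℝ) * N m' + ∫ c, closeN c * Fm m' L c ^ 2)
            + (1 + 1 / τ) * (6 * L ^ 2) * N m') := hk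
        _ ≤ M * ((1 + τ) * I0 * ((M + M ^ 2 * b66 / κ) * (N (m' + 1) / κ))
            + (1 + 1 / τ) * (6 * L ^ 2) * (N (m' + 1) / κ)) := by
            apply mul_le_mul_of_nonneg_left _ hM0
            apply add_le_add
            · exact mul_le_mul_of_nonneg_left (hstep1.trans hstep2) (by positivity)
            · exact mul_le_mul_of_nonneg_left hNm (by positivity)
        _ = _ := by
            field_simp

end BG631.JH6
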