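import Pool.Agent.H631.BG.Base

open MeasureTheory Filter Topology Set
open scoped ENNReal NNReal BigOperators

namespace BG631.JK1

theorem K1_dist_cm (n : ℕ) (hn : 1 ≤ n) (x : Fin n → E) (hx : clump x) (i : Fin n) :
    dist (x i) (cm x) < 1 := by
  have hn0 : (0 : ℝ) < n := by exact_mod_cast hn
  have e1 : x i - cm x = (n : ℝ)⁻¹ • ∑ j, (x i - x j) := by
    unfold cm
    rw [Finset.sum_sub_distrib, smul_sub, Finset.sum_const, Finset.card_univ, Fintype.card_fin,
      ← Nat.cast_smul_eq_nsmul ℝ, smul_smul, inv_mul_cancel₀ hn0.ne', one_smul]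
  rw [dist_eq_norm, e1, norm_smul, norm_inv, Real.norm_natCast]
  rw [inv_mul_lt_iff₀ hn0, mul_one]
  have h1 : ∀ j : Fin n, ‖x i - x j‖ < 1 := by
    intro j
    by_cases h : i = j
    · rw [h]; simp
    · have := hx i j h
      rwa [dist_eq_norm] at this
  have hne : (Finset.univ : Finset (Fin n)).Nonempty := ⟨i, Finset.mem_univ i⟩
  calc ‖∑ j, (x i - x j)‖ ≤ ∑ j, ‖x i - x j‖ := norm_sum_le _ _
    _ < ∑ _j : Fin n, (1 : ℝ) := Finset.sum_lt_sum_of_nonempty hne fun j _ => h1 j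
    _ = n := by simp

theorem K1_cm_lip (n : ℕ) (hn : 1 ≤ n) (x y : Fin n → E) : dist (cm x) (cm y) ≤ dist x y := by
  have hn0 : (0 : ℝ) < n := by exact_mod_cast hn
  unfold cm
  rw [dist_eq_norm, ← smul_sub, ← Finset.sum_sub_distrib, norm_smul, norm_inv, Real.norm_natCast,
    inv_mul_le_iff₀ hn0]
  calc ‖∑ i, (x i - y i)‖ ≤ ∑ i, ‖x i - y i‖ := norm_sum_le _ _
    _ ≤ ∑ _i : Fin n, dist x y := Finset.sum_le_sum fun i _ => by
        rw [← dist_eq_norm]; exact dist_le_pi_dist x y i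
    _ = n * dist x y := by simp

theorem K1_mul_lip {X : Type} [PseudoMetricSpace X] (f g : X → ℝ)
    (hf : ∃ C : ℝ≥0, LipschitzWith C f) (hfb : ∃ b, ∀ x, |f x| ≤ b)
    (hg : ∃ C : ℝ≥0, LipschitzWith C g) (hgb : ∃ b, ∀ x, |g x| ≤ b) :
    (∃ C : ℝ≥0, LipschitzWith C (fun x => f x * g x)) ∧ ∃ b, ∀ x, |f x * g x| ≤ b := by
  obtain ⟨Cf, hCf⟩ := hf
  obtain ⟨Cg, hCg⟩ := hg
  obtain ⟨bf, hbf⟩ := hfb
  obtain ⟨bg, hbg⟩ := hgb
  have hb1 : ∀ x, |f x| ≤ |bf| := fun x => (hbf x).trans (le_abs_self _)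
  have hb2 : ∀ x, |g x| ≤ |bg| := fun x => (hbg x).trans (le_abs_self _)
  refine ⟨⟨⟨|bf| * Cg + |bg| * Cf, by positivity⟩, ?_⟩, |bf| * |bg|, fun x => ?_⟩
  · apply LipschitzWith.of_dist_le_mul
    intro x y
    have h1 := hCf.dist_le_mul x y
    have h2 := hCg.dist_le_mul x y
    rw [Real.dist_eq] at h1 h2 ⊢
    have e : f x * g x - f y * g y = f x * (g x - g y) + g y * (f x - f y) := by ring
    rw [e]
    calc |f x * (g x - g y) + g y * (f x - f y)|
        ≤ |f x * (g x - g y)| + |g y * (f x - f y)| := abs_add_le _ _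
      _ = |f x| * |g x - g y| + |g y| * |f x - f y| := by rw [abs_mul, abs_mul]
      _ ≤ |bf| * (Cg * dist x y) + |bg| * (Cf * dist x y) := by
          apply add_le_add
          · exact mul_le_mul (hb1 x) h2 (abs_nonneg _) (abs_nonneg _)
          · exact mul_le_mul (hb2 y) h1 (abs_nonneg _) (abs_nonneg _)
      _ = (|bf| * Cg + |bg| * Cf) * dist x y := by ring
  · rw [abs_mul]
    exact mul_le_mul (hb1 x) (hb2 x) (abs_nonneg _) (abs_nonneg _)

theorem K1_prod_lip {X ι : Type} [PseudoMetricSpace X] (s : Finset ι) (f : ι → X → ℝ)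
    (hf : ∀ i, ∃ C : ℝ≥0, LipschitzWith C (f i)) (hfb : ∀ i, ∃ b, ∀ x, |f i x| ≤ b) :
    (∃ C : ℝ≥0, LipschitzWith C (fun x => ∏ i ∈ s, f i x)) ∧ ∃ b, ∀ x, |∏ i ∈ s, f i x| ≤ b := by
  classical
  induction s using Finset.induction_on with
  | empty =>
    refine ⟨⟨0, ?_⟩, 1, fun x => by simp⟩
    simp only [Finset.prod_empty]
    exact LipschitzWith.const 1
  | insert i s hi ih =>
    simp only [Finset.prod_insert hi]
    exact K1_mul_lip (f i) (fun x => ∏ i ∈ s, f i x) (hf i) (hfb i) ih.1 ih.2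

theorem Psi_lip (n m : ℕ) (hn : 1 ≤ n) (φ : (Fin n → E) → ℝ) (hφ : ∃ C : ℝ≥0, LipschitzWith C φ)
    (hb : ∃ b, ∀ x, |φ x| ≤ b) (hcl : ∀ x, φ x ≠ 0 → clump x)
    (Φ : (Fin m → E) → ℝ) (hΦ : ∃ C : ℝ≥0, LipschitzWith C Φ) (hc : HasCompactSupport Φ) :
    (∃ C : ℝ≥0, LipschitzWith C (Psi φ Φ)) ∧ HasCompactSupport (Psi φ Φ) := by
  constructor
  · obtain ⟨Cφ, hCφ⟩ := hφ
    obtain ⟨b, hb⟩ := hb
    obtain ⟨CΦ, hCΦ⟩ := hΦ
    obtain ⟨M, hM⟩ := hc.exists_bound_of_continuous hCΦ.continuous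
    have h1 : ∀ A : Fin m, LipschitzWith 1 (fun x : Fin m × Fin n → E => fun i => x (A, i)) := by
      intro A
      apply LipschitzWith.of_dist_le_mul
      intro x y
      rw [NNReal.coe_one, one_mul]
      exact (dist_pi_le_iff dist_nonneg).2 fun i => dist_le_pi_dist x y (A, i)
    have h2 : LipschitzWith 1 (fun x : Fin m × Fin n → E => fun A => cm (fun i => x (A, i))) := by
      apply LipschitzWith.of_dist_le_mul
      intro x y
      rw [NNReal.coe_one, one_mul]
      refine (dist_pi_le_iff dist_nonneg).2 fun A => ?_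
      refine (K1_cm_lip n hn _ _).trans ?_
      exact (dist_pi_le_iff dist_nonneg).2 fun i => dist_le_pi_dist x y (A, i)
    have h3 := K1_prod_lip (X := Fin m × Fin n → E) Finset.univ (fun A x => φ (fun i => x (A, i)))
      (fun A => ⟨_, hCφ.comp (h1 A)⟩) (fun A => ⟨b, fun x => hb _⟩)
    exact (K1_mul_lip (fun x : Fin m × Fin n → E => ∏ A, φ (fun i => x (A, i)))
      (fun x => Φ (fun A => cm (fun i => x (A, i)))) h3.1 h3.2 ⟨_, hCΦ.comp h2⟩
      ⟨M, fun x => hM _⟩).1
  · obtain ⟨R, hR⟩ := hc.isCompact.isBounded.subset_closedBall 0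
    apply HasCompactSupport.of_support_subset_isCompact
      (isCompact_closedBall (0 : Fin m × Fin n → E) (|R| + 1))
    intro x hx
    have hx' : (∏ A, φ (fun i => x (A, i))) * Φ (fun A => cm (fun i => x (A, i))) ≠ 0 := hx
    have h1 := left_ne_zero_of_mul hx'
    have h2 := right_ne_zero_of_mul hx'
    rw [Finset.prod_ne_zero_iff] at h1
    have h3 := hR (subset_tsupport Φ h2)
    rw [mem_closedBall_zero_iff] at h3 ⊢
    rw [pi_norm_le_iff_of_nonneg (by positivity)]
    rintro ⟨A, i⟩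
    have h4 := K1_dist_cm n hn _ (hcl _ (h1 A (Finset.mem_univ A))) i
    have h5 := norm_le_pi_norm (fun A => cm (fun i => x (A, i))) A
    rw [dist_eq_norm] at h4
    have h6 : ‖x (A, i)‖ ≤ ‖x (A, i) - cm (fun i => x (A, i))‖ + ‖cm (fun i => x (A, i))‖ :=
      norm_le_norm_sub_add _ _
    have h7 := le_abs_self R
    linarith

/-- in a clump every particle is at distance `< 1` from the centre of mass -/
theorem dist_cm (n : ℕ) (hn : 1 ≤ n) (x : Fin n → E) (hx : clump x) (i : Fin n) : dist (x i) (cm x) < 1 :=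
  K1_dist_cm n hn x hx i

/-- potential energy of separated clumps -/
theorem Psi_pot (n m : ℕ) (hn : 1 ≤ n) (K lam B : ℝ) (φ : (Fin n → E) → ℝ) (hcl : ∀ x, φ x ≠ 0 → clump x)
    (Φ : (Fin m → E) → ℝ) (hsep : ∀ c, Φ c ≠ 0 → ∀ A B, A ≠ B → 11 ≤ dist (c A) (c B))
    (x : Fin m × Fin n → E) :
    pot (V0 K lam B) x * Psi φ Φ x ^ 2 = (∑ A, pot (Vin K lam) (fun i => x (A, i))) * Psi φ Φ x ^ 2 := by
  by_cases hP : Psi φ Φ x = 0
  · rw [hP]; ring
  congr 1
  have h1 := left_ne_zero_of_mul hP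
  have h2 := right_ne_zero_of_mul hP
  rw [Finset.prod_ne_zero_iff] at h1
  have hclump : ∀ A, clump (fun i => x (A, i)) := fun A => hcl _ (h1 A (Finset.mem_univ A))
  have hfar : ∀ A A' i j, A ≠ A' → V0 K lam B (dist (x (A, i)) (x (A', j))) = 0 := by
    intro A A' i j hAA
    have h3 := hsep _ h2 A A' hAA
    have h4 := K1_dist_cm n hn _ (hclump A) i
    have h5 := K1_dist_cm n hn _ (hclump A') j
    have h6 : dist (cm (fun i => x (A, i))) (cm (fun i => x (A', i))) ≤
        dist (x (A, i)) (cm (fun i => x (A, i))) + dist (x (A, i)) (x (A', j)) +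
        dist (x (A', j)) (cm (fun i => x (A', i))) := by
      have := dist_triangle4 (cm (fun i => x (A, i))) (x (A, i)) (x (A', j)) (cm (fun i => x (A', i)))
      rwa [dist_comm (cm (fun i => x (A, i))) (x (A, i))] at this
    have h7 : 9 ≤ dist (x (A, i)) (x (A', j)) := by linarith
    unfold V0
    rw [if_neg (by linarith), if_neg (by linarith), if_neg (by linarith)]
  have hnear : ∀ A i j, i ≠ j → V0 K lam B (dist (x (A, i)) (x (A, j))) =
      Vin K lam (dist (x (A, i)) (x (A, j))) := by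
    intro A i j hij
    have h3 := hclump A i j hij
    unfold V0 Vin
    split_ifs with h4 h5
    · rfl
    · rfl
    · exact absurd h3.le h5
    · exact absurd h3.le h5
  unfold pot
  rw [Fintype.sum_prod_type, Finset.mul_sum]
  apply Finset.sum_congr rfl
  intro A _
  congr 1
  apply Finset.sum_congr rfl
  intro i _
  rw [← Finset.filter_ne', ← Finset.filter_ne', Finset.sum_filter, Finset.sum_filter,
    Fintype.sum_prod_type]
  rw [Finset.sum_eq_single A]
  · apply Finset.sum_congr rfl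
    intro j _
    by_cases h : j = i
    · subst h; simp
    · have h' : (A, j) ≠ (A, i) := fun hh => h (Prod.mk.inj hh).2
      rw [if_pos h, if_pos h']
      exact hnear A i j (Ne.symm h)
  · intro A' _ hA'
    apply Finset.sum_eq_zero
    intro j _
    split_ifs with h
    · exact hfar A A' i j (Ne.symm hA')
    · rfl
  · intro h
    exact absurd (Finset.mem_univ A) h

end BG631.JK1
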