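import Pool.Agent.H631.BG.Base

open MeasureTheory Filter Topology Set
open scoped ENNReal NNReal BigOperators

namespace BG631.JK2

/-- the `A`-th clump -/
noncomputable def LA {n m : ℕ} (A : Fin m) : (Fin m × Fin n → E) →L[ℝ] (Fin n → E) :=
  ContinuousLinearMap.pi (fun i => ContinuousLinearMap.proj (A, i))

/-- the centres of mass -/
noncomputable def Lc {n m : ℕ} : (Fin m × Fin n → E) →L[ℝ] (Fin m → E) :=
  ContinuousLinearMap.pi (fun A => (n : ℝ)⁻¹ • ∑ i, ContinuousLinearMap.proj (A, i))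

theorem LA_apply {n m : ℕ} (A : Fin m) (x : Fin m × Fin n → E) :
    LA A x = fun i => x (A, i) := rfl

theorem Lc_apply {n m : ℕ} (x : Fin m × Fin n → E) :
    Lc x = fun A => cm (fun i => x (A, i)) := by
  funext A
  simp [Lc, cm]

theorem LA_surj {n m : ℕ} (A : Fin m) : Function.Surjective (LA (n := n) A) := by
  intro y
  exact ⟨fun p => y p.2, rfl⟩

theorem Lc_surj {n m : ℕ} (hn : 1 ≤ n) : Function.Surjective (Lc (n := n) (m := m)) := by
  intro y
  refine ⟨fun p => y p.1, ?_⟩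
  rw [Lc_apply]
  funext A
  simp only [cm, Finset.sum_const, Finset.card_univ, Fintype.card_fin]
  have h0 : (n : ℝ) ≠ 0 := by
    have : 0 < n := hn
    positivity
  rw [← Nat.cast_smul_eq_nsmul ℝ, smul_smul, inv_mul_cancel₀ h0, one_smul]

theorem ae_pull {ι κ : Type} [Fintype ι] [Fintype κ] (L : (ι → E) →L[ℝ] (κ → E))
    (hL : Function.Surjective L) (f : (κ → E) → ℝ) (hf : ∃ C : ℝ≥0, LipschitzWith C f) :
    ∀ᵐ x : ι → E, DifferentiableAt ℝ f (L x) := by
  obtain ⟨C, hC⟩ := hf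
  have h1 : ∀ᵐ y : κ → E, y ∈ {y | DifferentiableAt ℝ f y} := hC.ae_differentiableAt
  exact (ae_comp_linearMap_mem_iff (L := (L : (ι → E) →ₗ[ℝ] (κ → E))) (μ := volume)
    (ν := volume) hL (measurableSet_of_differentiableAt ℝ f)).2 h1

theorem LA_single {n m : ℕ} (A B : Fin m) (i : Fin n) (v : E) :
    LA B (Pi.single (A, i) v : Fin m × Fin n → E) = if B = A then Pi.single i v else 0 := by
  rw [LA_apply]
  split_ifs with h
  · subst h
    funext j
    by_cases hj : j = i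
    · subst hj
      simp
    · rw [Pi.single_eq_of_ne hj, Pi.single_eq_of_ne]
      intro h2
      exact hj (Prod.ext_iff.1 h2).2
  · funext j
    rw [Pi.single_eq_of_ne, Pi.zero_apply]
    intro h2
    exact h (Prod.ext_iff.1 h2).1

theorem Lc_single {n m : ℕ} (A : Fin m) (i : Fin n) (v : E) :
    Lc (Pi.single (A, i) v : Fin m × Fin n → E) = (n : ℝ)⁻¹ • Pi.single A v := by
  rw [Lc_apply]
  funext B
  simp only [cm, Pi.smul_apply]
  congr 1
  by_cases hB : B = A
  · subst hB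
    rw [Pi.single_eq_same, Finset.sum_eq_single i]
    · rw [Pi.single_eq_same]
    · intro j _ hj
      rw [Pi.single_eq_of_ne]
      intro h2
      exact hj (Prod.ext_iff.1 h2).2
    · intro h
      exact absurd (Finset.mem_univ _) h
  · rw [Pi.single_eq_of_ne hB]
    apply Finset.sum_eq_zero
    intro j _
    rw [Pi.single_eq_of_ne]
    intro h2
    exact hB (Prod.ext_iff.1 h2).1

theorem pd_Psi {n m : ℕ} (φ : (Fin n → E) → ℝ) (Φ : (Fin m → E) → ℝ) (x : Fin m × Fin n → E)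
    (h1 : ∀ A, DifferentiableAt ℝ φ (LA A x)) (h2 : DifferentiableAt ℝ Φ (Lc x))
    (A : Fin m) (i : Fin n) (k : Fin 3) :
    pd (Psi φ Φ) x (A, i) k = (∏ B ∈ Finset.univ.erase A, φ (fun i => x (B, i))) *
      (φ (fun i => x (A, i)) * ((n : ℝ)⁻¹ * pd Φ (fun A => cm (fun i => x (A, i))) A k) +
        Φ (fun A => cm (fun i => x (A, i))) * pd φ (fun i => x (A, i)) i k) := by
  have hPsi : Psi φ Φ = fun x => (∏ A, φ (LA A x)) * Φ (Lc x) := by
    funext y
    rw [Lc_apply]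
    rfl
  have d1 : ∀ A ∈ (Finset.univ : Finset (Fin m)), HasFDerivAt (fun x => φ (LA A x))
      ((fderiv ℝ φ (LA A x)).comp (LA A)) x := fun A _ =>
    (h1 A).hasFDerivAt.comp x (LA A).hasFDerivAt
  have d2 : HasFDerivAt (fun x => Φ (Lc x)) ((fderiv ℝ Φ (Lc x)).comp Lc) x :=
    h2.hasFDerivAt.comp x Lc.hasFDerivAt
  have d3 := HasFDerivAt.finsetProd (u := Finset.univ) d1
  have d4 : HasFDerivAt (fun x => (∏ A, φ (LA A x)) * Φ (Lc x)) _ x := d3.mul d2
  have e1 : (fun i => x (A, i)) = LA A x := rfl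
  have e2 : (fun A => cm (LA A x)) = Lc x := (Lc_apply x).symm
  have e3 : ∀ B, (fun i => x (B, i)) = LA B x := fun B => rfl
  unfold pd
  rw [hPsi, d4.fderiv]
  simp only [e3, e2]
  simp only [add_apply, smul_apply,
    ContinuousLinearMap.comp_apply, sum_apply, smul_eq_mul, Lc_single,
    map_smul, LA_single]
  rw [Finset.sum_eq_single A]
  · rw [if_pos rfl, ← Finset.mul_prod_erase Finset.univ (fun B => φ (LA B x)) (Finset.mem_univ A)]
    ring
  · intro B _ hB
    rw [if_neg hB, map_zero, mul_zero]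
  · intro h
    exact absurd (Finset.mem_univ _) h

theorem sum_pd_zero {n : ℕ} (φ : (Fin n → E) → ℝ) (htr : ∀ x (s : E), φ (fun i => x i + s) = φ x)
    (y : Fin n → E) (h : DifferentiableAt ℝ φ y) (k : Fin 3) : ∑ i, pd φ y i k = 0 := by
  unfold pd
  rw [← map_sum]
  set v : E := EuclideanSpace.single k (1 : ℝ) with hv
  have e1 : ∑ i : Fin n, (Pi.single i v : Fin n → E) = fun _ => v := by
    funext j
    rw [Finset.sum_apply, Finset.sum_eq_single j]
    · rw [Pi.single_eq_same]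
    · intro b _ hb
      rw [Pi.single_eq_of_ne hb.symm]
    · intro h
      exact absurd (Finset.mem_univ _) h
  rw [e1]
  have d1 : HasDerivAt (fun t : ℝ => y + t • (fun _ => v : Fin n → E)) (fun _ => v) 0 := by
    have := ((hasDerivAt_id (0 : ℝ)).smul_const (fun _ => v : Fin n → E)).const_add y
    simpa using this
  have h' : HasFDerivAt φ (fderiv ℝ φ y) (y + (0 : ℝ) • (fun _ => v : Fin n → E)) := by
    rw [zero_smul, add_zero]
    exact h.hasFDerivAt
  have d2 := h'.comp_hasDerivAt (0 : ℝ) d1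
  have e2 : (φ ∘ fun t : ℝ => y + t • (fun _ => v : Fin n → E)) = fun _ => φ y := by
    funext t
    show φ (y + t • (fun _ => v : Fin n → E)) = φ y
    rw [← htr y (t • v)]
    rfl
  rw [e2] at d2
  exact d2.unique (hasDerivAt_const _ _)

/-- kinetic energy density of the clump wave function: internal part plus centre-of-mass part, no cross terms -/
theorem Psi_kin (n m : ℕ) (hn : 1 ≤ n) (φ : (Fin n → E) → ℝ) (hφ : ∃ C : ℝ≥0, LipschitzWith C φ)
    (htr : ∀ x (s : E), φ (fun i => x i + s) = φ x)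
    (Φ : (Fin m → E) → ℝ) (hΦ : ∃ C : ℝ≥0, LipschitzWith C Φ) :
    ∀ᵐ x : Fin m × Fin n → E, kin (Psi φ Φ) x =
      ∑ A, (∏ B ∈ Finset.univ.erase A, φ (fun i => x (B, i)) ^ 2) *
        (kin φ (fun i => x (A, i)) * Φ (fun A => cm (fun i => x (A, i))) ^ 2 +
          (n : ℝ)⁻¹ * φ (fun i => x (A, i)) ^ 2 *
            ∑ k, ‖pd Φ (fun A => cm (fun i => x (A, i))) A k‖ ^ 2) := by
  have hA : ∀ᵐ x : Fin m × Fin n → E, ∀ A, DifferentiableAt ℝ φ (LA A x) := by
    rw [ae_all_iff]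
    intro A
    exact ae_pull (LA A) (LA_surj A) φ hφ
  have hc := ae_pull (Lc (n := n) (m := m)) (Lc_surj hn) Φ hΦ
  have hn0 : (n : ℝ) ≠ 0 := by
    have : 0 < n := hn
    positivity
  filter_upwards [hA, hc] with x h1 h2
  unfold kin
  rw [Fintype.sum_prod_type]
  apply Finset.sum_congr rfl
  intro A _
  set Pr := ∏ B ∈ Finset.univ.erase A, φ (fun i => x (B, i)) with hPr
  have hPr2 : ∏ B ∈ Finset.univ.erase A, φ (fun i => x (B, i)) ^ 2 = Pr ^ 2 := by
    rw [hPr, Finset.prod_pow]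
  rw [hPr2]
  have key : ∀ k : Fin 3, ∑ i, ‖pd (Psi φ Φ) x (A, i) k‖ ^ 2 =
      Pr ^ 2 * ((∑ i, ‖pd φ (fun i => x (A, i)) i k‖ ^ 2) *
        Φ (fun A => cm (fun i => x (A, i))) ^ 2 + (n : ℝ)⁻¹ * φ (fun i => x (A, i)) ^ 2 *
        ‖pd Φ (fun A => cm (fun i => x (A, i))) A k‖ ^ 2) := by
    intro k
    have hz := sum_pd_zero φ htr (fun i => x (A, i)) (h1 A) k
    set q := pd Φ (fun A => cm (fun i => x (A, i))) A k with hq
    set a := φ (fun i => x (A, i)) with ha
    set b := Φ (fun A => cm (fun i => x (A, i))) with hb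
    have e1 : ∀ i, ‖pd (Psi φ Φ) x (A, i) k‖ ^ 2 = Pr ^ 2 * ((a * ((n : ℝ)⁻¹ * q)) ^ 2 +
        2 * (a * ((n : ℝ)⁻¹ * q)) * b * pd φ (fun i => x (A, i)) i k +
        ‖pd φ (fun i => x (A, i)) i k‖ ^ 2 * b ^ 2) := by
      intro i
      rw [pd_Psi φ Φ x h1 h2 A i k, Real.norm_eq_abs, sq_abs, Real.norm_eq_abs, sq_abs]
      ring
    rw [Finset.sum_congr rfl (fun i _ => e1 i), ← Finset.mul_sum, Finset.sum_add_distrib,
      Finset.sum_add_distrib, ← Finset.mul_sum, hz, ← Finset.sum_mul, Finset.sum_const,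
      Finset.card_univ, Fintype.card_fin, nsmul_eq_mul, Real.norm_eq_abs q, sq_abs]
    field_simp
    ring
  rw [Finset.sum_comm, Finset.sum_congr rfl (fun k _ => key k), ← Finset.mul_sum,
    Finset.sum_add_distrib, ← Finset.sum_mul, ← Finset.mul_sum, Finset.sum_comm]

end BG631.JK2
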