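import Pool.Agent.H631.BG.Base



open MeasureTheory Filter Topology Set
open scoped ENNReal NNReal BigOperators

namespace BG631.JK4

section aux
variable {ι : Type} [Fintype ι] [DecidableEq ι]

theorem pd_meas (ψ : (ι → E) → ℝ) (i : ι) (k : Fin 3) : Measurable (fun x => pd ψ x i k) :=
  measurable_fderiv_apply_const ℝ ψ _

theorem kin_meas (ψ : (ι → E) → ℝ) : Measurable (kin ψ) := by
  unfold kin
  apply Finset.measurable_fun_sum
  intro i _
  apply Finset.measurable_fun_sum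
  intro k _
  exact (pd_meas ψ i k).norm.pow_const 2

theorem pd_bound {ψ : (ι → E) → ℝ} {C : ℝ≥0} (hC : LipschitzWith C ψ) (x : ι → E) (i : ι)
    (k : Fin 3) : ‖pd ψ x i k‖ ≤ C * ‖(Pi.single i (EuclideanSpace.single k (1 : ℝ)) : ι → E)‖ := by
  unfold pd
  exact ((fderiv ℝ ψ x).le_opNorm _).trans
    (mul_le_mul_of_nonneg_right (norm_fderiv_le_of_lipschitz ℝ hC) (norm_nonneg _))

theorem kin_bound {ψ : (ι → E) → ℝ} {C : ℝ≥0} (hC : LipschitzWith C ψ) :
    ∃ M, ∀ x, |kin ψ x| ≤ M := by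
  refine ⟨∑ i, ∑ k, (C * ‖(Pi.single i (EuclideanSpace.single k (1 : ℝ)) : ι → E)‖) ^ 2, ?_⟩
  intro x
  have h0 : 0 ≤ kin ψ x := Finset.sum_nonneg fun i _ => Finset.sum_nonneg fun k _ => by positivity
  rw [abs_of_nonneg h0]
  unfold kin
  apply Finset.sum_le_sum
  intro i _
  apply Finset.sum_le_sum
  intro k _
  have := pd_bound hC x i k
  gcongr

theorem Vin_meas (K lam : ℝ) : Measurable (Vin K lam) := by
  unfold Vin
  exact Measurable.ite measurableSet_Iio measurable_const measurable_const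

theorem pot_meas (K lam : ℝ) : Measurable (fun x : ι → E => pot (Vin K lam) x) := by
  unfold pot
  apply Measurable.const_mul
  apply Finset.measurable_fun_sum
  intro i _
  apply Finset.measurable_fun_sum
  intro j _
  apply (Vin_meas K lam).comp
  exact (measurable_pi_apply i).dist (measurable_pi_apply j)

theorem pot_bound (K lam : ℝ) : ∃ M, ∀ x : ι → E, |pot (Vin K lam) x| ≤ M := by
  refine ⟨(1/2) * ∑ i : ι, ∑ j ∈ Finset.univ.erase i, (|K| + |lam|), ?_⟩
  intro x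
  unfold pot
  rw [abs_mul, abs_of_pos (by norm_num : (0:ℝ) < 1/2)]
  apply mul_le_mul_of_nonneg_left _ (by norm_num)
  refine (Finset.abs_sum_le_sum_abs _ _).trans ?_
  apply Finset.sum_le_sum
  intro i _
  refine (Finset.abs_sum_le_sum_abs _ _).trans ?_
  apply Finset.sum_le_sum
  intro j _
  unfold Vin
  split_ifs
  · linarith [abs_nonneg lam]
  · rw [abs_neg]; linarith [abs_nonneg K]

theorem pot_trans (v : ℝ → ℝ) (x : ι → E) (s : E) : pot v (fun i => x i + s) = pot v x := by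
  unfold pot
  simp only [dist_add_right]

theorem kin_trans {ψ : (ι → E) → ℝ} (htr : ∀ x (s : E), ψ (fun i => x i + s) = ψ x)
    (x : ι → E) (s : E) : kin ψ (fun i => x i + s) = kin ψ x := by
  have h : fderiv ℝ ψ (fun i => x i + s) = fderiv ℝ ψ x := by
    have h1 := fderiv_comp_add_right (𝕜 := ℝ) (f := ψ) (x := x) (fun _ => s)
    have h2 : (fun y : ι → E => ψ (y + fun _ => s)) = ψ := by
      funext y
      exact htr y s
    rw [h2] at h1
    rw [h1]
    rfl
  unfold kin pd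
  rw [h]

theorem kin_supp {ψ : (ι → E) → ℝ} (hcl : ∀ x, ψ x ≠ 0 → clump x) (x : ι → E) (hx : kin ψ x ≠ 0)
    (i j : ι) : dist (x i) (x j) ≤ 1 := by
  by_contra hcon
  push Not at hcon
  apply hx
  have hopen : IsOpen {y : ι → E | 1 < dist (y i) (y j)} := by
    apply isOpen_lt continuous_const
    exact (continuous_apply i).dist (continuous_apply j)
  have hev : ψ =ᶠ[𝓝 x] (fun _ => (0:ℝ)) := by
    filter_upwards [hopen.mem_nhds hcon] with y hy
    by_contra hne
    have hy' : 1 < dist (y i) (y j) := hy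
    by_cases hij : i = j
    · rw [hij, dist_self] at hy'
      linarith
    · have := hcl y hne i j hij
      linarith
  have hfd : fderiv ℝ ψ x = 0 := by
    rw [hev.fderiv_eq]
    simp
  unfold kin pd
  simp [hfd]

theorem pdsum_integrable {ψ : (ι → E) → ℝ} {C : ℝ≥0} (hC : LipschitzWith C ψ)
    (hc : HasCompactSupport ψ) (i : ι) : Integrable (fun c => ∑ k, ‖pd ψ c i k‖ ^ 2) := by
  have hmeas : Measurable (fun c => ∑ k, ‖pd ψ c i k‖ ^ 2) := by
    apply Finset.measurable_fun_sum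
    intro k _
    exact (pd_meas ψ i k).norm.pow_const 2
  have hsupp : Function.support (fun c => ∑ k, ‖pd ψ c i k‖ ^ 2) ⊆ tsupport ψ := by
    intro x hx
    by_contra hnot
    apply hx
    have hev : ψ =ᶠ[𝓝 x] (fun _ => (0:ℝ)) := by
      have : (tsupport ψ)ᶜ ∈ 𝓝 x := (isClosed_tsupport ψ).isOpen_compl.mem_nhds hnot
      filter_upwards [this] with y hy
      exact image_eq_zero_of_notMem_tsupport hy
    have hfd : fderiv ℝ ψ x = 0 := by
      rw [hev.fderiv_eq]
      simp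
    unfold pd
    simp [hfd]
  rw [← integrableOn_iff_integrable_of_support_subset hsupp]
  refine Measure.integrableOn_of_bounded (M := ∑ k, (C * ‖(Pi.single i (EuclideanSpace.single k (1 : ℝ)) : ι → E)‖) ^ 2)
    (IsCompact.measure_lt_top (μ := volume) hc).ne hmeas.aestronglyMeasurable
    (Filter.Eventually.of_forall fun x => ?_)
  have h0 : 0 ≤ ∑ k, ‖pd ψ x i k‖ ^ 2 := Finset.sum_nonneg fun k _ => by positivity
  rw [Real.norm_of_nonneg h0]
  apply Finset.sum_le_sum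
  intro k _
  have := pd_bound hC x i k
  gcongr

end aux

/-- energy of the clump gas -/
theorem composite
    (factor : ∀ (n m : ℕ), 1 ≤ n → ∀ (h : Fin m → (Fin n → E) → ℝ), (∀ A, Measurable (h A)) →
      (∀ A, ∃ b, ∀ x, |h A x| ≤ b) → (∀ A x, h A x ≠ 0 → ∀ i j, dist (x i) (x j) ≤ 1) →
      (∀ A x (s : E), h A (fun i => x i + s) = h A x) →
      ∀ (G : (Fin m → E) → ℝ), Measurable G → Integrable G →
      Integrable (fun x : Fin m × Fin n → E =>
        (∏ A, h A (fun i => x (A, i))) * G (fun A => cm (fun i => x (A, i)))) ∧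
      ∫ x : Fin m × Fin n → E, (∏ A, h A (fun i => x (A, i))) * G (fun A => cm (fun i => x (A, i)))
        = (∏ A, relInt (h A)) * ∫ c, G c)
    (Psi_lip : ∀ (n m : ℕ), 1 ≤ n → ∀ (φ : (Fin n → E) → ℝ), (∃ C : ℝ≥0, LipschitzWith C φ) →
      (∃ b, ∀ x, |φ x| ≤ b) → (∀ x, φ x ≠ 0 → clump x) →
      ∀ (Φ : (Fin m → E) → ℝ), (∃ C : ℝ≥0, LipschitzWith C Φ) → HasCompactSupport Φ →
      (∃ C : ℝ≥0, LipschitzWith C (Psi φ Φ)) ∧ HasCompactSupport (Psi φ Φ))
    (Psi_pot : ∀ (n m : ℕ), 1 ≤ n → ∀ (K lam B : ℝ) (φ : (Fin n → E) → ℝ), (∀ x, φ x ≠ 0 → clump x) →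
      ∀ (Φ : (Fin m → E) → ℝ), (∀ c, Φ c ≠ 0 → ∀ A B, A ≠ B → 11 ≤ dist (c A) (c B)) →
      ∀ (x : Fin m × Fin n → E),
      pot (V0 K lam B) x * Psi φ Φ x ^ 2 = (∑ A, pot (Vin K lam) (fun i => x (A, i))) * Psi φ Φ x ^ 2)
    (Psi_kin : ∀ (n m : ℕ), 1 ≤ n → ∀ (φ : (Fin n → E) → ℝ), (∃ C : ℝ≥0, LipschitzWith C φ) →
      (∀ x (s : E), φ (fun i => x i + s) = φ x) →
      ∀ (Φ : (Fin m → E) → ℝ), (∃ C : ℝ≥0, LipschitzWith C Φ) →
      ∀ᵐ x : Fin m × Fin n → E, kin (Psi φ Φ) x =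
        ∑ A, (∏ B ∈ Finset.univ.erase A, φ (fun i => x (B, i)) ^ 2) *
          (kin φ (fun i => x (A, i)) * Φ (fun A => cm (fun i => x (A, i))) ^ 2 +
            (n : ℝ)⁻¹ * φ (fun i => x (A, i)) ^ 2 *
              ∑ k, ‖pd Φ (fun A => cm (fun i => x (A, i))) A k‖ ^ 2))
    (n m : ℕ) (hn : 1 ≤ n) (μ K lam B : ℝ)
    (φ : (Fin n → E) → ℝ) (hφ : ∃ C : ℝ≥0, LipschitzWith C φ)
    (hb : ∃ b, ∀ x, |φ x| ≤ b) (htr : ∀ x (s : E), φ (fun i => x i + s) = φ x)
    (hcl : ∀ x, φ x ≠ 0 → clump x)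
    (Φ : (Fin m → E) → ℝ) (hΦ : ∃ C : ℝ≥0, LipschitzWith C Φ) (hc : HasCompactSupport Φ)
    (hsep : ∀ c, Φ c ≠ 0 → ∀ A B, A ≠ B → 11 ≤ dist (c A) (c B)) :
    IsState (V0 K lam B) (Psi φ Φ) ∧
    ∫ x, ‖Psi φ Φ x‖ ^ 2 = relInt (fun x => ‖φ x‖ ^ 2) ^ m * ∫ c, ‖Φ c‖ ^ 2 ∧
    energy μ (V0 K lam B) (Psi φ Φ) =
      m * relInt (fun x => μ * kin φ x + pot (Vin K lam) x * ‖φ x‖ ^ 2) *
          relInt (fun x => ‖φ x‖ ^ 2) ^ (m - 1) * (∫ c, ‖Φ c‖ ^ 2)
        + μ * (n : ℝ)⁻¹ * relInt (fun x => ‖φ x‖ ^ 2) ^ m * ∫ c, kin Φ c := by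
  obtain ⟨b, hb'⟩ := hb
  obtain ⟨C, hC⟩ := hφ
  obtain ⟨D, hD⟩ := hΦ
  have hφcont : Continuous φ := hC.continuous
  have hΦcont : Continuous Φ := hD.continuous
  obtain ⟨Mk, hMk⟩ := kin_bound hC
  obtain ⟨Mp, hMp⟩ := pot_bound (ι := Fin n) K lam
  -- Φ^2
  have hG2m : Measurable (fun c => Φ c ^ 2) := hΦcont.measurable.pow_const 2
  have hG2i : Integrable (fun c => Φ c ^ 2) := by
    apply Continuous.integrable_of_hasCompactSupport (hΦcont.pow 2)
    exact HasCompactSupport.comp_left (g := fun y : ℝ => y ^ 2) hc (by norm_num)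
  -- properties of φ^2
  have he_meas : Measurable (fun x => φ x ^ 2) := hφcont.measurable.pow_const 2
  have he_bdd : ∀ x, |φ x ^ 2| ≤ b ^ 2 := by
    intro x
    rw [abs_pow]
    have := hb' x
    gcongr
  have he_supp : ∀ x, φ x ^ 2 ≠ 0 → ∀ i j, dist (x i) (x j) ≤ 1 := by
    intro x hx i j
    have hx' : φ x ≠ 0 := fun h => hx (by rw [h]; ring)
    by_cases hij : i = j
    · rw [hij, dist_self]; norm_num
    · exact (hcl x hx' i j hij).le
  have he_tr : ∀ x (s : E), φ (fun i => x i + s) ^ 2 = φ x ^ 2 := by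
    intro x s; rw [htr]
  -- properties of q = general quadratic density
  have hq_all : ∀ (q : (Fin n → E) → ℝ), Measurable q → (∃ M, ∀ x, |q x| ≤ M) →
      (∀ x, q x ≠ 0 → ∀ i j, dist (x i) (x j) ≤ 1) → (∀ x (s : E), q (fun i => x i + s) = q x) →
      ∀ (A : Fin m) (G : (Fin m → E) → ℝ), Measurable G → Integrable G →
      Integrable (fun x : Fin m × Fin n → E => (∏ B ∈ Finset.univ.erase A, φ (fun i => x (B, i)) ^ 2) *
        q (fun i => x (A, i)) * G (fun A => cm (fun i => x (A, i)))) ∧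
      ∫ x : Fin m × Fin n → E, (∏ B ∈ Finset.univ.erase A, φ (fun i => x (B, i)) ^ 2) *
        q (fun i => x (A, i)) * G (fun A => cm (fun i => x (A, i))) =
        relInt (fun x => φ x ^ 2) ^ (m - 1) * relInt q * ∫ c, G c := by
    intro q hq1 hq2 hq3 hq4 A G hG1 hG2
    obtain ⟨Mq, hMq⟩ := hq2
    have hfac := factor n m hn (fun B x => if B = A then q x else φ x ^ 2) (by
        intro B
        by_cases hBA : B = A
        · simpa [hBA] using hq1
        · simpa [hBA] using he_meas) (by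
        intro B
        by_cases hBA : B = A
        · exact ⟨Mq, by simpa [hBA] using hMq⟩
        · exact ⟨b ^ 2, by
            intro x
            simp only [hBA, if_false]
            exact he_bdd x⟩) (by
        intro B x
        by_cases hBA : B = A
        · simp only [hBA, if_true]
          exact hq3 x
        · simp only [hBA, if_false]
          exact he_supp x) (by
        intro B x s
        by_cases hBA : B = A
        · simp only [hBA, if_true]
          exact hq4 x s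
        · simp only [hBA, if_false]
          exact he_tr x s) G hG1 hG2
    have hpt : ∀ x : Fin m × Fin n → E, (∏ B : Fin m, (if B = A then q (fun i => x (B, i)) else
        φ (fun i => x (B, i)) ^ 2)) = (∏ B ∈ Finset.univ.erase A, φ (fun i => x (B, i)) ^ 2) *
        q (fun i => x (A, i)) := by
      intro x
      rw [← Finset.prod_erase_mul Finset.univ _ (Finset.mem_univ A), if_pos rfl]
      congr 1
      apply Finset.prod_congr rfl
      intro B hB
      rw [if_neg (Finset.ne_of_mem_erase hB)]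
    simp only [hpt] at hfac
    refine ⟨hfac.1, ?_⟩
    rw [hfac.2]
    congr 1
    rw [← Finset.prod_erase_mul Finset.univ _ (Finset.mem_univ A)]
    congr 1
    · rw [Finset.prod_congr rfl (g := fun _ => relInt (fun x => φ x ^ 2))]
      · rw [Finset.prod_const, Finset.card_erase_of_mem (Finset.mem_univ A), Finset.card_univ,
          Fintype.card_fin]
      · intro B hB
        simp only [if_neg (Finset.ne_of_mem_erase hB)]
    · simp only [if_true]
  -- the norm
  have hnorm := factor n m hn (fun _ x => φ x ^ 2) (fun _ => he_meas) (fun _ => ⟨b ^ 2, he_bdd⟩)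
    (fun _ => he_supp) (fun _ => he_tr) (fun c => Φ c ^ 2) hG2m hG2i
  have hPsi2 : ∀ x : Fin m × Fin n → E, ‖Psi φ Φ x‖ ^ 2 = (∏ A, φ (fun i => x (A, i)) ^ 2) *
      Φ (fun A => cm (fun i => x (A, i))) ^ 2 := by
    intro x
    rw [Real.norm_eq_abs, sq_abs]
    unfold Psi
    rw [mul_pow, Finset.prod_pow]
  have hI : relInt (fun x => ‖φ x‖ ^ 2) = relInt (fun x => φ x ^ 2) := by
    congr 1
    funext x
    rw [Real.norm_eq_abs, sq_abs]
  have hN : ∫ x, ‖Psi φ Φ x‖ ^ 2 = relInt (fun x => ‖φ x‖ ^ 2) ^ m * ∫ c, ‖Φ c‖ ^ 2 := by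
    simp only [hPsi2]
    rw [hnorm.2, Finset.prod_const, Finset.card_univ, Fintype.card_fin, hI]
    congr 2
    funext c
    rw [Real.norm_eq_abs, sq_abs]
  have hsplit : ∀ (x : Fin m × Fin n → E) (A : Fin m), (∏ B, φ (fun i => x (B, i)) ^ 2) =
      (∏ B ∈ Finset.univ.erase A, φ (fun i => x (B, i)) ^ 2) * φ (fun i => x (A, i)) ^ 2 := by
    intro x A
    rw [Finset.prod_erase_mul Finset.univ _ (Finset.mem_univ A)]
  -- potential part
  have hpp := hq_all (fun x => pot (Vin K lam) x * φ x ^ 2) ((pot_meas K lam).mul he_meas)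
    ⟨Mp * b ^ 2, fun x => by
      rw [abs_mul]
      exact mul_le_mul (hMp x) (he_bdd x) (abs_nonneg _) ((abs_nonneg _).trans (hMp x))⟩
    (fun x hx => he_supp x (fun h => hx (by rw [h, mul_zero])))
    (fun x s => by simp only [pot_trans]; rw [htr])
  have hpotint : Integrable (fun x : Fin m × Fin n → E => pot (V0 K lam B) x * ‖Psi φ Φ x‖ ^ 2) := by
    have h1 : (fun x : Fin m × Fin n → E => pot (V0 K lam B) x * ‖Psi φ Φ x‖ ^ 2) =
        fun x => ∑ A, (∏ B ∈ Finset.univ.erase A, φ (fun i => x (B, i)) ^ 2) *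
          (pot (Vin K lam) (fun i => x (A, i)) * φ (fun i => x (A, i)) ^ 2) *
            Φ (fun A => cm (fun i => x (A, i))) ^ 2 := by
      funext x
      rw [Real.norm_eq_abs, sq_abs, Psi_pot n m hn K lam B φ hcl Φ hsep x, Finset.sum_mul]
      apply Finset.sum_congr rfl
      intro A _
      have h2 := hPsi2 x
      rw [Real.norm_eq_abs, sq_abs] at h2
      rw [h2, hsplit x A]
      ring
    rw [h1]
    apply integrable_finset_sum
    intro A _
    exact (hpp A (fun c => Φ c ^ 2) hG2m hG2i).1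
  have hlip := Psi_lip n m hn φ ⟨C, hC⟩ ⟨b, hb'⟩ hcl Φ ⟨D, hD⟩ hc
  refine ⟨⟨hlip.1, hlip.2, hpotint⟩, hN, ?_⟩
  -- the energy
  have hkk := hq_all (fun x => μ * kin φ x + pot (Vin K lam) x * φ x ^ 2)
    (((kin_meas φ).const_mul μ).add ((pot_meas K lam).mul he_meas))
    ⟨|μ| * Mk + Mp * b ^ 2, fun x => by
      refine (abs_add_le _ _).trans ?_
      rw [abs_mul, abs_mul]
      apply add_le_add
      · exact mul_le_mul_of_nonneg_left (hMk x) (abs_nonneg _)
      · exact mul_le_mul (hMp x) (he_bdd x) (abs_nonneg _) ((abs_nonneg _).trans (hMp x))⟩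
    (fun x hx => by
      by_cases hk : kin φ x = 0
      · apply he_supp x
        intro h
        apply hx
        rw [hk, h]; ring
      · exact kin_supp hcl x hk)
    (fun x s => by simp only [pot_trans, kin_trans htr]; rw [htr])
  have hG3m : ∀ A : Fin m, Measurable (fun c => μ * (n:ℝ)⁻¹ * ∑ k, ‖pd Φ c A k‖ ^ 2) := by
    intro A
    apply Measurable.const_mul
    apply Finset.measurable_fun_sum
    intro k _
    exact (pd_meas Φ A k).norm.pow_const 2
  have hG3i : ∀ A : Fin m, Integrable (fun c => μ * (n:ℝ)⁻¹ * ∑ k, ‖pd Φ c A k‖ ^ 2) := by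
    intro A
    exact (pdsum_integrable hD hc A).const_mul _
  have hff : ∀ A : Fin m, _ := fun A => factor n m hn (fun _ x => φ x ^ 2) (fun _ => he_meas)
    (fun _ => ⟨b ^ 2, he_bdd⟩) (fun _ => he_supp) (fun _ => he_tr)
    (fun c => μ * (n:ℝ)⁻¹ * ∑ k, ‖pd Φ c A k‖ ^ 2) (hG3m A) (hG3i A)
  have hae : ∀ᵐ x : Fin m × Fin n → E, μ * kin (Psi φ Φ) x + pot (V0 K lam B) x * ‖Psi φ Φ x‖ ^ 2 =
      ∑ A, ((∏ B ∈ Finset.univ.erase A, φ (fun i => x (B, i)) ^ 2) *
        (μ * kin φ (fun i => x (A, i)) + pot (Vin K lam) (fun i => x (A, i)) * φ (fun i => x (A, i)) ^ 2) *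
          Φ (fun A => cm (fun i => x (A, i))) ^ 2 +
        (∏ B, φ (fun i => x (B, i)) ^ 2) *
          (μ * (n:ℝ)⁻¹ * ∑ k, ‖pd Φ (fun A => cm (fun i => x (A, i))) A k‖ ^ 2)) := by
    filter_upwards [Psi_kin n m hn φ ⟨C, hC⟩ htr Φ ⟨D, hD⟩] with x hx
    rw [hx, Real.norm_eq_abs, sq_abs, Psi_pot n m hn K lam B φ hcl Φ hsep x, Finset.sum_mul,
      Finset.mul_sum, ← Finset.sum_add_distrib]
    apply Finset.sum_congr rfl
    intro A _
    have h2 := hPsi2 x
    rw [Real.norm_eq_abs, sq_abs] at h2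
    rw [h2, hsplit x A]
    ring
  unfold energy
  rw [integral_congr_ae hae, integral_finset_sum]
  · have hterm : ∀ A : Fin m, ∫ x : Fin m × Fin n → E, ((∏ B ∈ Finset.univ.erase A, φ (fun i => x (B, i)) ^ 2) *
        (μ * kin φ (fun i => x (A, i)) + pot (Vin K lam) (fun i => x (A, i)) * φ (fun i => x (A, i)) ^ 2) *
          Φ (fun A => cm (fun i => x (A, i))) ^ 2 +
        (∏ B, φ (fun i => x (B, i)) ^ 2) *
          (μ * (n:ℝ)⁻¹ * ∑ k, ‖pd Φ (fun A => cm (fun i => x (A, i))) A k‖ ^ 2)) =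
        relInt (fun x => φ x ^ 2) ^ (m - 1) *
          relInt (fun x => μ * kin φ x + pot (Vin K lam) x * φ x ^ 2) * (∫ c, Φ c ^ 2) +
        relInt (fun x => φ x ^ 2) ^ m * (μ * (n:ℝ)⁻¹ * ∫ c, ∑ k, ‖pd Φ c A k‖ ^ 2) := by
      intro A
      rw [integral_add (hkk A _ hG2m hG2i).1 (hff A).1, (hkk A _ hG2m hG2i).2, (hff A).2,
        Finset.prod_const, Finset.card_univ, Fintype.card_fin, integral_const_mul]
    rw [Finset.sum_congr rfl (fun A _ => hterm A), Finset.sum_add_distrib, Finset.sum_const,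
      Finset.card_univ, Fintype.card_fin, nsmul_eq_mul, ← Finset.mul_sum, ← Finset.mul_sum]
    have hkinint : ∫ c, kin Φ c = ∑ A, ∫ c, ∑ k, ‖pd Φ c A k‖ ^ 2 := by
      unfold kin
      rw [integral_finset_sum]
      intro A _
      exact pdsum_integrable hD hc A
    rw [← hkinint, hI]
    have e1 : relInt (fun x => μ * kin φ x + pot (Vin K lam) x * ‖φ x‖ ^ 2) =
        relInt (fun x => μ * kin φ x + pot (Vin K lam) x * φ x ^ 2) := by
      congr 1
      funext x
      rw [Real.norm_eq_abs, sq_abs]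
    have e2 : ∫ c, ‖Φ c‖ ^ 2 = ∫ c, Φ c ^ 2 := by
      congr 1
      funext x
      rw [Real.norm_eq_abs, sq_abs]
    rw [e1, e2]
    ring
  · intro A _
    exact (hkk A _ hG2m hG2i).1.add (hff A).1

end BG631.JK4
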