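import Pool.Agent.H631.BG.Base

open MeasureTheory Filter Topology Set
open scoped ENNReal NNReal BigOperators

namespace BG631.JL

section tensor
variable {ι₁ ι₂ : Type} [Fintype ι₁] [DecidableEq ι₁] [Fintype ι₂] [DecidableEq ι₂]


omit [DecidableEq ι₁] [DecidableEq ι₂] in
private lemma nrm_le_of_cpt {ι : Type} [Fintype ι] {ψ : (ι → E) → ℝ} {C : ℝ≥0} (hl : LipschitzWith C ψ)
    (hc : HasCompactSupport ψ) : ∃ M : ℝ, 0 ≤ M ∧ ∀ x, ‖ψ x‖ ≤ M := by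
  obtain ⟨M, hM⟩ := hc.exists_bound_of_continuous hl.continuous
  exact ⟨max M 0, le_max_right _ _, fun x => (hM x).trans (le_max_left _ _)⟩

private lemma kin_integrable {ι : Type} [Fintype ι] [DecidableEq ι] {ψ : (ι → E) → ℝ} {C : ℝ≥0}
    (hl : LipschitzWith C ψ) (hc : HasCompactSupport ψ) : Integrable (kin ψ) := by
  unfold kin
  refine integrable_finsetSum _ fun i _ => integrable_finsetSum _ fun k _ => ?_
  have hm : Measurable (fun x => ‖pd ψ x i k‖ ^ 2) := by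
    unfold pd
    exact ((measurable_fderiv_apply_const ℝ ψ _).norm.pow_const 2)
  have hsupp : Function.support (fun x => ‖pd ψ x i k‖ ^ 2) ⊆ tsupport ψ := by
    intro x hx
    by_contra hn
    apply hx
    have h0 : fderiv ℝ ψ x = 0 := by
      have := (support_fderiv_subset ℝ (f := ψ))
      by_contra h1
      exact hn (this h1)
    simp [pd, h0]
  rw [← integrableOn_iff_integrable_of_support_subset hsupp]
  refine Measure.integrableOn_of_bounded (M := ((C : ℝ) * ‖(Pi.single i (EuclideanSpace.single k (1 : ℝ)) : ι → E)‖) ^ 2)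
    hc.isCompact.measure_lt_top.ne hm.aestronglyMeasurable ?_
  filter_upwards with x
  have h1 : ‖pd ψ x i k‖ ≤ (C : ℝ) * ‖(Pi.single i (EuclideanSpace.single k (1 : ℝ)) : ι → E)‖ := by
    unfold pd
    refine (ContinuousLinearMap.le_opNorm _ _).trans ?_
    exact mul_le_mul_of_nonneg_right (norm_fderiv_le_of_lipschitz ℝ hl) (norm_nonneg _)
  rw [Real.norm_of_nonneg (by positivity)]
  exact pow_le_pow_left₀ (norm_nonneg _) h1 2

private lemma sq_integrable {ι : Type} [Fintype ι] {ψ : (ι → E) → ℝ} {C : ℝ≥0}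
    (hl : LipschitzWith C ψ) (hc : HasCompactSupport ψ) : Integrable (fun x => ‖ψ x‖ ^ 2) := by
  apply Continuous.integrable_of_hasCompactSupport
  · exact (hl.continuous.norm.pow 2)
  · have h := hc.comp_left (g := fun t : ℝ => ‖t‖ ^ 2) (by simp)
    exact h

private lemma pot_eq {ι : Type} [Fintype ι] [DecidableEq ι] (v : ℝ → ℝ) (x : ι → E) :
    pot v x = (1/2) * ∑ i, ∑ j, if j = i then 0 else v (dist (x i) (x j)) := by
  unfold pot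
  congr 1
  refine Finset.sum_congr rfl fun i _ => ?_
  rw [← Finset.sum_erase (s := Finset.univ) (a := i) (f := fun j => if j = i then (0:ℝ) else v (dist (x i) (x j))) (by simp)]
  refine Finset.sum_congr rfl fun j hj => ?_
  rw [if_neg (Finset.ne_of_mem_erase hj)]

private lemma pot_sum (v : ℝ → ℝ) (x : ι₁ ⊕ ι₂ → E)
    (hv : ∀ i j, v (dist (x (Sum.inl i)) (x (Sum.inr j))) = 0) :
    pot v x = pot v (fun i => x (Sum.inl i)) + pot v (fun j => x (Sum.inr j)) := by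
  have hv' : ∀ i j, v (dist (x (Sum.inr j)) (x (Sum.inl i))) = 0 := by
    intro i j; rw [dist_comm]; exact hv i j
  rw [pot_eq, pot_eq, pot_eq]
  simp only [Fintype.sum_sum_type, Sum.inl.injEq, Sum.inr.injEq, reduceCtorEq, if_false, hv, hv',
    Finset.sum_const_zero, add_zero, zero_add]
  ring

private lemma kin_sum {ψ₁ : (ι₁ → E) → ℝ} {ψ₂ : (ι₂ → E) → ℝ} (x : ι₁ ⊕ ι₂ → E)
    (h₁ : DifferentiableAt ℝ ψ₁ (fun i => x (Sum.inl i)))
    (h₂ : DifferentiableAt ℝ ψ₂ (fun j => x (Sum.inr j))) :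
    kin (fun x : ι₁ ⊕ ι₂ → E => ψ₁ (fun i => x (Sum.inl i)) * ψ₂ (fun j => x (Sum.inr j))) x =
      kin ψ₁ (fun i => x (Sum.inl i)) * ‖ψ₂ (fun j => x (Sum.inr j))‖ ^ 2 +
      ‖ψ₁ (fun i => x (Sum.inl i))‖ ^ 2 * kin ψ₂ (fun j => x (Sum.inr j)) := by
  let P₁ : (ι₁ ⊕ ι₂ → E) →L[ℝ] (ι₁ → E) := ContinuousLinearMap.pi fun i => ContinuousLinearMap.proj (Sum.inl i)
  let P₂ : (ι₁ ⊕ ι₂ → E) →L[ℝ] (ι₂ → E) := ContinuousLinearMap.pi fun j => ContinuousLinearMap.proj (Sum.inr j)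
  have hP₁ : ∀ y, P₁ y = fun i => y (Sum.inl i) := fun y => rfl
  have hP₂ : ∀ y, P₂ y = fun j => y (Sum.inr j) := fun y => rfl
  have d₁ : HasFDerivAt (fun y => ψ₁ (fun i => y (Sum.inl i))) ((fderiv ℝ ψ₁ (P₁ x)).comp P₁) x :=
    HasFDerivAt.comp x (f := P₁) (g := ψ₁) h₁.hasFDerivAt P₁.hasFDerivAt
  have d₂ : HasFDerivAt (fun y => ψ₂ (fun i => y (Sum.inr i))) ((fderiv ℝ ψ₂ (P₂ x)).comp P₂) x :=
    HasFDerivAt.comp x (f := P₂) (g := ψ₂) h₂.hasFDerivAt P₂.hasFDerivAt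
  have d := d₁.mul d₂
  have hfd := d.fderiv
  have e11 : ∀ i a, P₁ (Pi.single (Sum.inl i) a) = Pi.single i a := by
    intro i a
    rw [hP₁]
    funext j
    by_cases h : j = i
    · subst h; simp
    · rw [Pi.single_eq_of_ne h, Pi.single_eq_of_ne (by simpa using h)]
  have e12 : ∀ i a, P₁ (Pi.single (Sum.inr i) a) = 0 := by
    intro i a
    rw [hP₁]
    funext j
    rw [Pi.single_eq_of_ne (by simp)]; rfl
  have e21 : ∀ i a, P₂ (Pi.single (Sum.inl i) a) = 0 := by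
    intro i a
    rw [hP₂]
    funext j
    rw [Pi.single_eq_of_ne (by simp)]; rfl
  have e22 : ∀ i a, P₂ (Pi.single (Sum.inr i) a) = Pi.single i a := by
    intro i a
    rw [hP₂]
    funext j
    by_cases h : j = i
    · subst h; simp
    · rw [Pi.single_eq_of_ne h, Pi.single_eq_of_ne (by simpa using h)]
  unfold kin pd
  change (∑ i, ∑ k, ‖(fderiv ℝ ((fun y => ψ₁ (fun i => y (Sum.inl i))) * (fun y => ψ₂ (fun i => y (Sum.inr i)))) x)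
     (Pi.single i (EuclideanSpace.single k (1 : ℝ)))‖ ^ 2) = _
  rw [hfd, Fintype.sum_sum_type]
  have g1 : ∀ (i : ι₁) (k : Fin 3), ((ψ₁ fun i => x (Sum.inl i)) • (fderiv ℝ ψ₂ (P₂ x)).comp P₂ +
      (ψ₂ fun i => x (Sum.inr i)) • (fderiv ℝ ψ₁ (P₁ x)).comp P₁)
      (Pi.single (Sum.inl i) (EuclideanSpace.single k (1 : ℝ))) =
      (ψ₂ fun i => x (Sum.inr i)) * fderiv ℝ ψ₁ (fun i => x (Sum.inl i))
        (Pi.single i (EuclideanSpace.single k (1 : ℝ))) := by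
    intro i k
    change (ψ₁ fun i => x (Sum.inl i)) * (fderiv ℝ ψ₂ (P₂ x)) (P₂ (Pi.single (Sum.inl i) (EuclideanSpace.single k (1 : ℝ)))) +
      (ψ₂ fun i => x (Sum.inr i)) * (fderiv ℝ ψ₁ (P₁ x)) (P₁ (Pi.single (Sum.inl i) (EuclideanSpace.single k (1 : ℝ)))) = _
    rw [e21, e11, map_zero, mul_zero, zero_add]
    rfl
  have g2 : ∀ (i : ι₂) (k : Fin 3), ((ψ₁ fun i => x (Sum.inl i)) • (fderiv ℝ ψ₂ (P₂ x)).comp P₂ +
      (ψ₂ fun i => x (Sum.inr i)) • (fderiv ℝ ψ₁ (P₁ x)).comp P₁)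
      (Pi.single (Sum.inr i) (EuclideanSpace.single k (1 : ℝ))) =
      (ψ₁ fun i => x (Sum.inl i)) * fderiv ℝ ψ₂ (fun i => x (Sum.inr i))
        (Pi.single i (EuclideanSpace.single k (1 : ℝ))) := by
    intro i k
    change (ψ₁ fun i => x (Sum.inl i)) * (fderiv ℝ ψ₂ (P₂ x)) (P₂ (Pi.single (Sum.inr i) (EuclideanSpace.single k (1 : ℝ)))) +
      (ψ₂ fun i => x (Sum.inr i)) * (fderiv ℝ ψ₁ (P₁ x)) (P₁ (Pi.single (Sum.inr i) (EuclideanSpace.single k (1 : ℝ)))) = _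
    rw [e22, e12, map_zero, mul_zero, add_zero]
    rfl
  rw [Finset.sum_mul, Finset.mul_sum]
  congr 1
  · refine Finset.sum_congr rfl fun i _ => ?_
    rw [Finset.sum_mul]
    refine Finset.sum_congr rfl fun k _ => ?_
    rw [g1, norm_mul, mul_pow, mul_comm]
  · refine Finset.sum_congr rfl fun i _ => ?_
    rw [Finset.mul_sum]
    refine Finset.sum_congr rfl fun k _ => ?_
    rw [g2, norm_mul, mul_pow]

/-- product of two non-interacting groups of particles -/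
theorem tensor (μ : ℝ) (v : ℝ → ℝ) (ψ₁ : (ι₁ → E) → ℝ) (ψ₂ : (ι₂ → E) → ℝ) (h₁ : IsState v ψ₁) (h₂ : IsState v ψ₂)
    (hv : ∀ x₁ x₂, ψ₁ x₁ ≠ 0 → ψ₂ x₂ ≠ 0 → ∀ i j, v (dist (x₁ i) (x₂ j)) = 0) :
    IsState v (fun x : ι₁ ⊕ ι₂ → E => ψ₁ (fun i => x (Sum.inl i)) * ψ₂ (fun j => x (Sum.inr j))) ∧
    ∫ x : ι₁ ⊕ ι₂ → E, ‖ψ₁ (fun i => x (Sum.inl i)) * ψ₂ (fun j => x (Sum.inr j))‖ ^ 2 =
      (∫ x, ‖ψ₁ x‖ ^ 2) * ∫ x, ‖ψ₂ x‖ ^ 2 ∧
    energy μ v (fun x : ι₁ ⊕ ι₂ → E => ψ₁ (fun i => x (Sum.inl i)) * ψ₂ (fun j => x (Sum.inr j))) =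
      energy μ v ψ₁ * (∫ x, ‖ψ₂ x‖ ^ 2) + (∫ x, ‖ψ₁ x‖ ^ 2) * energy μ v ψ₂ := by
  obtain ⟨C₁, hl₁⟩ := h₁.lip
  obtain ⟨C₂, hl₂⟩ := h₂.lip
  obtain ⟨M₁, hM₁0, hM₁⟩ := nrm_le_of_cpt hl₁ h₁.cpt
  obtain ⟨M₂, hM₂0, hM₂⟩ := nrm_le_of_cpt hl₂ h₂.cpt
  let e : (ι₁ ⊕ ι₂ → E) ≃ᵐ (ι₁ → E) × (ι₂ → E) := MeasurableEquiv.sumPiEquivProdPi (fun _ => E)
  have he : MeasurePreserving e := volume_measurePreserving_sumPiEquivProdPi (fun _ : ι₁ ⊕ ι₂ => E)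
  have hsq₁ := sq_integrable hl₁ h₁.cpt
  have hsq₂ := sq_integrable hl₂ h₂.cpt
  have hk₁ := kin_integrable hl₁ h₁.cpt
  have hk₂ := kin_integrable hl₂ h₂.cpt
  -- potential formula
  have hpot : ∀ x : ι₁ ⊕ ι₂ → E,
      pot v x * ‖ψ₁ (fun i => x (Sum.inl i)) * ψ₂ (fun j => x (Sum.inr j))‖ ^ 2 =
      (pot v (fun i => x (Sum.inl i)) * ‖ψ₁ (fun i => x (Sum.inl i))‖ ^ 2) * ‖ψ₂ (fun j => x (Sum.inr j))‖ ^ 2 +
      ‖ψ₁ (fun i => x (Sum.inl i))‖ ^ 2 * (pot v (fun j => x (Sum.inr j)) * ‖ψ₂ (fun j => x (Sum.inr j))‖ ^ 2) := by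
    intro x
    by_cases h1 : ψ₁ (fun i => x (Sum.inl i)) = 0
    · simp [h1]
    by_cases h2 : ψ₂ (fun i => x (Sum.inr i)) = 0
    · simp [h2]
    rw [pot_sum v x (hv _ _ h1 h2), norm_mul, mul_pow]
    ring
  have hpi : Integrable (fun p : (ι₁ → E) × (ι₂ → E) =>
      (pot v p.1 * ‖ψ₁ p.1‖ ^ 2) * ‖ψ₂ p.2‖ ^ 2 + ‖ψ₁ p.1‖ ^ 2 * (pot v p.2 * ‖ψ₂ p.2‖ ^ 2)) :=
    (h₁.int.mul_prod hsq₂).add (hsq₁.mul_prod h₂.int)
  have key : ∀ g : (ι₁ → E) × (ι₂ → E) → ℝ, ∫ x, g (e x) = ∫ p, g p ∂(volume.prod volume) :=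
    fun g => he.integral_comp' g
  refine ⟨⟨?_, ?_, ?_⟩, ?_, ?_⟩
  · -- Lipschitz
    refine ⟨⟨M₁ * C₂ + C₁ * M₂, by positivity⟩, LipschitzWith.of_dist_le_mul fun x y => ?_⟩
    have d1 : dist (fun i => x (Sum.inl i) : ι₁ → E) (fun i => y (Sum.inl i)) ≤ dist x y :=
      (dist_pi_le_iff dist_nonneg).2 fun i => dist_le_pi_dist x y _
    have d2 : dist (fun i => x (Sum.inr i) : ι₂ → E) (fun i => y (Sum.inr i)) ≤ dist x y :=
      (dist_pi_le_iff dist_nonneg).2 fun i => dist_le_pi_dist x y _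
    have l1 := (hl₁.dist_le_mul (fun i => x (Sum.inl i)) (fun i => y (Sum.inl i))).trans
      (mul_le_mul_of_nonneg_left d1 C₁.coe_nonneg)
    have l2 := (hl₂.dist_le_mul (fun i => x (Sum.inr i)) (fun i => y (Sum.inr i))).trans
      (mul_le_mul_of_nonneg_left d2 C₂.coe_nonneg)
    rw [Real.dist_eq] at l1 l2 ⊢
    set a := ψ₁ (fun i => x (Sum.inl i))
    set a' := ψ₁ (fun i => y (Sum.inl i))
    set b := ψ₂ (fun i => x (Sum.inr i))
    set b' := ψ₂ (fun i => y (Sum.inr i))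
    have e1 : a * b - a' * b' = a * (b - b') + (a - a') * b' := by ring
    rw [e1]
    have ha : |a| ≤ M₁ := hM₁ _
    have hb : |b'| ≤ M₂ := hM₂ _
    calc |a * (b - b') + (a - a') * b'| ≤ |a * (b - b')| + |(a - a') * b'| := abs_add_le _ _
      _ = |a| * |b - b'| + |a - a'| * |b'| := by rw [abs_mul, abs_mul]
      _ ≤ M₁ * (C₂ * dist x y) + (C₁ * dist x y) * M₂ := by
          gcongr
      _ = ((⟨M₁ * C₂ + C₁ * M₂, by positivity⟩ : ℝ≥0) : ℝ) * dist x y := by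
          simp only [NNReal.coe_mk]; ring
  · -- compact support
    let H := Homeomorph.sumPiEquivProdPi ι₁ ι₂ (fun _ => E)
    have hK : IsCompact (H ⁻¹' (tsupport ψ₁ ×ˢ tsupport ψ₂)) := by
      rw [Homeomorph.isCompact_preimage]
      exact h₁.cpt.isCompact.prod h₂.cpt.isCompact
    refine HasCompactSupport.intro hK ?_
    intro x hx
    by_contra hne
    apply hx
    have hn := mul_ne_zero_iff.mp hne
    exact ⟨subset_tsupport _ hn.1, subset_tsupport _ hn.2⟩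
  · -- potential integrable
    have := (he.integrable_comp_emb e.measurableEmbedding).mpr hpi
    refine this.congr ?_
    filter_upwards with x
    rw [hpot x]
    rfl
  · -- norm
    rw [← integral_prod_mul, ← key]
    refine integral_congr_ae ?_
    filter_upwards with x
    rw [norm_mul, mul_pow]
    rfl
  · -- energy
    have hae : ∀ᵐ x : ι₁ ⊕ ι₂ → E, DifferentiableAt ℝ ψ₁ (fun i => x (Sum.inl i)) ∧
        DifferentiableAt ℝ ψ₂ (fun j => x (Sum.inr j)) := by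
      have a1 : ∀ᵐ x : ι₁ → E, DifferentiableAt ℝ ψ₁ x := hl₁.ae_differentiableAt
      have a2 : ∀ᵐ x : ι₂ → E, DifferentiableAt ℝ ψ₂ x := hl₂.ae_differentiableAt
      have q1 : ∀ᵐ p : (ι₁ → E) × (ι₂ → E), DifferentiableAt ℝ ψ₁ p.1 :=
        Measure.quasiMeasurePreserving_fst.ae a1
      have q2 : ∀ᵐ p : (ι₁ → E) × (ι₂ → E), DifferentiableAt ℝ ψ₂ p.2 :=
        Measure.quasiMeasurePreserving_snd.ae a2
      have q := he.quasiMeasurePreserving.ae (q1.and q2)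
      filter_upwards [q] with x hx
      exact hx
    unfold energy
    have e1 : ∀ᵐ x : ι₁ ⊕ ι₂ → E,
        (μ * kin (fun x : ι₁ ⊕ ι₂ → E => ψ₁ (fun i => x (Sum.inl i)) * ψ₂ (fun j => x (Sum.inr j))) x +
          pot v x * ‖ψ₁ (fun i => x (Sum.inl i)) * ψ₂ (fun j => x (Sum.inr j))‖ ^ 2) =
        (fun p : (ι₁ → E) × (ι₂ → E) => (μ * kin ψ₁ p.1 + pot v p.1 * ‖ψ₁ p.1‖ ^ 2) * ‖ψ₂ p.2‖ ^ 2 +
          ‖ψ₁ p.1‖ ^ 2 * (μ * kin ψ₂ p.2 + pot v p.2 * ‖ψ₂ p.2‖ ^ 2)) (e x) := by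
      filter_upwards [hae] with x hx
      rw [kin_sum x hx.1 hx.2, hpot x]
      have ee : e x = (fun i => x (Sum.inl i), fun j => x (Sum.inr j)) := rfl
      rw [ee]
      ring
    let g : (ι₁ → E) × (ι₂ → E) → ℝ := fun p => (μ * kin ψ₁ p.1 + pot v p.1 * ‖ψ₁ p.1‖ ^ 2) * ‖ψ₂ p.2‖ ^ 2 +
          ‖ψ₁ p.1‖ ^ 2 * (μ * kin ψ₂ p.2 + pot v p.2 * ‖ψ₂ p.2‖ ^ 2)
    have e2 := (integral_congr_ae e1).trans (key g)
    refine e2.trans ?_
    show ∫ p, ((μ * kin ψ₁ p.1 + pot v p.1 * ‖ψ₁ p.1‖ ^ 2) * ‖ψ₂ p.2‖ ^ 2 +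
          ‖ψ₁ p.1‖ ^ 2 * (μ * kin ψ₂ p.2 + pot v p.2 * ‖ψ₂ p.2‖ ^ 2)) ∂(volume.prod volume) = _
    rw [integral_add, integral_prod_mul (fun a => (μ * kin ψ₁ a + pot v a * ‖ψ₁ a‖ ^ 2))
        (fun b => ‖ψ₂ b‖ ^ 2),
      integral_prod_mul (fun a => ‖ψ₁ a‖ ^ 2) (fun b => (μ * kin ψ₂ b + pot v b * ‖ψ₂ b‖ ^ 2))]
    · exact (((hk₁.const_mul μ).add h₁.int).mul_prod hsq₂)
    · exact (hsq₁.mul_prod ((hk₂.const_mul μ).add h₂.int))
end tensor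

end BG631.JL
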