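import Pool.Agent.H631.BG.Base

open MeasureTheory Filter Topology Set
open scoped ENNReal NNReal BigOperators

namespace BG631.JP1

theorem volQ1 : volume Q1 = 1 := by
  have hp := EuclideanSpace.volume_preserving_symm_measurableEquiv_toLp (Fin 3)
  have e : Q1 = (MeasurableEquiv.toLp 2 (Fin 3 → ℝ)).symm ⁻¹' (Set.pi univ fun _ => Ico (0:ℝ) 1) := by
    ext y
    simp [Q1, Set.mem_pi]
  rw [e, hp.measure_preimage (MeasurableSet.pi countable_univ fun _ _ => measurableSet_Ico).nullMeasurableSet]
  rw [Real.volume_pi_Ico]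
  simp

theorem measQ1 : MeasurableSet Q1 := by
  have hp := EuclideanSpace.volume_preserving_symm_measurableEquiv_toLp (Fin 3)
  have e : Q1 = (MeasurableEquiv.toLp 2 (Fin 3 → ℝ)).symm ⁻¹' (Set.pi univ fun _ => Ico (0:ℝ) 1) := by
    ext y
    simp [Q1, Set.mem_pi]
  rw [e]
  exact hp.measurable (MeasurableSet.pi countable_univ fun _ _ => measurableSet_Ico)

theorem continuous_cm {n : ℕ} : Continuous (cm : (Fin n → E) → E) := by
  unfold cm
  fun_prop

theorem cm_add {n : ℕ} (hn : 1 ≤ n) (x : Fin n → E) (s : E) : cm (fun i => x i + s) = cm x + s := by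
  unfold cm
  rw [Finset.sum_add_distrib, smul_add]
  congr 1
  rw [Finset.sum_const, Finset.card_univ, Fintype.card_fin, ← Nat.cast_smul_eq_nsmul ℝ n s, smul_smul,
    inv_mul_cancel₀ (by positivity), one_smul]

/-- fibre integration over the centre of mass, for one clump -/
theorem factor_one (n : ℕ) (hn : 1 ≤ n) (h : (Fin n → E) → ℝ≥0∞) (hm : Measurable h)
    (htr : ∀ x (s : E), h (fun i => x i + s) = h x) (G : E → ℝ≥0∞) (hG : Measurable G) :
    ∫⁻ x, h x * G (cm x) = (∫⁻ x in {x | cm x ∈ Q1}, h x) * ∫⁻ c, G c := by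
  have hcm : Measurable (cm : (Fin n → E) → E) := continuous_cm.measurable
  have hQ := measQ1
  have hI : Measurable (Q1.indicator (1 : E → ℝ≥0∞)) := measurable_one.indicator hQ
  have k1 : ∀ x : Fin n → E, ∫⁻ s, Q1.indicator (1 : E → ℝ≥0∞) (cm x + s) = 1 := by
    intro x
    rw [lintegral_add_left_eq_self (Q1.indicator (1 : E → ℝ≥0∞)) (cm x), lintegral_indicator_one hQ, volQ1]
  have k2 : ∀ x : Fin n → E, ∫⁻ s, G (cm x - s) = ∫⁻ c, G c := by
    intro x
    exact lintegral_sub_left_eq_self G (cm x)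
  have hM1 : Measurable (fun p : (Fin n → E) × E =>
      h p.1 * G (cm p.1) * Q1.indicator (1 : E → ℝ≥0∞) (cm p.1 + p.2)) := by
    apply Measurable.mul
    · exact (hm.comp measurable_fst).mul (hG.comp (hcm.comp measurable_fst))
    · exact hI.comp ((hcm.comp measurable_fst).add measurable_snd)
  have hM2 : Measurable (fun p : (Fin n → E) × E =>
      h p.1 * Q1.indicator (1 : E → ℝ≥0∞) (cm p.1) * G (cm p.1 - p.2)) := by
    apply Measurable.mul
    · exact (hm.comp measurable_fst).mul (hI.comp (hcm.comp measurable_fst))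
    · exact hG.comp ((hcm.comp measurable_fst).sub measurable_snd)
  calc ∫⁻ x, h x * G (cm x)
      = ∫⁻ x, ∫⁻ s, h x * G (cm x) * Q1.indicator (1 : E → ℝ≥0∞) (cm x + s) := by
        refine lintegral_congr fun x => ?_
        have hh : Measurable (fun s : E => Q1.indicator (1 : E → ℝ≥0∞) (cm x + s)) :=
          hI.comp (measurable_const.add measurable_id)
        rw [lintegral_const_mul _ hh, k1, mul_one]
    _ = ∫⁻ s, ∫⁻ x, h x * G (cm x) * Q1.indicator (1 : E → ℝ≥0∞) (cm x + s) :=
        lintegral_lintegral_swap hM1.aemeasurable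
    _ = ∫⁻ s, ∫⁻ x, h x * Q1.indicator (1 : E → ℝ≥0∞) (cm x) * G (cm x - s) := by
        refine lintegral_congr fun s => ?_
        rw [← lintegral_add_right_eq_self (fun x : Fin n → E =>
          h x * G (cm x) * Q1.indicator (1 : E → ℝ≥0∞) (cm x + s)) (fun _ => -s)]
        refine lintegral_congr fun x => ?_
        have e1 : x + (fun _ => -s) = fun i => x i + (-s) := rfl
        rw [e1, htr, cm_add hn]
        rw [show cm x + -s + s = cm x by abel, ← sub_eq_add_neg]
        ring
    _ = ∫⁻ x, ∫⁻ s, h x * Q1.indicator (1 : E → ℝ≥0∞) (cm x) * G (cm x - s) :=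
        (lintegral_lintegral_swap hM2.aemeasurable).symm
    _ = ∫⁻ x, (h x * Q1.indicator (1 : E → ℝ≥0∞) (cm x)) * ∫⁻ c, G c := by
        refine lintegral_congr fun x => ?_
        have hh : Measurable (fun s : E => G (cm x - s)) :=
          hG.comp (measurable_const.sub measurable_id)
        rw [lintegral_const_mul _ hh, k2]
    _ = (∫⁻ x, h x * Q1.indicator (1 : E → ℝ≥0∞) (cm x)) * ∫⁻ c, G c := by
        have hh : Measurable (fun x : Fin n → E => h x * Q1.indicator (1 : E → ℝ≥0∞) (cm x)) :=
          hm.mul (hI.comp hcm)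
        rw [lintegral_mul_const _ hh]
    _ = (∫⁻ x in {x | cm x ∈ Q1}, h x) * ∫⁻ c, G c := by
        congr 1
        have hh : MeasurableSet {x : Fin n → E | cm x ∈ Q1} := hcm hQ
        rw [← lintegral_indicator hh]
        refine lintegral_congr fun x => ?_
        by_cases hx : cm x ∈ Q1
        · simp [Set.indicator, hx]
        · simp [Set.indicator, hx]

end BG631.JP1
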