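import Pool.Agent.H631.BG.Base

open MeasureTheory Filter Topology Set
open scoped ENNReal NNReal BigOperators

namespace BG631.JP2

section auxj
theorem meas_cm {n : ℕ} : Measurable (fun x : Fin n → E => cm x) := by
  unfold cm
  fun_prop

instance sfin1 {n : ℕ} : SigmaFinite (volume : Measure (Fin n → E)) := by
  show SigmaFinite (Measure.pi fun _ : Fin n => (volume : Measure E))
  infer_instance

instance sfin2 {n m : ℕ} : SigmaFinite (volume : Measure (Fin m → Fin n → E)) := by
  show SigmaFinite (Measure.pi fun _ : Fin m => (volume : Measure (Fin n → E)))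
  infer_instance

theorem meas_Q1 : MeasurableSet Q1 := by
  have : Q1 = ⋂ k : Fin 3, {y : E | 0 ≤ y k ∧ y k < 1} := by
    ext y; simp [Q1]
  rw [this]
  refine MeasurableSet.iInter (fun k => ?_)
  have h1 : Measurable (fun y : E => y k) := by fun_prop
  exact (measurableSet_le measurable_const h1).inter (measurableSet_lt h1 measurable_const)

theorem mp_curry (m n : ℕ) : MeasurePreserving (MeasurableEquiv.curry (Fin m) (Fin n) E).symm
    volume volume := by
  refine ⟨(MeasurableEquiv.curry (Fin m) (Fin n) E).symm.measurable, ?_⟩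
  symm
  refine Measure.pi_eq (fun s hs => ?_)
  rw [MeasurableEquiv.map_apply]
  have : (⇑(MeasurableEquiv.curry (Fin m) (Fin n) E).symm) ⁻¹' (Set.univ.pi s)
      = Set.univ.pi (fun i => Set.univ.pi (fun j => s (i, j))) := by
    ext x
    constructor
    · intro hx i _ j _
      exact hx (i, j) (Set.mem_univ _)
    · rintro hx ⟨i, j⟩ _
      exact hx i (Set.mem_univ _) j (Set.mem_univ _)
  rw [this, volume_pi_pi]
  simp_rw [volume_pi_pi]
  rw [Fintype.prod_prod_type]

def FactorOne : Prop := ∀ (n : ℕ), 1 ≤ n → ∀ (h : (Fin n → E) → ℝ≥0∞), Measurable h →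
      (∀ x (s : E), h (fun i => x i + s) = h x) → ∀ (G : E → ℝ≥0∞), Measurable G →
      ∫⁻ x, h x * G (cm x) = (∫⁻ x in {x | cm x ∈ Q1}, h x) * ∫⁻ c, G c

theorem fin_rel {n : ℕ} (hn : 1 ≤ n) (h : (Fin n → E) → ℝ)
    (hb : ∃ b, ∀ x, |h x| ≤ b) (hcl : ∀ x, h x ≠ 0 → ∀ i j, dist (x i) (x j) ≤ 1) :
    ∫⁻ x in {x : Fin n → E | cm x ∈ Q1}, ‖h x‖ₑ < ⊤ := by
  obtain ⟨b, hb⟩ := hb
  have hS : MeasurableSet {x : Fin n → E | cm x ∈ Q1} := meas_cm meas_Q1
  rw [← lintegral_indicator hS]
  have hbd : ∀ x : Fin n → E, ({x : Fin n → E | cm x ∈ Q1}.indicator (fun x => ‖h x‖ₑ)) x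
      ≤ (Metric.closedBall (0 : Fin n → E) 5).indicator (fun _ => ENNReal.ofReal b) x := by
    intro x
    by_cases hx : cm x ∈ Q1
    · by_cases h0 : h x = 0
      · simp [Set.indicator, h0]
      · have hc := hcl x h0
        have hxb : x ∈ Metric.closedBall (0 : Fin n → E) 5 := by
          rw [mem_closedBall_zero_iff, pi_norm_le_iff_of_nonneg (by norm_num)]
          intro i
          have h1 : ‖x i - cm x‖ ≤ 1 := by
            have h2 : x i - cm x = (n : ℝ)⁻¹ • ∑ j, (x i - x j) := by
              unfold cm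
              rw [Finset.sum_sub_distrib, smul_sub, Finset.sum_const, Finset.card_univ,
                Fintype.card_fin, ← Nat.cast_smul_eq_nsmul ℝ, smul_smul,
                inv_mul_cancel₀ (by positivity), one_smul]
            rw [h2, norm_smul]
            have h3 : ‖∑ j, (x i - x j)‖ ≤ ∑ j : Fin n, (1 : ℝ) := by
              refine norm_sum_le_of_le _ (fun j _ => ?_)
              by_cases hij : i = j
              · subst hij; simp
              · rw [← dist_eq_norm]; exact hc i j
            simp only [Finset.sum_const, Finset.card_univ, Fintype.card_fin, nsmul_eq_mul,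
              mul_one] at h3
            rw [Real.norm_eq_abs, abs_of_nonneg (by positivity)]
            calc (n : ℝ)⁻¹ * ‖∑ j, (x i - x j)‖ ≤ (n : ℝ)⁻¹ * n := by gcongr
              _ = 1 := inv_mul_cancel₀ (by positivity)
          have h4 : ‖cm x‖ ≤ 2 := by
            rw [EuclideanSpace.norm_eq, Real.sqrt_le_left (by norm_num)]
            rw [Fin.sum_univ_three]
            have e0 := hx 0
            have e1 := hx 1
            have e2 := hx 2
            simp only [Real.norm_eq_abs, sq_abs]
            nlinarith [e0.1, e0.2, e1.1, e1.2, e2.1, e2.2]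
          calc ‖x i‖ = ‖(x i - cm x) + cm x‖ := by simp
            _ ≤ ‖x i - cm x‖ + ‖cm x‖ := norm_add_le _ _
            _ ≤ 5 := by linarith
        rw [Set.indicator_of_mem (show x ∈ {x : Fin n → E | cm x ∈ Q1} from hx),
          Set.indicator_of_mem hxb, Real.enorm_eq_ofReal_abs]
        exact ENNReal.ofReal_le_ofReal (hb x)
    · rw [Set.indicator_of_notMem (show x ∉ {x : Fin n → E | cm x ∈ Q1} from hx)]
      exact zero_le
  refine lt_of_le_of_lt (lintegral_mono hbd) ?_
  rw [lintegral_indicator_const Metric.isClosed_closedBall.measurableSet]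
  exact ENNReal.mul_lt_top ENNReal.ofReal_lt_top (isCompact_closedBall _ _).measure_lt_top

theorem push_one (fo : FactorOne) {n : ℕ} (hn : 1 ≤ n) (p : (Fin n → E) → ℝ≥0∞)
    (hp : Measurable p) (htr : ∀ x (s : E), p (fun i => x i + s) = p x) :
    (volume.withDensity p).map (fun x : Fin n → E => cm x)
      = (∫⁻ x in {x | cm x ∈ Q1}, p x) • (volume : Measure E) := by
  ext s hs
  rw [Measure.map_apply meas_cm hs, withDensity_apply _ (meas_cm hs),
    ← lintegral_indicator (meas_cm hs)]
  have h1 := fo n hn p hp htr (s.indicator 1) (measurable_one.indicator hs)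
  rw [lintegral_indicator_one hs] at h1
  simp only [Measure.smul_apply, smul_eq_mul]
  rw [← h1]
  refine lintegral_congr (fun x => ?_)
  by_cases hx : cm x ∈ s
  · rw [Set.indicator_of_mem (show x ∈ (fun x : Fin n → E => cm x) ⁻¹' s from hx),
      Set.indicator_of_mem hx]
    simp
  · rw [Set.indicator_of_notMem (show x ∉ (fun x : Fin n → E => cm x) ⁻¹' s from hx),
      Set.indicator_of_notMem hx]
    simp

theorem int_pos_one (fo : FactorOne) {n : ℕ} (hn : 1 ≤ n) (p : (Fin n → E) → ℝ≥0∞)
    (hp : Measurable p) (hpt : ∀ x, p x < ⊤) (htr : ∀ x (s : E), p (fun i => x i + s) = p x)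
    (hc : ∫⁻ x in {x | cm x ∈ Q1}, p x < ⊤)
    (G : E → ℝ) (hG : Measurable G) (hGi : Integrable G) :
    Integrable (fun x : Fin n → E => (p x).toReal * G (cm x)) ∧
    ∫ x : Fin n → E, (p x).toReal * G (cm x) = (∫⁻ x in {x | cm x ∈ Q1}, p x).toReal * ∫ c, G c := by
  constructor
  · refine ⟨(hp.ennreal_toReal.mul (hG.comp meas_cm)).aestronglyMeasurable, ?_⟩
    rw [hasFiniteIntegral_iff_enorm]
    have h1 := fo n hn p hp htr (fun c => ‖G c‖ₑ) hG.enorm
    have h2 : ∫⁻ x : Fin n → E, ‖(p x).toReal * G (cm x)‖ₑ = ∫⁻ x, p x * ‖G (cm x)‖ₑ := by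
      refine lintegral_congr (fun x => ?_)
      rw [enorm_mul, Real.enorm_eq_ofReal ENNReal.toReal_nonneg, ENNReal.ofReal_toReal (hpt x).ne]
    rw [h2, h1]
    exact ENNReal.mul_lt_top hc hGi.2
  · have h3 := integral_withDensity_eq_integral_toReal_smul (μ := (volume : Measure (Fin n → E)))
      hp (Filter.Eventually.of_forall hpt) (fun x => G (cm x))
    simp only [smul_eq_mul] at h3
    rw [← h3]
    have h4 := integral_map (μ := (volume : Measure (Fin n → E)).withDensity p)
      (φ := fun x : Fin n → E => cm x) meas_cm.aemeasurable (f := G) hG.aestronglyMeasurable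
    rw [← h4, push_one fo hn p hp htr, integral_smul_measure, smul_eq_mul]

theorem real_one (fo : FactorOne) {n : ℕ} (hn : 1 ≤ n) (h : (Fin n → E) → ℝ)
    (hm : Measurable h) (hb : ∃ b, ∀ x, |h x| ≤ b) (hcl : ∀ x, h x ≠ 0 → ∀ i j, dist (x i) (x j) ≤ 1)
    (htr : ∀ x (s : E), h (fun i => x i + s) = h x) (G : E → ℝ) (hG : Measurable G) :
    ∫ x : Fin n → E, h x * G (cm x) = relInt h * ∫ c, G c := by
  have hfin := fin_rel hn h hb hcl
  have htre : ∀ x (s : E), ‖h (fun i => x i + s)‖ₑ = ‖h x‖ₑ := fun x s => by rw [htr]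
  by_cases hGi : Integrable G
  · have hp : Measurable (fun x => ENNReal.ofReal (h x)) := hm.ennreal_ofReal
    have hq : Measurable (fun x => ENNReal.ofReal (-h x)) := hm.neg.ennreal_ofReal
    have hcp : ∫⁻ x in {x : Fin n → E | cm x ∈ Q1}, ENNReal.ofReal (h x) < ⊤ := by
      refine lt_of_le_of_lt (lintegral_mono (fun x => ?_)) hfin
      rw [Real.enorm_eq_ofReal_abs]
      exact ENNReal.ofReal_le_ofReal (le_abs_self _)
    have hcq : ∫⁻ x in {x : Fin n → E | cm x ∈ Q1}, ENNReal.ofReal (-h x) < ⊤ := by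
      refine lt_of_le_of_lt (lintegral_mono (fun x => ?_)) hfin
      rw [Real.enorm_eq_ofReal_abs]
      exact ENNReal.ofReal_le_ofReal (neg_le_abs _)
    obtain ⟨ip, vp⟩ := int_pos_one fo hn (fun x => ENNReal.ofReal (h x)) hp
      (fun x => ENNReal.ofReal_lt_top) (fun x s => by simp only [htr]) hcp G hG hGi
    obtain ⟨iq, vq⟩ := int_pos_one fo hn (fun x => ENNReal.ofReal (-h x)) hq
      (fun x => ENNReal.ofReal_lt_top) (fun x s => by simp only [htr]) hcq G hG hGi
    have hsplit : (fun x : Fin n → E => h x * G (cm x)) = fun x =>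
        (ENNReal.ofReal (h x)).toReal * G (cm x) - (ENNReal.ofReal (-h x)).toReal * G (cm x) := by
      funext x
      rw [ENNReal.toReal_ofReal', ENNReal.toReal_ofReal']
      rcases le_total 0 (h x) with h0 | h0
      · rw [max_eq_left h0, max_eq_right (by linarith)]; ring
      · rw [max_eq_right h0, max_eq_left (by linarith)]; ring
    rw [hsplit, integral_sub ip iq, vp, vq]
    have hint : Integrable h (volume.restrict {x : Fin n → E | cm x ∈ Q1}) :=
      ⟨hm.aestronglyMeasurable, by rw [hasFiniteIntegral_iff_enorm]; exact hfin⟩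
    have hr : relInt h = (∫⁻ x in {x : Fin n → E | cm x ∈ Q1}, ENNReal.ofReal (h x)).toReal
        - (∫⁻ x in {x : Fin n → E | cm x ∈ Q1}, ENNReal.ofReal (-h x)).toReal := by
      unfold relInt
      exact integral_eq_lintegral_pos_part_sub_lintegral_neg_part hint
    rw [hr]; ring
  · rw [integral_undef hGi, mul_zero]
    by_cases hc : ∫⁻ x in {x : Fin n → E | cm x ∈ Q1}, ‖h x‖ₑ = 0
    · have h1 := fo n hn (fun x => ‖h x‖ₑ) hm.enorm htre (fun _ => 1) measurable_const
      rw [hc, zero_mul] at h1
      simp only [mul_one] at h1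
      have h2 := (lintegral_eq_zero_iff hm.enorm).1 h1
      have h3 : (fun x : Fin n → E => h x * G (cm x)) =ᵐ[volume] fun _ => 0 := by
        filter_upwards [h2] with x hx
        have : h x = 0 := by simpa using hx
        rw [this, zero_mul]
      rw [integral_congr_ae h3, integral_zero]
    · refine integral_undef (fun hi => ?_)
      have h1 := fo n hn (fun x => ‖h x‖ₑ) hm.enorm htre (fun c => ‖G c‖ₑ) hG.enorm
      have h2 : ∫⁻ c, ‖G c‖ₑ = ⊤ := by
        by_contra hne
        exact hGi ⟨hG.aestronglyMeasurable, by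
          rw [hasFiniteIntegral_iff_enorm]; exact lt_top_iff_ne_top.2 hne⟩
      rw [h2, ENNReal.mul_top hc] at h1
      have h3 := hi.2
      rw [hasFiniteIntegral_iff_enorm] at h3
      have h4 : ∫⁻ x : Fin n → E, ‖h x * G (cm x)‖ₑ = ∫⁻ x, ‖h x‖ₑ * ‖G (cm x)‖ₑ :=
        lintegral_congr (fun x => enorm_mul _ _)
      rw [h4, h1] at h3
      exact lt_irrefl _ h3

theorem esymm_apply_zero {X : Type} [MeasurableSpace X] {m : ℕ} (p : X × (Fin m → X)) :
    (MeasurableEquiv.piFinSuccAbove (fun _ : Fin (m + 1) => X) 0).symm p 0 = p.1 := by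
  simp [MeasurableEquiv.piFinSuccAbove, Fin.insertNthEquiv]

theorem esymm_apply_succ {X : Type} [MeasurableSpace X] {m : ℕ} (p : X × (Fin m → X)) (A : Fin m) :
    (MeasurableEquiv.piFinSuccAbove (fun _ : Fin (m + 1) => X) 0).symm p A.succ = p.2 A := by
  simp [MeasurableEquiv.piFinSuccAbove, Fin.insertNthEquiv]

theorem esymm_cm {n m : ℕ} (p : (Fin n → E) × (Fin m → Fin n → E)) :
    (fun A => cm ((MeasurableEquiv.piFinSuccAbove (fun _ : Fin (m + 1) => Fin n → E) 0).symm p A))
      = (MeasurableEquiv.piFinSuccAbove (fun _ : Fin (m + 1) => E) 0).symm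
        (cm p.1, fun A => cm (p.2 A)) := by
  funext A
  refine Fin.cases ?_ (fun B => ?_) A
  · rw [esymm_apply_zero, esymm_apply_zero]
  · rw [esymm_apply_succ, esymm_apply_succ]

theorem meas_cmv {n m : ℕ} : Measurable (fun (y : Fin m → Fin n → E) (A : Fin m) => cm (y A)) := by
  refine measurable_pi_lambda _ (fun A => ?_)
  exact meas_cm.comp (measurable_pi_apply A)

theorem lint_m (fo : FactorOne) {n : ℕ} (hn : 1 ≤ n) (m : ℕ) :
    ∀ (h : Fin m → (Fin n → E) → ℝ≥0∞), (∀ A, Measurable (h A)) →
    (∀ A x (s : E), h A (fun i => x i + s) = h A x) →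
    ∀ (G : (Fin m → E) → ℝ≥0∞), Measurable G →
    ∫⁻ y : Fin m → Fin n → E, (∏ A, h A (y A)) * G (fun A => cm (y A))
      = (∏ A, ∫⁻ x in {x | cm x ∈ Q1}, h A x) * ∫⁻ c, G c := by
  induction m with
  | zero =>
    intro h hm htr G hG
    rw [Measure.volume_pi_eq_dirac (fun A => Fin.elim0 A : Fin 0 → Fin n → E),
      Measure.volume_pi_eq_dirac (fun A => Fin.elim0 A : Fin 0 → E), lintegral_dirac, lintegral_dirac]
    simp only [Finset.univ_eq_empty, Finset.prod_empty, one_mul]
    congr 1
    funext A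
    exact Fin.elim0 A
  | succ m ih =>
    intro h hm htr G hG
    have he := (volume_preserving_piFinSuccAbove (fun _ : Fin (m + 1) => Fin n → E) 0).symm
    have heE := (volume_preserving_piFinSuccAbove (fun _ : Fin (m + 1) => E) 0).symm
    have hF : Measurable (fun y : Fin (m + 1) → Fin n → E =>
        (∏ A, h A (y A)) * G (fun A => cm (y A))) := by
      refine Measurable.mul ?_ (hG.comp meas_cmv)
      exact Finset.measurable_fun_prod _ (fun A _ => (hm A).comp (measurable_pi_apply A))
    rw [← he.lintegral_comp hF, ← heE.lintegral_comp hG, Measure.volume_eq_prod,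
      Measure.volume_eq_prod]
    have hF' : Measurable (fun p : (Fin n → E) × (Fin m → Fin n → E) =>
        (∏ A, h A ((MeasurableEquiv.piFinSuccAbove (fun _ : Fin (m + 1) => Fin n → E) 0).symm p A))
          * G (fun A => cm ((MeasurableEquiv.piFinSuccAbove
            (fun _ : Fin (m + 1) => Fin n → E) 0).symm p A))) := hF.comp he.measurable
    have hG'' : Measurable (fun p : E × (Fin m → E) =>
        G ((MeasurableEquiv.piFinSuccAbove (fun _ : Fin (m + 1) => E) 0).symm p)) :=
      hG.comp heE.measurable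
    rw [lintegral_prod_symm' _ hF', lintegral_prod_symm' _ hG'']
    have hin : ∀ y : Fin m → Fin n → E, ∫⁻ x : Fin n → E,
        (∏ A, h A ((MeasurableEquiv.piFinSuccAbove (fun _ : Fin (m + 1) => Fin n → E) 0).symm (x, y) A))
          * G (fun A => cm ((MeasurableEquiv.piFinSuccAbove
            (fun _ : Fin (m + 1) => Fin n → E) 0).symm (x, y) A))
        = (∏ A : Fin m, h A.succ (y A)) * ((∫⁻ x in {x | cm x ∈ Q1}, h 0 x) *
          ∫⁻ c : E, G ((MeasurableEquiv.piFinSuccAbove (fun _ : Fin (m + 1) => E) 0).symm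
            (c, fun A => cm (y A)))) := by
      intro y
      have hGm : Measurable (fun c : E => G ((MeasurableEquiv.piFinSuccAbove
          (fun _ : Fin (m + 1) => E) 0).symm (c, fun A => cm (y A)))) :=
        (hG.comp heE.measurable).comp (measurable_id.prodMk measurable_const)
      rw [← fo n hn (h 0) (hm 0) (htr 0) _ hGm, ← lintegral_const_mul]
      · refine lintegral_congr (fun x => ?_)
        rw [Fin.prod_univ_succ, esymm_apply_zero, esymm_cm]
        simp only [esymm_apply_succ]
        ring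
      · exact (hm 0).mul (hGm.comp meas_cm)
    simp_rw [hin]
    have hG' : Measurable (fun c' : Fin m → E => (∫⁻ x in {x | cm x ∈ Q1}, h 0 x) *
          ∫⁻ c : E, G ((MeasurableEquiv.piFinSuccAbove (fun _ : Fin (m + 1) => E) 0).symm
            (c, c'))) := by
      refine Measurable.const_mul ?_ _
      exact (hG.comp heE.measurable).lintegral_prod_left'
    have hI := ih (fun A => h A.succ) (fun A => hm A.succ) (fun A => htr A.succ) _ hG'
    rw [hI, Fin.prod_univ_succ, lintegral_const_mul]
    · ring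
    · exact (hG.comp heE.measurable).lintegral_prod_left'

theorem real_m_int (fo : FactorOne) {n : ℕ} (hn : 1 ≤ n) (m : ℕ)
    (h : Fin m → (Fin n → E) → ℝ) (hm : ∀ A, Measurable (h A))
    (hb : ∀ A, ∃ b, ∀ x, |h A x| ≤ b) (hcl : ∀ A x, h A x ≠ 0 → ∀ i j, dist (x i) (x j) ≤ 1)
    (htr : ∀ A x (s : E), h A (fun i => x i + s) = h A x)
    (G : (Fin m → E) → ℝ) (hG : Measurable G) (hGi : Integrable G) :
    Integrable (fun y : Fin m → Fin n → E => (∏ A, h A (y A)) * G (fun A => cm (y A))) := by
  refine ⟨?_, ?_⟩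
  · refine Measurable.aestronglyMeasurable ?_
    refine Measurable.mul ?_ (hG.comp meas_cmv)
    exact Finset.measurable_fun_prod _ (fun A _ => (hm A).comp (measurable_pi_apply A))
  · rw [hasFiniteIntegral_iff_enorm]
    have h1 := lint_m fo hn m (fun A x => ‖h A x‖ₑ) (fun A => (hm A).enorm)
      (fun A x s => by simp only [htr]) (fun c => ‖G c‖ₑ) hG.enorm
    have h2 : ∀ y : Fin m → Fin n → E, ‖(∏ A, h A (y A)) * G (fun A => cm (y A))‖ₑ
        = (∏ A, ‖h A (y A)‖ₑ) * ‖G (fun A => cm (y A))‖ₑ := by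
      intro y
      rw [enorm_mul]
      congr 1
      simp only [enorm, nnnorm_prod, ENNReal.ofNNReal_finsetProd]
    simp_rw [h2]
    rw [h1]
    refine ENNReal.mul_lt_top ?_ hGi.2
    exact ENNReal.prod_lt_top (fun A _ => fin_rel hn (h A) (hb A) (hcl A))

theorem real_m (fo : FactorOne) {n : ℕ} (hn : 1 ≤ n) (m : ℕ) :
    ∀ (h : Fin m → (Fin n → E) → ℝ), (∀ A, Measurable (h A)) →
    (∀ A, ∃ b, ∀ x, |h A x| ≤ b) → (∀ A x, h A x ≠ 0 → ∀ i j, dist (x i) (x j) ≤ 1) →
    (∀ A x (s : E), h A (fun i => x i + s) = h A x) →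
    ∀ (G : (Fin m → E) → ℝ), Measurable G → Integrable G →
    ∫ y : Fin m → Fin n → E, (∏ A, h A (y A)) * G (fun A => cm (y A))
      = (∏ A, relInt (h A)) * ∫ c, G c := by
  induction m with
  | zero =>
    intro h hm hb hcl htr G hG hGi
    rw [Measure.volume_pi_eq_dirac (fun A => Fin.elim0 A : Fin 0 → Fin n → E),
      Measure.volume_pi_eq_dirac (fun A => Fin.elim0 A : Fin 0 → E), integral_dirac, integral_dirac]
    simp only [Finset.univ_eq_empty, Finset.prod_empty, one_mul]
    congr 1
    funext A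
    exact Fin.elim0 A
  | succ m ih =>
    intro h hm hb hcl htr G hG hGi
    have he := (volume_preserving_piFinSuccAbove (fun _ : Fin (m + 1) => Fin n → E) 0).symm
    have heE := (volume_preserving_piFinSuccAbove (fun _ : Fin (m + 1) => E) 0).symm
    have hFi := real_m_int fo hn (m + 1) h hm hb hcl htr G hG hGi
    have e1 := he.integral_comp' (fun y : Fin (m + 1) → Fin n → E =>
        (∏ A, h A (y A)) * G (fun A => cm (y A)))
    have e2 := heE.integral_comp' G
    have i1 : Integrable (fun p : (Fin n → E) × (Fin m → Fin n → E) =>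
        (∏ A, h A ((MeasurableEquiv.piFinSuccAbove (fun _ : Fin (m + 1) => Fin n → E) 0).symm p A))
          * G (fun A => cm ((MeasurableEquiv.piFinSuccAbove
            (fun _ : Fin (m + 1) => Fin n → E) 0).symm p A))) (volume.prod volume) :=
      he.integrable_comp_of_integrable hFi
    have i2 : Integrable (fun p : E × (Fin m → E) =>
        G ((MeasurableEquiv.piFinSuccAbove (fun _ : Fin (m + 1) => E) 0).symm p))
        (volume.prod volume) := heE.integrable_comp_of_integrable hGi
    have e3 := integral_prod_symm (μ := (volume : Measure (Fin n → E)))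
      (ν := (volume : Measure (Fin m → Fin n → E))) _ i1
    have e4 := integral_prod_symm (μ := (volume : Measure E))
      (ν := (volume : Measure (Fin m → E))) _ i2
    rw [← e1, ← e2, Measure.volume_eq_prod, Measure.volume_eq_prod]
    rw [e3, e4]
    have hin : ∀ y : Fin m → Fin n → E, ∫ x : Fin n → E,
        (∏ A, h A ((MeasurableEquiv.piFinSuccAbove (fun _ : Fin (m + 1) => Fin n → E) 0).symm (x, y) A))
          * G (fun A => cm ((MeasurableEquiv.piFinSuccAbove
            (fun _ : Fin (m + 1) => Fin n → E) 0).symm (x, y) A))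
        = (∏ A : Fin m, h A.succ (y A)) * (relInt (h 0) *
          ∫ c : E, G ((MeasurableEquiv.piFinSuccAbove (fun _ : Fin (m + 1) => E) 0).symm
            (c, fun A => cm (y A)))) := by
      intro y
      have hGm : Measurable (fun c : E => G ((MeasurableEquiv.piFinSuccAbove
          (fun _ : Fin (m + 1) => E) 0).symm (c, fun A => cm (y A)))) :=
        (hG.comp heE.measurable).comp (measurable_id.prodMk measurable_const)
      rw [← real_one fo hn (h 0) (hm 0) (hb 0) (hcl 0) (htr 0) _ hGm, ← integral_const_mul]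
      refine integral_congr_ae (Filter.Eventually.of_forall (fun x => ?_))
      simp only []
      rw [Fin.prod_univ_succ, esymm_apply_zero, esymm_cm]
      simp only [esymm_apply_succ]
      ring
    simp_rw [hin]
    have hG' : Measurable (fun c' : Fin m → E => relInt (h 0) *
          ∫ c : E, G ((MeasurableEquiv.piFinSuccAbove (fun _ : Fin (m + 1) => E) 0).symm
            (c, c'))) := by
      refine Measurable.const_mul ?_ _
      exact (StronglyMeasurable.integral_prod_left'
        (hG.comp heE.measurable).stronglyMeasurable).measurable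
    have hGi' : Integrable (fun c' : Fin m → E => relInt (h 0) *
          ∫ c : E, G ((MeasurableEquiv.piFinSuccAbove (fun _ : Fin (m + 1) => E) 0).symm
            (c, c'))) := i2.integral_prod_right.const_mul _
    have hI := ih (fun A => h A.succ) (fun A => hm A.succ) (fun A => hb A.succ)
      (fun A => hcl A.succ) (fun A => htr A.succ) _ hG' hGi'
    rw [hI, Fin.prod_univ_succ, integral_const_mul]
    ring
end auxj

/-- fibre integration over the centres of mass of `m` clumps -/
theorem factor
    (factor_one : ∀ (n : ℕ), 1 ≤ n → ∀ (h : (Fin n → E) → ℝ≥0∞), Measurable h →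
      (∀ x (s : E), h (fun i => x i + s) = h x) → ∀ (G : E → ℝ≥0∞), Measurable G →
      ∫⁻ x, h x * G (cm x) = (∫⁻ x in {x | cm x ∈ Q1}, h x) * ∫⁻ c, G c)
    (n m : ℕ) (hn : 1 ≤ n) (h : Fin m → (Fin n → E) → ℝ) (hm : ∀ A, Measurable (h A))
    (hb : ∀ A, ∃ b, ∀ x, |h A x| ≤ b) (hcl : ∀ A x, h A x ≠ 0 → ∀ i j, dist (x i) (x j) ≤ 1)
    (htr : ∀ A x (s : E), h A (fun i => x i + s) = h A x)
    (G : (Fin m → E) → ℝ) (hG : Measurable G) (hGi : Integrable G) :
    Integrable (fun x : Fin m × Fin n → E =>
      (∏ A, h A (fun i => x (A, i))) * G (fun A => cm (fun i => x (A, i)))) ∧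
    ∫ x : Fin m × Fin n → E, (∏ A, h A (fun i => x (A, i))) * G (fun A => cm (fun i => x (A, i)))
      = (∏ A, relInt (h A)) * ∫ c, G c := by
  have hc := mp_curry m n
  have e1 := hc.integral_comp' (fun x : Fin m × Fin n → E =>
      (∏ A, h A (fun i => x (A, i))) * G (fun A => cm (fun i => x (A, i))))
  have i0 := real_m_int factor_one hn m h hm hb hcl htr G hG hGi
  constructor
  · exact (hc.integrable_comp_emb (MeasurableEquiv.measurableEmbedding _)).1 i0
  · rw [← e1]
    exact real_m factor_one hn m h hm hb hcl htr G hG hGi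

end BG631.JP2
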