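import Pool.Agent.H631.BG.Base

open MeasureTheory Filter Topology Set
open scoped ENNReal NNReal BigOperators

namespace BG631.JQ

/-- one-particle state at `p` -/
noncomputable def betaF (p : E) (x : Fin 1 → E) : ℝ := max 0 (1 - ‖x 0 - p‖)

theorem betaF_lip (p : E) : LipschitzWith 1 (betaF p) := by
  refine LipschitzWith.of_dist_le_mul ?_
  intro x y
  unfold betaF
  have h1 : dist (max 0 (1 - ‖x 0 - p‖)) (max 0 (1 - ‖y 0 - p‖)) ≤ |(1 - ‖x 0 - p‖) - (1 - ‖y 0 - p‖)| := by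
    rw [Real.dist_eq]
    have := abs_max_sub_max_le_abs (1 - ‖x 0 - p‖) (1 - ‖y 0 - p‖) 0
    rw [max_comm 0, max_comm 0]
    exact this
  have h2 : |(1 - ‖x 0 - p‖) - (1 - ‖y 0 - p‖)| ≤ ‖x 0 - y 0‖ := by
    have h3 := abs_norm_sub_norm_le (y 0 - p) (x 0 - p)
    have h4 : y 0 - p - (x 0 - p) = -(x 0 - y 0) := by abel
    rw [h4, norm_neg] at h3
    have h5 : (1 - ‖x 0 - p‖) - (1 - ‖y 0 - p‖) = ‖y 0 - p‖ - ‖x 0 - p‖ := by ring
    rw [h5]
    exact h3
  have h6 : ‖x 0 - y 0‖ ≤ dist x y := by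
    rw [← dist_eq_norm]
    exact dist_le_pi_dist x y 0
  simp only [NNReal.coe_one, one_mul]
  linarith

theorem betaF_ne (p : E) (x : Fin 1 → E) (h : betaF p x ≠ 0) : dist (x 0) p < 1 := by
  by_contra hc
  push Not at hc
  apply h
  unfold betaF
  rw [dist_eq_norm] at hc
  exact max_eq_left (by linarith)

theorem betaF_cpt (p : E) : HasCompactSupport (betaF p) := by
  refine HasCompactSupport.intro (isCompact_closedBall (fun _ => p : Fin 1 → E) 1) ?_
  intro x hx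
  by_contra hne
  apply hx
  have h1 := betaF_ne p x hne
  rw [Metric.mem_closedBall]
  rw [dist_pi_le_iff zero_le_one]
  intro i
  have : i = 0 := Subsingleton.elim _ _
  rw [this]
  exact h1.le

theorem pot_one (v : ℝ → ℝ) (x : Fin 1 → E) : pot v x = 0 := by
  unfold pot
  simp

theorem betaF_state (v : ℝ → ℝ) (p : E) : IsState v (betaF p) := by
  refine ⟨⟨1, betaF_lip p⟩, betaF_cpt p, ?_⟩
  simp only [pot_one, zero_mul]
  exact integrable_zero _ _ _

theorem betaF_trans (p : E) (x : Fin 1 → E) : betaF p x = betaF 0 (x - fun _ => p) := by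
  unfold betaF
  simp

theorem betaF_norm (p : E) : ∫ x, ‖betaF p x‖ ^ 2 = ∫ x, ‖betaF 0 x‖ ^ 2 := by
  have h := integral_sub_right_eq_self (μ := (volume : Measure (Fin 1 → E)))
    (fun x : Fin 1 → E => ‖betaF 0 x‖ ^ 2) (fun _ => p)
  rw [← h]
  refine integral_congr_ae (Filter.Eventually.of_forall ?_)
  intro x
  simp only [betaF_trans p x]

theorem kin_trans (p : E) (x : Fin 1 → E) : kin (betaF p) x = kin (betaF 0) (x - fun _ => p) := by
  unfold kin pd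
  have h : fderiv ℝ (betaF p) x = fderiv ℝ (betaF 0) (x - fun _ => p) := by
    have h1 : betaF p = fun x => betaF 0 (x - fun _ => p) := by
      funext x; exact betaF_trans p x
    rw [h1]
    rw [fderiv_comp_sub]
  rw [h]

theorem betaF_energy (μ : ℝ) (v : ℝ → ℝ) (p : E) :
    energy μ v (betaF p) = ∫ x, μ * kin (betaF 0) x := by
  unfold energy
  have h := integral_sub_right_eq_self (μ := (volume : Measure (Fin 1 → E)))
    (fun x : Fin 1 → E => μ * kin (betaF 0) x) (fun _ => p)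
  rw [← h]
  refine integral_congr_ae (Filter.Eventually.of_forall ?_)
  intro x
  simp only [pot_one, zero_mul, add_zero, kin_trans p x]

theorem betaF_pos : 0 < ∫ x, ‖betaF 0 x‖ ^ 2 := by
  have hcont : Continuous (fun x : Fin 1 → E => ‖betaF 0 x‖ ^ 2) :=
    ((betaF_lip 0).continuous.norm).pow 2
  have hc : HasCompactSupport (fun x : Fin 1 → E => ‖betaF 0 x‖ ^ 2) := by
    refine (betaF_cpt 0).mono ?_
    intro x hx
    rw [Function.mem_support] at hx ⊢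
    intro h0
    apply hx
    simp [h0]
  refine hcont.integral_pos_of_hasCompactSupport_nonneg_nonzero hc (x := 0) ?_ ?_
  · intro x
    positivity
  · simp [betaF]

theorem V0_far (K lam B r : ℝ) (hr : 9 ≤ r) : V0 K lam B r = 0 := by
  unfold V0
  rw [if_neg (by linarith), if_neg (by linarith), if_neg (by linarith)]

/-- a few single particles at prescribed far-apart places cost a bounded energy -/
theorem singles
    (tensor : ∀ (ι₁ ι₂ : Type) [Fintype ι₁] [DecidableEq ι₁] [Fintype ι₂] [DecidableEq ι₂] (μ : ℝ) (v : ℝ → ℝ)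
      (ψ₁ : (ι₁ → E) → ℝ) (ψ₂ : (ι₂ → E) → ℝ), IsState v ψ₁ → IsState v ψ₂ →
      (∀ x₁ x₂, ψ₁ x₁ ≠ 0 → ψ₂ x₂ ≠ 0 → ∀ i j, v (dist (x₁ i) (x₂ j)) = 0) →
      IsState v (fun x : ι₁ ⊕ ι₂ → E => ψ₁ (fun i => x (Sum.inl i)) * ψ₂ (fun j => x (Sum.inr j))) ∧
      ∫ x : ι₁ ⊕ ι₂ → E, ‖ψ₁ (fun i => x (Sum.inl i)) * ψ₂ (fun j => x (Sum.inr j))‖ ^ 2 =
        (∫ x, ‖ψ₁ x‖ ^ 2) * ∫ x, ‖ψ₂ x‖ ^ 2 ∧
      energy μ v (fun x : ι₁ ⊕ ι₂ → E => ψ₁ (fun i => x (Sum.inl i)) * ψ₂ (fun j => x (Sum.inr j))) =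
        energy μ v ψ₁ * (∫ x, ‖ψ₂ x‖ ^ 2) + (∫ x, ‖ψ₁ x‖ ^ 2) * energy μ v ψ₂)
    (isState_reindex : ∀ (ι κ : Type) [Fintype ι] [DecidableEq ι] [Fintype κ] [DecidableEq κ] (e : κ ≃ ι)
      (v : ℝ → ℝ) (ψ : (ι → E) → ℝ), IsState v ψ → IsState v (fun y : κ → E => ψ (fun i => y (e.symm i))))
    (energy_reindex : ∀ (ι κ : Type) [Fintype ι] [DecidableEq ι] [Fintype κ] [DecidableEq κ] (e : κ ≃ ι)
      (μ : ℝ) (v : ℝ → ℝ) (ψ : (ι → E) → ℝ),
      energy μ v (fun y : κ → E => ψ (fun i => y (e.symm i))) = energy μ v ψ)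
    (integral_reindex : ∀ (ι κ : Type) [Fintype ι] [DecidableEq ι] [Fintype κ] [DecidableEq κ] (e : κ ≃ ι)
      (f : (ι → E) → ℝ), ∫ x : κ → E, f (fun i => x (e.symm i)) = ∫ x, f x)
    (μ : ℝ) (hμ : 0 ≤ μ) :
    ∃ C : ℝ, 0 ≤ C ∧ ∀ (K lam B : ℝ) (s : ℕ) (p : Fin s → E), (∀ i j, i ≠ j → 11 ≤ dist (p i) (p j)) →
      ∃ ψ : (Fin s → E) → ℝ, IsState (V0 K lam B) ψ ∧ (∀ x, ψ x ≠ 0 → ∀ k, dist (x k) (p k) < 1) ∧
        0 < ∫ x, ‖ψ x‖ ^ 2 ∧ energy μ (V0 K lam B) ψ ≤ C * s * ∫ x, ‖ψ x‖ ^ 2 := by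
  set n : ℝ := ∫ x, ‖betaF 0 x‖ ^ 2 with hn
  have hnpos : 0 < n := betaF_pos
  set k : ℝ := ∫ x, μ * kin (betaF 0) x with hk
  refine ⟨|k| / n, by positivity, ?_⟩
  intro K lam B s
  induction s with
  | zero =>
    intro p _
    have hvol : (volume : Measure (Fin 0 → E)) = Measure.dirac (fun i => i.elim0) := by
      rw [MeasureTheory.volume_pi]
      exact Measure.pi_of_empty _ _
    have hpot : ∀ x : Fin 0 → E, pot (V0 K lam B) x = 0 := by
      intro x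
      unfold pot
      simp
    have hkin : ∀ x : Fin 0 → E, kin (fun _ : Fin 0 → E => (1 : ℝ)) x = 0 := by
      intro x
      unfold kin
      simp
    refine ⟨fun _ => 1, ⟨⟨0, LipschitzWith.const 1⟩, ?_, ?_⟩, ?_, ?_, ?_⟩
    · exact HasCompactSupport.of_compactSpace _
    · simp only [hpot, zero_mul]
      exact integrable_zero _ _ _
    · intro x _ k
      exact k.elim0
    · rw [hvol]
      simp
    · unfold energy
      simp only [hpot, hkin, zero_mul, mul_zero, add_zero]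
      simp
  | succ s ih =>
    intro p hp
    obtain ⟨ψ, hst, hsupp, hpos, hen⟩ := ih (fun i => p i.castSucc)
      (fun i j hij => hp _ _ (fun h => hij (Fin.castSucc_injective _ h)))
    have hβ := betaF_state (V0 K lam B) (p (Fin.last s))
    have hcross : ∀ (x₁ : Fin s → E) (x₂ : Fin 1 → E), ψ x₁ ≠ 0 → betaF (p (Fin.last s)) x₂ ≠ 0 →
        ∀ i j, V0 K lam B (dist (x₁ i) (x₂ j)) = 0 := by
      intro x₁ x₂ h1 h2 i j
      have hj : j = 0 := Subsingleton.elim _ _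
      subst hj
      have h3 := hsupp x₁ h1 i
      have h4 := betaF_ne _ _ h2
      have h5 := hp i.castSucc (Fin.last s) (Fin.castSucc_lt_last i).ne
      apply V0_far
      have h6 : dist (p i.castSucc) (p (Fin.last s)) ≤ dist (p i.castSucc) (x₁ i) + dist (x₁ i) (x₂ 0)
          + dist (x₂ 0) (p (Fin.last s)) := dist_triangle4 _ _ _ _
      rw [dist_comm (p i.castSucc) (x₁ i)] at h6
      linarith
    obtain ⟨hT1, hT2, hT3⟩ := tensor (Fin s) (Fin 1) μ (V0 K lam B) ψ (betaF (p (Fin.last s))) hst hβ hcross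
    set Ψ : (Fin s ⊕ Fin 1 → E) → ℝ := fun x : Fin s ⊕ Fin 1 → E =>
      ψ (fun i => x (Sum.inl i)) * betaF (p (Fin.last s)) (fun j => x (Sum.inr j)) with hΨ
    let e : Fin (s + 1) ≃ Fin s ⊕ Fin 1 := finSumFinEquiv.symm
    have hR1 := isState_reindex (Fin s ⊕ Fin 1) (Fin (s + 1)) e (V0 K lam B) Ψ hT1
    have hR2 := energy_reindex (Fin s ⊕ Fin 1) (Fin (s + 1)) e μ (V0 K lam B) Ψ
    have hR3 := integral_reindex (Fin s ⊕ Fin 1) (Fin (s + 1)) e (fun z => ‖Ψ z‖ ^ 2)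
    have hN : ∫ x : Fin s ⊕ Fin 1 → E, ‖Ψ x‖ ^ 2 = (∫ x, ‖ψ x‖ ^ 2) * n := by
      rw [hn, ← betaF_norm (p (Fin.last s))]
      exact hT2
    have hE : energy μ (V0 K lam B) Ψ = energy μ (V0 K lam B) ψ * n + (∫ x, ‖ψ x‖ ^ 2) * k := by
      rw [hn, ← betaF_norm (p (Fin.last s)), hk, ← betaF_energy μ (V0 K lam B) (p (Fin.last s))]
      exact hT3
    refine ⟨fun y : Fin (s + 1) → E => Ψ (fun i => y (e.symm i)), hR1, ?_, ?_, ?_⟩
    · intro x hx
      have hx' : ψ (fun i => x (e.symm (Sum.inl i))) * betaF (p (Fin.last s))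
          (fun j => x (e.symm (Sum.inr j))) ≠ 0 := hx
      have h1 := left_ne_zero_of_mul hx'
      have h2 := right_ne_zero_of_mul hx'
      intro i
      refine Fin.lastCases ?_ ?_ i
      · have h3 := betaF_ne _ _ h2
        exact h3
      · intro j
        have h3 := hsupp _ h1 j
        exact h3
    · rw [hR3, hN]
      positivity
    · rw [hR2, hR3, hN, hE]
      have h1 : k ≤ |k| / n * n := by
        rw [div_mul_cancel₀ _ hnpos.ne']
        exact le_abs_self k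
      have h2 : energy μ (V0 K lam B) ψ * n ≤ (|k| / n * s * ∫ x, ‖ψ x‖ ^ 2) * n :=
        mul_le_mul_of_nonneg_right hen hnpos.le
      have h3 : (∫ x, ‖ψ x‖ ^ 2) * k ≤ (∫ x, ‖ψ x‖ ^ 2) * (|k| / n * n) :=
        mul_le_mul_of_nonneg_left h1 hpos.le
      push_cast
      nlinarith [h2, h3]

end BG631.JQ
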