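import Pool.Agent.H631.BG.R
import Pool.Agent.H631.BG.H1
import Pool.Agent.H631.BG.H2
import Pool.Agent.H631.BG.H3
import Pool.Agent.H631.BG.H4
import Pool.Agent.H631.BG.H5
import Pool.Agent.H631.BG.H6
import Pool.Agent.H631.BG.P1
import Pool.Agent.H631.BG.P2
import Pool.Agent.H631.BG.K1
import Pool.Agent.H631.BG.K2
import Pool.Agent.H631.BG.K4
import Pool.Agent.H631.BG.L
import Pool.Agent.H631.BG.Q

/-! The gas of clumps. -/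

open MeasureTheory Filter Topology Set
open scoped ENNReal NNReal BigOperators

namespace BG631

theorem uu01 (m : ℕ) (L : ℝ) (hL : 4 < L) (c : Fin m → E) (z : E) : 0 ≤ uu L c z ∧ uu L c z ≤ 1 := by
  have h1 := (JH1.chi_props L hL).1 z
  have h2 := JH1.ff_props.1
  unfold uu
  have h3 : 0 ≤ ∏ B, ff (z - c B) := Finset.prod_nonneg (fun B _ => (h2 _).1)
  have h4 : ∏ B, ff (z - c B) ≤ 1 := Finset.prod_le_one (fun B _ => (h2 _).1) (fun B _ => (h2 _).2)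
  exact ⟨mul_nonneg h1.1 h3, mul_le_one₀ h1.2 h3 h4⟩

theorem hs_closed (m : ℕ) (L τ κ : ℝ) (hL : 4 < L) (hτ : 0 < τ) (hκ : κ = (L - 4) ^ 3 - m * b33) (h0 : 0 < κ) :
    ∃ Φ : (Fin m → E) → ℝ, (∃ C : ℝ≥0, LipschitzWith C Φ) ∧ HasCompactSupport Φ ∧
      (∀ c, Φ c ≠ 0 → ∀ A B, A ≠ B → 11 ≤ dist (c A) (c B)) ∧
      (∀ c, Φ c ≠ 0 → ∀ A k, 1 < c A k ∧ c A k < L - 1) ∧
      0 < ∫ c, ‖Φ c‖ ^ 2 ∧
      ∫ c, kin Φ c ≤ m * ((1 + τ) * I0 * (m / κ) * (1 + b66 * m / κ) + (1 + 1 / τ) * (6 * L ^ 2 / κ)) *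
        ∫ c, ‖Φ c‖ ^ 2 := by
  have hbas : ∀ (m : ℕ) (L : ℝ), 4 < L →
      (∀ c, 0 ≤ Fm m L c ∧ Fm m L c ≤ 1) ∧ (∃ C : ℝ≥0, LipschitzWith C (Fm m L)) ∧ HasCompactSupport (Fm m L) ∧
      (∀ c, Fm m L c ≠ 0 → ∀ A B, A ≠ B → 11 ≤ dist (c A) (c B)) ∧
      (∀ c, Fm m L c ≠ 0 → ∀ A k, 1 < c A k ∧ c A k < L - 1) ∧
      (∀ (σ : Equiv.Perm (Fin m)) c, Fm m L (fun A => c (σ A)) = Fm m L c) :=
    fun m L hL => JH3.Fm_basic JH1.ff_props (fun L h => JH1.chi_props L h) m L hL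
  have hcons := JH3.Fm_cons
  refine JH6.hs hbas ?_ ?_ ?_ m L τ κ hL hτ hκ h0
  · intro m L hL
    exact JH4.Nrec hcons hbas
      (fun m L hL c => JH2.norm_uu JH1.ff_props (fun L h => JH1.chi_props L h) m L hL c) m L hL
  · intro m L hL A B hAB
    exact JH4.Nclose hcons hbas uu01 m L hL A B hAB
  · intro m L τ hL hτ
    exact JH5.kinFm hcons hbas
      (fun m L τ hL hτ c => JH2.grad_uu JH1.ff_props (fun L h => JH1.chi_props L h) m L τ hL hτ c) m L τ hL hτ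

theorem composite_closed (n m : ℕ) (hn : 1 ≤ n) (μ K lam B : ℝ)
    (φ : (Fin n → E) → ℝ) (hφ : ∃ C : ℝ≥0, LipschitzWith C φ)
    (hb : ∃ b, ∀ x, |φ x| ≤ b) (htr : ∀ x (s : E), φ (fun i => x i + s) = φ x)
    (hcl : ∀ x, φ x ≠ 0 → clump x)
    (Φ : (Fin m → E) → ℝ) (hΦ : ∃ C : ℝ≥0, LipschitzWith C Φ) (hc : HasCompactSupport Φ)
    (hsep : ∀ c, Φ c ≠ 0 → ∀ A B, A ≠ B → 11 ≤ dist (c A) (c B)) :
    IsState (V0 K lam B) (Psi φ Φ) ∧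
    ∫ x, ‖Psi φ Φ x‖ ^ 2 = relInt (fun x => ‖φ x‖ ^ 2) ^ m * ∫ c, ‖Φ c‖ ^ 2 ∧
    energy μ (V0 K lam B) (Psi φ Φ) =
      m * relInt (fun x => μ * kin φ x + pot (Vin K lam) x * ‖φ x‖ ^ 2) *
          relInt (fun x => ‖φ x‖ ^ 2) ^ (m - 1) * (∫ c, ‖Φ c‖ ^ 2)
        + μ * (n : ℝ)⁻¹ * relInt (fun x => ‖φ x‖ ^ 2) ^ m * ∫ c, kin Φ c :=
  JK4.composite
    (fun n m hn h h1 h2 h3 h4 G hG hGi =>
      JP2.factor (fun n hn h hm htr G hG => JP1.factor_one n hn h hm htr G hG) n m hn h h1 h2 h3 h4 G hG hGi)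
    (fun n m hn φ h1 h2 h3 Φ h4 h5 => JK1.Psi_lip n m hn φ h1 h2 h3 Φ h4 h5)
    (fun n m hn K lam B φ h1 Φ h2 x => JK1.Psi_pot n m hn K lam B φ h1 Φ h2 x)
    (fun n m hn φ h1 h2 Φ h3 => JK2.Psi_kin n m hn φ h1 h2 Φ h3)
    n m hn μ K lam B φ hφ hb htr hcl Φ hΦ hc hsep

theorem singles_closed (μ : ℝ) (hμ : 0 ≤ μ) :
    ∃ C : ℝ, 0 ≤ C ∧ ∀ (K lam B : ℝ) (s : ℕ) (p : Fin s → E), (∀ i j, i ≠ j → 11 ≤ dist (p i) (p j)) →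
      ∃ ψ : (Fin s → E) → ℝ, IsState (V0 K lam B) ψ ∧ (∀ x, ψ x ≠ 0 → ∀ k, dist (x k) (p k) < 1) ∧
        0 < ∫ x, ‖ψ x‖ ^ 2 ∧ energy μ (V0 K lam B) ψ ≤ C * s * ∫ x, ‖ψ x‖ ^ 2 := by
  refine JQ.singles ?_ ?_ ?_ ?_ μ hμ
  · intro ι₁ ι₂ _ _ _ _ μ v ψ₁ ψ₂ h₁ h₂ hv
    exact JL.tensor μ v ψ₁ ψ₂ h₁ h₂ hv
  · intro ι κ _ _ _ _ e v ψ h
    exact JR.isState_reindex e v ψ h
  · intro ι κ _ _ _ _ e μ v ψ
    exact JR.energy_reindex e μ v ψ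
  · intro ι κ _ _ _ _ e f
    exact JR.integral_reindex e f

end BG631
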