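import Pool.Agent.H631.BG.Base

open MeasureTheory Filter Topology Set
open scoped ENNReal NNReal BigOperators

namespace BG631.JN

/-- the set of configurations with two given particles at distance exactly `r` is a null set -/
theorem null_wall {ι : Type} [Fintype ι] [DecidableEq ι] (i j : ι) (hij : i ≠ j) (r : ℝ) (hr : 0 < r) :
    volume {x : ι → E | dist (x i) (x j) = r} = 0 := by
  let L : (ι → E) →ₗ[ℝ] E := (LinearMap.proj i : (ι → E) →ₗ[ℝ] E) - (LinearMap.proj j : (ι → E) →ₗ[ℝ] E)
  have hL : ∀ x, L x = x i - x j := fun x => rfl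
  have hs : Function.Surjective L := by
    intro y
    refine ⟨Pi.single i y, ?_⟩
    rw [hL, Pi.single_eq_same, Pi.single_eq_of_ne hij.symm, sub_zero]
  have h1 : ∀ᵐ y : E ∂volume, y ∈ (Metric.sphere (0 : E) r)ᶜ := by
    rw [ae_iff]
    have h2 : {a : E | ¬ a ∈ (Metric.sphere (0 : E) r)ᶜ} = Metric.sphere (0 : E) r := by
      ext a; simp
    rw [h2]
    exact Measure.addHaar_sphere_of_ne_zero volume 0 hr.ne'
  have h2 := (ae_comp_linearMap_mem_iff L volume volume hs
    (Metric.isClosed_sphere.measurableSet.compl)).2 h1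
  rw [ae_iff] at h2
  refine measure_mono_null ?_ h2
  intro x hx
  have hx' : dist (x i) (x j) = r := hx
  change ¬ (L x ∈ (Metric.sphere (0 : E) r)ᶜ)
  rw [Set.mem_compl_iff, not_not, mem_sphere_zero_iff_norm, hL, ← dist_eq_norm, hx']

end BG631.JN
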