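import Pool.Agent.H631.BG.Base

open MeasureTheory Filter Topology Set
open scoped ENNReal NNReal BigOperators

namespace BG631.JP5

section point
open Finset
variable {ι : Type} [Fintype ι] [DecidableEq ι]





omit [Fintype ι] in
/-- isolated clumps are disjoint -/
theorem Om_disjoint (x : ι → E) (C D : Finset ι) (hC : x ∈ Om C) (hD : x ∈ Om D) (i : ι) (hiC : i ∈ C) (hiD : i ∈ D) :
    C = D := by
  have key : ∀ C D : Finset ι, x ∈ Om C → x ∈ Om D → i ∈ C → i ∈ D → C ⊆ D := by
    intro C D hC hD hiC hiD j hj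
    by_contra hjD
    by_cases hij : i = j
    · subst hij; exact hjD hiD
    · have h1 := hC.1 i hiC j hj hij
      have h2 := hD.2 i hiD j hjD
      linarith
  exact Finset.Subset.antisymm (key C D hC hD hiC hiD) (key D C hD hC hiD hiC)

theorem dN_cast (x : ι → E) (i : ι) :
    (dN x i : ℝ) = ∑ j ∈ univ.erase i, (if dist (x i) (x j) ≤ 1 then (1:ℝ) else 0) := by
  classical
  rw [Finset.sum_boole]
  unfold dN
  congr!

theorem bN_cast (x : ι → E) (i : ι) :
    (bN x i : ℝ) = ∑ j ∈ univ.erase i, (if 1 < dist (x i) (x j) ∧ dist (x i) (x j) < 9 then (1:ℝ) else 0) := by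
  classical
  rw [Finset.sum_boole]
  unfold bN
  congr!

theorem cN_cast (x : ι → E) (i : ι) :
    (cN x i : ℝ) = ∑ j ∈ univ.erase i, (if dist (x i) (x j) < 1 / 2 then (1:ℝ) else 0) := by
  classical
  rw [Finset.sum_boole]
  unfold cN
  congr!

theorem dN_pos (x : ι → E) (i : ι) (h : 1 ≤ dN x i) : ∃ j, j ≠ i ∧ dist (x i) (x j) ≤ 1 := by
  classical
  unfold dN at h
  obtain ⟨j, hj⟩ := Finset.card_pos.mp h
  rw [Finset.mem_filter, Finset.mem_erase] at hj
  exact ⟨j, hj.1.1, hj.2⟩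

theorem bN_zero (x : ι → E) (i : ι) (h : ¬ 1 ≤ bN x i) (j : ι) (hj : j ≠ i) (h9 : dist (x i) (x j) < 9) :
    dist (x i) (x j) ≤ 1 := by
  classical
  unfold bN at h
  by_contra hlt
  push Not at hlt
  apply h
  apply Finset.card_pos.mpr
  refine ⟨j, ?_⟩
  rw [Finset.mem_filter, Finset.mem_erase]
  exact ⟨⟨hj, Finset.mem_univ j⟩, hlt, h9⟩

theorem V0_ge (K lam B : ℝ) (hl : 0 ≤ lam) (hK : 0 ≤ K) (hB : 64 * K ≤ B) (r : ℝ) :
    -lam * (if r ≤ 1 then (1:ℝ) else 0) + K * (if 1 < r ∧ r < 9 then (1:ℝ) else 0)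
      + K * (if r < 1 / 2 then (1:ℝ) else 0) ≤ V0 K lam B r := by
  unfold V0
  by_cases h1 : r < 1 / 2
  · have h2 : r ≤ 1 := by linarith
    have h3 : ¬ (1 < r ∧ r < 9) := by intro h; linarith [h.1]
    simp only [h1, h2, h3, if_true, if_false]
    linarith
  · by_cases h2 : r ≤ 1
    · have h3 : ¬ (1 < r ∧ r < 9) := by intro h; linarith [h.1]
      simp only [h1, h2, h3, if_true, if_false]
      linarith
    · by_cases h4 : r < 9
      · have h3 : (1 < r ∧ r < 9) := ⟨by linarith, h4⟩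
        simp only [h1, h2, h3, if_true, if_false]
        have hr : 0 < (r - 1) ^ 2 := by
          have : 0 < r - 1 := by linarith
          positivity
        have hr64 : (r - 1) ^ 2 ≤ 64 := by nlinarith
        have : K ≤ B / (r - 1) ^ 2 := by
          rw [le_div_iff₀ hr]
          nlinarith
        simp only [and_self, if_true]
        linarith
      · simp only [h1, h2, h4, if_false, and_false]
        linarith

theorem V0_nonneg (K lam B : ℝ) (hB : 0 ≤ B) (r : ℝ) (hr : 1 < r) : 0 ≤ V0 K lam B r := by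
  unfold V0
  have h1 : ¬ r < 1 / 2 := by linarith
  have h2 : ¬ r ≤ 1 := by linarith
  simp only [h1, h2, if_false]
  split_ifs
  · positivity
  · exact le_refl _

theorem V0_eq (K lam B : ℝ) (r : ℝ) (hr : r < 1) : V0 K lam B r = Vin K lam r := by
  unfold V0 Vin
  have h2 : r ≤ 1 := hr.le
  simp only [h2, if_true]

open Classical in
/-- away from the walls the potential energy dominates the interior energies of the isolated clumps -/
theorem pot_ge
    (cubes : ∀ (x : ι → E) (U : Finset ι),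
      (∀ i ∈ U, ∀ j, j ≠ i → dist (x i) (x j) ≤ 1 → j ∈ U) →
      (∀ i ∈ U, 1 ≤ dN x i → 1 ≤ bN x i ∨ 1 ≤ cN x i ∨ ∃ j, j ≠ i ∧ dist (x i) (x j) ≤ 1 ∧ 1 ≤ bN x j) →
      ∑ i ∈ U, dN x i ≤ 729 * 731 * ∑ i ∈ U, (bN x i + cN x i))
    (K lam B : ℝ) (hl : 0 ≤ lam) (hK : 729 * 731 * lam ≤ K) (hB : 64 * K ≤ B)
    (x : ι → E) (hx : ∀ i j, i ≠ j → dist (x i) (x j) ≠ 1) :
    ∑ C ∈ (univ : Finset (Finset ι)).filter (fun C => 2 ≤ C.card ∧ x ∈ Om C), potC K lam C x
      ≤ pot (V0 K lam B) x := by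
  have hK0 : 0 ≤ K := le_trans (by positivity) hK
  have hB0 : 0 ≤ B := le_trans (by positivity) hB
  set F : Finset (Finset ι) := (univ : Finset (Finset ι)).filter (fun C => 2 ≤ C.card ∧ x ∈ Om C) with hF
  have hFm : ∀ C, C ∈ F ↔ 2 ≤ C.card ∧ x ∈ Om C := by
    intro C
    rw [hF, Finset.mem_filter]
    exact ⟨fun h => h.2, fun h => ⟨Finset.mem_univ C, h⟩⟩
  set S : ι → ℝ := fun i => ∑ j ∈ univ.erase i, V0 K lam B (dist (x i) (x j)) with hS
  set G : Finset ι := F.biUnion id with hG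
  set U : Finset ι := univ \ G with hU
  have hGm : ∀ i, i ∈ G ↔ ∃ C ∈ F, i ∈ C := by
    intro i
    rw [hG, Finset.mem_biUnion]
    rfl
  have hUm : ∀ i, i ∈ U ↔ i ∉ G := by
    intro i
    rw [hU, Finset.mem_sdiff]
    exact ⟨fun h => h.2, fun h => ⟨Finset.mem_univ i, h⟩⟩
  -- the isolated part
  have hpart : ∀ C ∈ F, ∀ i ∈ C, ∑ j ∈ C.erase i, Vin K lam (dist (x i) (x j)) ≤ S i := by
    intro C hC i hi
    have hOm := ((hFm C).mp hC).2
    have hsub : C.erase i ⊆ univ.erase i := Finset.erase_subset_erase i (Finset.subset_univ C)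
    have h1 : ∑ j ∈ C.erase i, Vin K lam (dist (x i) (x j)) = ∑ j ∈ C.erase i, V0 K lam B (dist (x i) (x j)) := by
      apply Finset.sum_congr rfl
      intro j hj
      rw [Finset.mem_erase] at hj
      exact (V0_eq K lam B _ (hOm.1 i hi j hj.2 hj.1.symm)).symm
    rw [h1, hS]
    apply Finset.sum_le_sum_of_subset_of_nonneg hsub
    intro j hj hj'
    apply V0_nonneg K lam B hB0
    apply hOm.2 i hi j
    intro hjC
    apply hj'
    rw [Finset.mem_erase] at hj ⊢
    exact ⟨hj.1, hjC⟩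
  have hdisj : (F : Set (Finset ι)).PairwiseDisjoint id := by
    intro C hC D hD hCD
    rw [Function.onFun, Finset.disjoint_left]
    intro i hiC hiD
    exact hCD (Om_disjoint x C D ((hFm C).mp hC).2 ((hFm D).mp hD).2 i hiC hiD)
  have hGsum : ∑ C ∈ F, ∑ i ∈ C, S i = ∑ i ∈ G, S i := by
    rw [hG, Finset.sum_biUnion hdisj]
    rfl
  have hsplit : ∑ i, S i = ∑ i ∈ U, S i + ∑ i ∈ G, S i := by
    rw [hU]
    exact (Finset.sum_sdiff (Finset.subset_univ G)).symm
  have hlow : ∀ i, -lam * (dN x i : ℝ) + K * ((bN x i : ℝ) + (cN x i : ℝ)) ≤ S i := by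
    intro i
    rw [dN_cast, bN_cast, cN_cast, mul_add, Finset.mul_sum, Finset.mul_sum, Finset.mul_sum, ← add_assoc,
      ← Finset.sum_add_distrib, ← Finset.sum_add_distrib, hS]
    apply Finset.sum_le_sum
    intro j _
    exact V0_ge K lam B hl hK0 hB _
  have hc := cubes x U ?_ ?_
  · have hc' : (∑ i ∈ U, (dN x i : ℝ)) ≤ 729 * 731 * ∑ i ∈ U, ((bN x i : ℝ) + (cN x i : ℝ)) := by
      exact_mod_cast hc
    have hUnn : 0 ≤ ∑ i ∈ U, S i := by
      have h1 : ∑ i ∈ U, (-lam * (dN x i : ℝ) + K * ((bN x i : ℝ) + (cN x i : ℝ))) ≤ ∑ i ∈ U, S i :=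
        Finset.sum_le_sum (fun i _ => hlow i)
      rw [Finset.sum_add_distrib, ← Finset.mul_sum, ← Finset.mul_sum] at h1
      have h2 : 0 ≤ ∑ i ∈ U, ((bN x i : ℝ) + (cN x i : ℝ)) := Finset.sum_nonneg (fun i _ => by positivity)
      have h3 := mul_le_mul_of_nonneg_left hc' hl
      have h4 := mul_le_mul_of_nonneg_right hK h2
      have h5 : lam * (729 * 731 * ∑ i ∈ U, ((bN x i : ℝ) + (cN x i : ℝ))) =
        729 * 731 * lam * ∑ i ∈ U, ((bN x i : ℝ) + (cN x i : ℝ)) := by ring
      linarith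
    have hiso : ∑ C ∈ F, potC K lam C x ≤ (1 / 2) * ∑ i ∈ G, S i := by
      rw [← hGsum, Finset.mul_sum]
      apply Finset.sum_le_sum
      intro C hC
      unfold potC
      apply mul_le_mul_of_nonneg_left _ (by norm_num)
      exact Finset.sum_le_sum (fun i hi => hpart C hC i hi)
    have hpot : pot (V0 K lam B) x = (1 / 2) * ∑ i, S i := rfl
    rw [hpot, hsplit]
    linarith
  · intro i hi j hji hd
    rw [hUm] at hi ⊢
    intro hj
    obtain ⟨C, hC, hjC⟩ := (hGm j).mp hj
    have hiC : i ∉ C := fun h => hi ((hGm i).mpr ⟨C, hC, h⟩)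
    have := ((hFm C).mp hC).2.2 j hjC i hiC
    rw [dist_comm] at this
    linarith
  · intro i hi hdi
    by_contra hcon
    push Not at hcon
    obtain ⟨hb0, hc0, hnb⟩ := hcon
    rw [hUm] at hi
    apply hi
    rw [hGm]
    set N : Finset ι := univ.filter (fun j => dist (x i) (x j) ≤ 1) with hN
    have hNm : ∀ j, j ∈ N ↔ dist (x i) (x j) ≤ 1 := by
      intro j; rw [hN, Finset.mem_filter]; exact ⟨fun h => h.2, fun h => ⟨Finset.mem_univ j, h⟩⟩
    have hiN : i ∈ N := by rw [hNm, dist_self]; norm_num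
    have hbN : ∀ j ∈ N, ¬ 1 ≤ bN x j := by
      intro j hj
      by_cases hji : j = i
      · subst hji; omega
      · have := hnb j hji ((hNm j).mp hj)
        omega
    refine ⟨N, ?_, hiN⟩
    rw [hFm]
    refine ⟨?_, ?_, ?_⟩
    · obtain ⟨j, hji, hjd⟩ := dN_pos x i hdi
      have : ({i, j} : Finset ι) ⊆ N := by
        intro k hk
        rw [Finset.mem_insert, Finset.mem_singleton] at hk
        rcases hk with rfl | rfl
        · exact hiN
        · exact (hNm _).mpr hjd
      have h2 := Finset.card_le_card this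
      rw [Finset.card_pair hji.symm] at h2
      exact h2
    · intro j hj k hk hjk
      have h1 := (hNm j).mp hj
      have h2 := (hNm k).mp hk
      have h3 : dist (x j) (x k) ≤ dist (x j) (x i) + dist (x i) (x k) := dist_triangle _ _ _
      rw [dist_comm (x j) (x i)] at h3
      have h4 := bN_zero x j (hbN j hj) k hjk.symm (by linarith)
      exact lt_of_le_of_ne h4 (hx j k hjk)
    · intro j hj l hl'
      by_contra hle
      push Not at hle
      have h1 := (hNm j).mp hj
      have h3 : dist (x i) (x l) ≤ dist (x i) (x j) + dist (x j) (x l) := dist_triangle _ _ _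
      have hli : l ≠ i := by rintro rfl; exact hl' hiN
      have h4 := bN_zero x i (hbN i hiN) l hli (by linarith)
      exact hl' ((hNm l).mpr h4)

end point

end BG631.JP5
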