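import Pool.Agent.H631.BG.Base

open MeasureTheory Filter Topology Set
open scoped ENNReal NNReal BigOperators

namespace BG631.JS

section slice
variable {ι : Type} [Fintype ι] [DecidableEq ι]

/-- gluing of the two groups of particles -/
noncomputable def glue (C : Finset ι) (z : {i // i ∈ C} → E) (y : {i // i ∉ C} → E) : ι → E :=
  fun i => if h : i ∈ C then z ⟨i, h⟩ else y ⟨i, h⟩

omit [Fintype ι] in
theorem glue_mem (C : Finset ι) (z : {i // i ∈ C} → E) (y : {i // i ∉ C} → E) (i : ι)
    (h : i ∈ C) : glue C z y i = z ⟨i, h⟩ := dif_pos h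

omit [Fintype ι] in
theorem glue_coe (C : Finset ι) (z : {i // i ∈ C} → E) (y : {i // i ∉ C} → E)
    (i : {i // i ∈ C}) : glue C z y i.1 = z i := dif_pos i.2

omit [Fintype ι] in
theorem glue_not_mem (C : Finset ι) (z : {i // i ∈ C} → E) (y : {i // i ∉ C} → E) (i : ι)
    (h : i ∉ C) : glue C z y i = y ⟨i, h⟩ := dif_neg h

/-- linear part of the gluing -/
noncomputable def glueL (C : Finset ι) : ({i // i ∈ C} → E) →L[ℝ] (ι → E) :=
  ContinuousLinearMap.pi (fun i => if h : i ∈ C then
    ContinuousLinearMap.proj (R := ℝ) (φ := fun _ : {i // i ∈ C} => E) ⟨i, h⟩ else 0)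

omit [Fintype ι] in
theorem glueL_mem (C : Finset ι) (z : {i // i ∈ C} → E) (i : ι)
    (h : i ∈ C) : glueL C z i = z ⟨i, h⟩ := by
  simp [glueL, h]

omit [Fintype ι] in
theorem glueL_not_mem (C : Finset ι) (z : {i // i ∈ C} → E) (i : ι)
    (h : i ∉ C) : glueL C z i = 0 := by
  simp [glueL, h]

omit [Fintype ι] in
theorem glue_eq (C : Finset ι) (z : {i // i ∈ C} → E) (y : {i // i ∉ C} → E) :
    glue C z y = glueL C z + glue C 0 y := by
  funext i
  rw [Pi.add_apply]
  by_cases h : i ∈ C
  · rw [glue_mem C z y i h, glue_mem C 0 y i h, glueL_mem C z i h, Pi.zero_apply, add_zero]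
  · rw [glue_not_mem C z y i h, glue_not_mem C 0 y i h, glueL_not_mem C z i h, zero_add]

omit [Fintype ι] in
theorem glueL_single (C : Finset ι) (i : {i // i ∈ C}) (v : E) :
    glueL C (Pi.single i v) = Pi.single i.1 v := by
  funext j
  by_cases h : j ∈ C
  · rw [glueL_mem C _ j h]
    by_cases hij : j = i.1
    · subst hij
      have : (⟨i.1, h⟩ : {i // i ∈ C}) = i := rfl
      rw [this, Pi.single_eq_same, Pi.single_eq_same]
    · have h2 : (⟨j, h⟩ : {i // i ∈ C}) ≠ i := fun h3 => hij (congrArg Subtype.val h3)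
      rw [Pi.single_eq_of_ne h2, Pi.single_eq_of_ne hij]
  · rw [glueL_not_mem C _ j h]
    have hij : j ≠ i.1 := fun h3 => h (h3 ▸ i.2)
    rw [Pi.single_eq_of_ne hij]

theorem glue_hasFDerivAt (C : Finset ι) (z : {i // i ∈ C} → E) (y : {i // i ∉ C} → E) :
    HasFDerivAt (fun z => glue C z y) (glueL C) z := by
  have h1 : (fun z => glue C z y) = fun z => glueL C z + glue C 0 y := by
    funext z
    exact glue_eq C z y
  rw [h1]
  exact (glueL C).hasFDerivAt.add_const _

theorem glue_continuous (C : Finset ι) (y : {i // i ∉ C} → E) :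
    Continuous (fun z => glue C z y) := by
  have h1 : (fun z => glue C z y) = fun z => glueL C z + glue C 0 y := by
    funext z
    exact glue_eq C z y
  rw [h1]
  exact (glueL C).continuous.add continuous_const

theorem glue_lip (C : Finset ι) (y : {i // i ∉ C} → E) :
    LipschitzWith 1 (fun z : {i // i ∈ C} → E => glue C z y) := by
  apply LipschitzWith.of_dist_le_mul
  intro z z'
  rw [NNReal.coe_one, one_mul]
  rw [dist_pi_le_iff dist_nonneg]
  intro i
  by_cases h : i ∈ C
  · rw [glue_mem C z y i h, glue_mem C z' y i h]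
    exact dist_le_pi_dist z z' ⟨i, h⟩
  · rw [glue_not_mem C z y i h, glue_not_mem C z' y i h, dist_self]
    exact dist_nonneg

theorem norm_le_glue (C : Finset ι) (z : {i // i ∈ C} → E) (y : {i // i ∉ C} → E) :
    ‖z‖ ≤ ‖glue C z y‖ := by
  rw [pi_norm_le_iff_of_nonneg (norm_nonneg _)]
  intro i
  rw [← glue_coe C z y i]
  exact norm_le_pi_norm (glue C z y) i.1

/-- cutting a Lipschitz function to an open set on whose frontier it vanishes -/
theorem lipschitz_cut {X : Type*} [NormedAddCommGroup X] [NormedSpace ℝ X] (O : Set X)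
    (hO : IsOpen O) (L : ℝ≥0) (h : X → ℝ) (hL : LipschitzWith L h)
    (h0 : ∀ w ∈ frontier O, h w = 0) : LipschitzWith L (O.indicator h) := by
  classical
  have key : ∀ x ∈ O, ∀ y, y ∉ O → |h x| ≤ L * dist x y := by
    intro x hx y hy
    have h1 : ∃ w ∈ segment ℝ x y, w ∈ frontier O := by
      by_contra hno
      push Not at hno
      have hpre : IsPreconnected (segment ℝ x y) := (convex_segment x y).isPreconnected
      have hsub : segment ℝ x y ⊆ O ∪ (closure O)ᶜ := by
        intro w hw
        by_cases hwO : w ∈ O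
        · exact Or.inl hwO
        · right
          intro hcl
          apply hno w hw
          rw [hO.frontier_eq]
          exact ⟨hcl, hwO⟩
      have hyc : y ∈ (closure O)ᶜ := (hsub (right_mem_segment ℝ x y)).resolve_left hy
      obtain ⟨w, -, hw1, hw2⟩ := hpre O (closure O)ᶜ hO isClosed_closure.isOpen_compl hsub
        ⟨x, left_mem_segment ℝ x y, hx⟩ ⟨y, right_mem_segment ℝ x y, hyc⟩
      exact hw2 (subset_closure hw1)
    obtain ⟨w, hw, hwf⟩ := h1
    have h2 := hL.dist_le_mul x w
    rw [h0 w hwf, Real.dist_eq, sub_zero] at h2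
    have h3 := dist_add_dist_of_mem_segment hw
    have h4 : dist x w ≤ dist x y := by
      have := dist_nonneg (x := w) (y := y)
      linarith
    exact h2.trans (mul_le_mul_of_nonneg_left h4 L.2)
  apply LipschitzWith.of_dist_le_mul
  intro x y
  by_cases hx : x ∈ O
  · by_cases hy : y ∈ O
    · rw [indicator_of_mem hx, indicator_of_mem hy]
      exact hL.dist_le_mul x y
    · rw [indicator_of_mem hx, indicator_of_notMem hy, Real.dist_eq, sub_zero]
      exact key x hx y hy
  · by_cases hy : y ∈ O
    · rw [indicator_of_notMem hx, indicator_of_mem hy, Real.dist_eq, zero_sub, abs_neg,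
        dist_comm]
      exact key y hy x hx
    · rw [indicator_of_notMem hx, indicator_of_notMem hy, dist_self]
      exact mul_nonneg L.2 dist_nonneg

theorem Om_isOpen (C : Finset ι) : IsOpen (Om C) := by
  have h1 : Om C = (⋂ i : ι, ⋂ j : ι, {x : ι → E | i ∈ C → j ∈ C → i ≠ j → dist (x i) (x j) < 1}) ∩
      (⋂ i : ι, ⋂ j : ι, {x : ι → E | i ∈ C → j ∉ C → 1 < dist (x i) (x j)}) := by
    ext x
    simp only [Om, mem_inter_iff, mem_iInter, mem_ofPred_eq]
    constructor
    · rintro ⟨h1, h2⟩
      exact ⟨fun i j hi hj hij => h1 i hi j hj hij, fun i j hi hj => h2 i hi j hj⟩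
    · rintro ⟨h1, h2⟩
      exact ⟨fun i hi j hj hij => h1 i j hi hj hij, fun i hi j hj => h2 i j hi hj⟩
  rw [h1]
  apply IsOpen.inter
  · apply isOpen_iInter_of_finite
    intro i
    apply isOpen_iInter_of_finite
    intro j
    by_cases h : i ∈ C ∧ j ∈ C ∧ i ≠ j
    · have : {x : ι → E | i ∈ C → j ∈ C → i ≠ j → dist (x i) (x j) < 1}
          = {x : ι → E | dist (x i) (x j) < 1} := by
        ext x
        simp only [mem_ofPred_eq]
        exact ⟨fun h' => h' h.1 h.2.1 h.2.2, fun h' _ _ _ => h'⟩
      rw [this]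
      exact isOpen_lt (by fun_prop) continuous_const
    · have : {x : ι → E | i ∈ C → j ∈ C → i ≠ j → dist (x i) (x j) < 1} = univ := by
        ext x
        simp only [mem_ofPred_eq, mem_univ, iff_true]
        exact fun h1 h2 h3 => absurd ⟨h1, h2, h3⟩ h
      rw [this]
      exact isOpen_univ
  · apply isOpen_iInter_of_finite
    intro i
    apply isOpen_iInter_of_finite
    intro j
    by_cases h : i ∈ C ∧ j ∉ C
    · have : {x : ι → E | i ∈ C → j ∉ C → 1 < dist (x i) (x j)}
          = {x : ι → E | 1 < dist (x i) (x j)} := by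
        ext x
        simp only [mem_ofPred_eq]
        exact ⟨fun h' => h' h.1 h.2, fun h' _ _ => h'⟩
      rw [this]
      exact isOpen_lt continuous_const (by fun_prop)
    · have : {x : ι → E | i ∈ C → j ∉ C → 1 < dist (x i) (x j)} = univ := by
        ext x
        simp only [mem_ofPred_eq, mem_univ, iff_true]
        exact fun h1 h2 => absurd ⟨h1, h2⟩ h
      rw [this]
      exact isOpen_univ

theorem Om_closure (C : Finset ι) (x : ι → E) (hx : x ∈ closure (Om C)) :
    (∀ i ∈ C, ∀ j ∈ C, i ≠ j → dist (x i) (x j) ≤ 1) ∧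
      (∀ i ∈ C, ∀ j, j ∉ C → 1 ≤ dist (x i) (x j)) := by
  constructor
  · intro i hi j hj hij
    have hcl : IsClosed {x : ι → E | dist (x i) (x j) ≤ 1} :=
      isClosed_le (by fun_prop) continuous_const
    have hsub : Om C ⊆ {x : ι → E | dist (x i) (x j) ≤ 1} := fun x hx => (hx.1 i hi j hj hij).le
    exact (closure_minimal hsub hcl) hx
  · intro i hi j hj
    have hcl : IsClosed {x : ι → E | 1 ≤ dist (x i) (x j)} :=
      isClosed_le continuous_const (by fun_prop)
    have hsub : Om C ⊆ {x : ι → E | 1 ≤ dist (x i) (x j)} := fun x hx => (hx.2 i hi j hj).le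
    exact (closure_minimal hsub hcl) hx

/-- frontier points of `Om C` have a pair at distance one -/
theorem Om_frontier (C : Finset ι) (x : ι → E) (hx : x ∈ closure (Om C)) (hx2 : x ∉ Om C) :
    ∃ i j, i ≠ j ∧ dist (x i) (x j) = 1 := by
  by_contra hno
  push Not at hno
  apply hx2
  obtain ⟨h1, h2⟩ := Om_closure C x hx
  refine ⟨fun i hi j hj hij => lt_of_le_of_ne (h1 i hi j hj hij) (hno i j hij),
    fun i hi j hj => lt_of_le_of_ne (h2 i hi j hj) (Ne.symm (hno i j ?_))⟩
  intro h
  exact hj (h ▸ hi)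

omit [Fintype ι] in
theorem glue_symm (C : Finset ι) (p : ({i // i ∈ C} → E) × ({i // i ∉ C} → E)) :
    (MeasurableEquiv.piEquivPiSubtypeProd (fun _ : ι => E) (fun i => i ∈ C)).symm p
      = glue C p.1 p.2 := rfl

theorem glue_mp (C : Finset ι) [inst : Fintype {i // i ∈ C}] :
    MeasurePreserving (fun p : ({i // i ∈ C} → E) × ({i // i ∉ C} → E) => glue C p.1 p.2) := by
  obtain rfl : inst = Subtype.fintype _ := Subsingleton.elim _ _
  exact (volume_preserving_piEquivPiSubtypeProd (fun _ : ι => E) (fun i => i ∈ C)).symm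

omit [Fintype ι] in
theorem glue_me (C : Finset ι) :
    MeasurableEmbedding (fun p : ({i // i ∈ C} → E) × ({i // i ∉ C} → E) => glue C p.1 p.2) :=
  (MeasurableEquiv.piEquivPiSubtypeProd (fun _ : ι => E)
    (fun i => i ∈ C)).symm.measurableEmbedding

/-- on the region where `C` is an isolated clump, the energy of the clump is nonnegative -/
theorem slice (μ K lam : ℝ) (hμ : 0 ≤ μ) (C : Finset ι) (hP : PosLump μ K lam {i // i ∈ C})
    (null_wall : ∀ (i j : ι), i ≠ j → ∀ r : ℝ, 0 < r → volume {x : ι → E | dist (x i) (x j) = r} = 0)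
    (ψ : (ι → E) → ℝ) (hlip : ∃ C : ℝ≥0, LipschitzWith C ψ) (hcpt : HasCompactSupport ψ)
    (hw : ∀ x i j, i ≠ j → dist (x i) (x j) = 1 → ψ x = 0) :
    0 ≤ ∫ x in Om C, (μ * ∑ i ∈ C, ∑ k, ‖pd ψ x i k‖ ^ 2 + potC K lam C x * ‖ψ x‖ ^ 2) := by
  classical
  set G : (ι → E) → ℝ := (Om C).indicator
    (fun x => μ * ∑ i ∈ C, ∑ k, ‖pd ψ x i k‖ ^ 2 + potC K lam C x * ‖ψ x‖ ^ 2) with hG
  have hOm : IsOpen (Om C) := Om_isOpen C
  rw [← integral_indicator hOm.measurableSet, ← hG]
  by_cases hInt : Integrable G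
  swap
  · rw [integral_undef hInt]
  have hes := glue_mp C
  have h1 : ∫ x, G x = ∫ p : ({i // i ∈ C} → E) × ({i // i ∉ C} → E), G (glue C p.1 p.2) := by
    rw [← hes.integral_comp (glue_me C) G]
  have hInt2 : Integrable (fun p : ({i // i ∈ C} → E) × ({i // i ∉ C} → E) =>
      G (glue C p.1 p.2)) := by
    have := (hes.integrable_comp_emb (glue_me C)).2 hInt
    exact this
  rw [h1]
  have h2 : ∫ p : ({i // i ∈ C} → E) × ({i // i ∉ C} → E), G (glue C p.1 p.2)
      = ∫ y : {i // i ∉ C} → E, ∫ z : {i // i ∈ C} → E, G (glue C z y) :=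
    integral_prod_symm (fun p : ({i // i ∈ C} → E) × ({i // i ∉ C} → E) =>
      G (glue C p.1 p.2)) hInt2
  rw [h2]
  obtain ⟨L, hL⟩ := hlip
  have hN : ∀ᵐ x : ι → E, (∀ i j, i ≠ j → dist (x i) (x j) ≠ 1) ∧ DifferentiableAt ℝ ψ x := by
    have h3 : ∀ᵐ x : ι → E, ∀ i j, i ≠ j → dist (x i) (x j) ≠ 1 := by
      rw [ae_all_iff]
      intro i
      rw [ae_all_iff]
      intro j
      by_cases hij : i = j
      · exact Eventually.of_forall (fun x h => absurd hij h)
      · have h4 := null_wall i j hij 1 one_pos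
        have h5 : ∀ᵐ x : ι → E, dist (x i) (x j) ≠ 1 := by
          rw [ae_iff]
          simpa using h4
        filter_upwards [h5] with x hx _
        exact hx
    filter_upwards [h3, hL.ae_differentiableAt] with x hx1 hx2
    exact ⟨hx1, hx2⟩
  have hN2 : ∀ᵐ p : ({i // i ∈ C} → E) × ({i // i ∉ C} → E),
      (∀ i j, i ≠ j → dist (glue C p.1 p.2 i) (glue C p.1 p.2 j) ≠ 1) ∧
        DifferentiableAt ℝ ψ (glue C p.1 p.2) :=
    hes.quasiMeasurePreserving.ae hN
  have hN3 : ∀ᵐ q : ({i // i ∉ C} → E) × ({i // i ∈ C} → E),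
      (∀ i j, i ≠ j → dist (glue C q.2 q.1 i) (glue C q.2 q.1 j) ≠ 1) ∧
        DifferentiableAt ℝ ψ (glue C q.2 q.1) :=
    (Measure.measurePreserving_swap (μ := (volume : Measure ({i // i ∉ C} → E)))
      (ν := (volume : Measure ({i // i ∈ C} → E)))).quasiMeasurePreserving.ae hN2
  have hN4 : ∀ᵐ y : {i // i ∉ C} → E, ∀ᵐ z : {i // i ∈ C} → E,
      (∀ i j, i ≠ j → dist (glue C z y i) (glue C z y j) ≠ 1) ∧
        DifferentiableAt ℝ ψ (glue C z y) :=
    Measure.ae_ae_of_ae_prod hN3
  apply integral_nonneg_of_ae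
  filter_upwards [hN4] with y hy
  set O : Set ({i // i ∈ C} → E) := {z | glue C z y ∈ Om C} with hOdef
  have hO : IsOpen O := hOm.preimage (glue_continuous C y)
  set g : ({i // i ∈ C} → E) → ℝ := O.indicator (fun z => ψ (glue C z y)) with hg
  have hOcl : ∀ w ∈ closure O, glue C w y ∈ closure (Om C) := by
    intro w hw
    exact (glue_continuous C y).closure_preimage_subset (Om C) hw
  have hgL : LipschitzWith L g := by
    rw [hg]
    apply lipschitz_cut O hO L
    · have := hL.comp (glue_lip C y)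
      rw [mul_one] at this
      exact this
    · intro w hwf
      rw [hO.frontier_eq] at hwf
      obtain ⟨i, j, hij, hd⟩ := Om_frontier C (glue C w y) (hOcl w hwf.1) hwf.2
      exact hw _ i j hij hd
  have hgc : HasCompactSupport g := by
    obtain ⟨R, hR⟩ := hcpt.isCompact.isBounded.exists_norm_le
    apply HasCompactSupport.intro (isCompact_closedBall (0 : {i // i ∈ C} → E) R)
    intro z hz
    rw [hg]
    by_cases hzO : z ∈ O
    · rw [indicator_of_mem hzO]
      by_contra hne
      apply hz
      rw [mem_closedBall_zero_iff]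
      exact (norm_le_glue C z y).trans (hR _ (subset_tsupport ψ hne))
    · exact indicator_of_notMem hzO _
  have hgcl : ∀ z, g z ≠ 0 → clump z := by
    intro z hz
    have hzO : z ∈ O := by
      by_contra hzO
      exact hz (indicator_of_notMem hzO _)
    intro i j hij
    have := hzO.1 i.1 i.2 j.1 j.2 (fun h => hij (Subtype.ext h))
    rwa [glue_coe, glue_coe] at this
  have hE := hP g ⟨L, hgL⟩ hgc hgcl
  have hEq : ∫ z : {i // i ∈ C} → E, G (glue C z y) = energy μ (Vin K lam) g := by
    unfold energy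
    apply integral_congr_ae
    filter_upwards [hy] with z hz
    obtain ⟨hz1, hz2⟩ := hz
    by_cases hzO : z ∈ O
    · have hG1 : G (glue C z y) = μ * ∑ i ∈ C, ∑ k, ‖pd ψ (glue C z y) i k‖ ^ 2
          + potC K lam C (glue C z y) * ‖ψ (glue C z y)‖ ^ 2 :=
        indicator_of_mem (show glue C z y ∈ Om C from hzO) _
      have hgz : g z = ψ (glue C z y) := indicator_of_mem hzO _
      have hev : g =ᶠ[𝓝 z] fun z => ψ (glue C z y) := by
        filter_upwards [hO.mem_nhds hzO] with w hw
        exact indicator_of_mem hw _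
      have hder : HasFDerivAt (fun z => ψ (glue C z y))
          ((fderiv ℝ ψ (glue C z y)).comp (glueL C)) z :=
        hz2.hasFDerivAt.comp z (glue_hasFDerivAt C z y)
      have hfd : fderiv ℝ g z = (fderiv ℝ ψ (glue C z y)).comp (glueL C) := by
        rw [hev.fderiv_eq, hder.fderiv]
      have hpd : ∀ (i : {i // i ∈ C}) (k : Fin 3), pd g z i k = pd ψ (glue C z y) i.1 k := by
        intro i k
        unfold pd
        rw [hfd, ContinuousLinearMap.comp_apply, glueL_single]
      have hkin : kin g z = ∑ i ∈ C, ∑ k, ‖pd ψ (glue C z y) i k‖ ^ 2 := by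
        unfold kin
        rw [← Finset.sum_coe_sort C (fun i => ∑ k, ‖pd ψ (glue C z y) i k‖ ^ 2)]
        apply Finset.sum_congr rfl
        intro i _
        apply Finset.sum_congr rfl
        intro k _
        rw [hpd]
      have hpot : pot (Vin K lam) z = potC K lam C (glue C z y) := by
        unfold pot potC
        congr 1
        rw [← Finset.sum_coe_sort C (fun i => ∑ j ∈ C.erase i,
          Vin K lam (dist (glue C z y i) (glue C z y j)))]
        apply Finset.sum_congr rfl
        intro i _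
        have h5 : ∑ j ∈ C.erase i.1, Vin K lam (dist (glue C z y i.1) (glue C z y j))
            = ∑ j ∈ (Finset.univ.erase i : Finset {i // i ∈ C}).image Subtype.val,
              Vin K lam (dist (glue C z y i.1) (glue C z y j)) := by
          congr 1
          ext j
          simp only [Finset.mem_erase, Finset.mem_image, Finset.mem_univ, and_true]
          constructor
          · rintro ⟨hj1, hj2⟩
            exact ⟨⟨j, hj2⟩, fun h => hj1 (congrArg Subtype.val h), rfl⟩
          · rintro ⟨j', hj1, rfl⟩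
            exact ⟨fun h => hj1 (Subtype.ext h), j'.2⟩
        rw [h5, Finset.sum_image (fun a _ b _ h => Subtype.ext h)]
        apply Finset.sum_congr rfl
        intro j _
        rw [glue_coe, glue_coe]
      rw [hG1, hgz, hkin, hpot]
    · have hG1 : G (glue C z y) = 0 :=
        indicator_of_notMem (show glue C z y ∉ Om C from hzO) _
      have hgz : g z = 0 := indicator_of_notMem hzO _
      have hncl : z ∉ closure O := by
        intro hcl
        obtain ⟨i, j, hij, hd⟩ := Om_frontier C (glue C z y) (hOcl z hcl) hzO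
        exact hz1 i j hij hd
      have hev : g =ᶠ[𝓝 z] fun _ => (0 : ℝ) := by
        filter_upwards [isClosed_closure.isOpen_compl.mem_nhds hncl] with w hw
        exact indicator_of_notMem (fun h => hw (subset_closure h)) _
      have hfd : fderiv ℝ g z = 0 := by
        rw [hev.fderiv_eq]
        exact fderiv_const_apply _
      have hkin : kin g z = 0 := by
        unfold kin pd
        rw [hfd]
        simp
      rw [hG1, hgz, hkin]
      simp
  change 0 ≤ ∫ z : {i // i ∈ C} → E, G (glue C z y)
  rw [hEq]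
  exact hE

end slice

end BG631.JS
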