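import Pool.Agent.H631.BG.Base

open MeasureTheory Filter Topology Set
open scoped ENNReal NNReal BigOperators

namespace BG631.JW1

open scoped Pointwise in
theorem wall_vol (S S' : Set E) (R : ℝ) (hR : 0 < R) (h : ∀ z, z ∈ S' ↔ R⁻¹ • z ∈ S) :
    volume S' = ENNReal.ofReal (R ^ 3) * volume S := by
  have h1 : S' = R • S := by
    ext z
    rw [Set.mem_smul_set_iff_inv_smul_mem₀ hR.ne']
    exact h z
  rw [h1, Measure.addHaar_smul]
  congr 2
  rw [abs_of_nonneg (by positivity)]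
  simp

/-- inverse-square singularity at the unit sphere is not integrable near any of its points -/
theorem wall_one (z0 : E) (hz : ‖z0‖ = 1) (δ : ℝ) (hδ : 0 < δ) :
    ∫⁻ z in {z : E | ‖z - z0‖ < δ ∧ 1 < ‖z‖ ∧ ‖z‖ < 2}, ENNReal.ofReal (1 / (‖z‖ - 1) ^ 2) = ∞ := by
  set I := ∫⁻ z in {z : E | ‖z - z0‖ < δ ∧ 1 < ‖z‖ ∧ ‖z‖ < 2}, ENNReal.ofReal (1 / (‖z‖ - 1) ^ 2)
    with hI
  set Γ : Set E := {z | ‖z - ‖z‖ • z0‖ < δ / 2 * ‖z‖} with hΓ
  have hΓo : IsOpen Γ := isOpen_lt (by fun_prop) (by fun_prop)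
  set S : ℝ → Set E := fun R => Γ ∩ Metric.ball 0 R with hS
  have hSo : ∀ R, IsOpen (S R) := fun R => hΓo.inter Metric.isOpen_ball
  have hsc : ∀ R : ℝ, 0 < R → ∀ z, z ∈ S R ↔ R⁻¹ • z ∈ S 1 := by
    intro R hR z
    have hRi : 0 < R⁻¹ := inv_pos.mpr hR
    have e1 : ‖R⁻¹ • z‖ = R⁻¹ * ‖z‖ := by rw [norm_smul, Real.norm_of_nonneg hRi.le]
    have e2 : R⁻¹ • z - ‖R⁻¹ • z‖ • z0 = R⁻¹ • (z - ‖z‖ • z0) := by
      rw [e1, smul_sub, smul_smul]
    have e3 : ‖R⁻¹ • z - ‖R⁻¹ • z‖ • z0‖ = R⁻¹ * ‖z - ‖z‖ • z0‖ := by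
      rw [e2, norm_smul, Real.norm_of_nonneg hRi.le]
    simp only [hS, hΓ, Set.mem_inter_iff, Set.mem_ofPred_eq, mem_ball_zero_iff]
    rw [e3, e1]
    constructor
    · rintro ⟨h1, h2⟩
      refine ⟨?_, ?_⟩
      · have := mul_lt_mul_of_pos_left h1 hRi
        linarith
      · rw [inv_mul_lt_iff₀ hR, mul_one]; exact h2
    · rintro ⟨h1, h2⟩
      refine ⟨?_, ?_⟩
      · have : R⁻¹ * ‖z - ‖z‖ • z0‖ < R⁻¹ * (δ / 2 * ‖z‖) := by linarith
        exact lt_of_mul_lt_mul_left this hRi.le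
      · rw [inv_mul_lt_iff₀ hR, mul_one] at h2; exact h2
  set c := volume (S 1) with hc
  have hcpos : 0 < c := by
    refine (hSo 1).measure_pos volume ?_
    refine ⟨(1/2 : ℝ) • z0, ?_, ?_⟩
    · have e1 : ‖(1/2 : ℝ) • z0‖ = 1/2 := by rw [norm_smul, hz]; norm_num
      show ‖(1/2 : ℝ) • z0 - ‖(1/2 : ℝ) • z0‖ • z0‖ < δ / 2 * ‖(1/2 : ℝ) • z0‖
      rw [e1, sub_self, norm_zero]
      positivity
    · rw [mem_ball_zero_iff, norm_smul, hz]; norm_num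
  have hcfin : c ≠ ∞ := by
    apply ne_top_of_le_ne_top _ (measure_mono (Set.inter_subset_right : S 1 ⊆ Metric.ball 0 1))
    exact measure_ball_lt_top.ne
  have hvol : ∀ R : ℝ, 0 < R → volume (S R) = ENNReal.ofReal (R ^ 3) * c := by
    intro R hR
    exact wall_vol (S 1) (S R) R hR (hsc R hR)
  set c' := c.toReal with hc'
  have hc'0 : 0 < c' := ENNReal.toReal_pos hcpos.ne' hcfin
  have hcc : c = ENNReal.ofReal c' := (ENNReal.ofReal_toReal hcfin).symm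
  have hA : ∀ t : ℝ, 0 < t → ENNReal.ofReal (3 * t * c') ≤ volume (Γ ∩ {z | 1 < ‖z‖ ∧ ‖z‖ < 1 + t}) := by
    intro t ht
    have h1 : S (1 + t) ⊆ (Γ ∩ {z | 1 < ‖z‖ ∧ ‖z‖ < 1 + t}) ∪ (S 1 ∪ Metric.sphere 0 1) := by
      rintro z ⟨hz1, hz2⟩
      rw [mem_ball_zero_iff] at hz2
      rcases lt_trichotomy ‖z‖ 1 with h | h | h
      · exact Or.inr (Or.inl ⟨hz1, by rw [mem_ball_zero_iff]; exact h⟩)
      · exact Or.inr (Or.inr (by rw [mem_sphere_zero_iff_norm]; exact h))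
      · exact Or.inl ⟨hz1, h, hz2⟩
    have h2 : volume (S (1 + t)) ≤ volume (Γ ∩ {z | 1 < ‖z‖ ∧ ‖z‖ < 1 + t}) + c := by
      refine (measure_mono h1).trans ((measure_union_le _ _).trans ?_)
      gcongr
      refine (measure_union_le _ _).trans ?_
      rw [Measure.addHaar_sphere, add_zero]
    rw [hvol _ (by linarith), hcc, ← ENNReal.ofReal_mul (by positivity)] at h2
    have h3 : ENNReal.ofReal (3 * t * c') + ENNReal.ofReal c' ≤
        volume (Γ ∩ {z | 1 < ‖z‖ ∧ ‖z‖ < 1 + t}) + ENNReal.ofReal c' := by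
      refine le_trans ?_ h2
      rw [← ENNReal.ofReal_add (by positivity) hc'0.le]
      apply ENNReal.ofReal_le_ofReal
      have : 3 * t + 1 ≤ (1 + t) ^ 3 := by nlinarith [sq_nonneg t, pow_pos ht 3, mul_pos ht ht]
      nlinarith
    exact (ENNReal.add_le_add_iff_right ENNReal.ofReal_ne_top).mp h3
  have hbound : ∀ t : ℝ, 0 < t → t ≤ δ / (2 + δ) → ENNReal.ofReal (3 * c' / t) ≤ I := by
    intro t ht htδ
    have ht1 : t < 1 := by
      refine lt_of_le_of_lt htδ ?_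
      rw [div_lt_one (by linarith)]; linarith
    have ht2 : t * (2 + δ) ≤ δ := by
      rwa [le_div_iff₀ (by linarith)] at htδ
    have hsub : (Γ ∩ {z | 1 < ‖z‖ ∧ ‖z‖ < 1 + t}) ⊆ {z : E | ‖z - z0‖ < δ ∧ 1 < ‖z‖ ∧ ‖z‖ < 2} := by
      rintro z ⟨hz1, hz2, hz3⟩
      refine ⟨?_, hz2, by linarith⟩
      have hz1' : ‖z - ‖z‖ • z0‖ < δ / 2 * ‖z‖ := hz1
      have e1 : z - z0 = (z - ‖z‖ • z0) + (‖z‖ - 1) • z0 := by module
      have e2 : ‖(‖z‖ - 1) • z0‖ = ‖z‖ - 1 := by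
        rw [norm_smul, hz, mul_one, Real.norm_of_nonneg (by linarith)]
      calc ‖z - z0‖ = ‖(z - ‖z‖ • z0) + (‖z‖ - 1) • z0‖ := by rw [← e1]
        _ ≤ ‖z - ‖z‖ • z0‖ + ‖(‖z‖ - 1) • z0‖ := norm_add_le _ _
        _ < δ / 2 * ‖z‖ + (‖z‖ - 1) := by rw [e2]; linarith
        _ ≤ δ := by nlinarith
    have hmeas : MeasurableSet (Γ ∩ {z : E | 1 < ‖z‖ ∧ ‖z‖ < 1 + t}) := by
      apply hΓo.measurableSet.inter
      exact ((isOpen_lt continuous_const continuous_norm).inter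
        (isOpen_lt continuous_norm continuous_const)).measurableSet
    calc ENNReal.ofReal (3 * c' / t) = ENNReal.ofReal (1 / t ^ 2) * ENNReal.ofReal (3 * t * c') := by
          rw [← ENNReal.ofReal_mul (by positivity)]
          congr 1
          field_simp
      _ ≤ ENNReal.ofReal (1 / t ^ 2) * volume (Γ ∩ {z : E | 1 < ‖z‖ ∧ ‖z‖ < 1 + t}) := by
          gcongr; exact hA t ht
      _ = ∫⁻ z in (Γ ∩ {z : E | 1 < ‖z‖ ∧ ‖z‖ < 1 + t}), ENNReal.ofReal (1 / t ^ 2) := by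
          rw [setLIntegral_const]
      _ ≤ ∫⁻ z in (Γ ∩ {z : E | 1 < ‖z‖ ∧ ‖z‖ < 1 + t}), ENNReal.ofReal (1 / (‖z‖ - 1) ^ 2) := by
          apply setLIntegral_mono' hmeas
          rintro z ⟨-, hz2, hz3⟩
          apply ENNReal.ofReal_le_ofReal
          have h1 : 0 < ‖z‖ - 1 := by linarith
          apply one_div_le_one_div_of_le (by positivity)
          apply pow_le_pow_left₀ h1.le
          linarith
      _ ≤ I := lintegral_mono_set hsub
  by_contra hcon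
  have hIr : I = ENNReal.ofReal I.toReal := (ENNReal.ofReal_toReal hcon).symm
  have hI0 : 0 ≤ I.toReal := ENNReal.toReal_nonneg
  set t := min (δ / (2 + δ)) (c' / (I.toReal + 1)) with ht
  have ht0 : 0 < t := lt_min (by positivity) (by positivity)
  have h1 := hbound t ht0 (min_le_left _ _)
  rw [hIr] at h1
  have h2 := (ENNReal.ofReal_le_ofReal_iff hI0).mp h1
  have h3 : t ≤ c' / (I.toReal + 1) := min_le_right _ _
  rw [le_div_iff₀ (by positivity)] at h3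
  rw [div_le_iff₀ ht0] at h2
  nlinarith

end BG631.JW1
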