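import Pool.Agent.H631.BG.Base

open MeasureTheory Filter Topology Set
open scoped ENNReal NNReal BigOperators

namespace BG631.JW2

/-- Fubini: infinite slices over an open box of the other coordinates -/
lemma fub_top {ι : Type} [Fintype ι] [DecidableEq ι] (i : ι) (c : ι → E) (r : ℝ) (hr : 0 < r)
    (f : (ι → E) → ℝ≥0∞) (hf : Measurable f)
    (h : ∀ x : ι → E, (∀ k, k ≠ i → dist (x k) (c k) < r) →
      ∫⁻ a, f (Function.update x i a) = ∞) : ∫⁻ x, f x = ∞ := by
  classical
  let H : (ι → E) → ℝ≥0∞ := (Metric.ball c r).indicator (fun _ => ∞)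
  have hH : Measurable H := measurable_const.indicator Metric.isOpen_ball.measurableSet
  have h1 : ∫⁻ x, H x = ∞ := by
    rw [lintegral_indicator Metric.isOpen_ball.measurableSet, lintegral_const]
    rw [Measure.restrict_apply_univ]
    exact ENNReal.top_mul (Metric.measure_ball_pos volume c hr).ne'
  have h2 : ∫⁻ x, H x ≤ ∫⁻ x, f x := by
    refine lintegral_le_of_lmarginal_le (μ := fun _ : ι => (volume : Measure E)) {i} hH hf ?_
    rw [lmarginal_singleton, lmarginal_singleton]
    intro x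
    change ∫⁻ a, H (Function.update x i a) ≤ ∫⁻ a, f (Function.update x i a)
    by_cases hx : ∀ k, k ≠ i → dist (x k) (c k) < r
    · rw [h x hx]; exact le_top
    · have : ∀ a, H (Function.update x i a) = 0 := by
        intro a
        apply Set.indicator_of_notMem
        intro hm
        apply hx
        intro k hk
        rw [Metric.mem_ball, dist_pi_lt_iff hr] at hm
        have := hm k
        rwa [Function.update_of_ne hk] at this
      simp [this]
  rw [h1] at h2
  exact top_le_iff.1 h2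

lemma V0_ge {K lam B : ℝ} (hK : 0 ≤ K) (hl : 0 ≤ lam) (hB : 0 < B) (r : ℝ) : -lam ≤ V0 K lam B r := by
  unfold V0
  split_ifs
  · linarith
  · linarith
  · have : 0 ≤ B / (r - 1) ^ 2 := by positivity
    linarith
  · linarith

lemma pot_ge {ι : Type} [Fintype ι] [DecidableEq ι] {K lam B : ℝ} (hK : 0 ≤ K) (hl : 0 ≤ lam)
    (hB : 0 < B) (y : ι → E) (i j : ι) (hij : i ≠ j) :
    V0 K lam B (dist (y i) (y j)) - lam * (Fintype.card ι) ^ 2 ≤ pot (V0 K lam B) y := by
  unfold pot
  set g : ι → ι → ℝ := fun p q => V0 K lam B (dist (y p) (y q)) + lam with hg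
  have hg0 : ∀ p q, 0 ≤ g p q := fun p q => by
    have := V0_ge hK hl hB (dist (y p) (y q))
    simp only [hg]; linarith
  have hin : ∀ p, 0 ≤ ∑ q ∈ Finset.univ.erase p, g p q := fun p =>
    Finset.sum_nonneg fun q _ => hg0 p q
  have h1 : g i j + g j i ≤ ∑ p, ∑ q ∈ Finset.univ.erase p, g p q := by
    have h2 : g i j ≤ ∑ q ∈ Finset.univ.erase i, g i q :=
      Finset.single_le_sum (f := fun q => g i q) (fun q _ => hg0 i q)
        (Finset.mem_erase.2 ⟨hij.symm, Finset.mem_univ j⟩)
    have h3 : g j i ≤ ∑ q ∈ Finset.univ.erase j, g j q :=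
      Finset.single_le_sum (f := fun q => g j q) (fun q _ => hg0 j q)
        (Finset.mem_erase.2 ⟨hij, Finset.mem_univ i⟩)
    have h4 := Finset.add_le_sum (s := Finset.univ) (f := fun p => ∑ q ∈ Finset.univ.erase p, g p q)
      (fun p _ => hin p) (Finset.mem_univ i) (Finset.mem_univ j) hij
    linarith
  have h5 : ∑ p, ∑ q ∈ Finset.univ.erase p, g p q =
      (∑ p, ∑ q ∈ Finset.univ.erase p, V0 K lam B (dist (y p) (y q))) +
        ∑ p : ι, ∑ q ∈ Finset.univ.erase p, lam := by
    simp only [hg, Finset.sum_add_distrib]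
  have h6 : ∑ p : ι, ∑ q ∈ Finset.univ.erase p, lam ≤ lam * (Fintype.card ι) ^ 2 := by
    calc ∑ p : ι, ∑ q ∈ Finset.univ.erase p, lam ≤ ∑ p : ι, ∑ q : ι, lam :=
          Finset.sum_le_sum fun p _ => Finset.sum_le_sum_of_subset_of_nonneg
            (Finset.erase_subset _ _) (fun _ _ _ => hl)
      _ = lam * (Fintype.card ι) ^ 2 := by
          simp only [Finset.sum_const, Finset.card_univ, nsmul_eq_mul]; ring
  have h7 : g j i = g i j := by simp only [hg]; rw [dist_comm]
  have h8 : g i j = V0 K lam B (dist (y i) (y j)) + lam := rfl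
  have h9 : 0 ≤ lam * (Fintype.card ι : ℝ) ^ 2 := by positivity
  linarith

/-- a state of finite potential energy vanishes on the walls `|x_i - x_j| = 1` -/
theorem wall
    (wall_one : ∀ (z0 : E), ‖z0‖ = 1 → ∀ (δ : ℝ), 0 < δ →
      ∫⁻ z in {z : E | ‖z - z0‖ < δ ∧ 1 < ‖z‖ ∧ ‖z‖ < 2}, ENNReal.ofReal (1 / (‖z‖ - 1) ^ 2) = ∞)
    {ι : Type} [Fintype ι] [DecidableEq ι] (K lam B : ℝ) (hK : 0 ≤ K) (hl : 0 ≤ lam) (hB : 0 < B)
    (ψ : (ι → E) → ℝ) (hψ : IsState (V0 K lam B) ψ) (x : ι → E) (i j : ι) (hij : i ≠ j)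
    (hx : dist (x i) (x j) = 1) : ψ x = 0 := by
  by_contra hne
  obtain ⟨L, hL⟩ := hψ.lip
  have hcont : Continuous ψ := hL.continuous
  set c0 := ‖ψ x‖ / 2 with hc0
  have hc0p : 0 < c0 := by
    have := norm_pos_iff.2 hne
    positivity
  obtain ⟨ρ, hρ, hρ2⟩ : ∃ ρ > 0, ∀ y ∈ Metric.ball x ρ, c0 < ‖ψ y‖ := by
    have h1 : ∀ᶠ y in 𝓝 x, c0 < ‖ψ y‖ := by
      refine hcont.norm.continuousAt.eventually_const_lt ?_
      have := norm_pos_iff.2 hne
      rw [hc0]; linarith
    exact Metric.eventually_nhds_iff_ball.1 h1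
  -- the function
  let S : Set (ι → E) := {y | y ∈ Metric.ball x ρ ∧ 1 < ‖y i - y j‖ ∧ ‖y i - y j‖ < 2}
  have hS : MeasurableSet S := by
    have h1 : IsOpen {y : ι → E | 1 < ‖y i - y j‖} := isOpen_lt continuous_const (by fun_prop)
    have h2 : IsOpen {y : ι → E | ‖y i - y j‖ < 2} := isOpen_lt (by fun_prop) continuous_const
    exact Metric.isOpen_ball.measurableSet.inter (h1.measurableSet.inter h2.measurableSet)
  let f : (ι → E) → ℝ≥0∞ := S.indicator (fun y => ENNReal.ofReal (1 / (‖y i - y j‖ - 1) ^ 2))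
  have hf : Measurable f := by
    refine Measurable.indicator ?_ hS
    fun_prop
  set z0 := x i - x j with hz0
  have hz0n : ‖z0‖ = 1 := by rw [hz0, ← dist_eq_norm, hx]
  have hinf : ∫⁻ y, f y = ∞ := by
    refine fub_top i x (ρ / 2) (by positivity) f hf ?_
    intro y hy
    let S0 : Set E := {z : E | ‖z - z0‖ < ρ / 2 ∧ 1 < ‖z‖ ∧ ‖z‖ < 2}
    have hS0 : MeasurableSet S0 := by
      have h0 : IsOpen {z : E | ‖z - z0‖ < ρ / 2} := isOpen_lt (by fun_prop) continuous_const
      have h1 : IsOpen {z : E | 1 < ‖z‖} := isOpen_lt continuous_const (by fun_prop)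
      have h2 : IsOpen {z : E | ‖z‖ < 2} := isOpen_lt (by fun_prop) continuous_const
      exact h0.measurableSet.inter (h1.measurableSet.inter h2.measurableSet)
    let g : E → ℝ≥0∞ := S0.indicator (fun z => ENNReal.ofReal (1 / (‖z‖ - 1) ^ 2))
    have hg : ∫⁻ z, g z = ∞ := by
      rw [lintegral_indicator hS0]
      exact wall_one z0 hz0n (ρ / 2) (by positivity)
    have h1 : ∫⁻ a, g (a - y j) = ∞ := by
      rw [lintegral_sub_right_eq_self]; exact hg
    have h2 : ∫⁻ a, g (a - y j) ≤ ∫⁻ a, f (Function.update y i a) := by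
      refine lintegral_mono fun a => ?_
      by_cases ha : a - y j ∈ S0
      · have e1 : (Function.update y i a) i = a := Function.update_self ..
        have e2 : (Function.update y i a) j = y j := Function.update_of_ne hij.symm ..
        have ha' : Function.update y i a ∈ S := by
          refine ⟨?_, ?_, ?_⟩
          · rw [Metric.mem_ball, dist_pi_lt_iff hρ]
            intro k
            by_cases hk : k = i
            · subst hk
              rw [e1, dist_eq_norm]
              have e3 : a - x k = (a - y j - z0) + (y j - x j) := by rw [hz0]; abel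
              have h3 := hy j hij.symm
              rw [dist_eq_norm] at h3
              have h4 := norm_add_le (a - y j - z0) (y j - x j)
              rw [← e3] at h4
              linarith [ha.1]
            · rw [Function.update_of_ne hk]
              linarith [hy k hk]
          · rw [e1, e2]; exact ha.2.1
          · rw [e1, e2]; exact ha.2.2
        change S0.indicator _ _ ≤ S.indicator _ _
        rw [Set.indicator_of_mem ha, Set.indicator_of_mem ha', e1, e2]
      · change S0.indicator _ _ ≤ _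
        rw [Set.indicator_of_notMem ha]
        exact bot_le
    rw [h1] at h2
    exact top_le_iff.1 h2
  -- finiteness
  set C := lam * (Fintype.card ι : ℝ) ^ 2 with hC
  have hint1 : Integrable (fun y => ‖ψ y‖ ^ 2) := by
    refine Continuous.integrable_of_hasCompactSupport (by fun_prop) ?_
    exact hψ.cpt.comp_left (g := fun t : ℝ => ‖t‖ ^ 2) (by simp)
  have hint2 : Integrable (fun y => (1 / (B * c0 ^ 2)) *
      (pot (V0 K lam B) y * ‖ψ y‖ ^ 2 + C * ‖ψ y‖ ^ 2)) :=
    (hψ.int.add (hint1.const_mul C)).const_mul _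
  have hfin := hint2.lintegral_lt_top
  have hle : ∫⁻ y, f y ≤ ∫⁻ y, ENNReal.ofReal ((1 / (B * c0 ^ 2)) *
      (pot (V0 K lam B) y * ‖ψ y‖ ^ 2 + C * ‖ψ y‖ ^ 2)) := by
    refine lintegral_mono fun y => ?_
    by_cases hy : y ∈ S
    · change S.indicator _ _ ≤ _
      rw [Set.indicator_of_mem hy]
      apply ENNReal.ofReal_le_ofReal
      obtain ⟨hy1, hy2, hy3⟩ := hy
      have hψy := hρ2 y hy1
      have hp := pot_ge hK hl hB y i j hij
      have hV : V0 K lam B (dist (y i) (y j)) = B / (‖y i - y j‖ - 1) ^ 2 := by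
        rw [dist_eq_norm]
        unfold V0
        rw [if_neg (by linarith), if_neg (by linarith), if_pos (by linarith)]
      rw [hV, ← hC] at hp
      have hr0 : 0 < (‖y i - y j‖ - 1) ^ 2 := by
        have : 0 < ‖y i - y j‖ - 1 := by linarith
        positivity
      have h3 : c0 ^ 2 ≤ ‖ψ y‖ ^ 2 := pow_le_pow_left₀ hc0p.le hψy.le 2
      have h4 : 0 ≤ B / (‖y i - y j‖ - 1) ^ 2 := by positivity
      have h5 : B / (‖y i - y j‖ - 1) ^ 2 * c0 ^ 2 ≤ (pot (V0 K lam B) y + C) * ‖ψ y‖ ^ 2 :=
        mul_le_mul (by linarith) h3 (by positivity) (by linarith)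
      calc 1 / (‖y i - y j‖ - 1) ^ 2 =
            (1 / (B * c0 ^ 2)) * (B / (‖y i - y j‖ - 1) ^ 2 * c0 ^ 2) := by
            field_simp
        _ ≤ (1 / (B * c0 ^ 2)) * ((pot (V0 K lam B) y + C) * ‖ψ y‖ ^ 2) :=
            mul_le_mul_of_nonneg_left h5 (by positivity)
        _ = _ := by ring
    · change S.indicator _ _ ≤ _
      rw [Set.indicator_of_notMem hy]
      exact bot_le
  rw [hinf] at hle
  exact absurd hfin (not_lt.2 hle)

end BG631.JW2
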