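import Pool.Agent.H631.BG.Base

open MeasureTheory Filter Topology Set
open scoped ENNReal NNReal BigOperators

namespace BG631.JZ

section cplx
variable {ι : Type} [Fintype ι] [DecidableEq ι]

theorem j6723_fderiv_ofReal {X : Type} [NormedAddCommGroup X] [NormedSpace ℝ X] (Φ : X → ℝ) (x : X) :
    fderiv ℝ (fun x => (Φ x : ℂ)) x = Complex.ofRealCLM.comp (fderiv ℝ Φ x) := by
  by_cases h : DifferentiableAt ℝ Φ x
  · exact (Complex.ofRealCLM.hasFDerivAt.comp x h.hasFDerivAt).fderiv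
  · rw [fderiv_zero_of_not_differentiableAt h, fderiv_zero_of_not_differentiableAt]
    · simp
    · intro h2
      apply h
      have h3 := (Complex.reCLM.hasFDerivAt.comp x h2.hasFDerivAt).differentiableAt
      exact h3

theorem j6723_pd_ofReal (Φ : (ι → E) → ℝ) (x : ι → E) (i : ι) (k : Fin 3) :
    ‖pd (fun x => (Φ x : ℂ)) x i k‖ = ‖pd Φ x i k‖ := by
  unfold pd
  rw [j6723_fderiv_ofReal]
  exact Complex.norm_real _

theorem j6723_kin_ofReal (Φ : (ι → E) → ℝ) (x : ι → E) :
    kin (fun x => (Φ x : ℂ)) x = kin Φ x := by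
  unfold kin
  simp only [j6723_pd_ofReal]

theorem j6723_pot_meas (v : ℝ → ℝ) (hv : Measurable v) : Measurable (fun x : ι → E => pot v x) := by
  unfold pot
  refine Measurable.const_mul ?_ _
  refine Finset.measurable_sum _ fun i _ => Finset.measurable_sum _ fun j _ => ?_
  exact hv.comp ((measurable_pi_apply i).dist (measurable_pi_apply j))

theorem j6723_kin_int (g : (ι → E) → ℝ) {C : ℝ≥0} (hl : LipschitzWith C g)
    (hc : HasCompactSupport g) : Integrable (fun x => kin g x) := by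
  unfold kin
  refine integrable_finsetSum _ fun i _ => integrable_finsetSum _ fun k _ => ?_
  have hm : Measurable (fun x => pd g x i k) :=
    measurable_fderiv_apply_const ℝ g (Pi.single i (EuclideanSpace.single k (1 : ℝ)))
  have hm2 : Measurable (fun x => ‖pd g x i k‖ ^ 2) := hm.norm.pow_const 2
  have hsupp : Function.support (fun x => ‖pd g x i k‖ ^ 2) ⊆ tsupport g := by
    intro x hx
    by_contra hcon
    apply hx
    have h1 : fderiv ℝ g x = 0 := by
      by_contra h2
      exact hcon (support_fderiv_subset ℝ h2)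
    show ‖pd g x i k‖ ^ 2 = 0
    unfold pd
    rw [h1]
    simp
  rw [← integrableOn_iff_integrable_of_support_subset hsupp]
  refine Measure.integrableOn_of_bounded (M := ((C : ℝ) *
    ‖(Pi.single i (EuclideanSpace.single k (1 : ℝ)) : ι → E)‖) ^ 2) ?_ hm2.aestronglyMeasurable ?_
  · exact (IsCompact.measure_lt_top hc).ne
  · refine Eventually.of_forall fun x => ?_
    rw [Real.norm_eq_abs, abs_of_nonneg (by positivity)]
    refine pow_le_pow_left₀ (norm_nonneg _) ?_ 2
    unfold pd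
    refine (ContinuousLinearMap.le_opNorm _ _).trans ?_
    exact mul_le_mul_of_nonneg_right (norm_fderiv_le_of_lipschitz ℝ hl) (norm_nonneg _)

/-- a real part of a state is a state -/
theorem j6723_part (v : ℝ → ℝ) (hv : Measurable v) (ψ : (ι → E) → ℂ) (h : IsState v ψ)
    (T : ℂ →L[ℝ] ℝ) (hT : ∀ z, ‖T z‖ ≤ ‖z‖) : IsState v (fun x => T (ψ x)) := by
  rcases h.lip with ⟨C, hC⟩
  refine ⟨⟨_, T.lipschitz.comp hC⟩, h.cpt.comp_left (map_zero T), ?_⟩
  have hψ : Measurable ψ := hC.continuous.measurable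
  refine Integrable.mono h.int ?_ ?_
  · exact ((j6723_pot_meas v hv).mul
      ((T.continuous.measurable.comp hψ).norm.pow_const 2)).aestronglyMeasurable
  · refine Eventually.of_forall fun x => ?_
    rw [norm_mul, norm_mul]
    refine mul_le_mul_of_nonneg_left ?_ (norm_nonneg _)
    rw [norm_pow, norm_pow, norm_norm, norm_norm]
    exact pow_le_pow_left₀ (norm_nonneg _) (hT _) 2

theorem j6723_pd_part (ψ : (ι → E) → ℂ) (x : ι → E) (hd : DifferentiableAt ℝ ψ x)
    (T : ℂ →L[ℝ] ℝ) (i : ι) (k : Fin 3) : pd (fun x => T (ψ x)) x i k = T (pd ψ x i k) := by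
  unfold pd
  have h := (T.hasFDerivAt.comp x hd.hasFDerivAt).fderiv
  have e : (T ∘ ψ) = fun x => T (ψ x) := rfl
  rw [e] at h
  rw [h]
  rfl

theorem j6723_sq (z : ℂ) : ‖z‖ ^ 2 = ‖z.re‖ ^ 2 + ‖z.im‖ ^ 2 := by
  rw [Complex.sq_norm, Complex.normSq_apply, Real.norm_eq_abs, Real.norm_eq_abs, sq_abs, sq_abs]
  ring

theorem j6723_kin_split (ψ : (ι → E) → ℂ) (x : ι → E) (hd : DifferentiableAt ℝ ψ x) :
    kin ψ x = kin (fun x => (ψ x).re) x + kin (fun x => (ψ x).im) x := by
  unfold kin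
  rw [← Finset.sum_add_distrib]
  refine Finset.sum_congr rfl fun i _ => ?_
  rw [← Finset.sum_add_distrib]
  refine Finset.sum_congr rfl fun k _ => ?_
  have h1 := j6723_pd_part ψ x hd Complex.reCLM i k
  have h2 := j6723_pd_part ψ x hd Complex.imCLM i k
  have e1 : (fun x => Complex.reCLM (ψ x)) = fun x => (ψ x).re := rfl
  have e2 : (fun x => Complex.imCLM (ψ x)) = fun x => (ψ x).im := rfl
  rw [e1] at h1
  rw [e2] at h2
  rw [h1, h2, j6723_sq]
  rfl

theorem ofReal_state (μ : ℝ) (v : ℝ → ℝ) (Φ : (ι → E) → ℝ) (h : IsState v Φ) :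
    IsState v (fun x => (Φ x : ℂ)) ∧ (∀ x, ‖(Φ x : ℂ)‖ = ‖Φ x‖) ∧
      energy μ v (fun x => (Φ x : ℂ)) = energy μ v Φ := by
  have hn : ∀ x, ‖(Φ x : ℂ)‖ = ‖Φ x‖ := fun x => Complex.norm_real _
  rcases h.lip with ⟨C, hC⟩
  refine ⟨⟨⟨_, Complex.isometry_ofReal.lipschitz.comp hC⟩, h.cpt.comp_left Complex.ofReal_zero, ?_⟩,
    hn, ?_⟩
  · simp only [hn]
    exact h.int
  · unfold energy
    simp only [hn, j6723_kin_ofReal]

theorem complex_state (μ : ℝ) (v : ℝ → ℝ) (hv : Measurable v) (ψ : (ι → E) → ℂ) (h : IsState v ψ) :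
    IsState v (fun x => (ψ x).re) ∧ IsState v (fun x => (ψ x).im) ∧
      energy μ v ψ = energy μ v (fun x => (ψ x).re) + energy μ v (fun x => (ψ x).im) := by
  have hre : IsState v (fun x => (ψ x).re) :=
    j6723_part v hv ψ h Complex.reCLM (fun z => Complex.abs_re_le_norm z)
  have him : IsState v (fun x => (ψ x).im) :=
    j6723_part v hv ψ h Complex.imCLM (fun z => Complex.abs_im_le_norm z)
  refine ⟨hre, him, ?_⟩
  rcases h.lip with ⟨C, hC⟩
  rcases hre.lip with ⟨C1, hC1⟩
  rcases him.lip with ⟨C2, hC2⟩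
  have i1 : Integrable (fun x => μ * kin (fun x => (ψ x).re) x + pot v x * ‖(ψ x).re‖ ^ 2) :=
    ((j6723_kin_int _ hC1 hre.cpt).const_mul μ).add hre.int
  have i2 : Integrable (fun x => μ * kin (fun x => (ψ x).im) x + pot v x * ‖(ψ x).im‖ ^ 2) :=
    ((j6723_kin_int _ hC2 him.cpt).const_mul μ).add him.int
  unfold energy
  rw [← integral_add i1 i2]
  refine integral_congr_ae ?_
  filter_upwards [hC.ae_differentiableAt (μ := (volume : Measure (ι → E)))] with x hx
  rw [j6723_kin_split ψ x hx, j6723_sq]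
  ring

end cplx

end BG631.JZ
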