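import Pool.Agent.H631.BG.R
import Pool.Agent.H631.BG.N
import Pool.Agent.H631.BG.W1
import Pool.Agent.H631.BG.W2
import Pool.Agent.H631.BG.C
import Pool.Agent.H631.BG.P5
import Pool.Agent.H631.BG.S
import Pool.Agent.H631.BG.A
import Pool.Agent.H631.BG.Z

/-! Nonnegativity of `H_N`. -/

open MeasureTheory Filter Topology Set
open scoped ENNReal NNReal BigOperators

namespace BG631

theorem measurable_V0 (K lam B : ℝ) : Measurable (V0 K lam B) := by
  unfold V0
  refine Measurable.ite measurableSet_Iio measurable_const ?_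
  refine Measurable.ite measurableSet_Iic measurable_const ?_
  refine Measurable.ite measurableSet_Iio ?_ measurable_const
  exact measurable_const.div ((measurable_id.sub measurable_const).pow_const 2)

theorem nonneg_all (μ K lam B : ℝ) (hμ : 0 ≤ μ) (hl : 0 ≤ lam) (hK : 729 * 731 * lam ≤ K) (hB : 64 * K ≤ B)
    (hB0 : 0 < B) (hP : ∀ n : ℕ, PosLump μ K lam (Fin n))
    (ι : Type) [Fintype ι] [DecidableEq ι] (ψ : (ι → E) → ℝ) (hψ : IsState (V0 K lam B) ψ) :
    0 ≤ energy μ (V0 K lam B) ψ := by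
  have hK0 : 0 ≤ K := le_trans (by positivity) hK
  refine JA.nonneg_real μ K lam B hμ hl hK hB hB0 (fun i j h r hr => JN.null_wall i j h r hr) ?_ ?_ ?_ ?_ ψ hψ
  · intro ψ hψ x i j hij hx
    exact JW2.wall JW1.wall_one K lam B hK0 hl hB0 ψ hψ x i j hij hx
  · intro x hx
    exact JP5.pot_ge (fun x U h1 h2 => JC.cubes x U h1 h2) K lam B hl hK hB x hx
  · intro x C D hC hD i h1 h2
    exact JP5.Om_disjoint x C D hC hD i h1 h2
  · intro C ψ h1 h2 h3
    refine JS.slice μ K lam hμ C ?_ (fun i j h r hr => JN.null_wall i j h r hr) ψ h1 h2 h3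
    exact JR.posLump_of_equiv (Fintype.equivFin {i // i ∈ C}).symm μ K lam (hP _)

theorem nonneg_complex (μ K lam B : ℝ) (hμ : 0 ≤ μ) (hl : 0 ≤ lam) (hK : 729 * 731 * lam ≤ K) (hB : 64 * K ≤ B)
    (hB0 : 0 < B) (hP : ∀ n : ℕ, PosLump μ K lam (Fin n))
    (ι : Type) [Fintype ι] [DecidableEq ι] (ψ : (ι → E) → ℂ) (hψ : IsState (V0 K lam B) ψ) :
    0 ≤ energy μ (V0 K lam B) ψ := by
  obtain ⟨h1, h2, h3⟩ := JZ.complex_state μ (V0 K lam B) (measurable_V0 K lam B) ψ hψ
  rw [h3]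
  exact add_nonneg (nonneg_all μ K lam B hμ hl hK hB hB0 hP ι _ h1) (nonneg_all μ K lam B hμ hl hK hB hB0 hP ι _ h2)

end BG631
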