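import Pool.Agent.H631.BG.Base

open MeasureTheory Filter Topology Set
open scoped ENNReal NNReal BigOperators

namespace BG631.JR

section reindex
variable {ι κ : Type} [Fintype ι] [DecidableEq ι] [Fintype κ] [DecidableEq κ]
  {F : Type} [NormedAddCommGroup F] [NormedSpace ℝ F]

/-- the relabelling map -/
noncomputable def relab {ι κ : Type} [Fintype ι] [Fintype κ] (e : κ ≃ ι) : (κ → E) ≃L[ℝ] (ι → E) :=
  (LinearEquiv.funCongrLeft ℝ E e.symm).toContinuousLinearEquiv

theorem relab_apply {ι κ : Type} [Fintype ι] [Fintype κ] (e : κ ≃ ι) (y : κ → E) :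
    relab e y = fun i => y (e.symm i) := rfl

theorem relab_single {ι κ : Type} [Fintype ι] [Fintype κ] [DecidableEq ι] [DecidableEq κ] (e : κ ≃ ι)
    (j : κ) (v : E) : relab e (Pi.single j v) = Pi.single (e j) v := by
  rw [relab_apply]
  funext i
  by_cases h : i = e j
  · subst h
    simp
  · have h' : e.symm i ≠ j := fun h2 => h (by rw [← h2]; simp)
    rw [Pi.single_eq_of_ne h', Pi.single_eq_of_ne h]

omit [Fintype ι] [DecidableEq ι] [Fintype κ] [DecidableEq κ] in
theorem relab_mp [Fintype ι] [Fintype κ] (e : κ ≃ ι) :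
    ∃ m : (κ → E) ≃ᵐ (ι → E), (∀ y, m y = fun i => y (e.symm i)) ∧
      MeasurePreserving m (volume : Measure (κ → E)) (volume : Measure (ι → E)) := by
  refine ⟨MeasurableEquiv.piCongrLeft (fun _ : ι => E) e, ?_, ?_⟩
  · intro y
    funext i
    obtain ⟨k, rfl⟩ := e.surjective i
    rw [Equiv.symm_apply_apply]
    exact Equiv.piCongrLeft_apply_apply (fun _ : ι => E) e y k
  · exact MeasureTheory.volume_measurePreserving_piCongrLeft (fun _ : ι => E) e

theorem kin_reindex (e : κ ≃ ι) (ψ : (ι → E) → F) (x : κ → E) :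
    kin (fun y : κ → E => ψ (fun i => y (e.symm i))) x = kin ψ (fun i => x (e.symm i)) := by
  unfold kin pd
  have h1 : (fun y : κ → E => ψ (fun i => y (e.symm i))) = ψ ∘ (relab e) := rfl
  have h2 : ∀ w : κ → E, fderiv ℝ (ψ ∘ (relab e)) x w = fderiv ℝ ψ (relab e x) (relab e w) := by
    intro w
    rw [(relab e).comp_right_fderiv]
    rfl
  rw [h1]
  simp only [h2, relab_single]
  rw [← Equiv.sum_comp e]
  rfl

theorem pot_reindex (e : κ ≃ ι) (v : ℝ → ℝ) (x : κ → E) :
    pot v (fun i : ι => x (e.symm i)) = pot v x := by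
  unfold pot
  congr 1
  rw [← Equiv.sum_comp e.symm]
  refine Finset.sum_congr rfl fun i _ => ?_
  refine Finset.sum_equiv e.symm ?_ ?_
  · intro j
    simp
  · intro j _
    rfl

theorem integral_reindex (e : κ ≃ ι) (f : (ι → E) → ℝ) :
    ∫ x : κ → E, f (fun i => x (e.symm i)) = ∫ x, f x := by
  obtain ⟨m, hm, hmp⟩ := relab_mp e
  have h := hmp.integral_comp' f
  rw [← h]
  congr 1
  funext x
  rw [hm]

theorem integrable_reindex (e : κ ≃ ι) (f : (ι → E) → ℝ) (hf : Integrable f) :
    Integrable (fun x : κ → E => f (fun i => x (e.symm i))) := by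
  obtain ⟨m, hm, hmp⟩ := relab_mp e
  have h := hmp.integrable_comp_of_integrable hf
  have h2 : (fun x : κ → E => f (fun i => x (e.symm i))) = f ∘ m := by
    funext x
    rw [Function.comp_apply, hm]
  rw [h2]
  exact h

theorem energy_reindex (e : κ ≃ ι) (μ : ℝ) (v : ℝ → ℝ) (ψ : (ι → E) → F) :
    energy μ v (fun y : κ → E => ψ (fun i => y (e.symm i))) = energy μ v ψ := by
  unfold energy
  rw [← integral_reindex e]
  congr 1
  funext x
  rw [kin_reindex e ψ x, pot_reindex e v x]

theorem lip_reindex (e : κ ≃ ι) (ψ : (ι → E) → F) (C : ℝ≥0) (h : LipschitzWith C ψ) :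
    LipschitzWith C (fun y : κ → E => ψ (fun i => y (e.symm i))) := by
  apply LipschitzWith.of_dist_le_mul
  intro y y'
  refine (h.dist_le_mul _ _).trans ?_
  apply mul_le_mul_of_nonneg_left _ C.2
  rw [dist_pi_le_iff dist_nonneg]
  intro i
  exact dist_le_pi_dist y y' (e.symm i)

theorem cpt_reindex (e : κ ≃ ι) (ψ : (ι → E) → F) (h : HasCompactSupport ψ) :
    HasCompactSupport (fun y : κ → E => ψ (fun i => y (e.symm i))) :=
  h.comp_homeomorph (relab e).toHomeomorph

theorem isState_reindex (e : κ ≃ ι) (v : ℝ → ℝ) (ψ : (ι → E) → F) (h : IsState v ψ) :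
    IsState v (fun y : κ → E => ψ (fun i => y (e.symm i))) := by
  obtain ⟨⟨C, hC⟩, h2, h3⟩ := h
  refine ⟨⟨C, lip_reindex e ψ C hC⟩, cpt_reindex e ψ h2, ?_⟩
  have h4 := integrable_reindex e _ h3
  refine h4.congr (Eventually.of_forall fun x => ?_)
  simp only
  rw [pot_reindex e v x]

theorem posLump_of_equiv (e : κ ≃ ι) (μ K lam : ℝ) (h : PosLump μ K lam κ) : PosLump μ K lam ι := by
  intro g ⟨C, hC⟩ hg hcl
  have h1 := h (fun y : κ → E => g (fun i => y (e.symm i))) ⟨C, lip_reindex e g C hC⟩ (cpt_reindex e g hg) ?_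
  · rwa [energy_reindex e μ (Vin K lam) g] at h1
  · intro x hx i j hij
    have h2 := hcl _ hx (e i) (e j) (fun h => hij (e.injective h))
    simpa using h2

end reindex

end BG631.JR
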