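import Mathlib

/-! Bose gas with a pair interaction: definitions used in the statement. -/

open MeasureTheory Filter Topology Set
open scoped ENNReal NNReal BigOperators

namespace BG631

/-- physical space `ℝ³` -/
abbrev E : Type := EuclideanSpace ℝ (Fin 3)

section defs
variable {ι : Type} [Fintype ι] [DecidableEq ι] {F : Type} [NormedAddCommGroup F] [NormedSpace ℝ F]

/-- derivative of `ψ` at `x` in the `k`-th coordinate of the `i`-th particle -/
noncomputable def pd (ψ : (ι → E) → F) (x : ι → E) (i : ι) (k : Fin 3) : F :=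
  fderiv ℝ ψ x (Pi.single i (EuclideanSpace.single k (1 : ℝ)))

/-- `|∇ψ(x)|²`, the gradient taken in all `3N` variables -/
noncomputable def kin (ψ : (ι → E) → F) (x : ι → E) : ℝ := ∑ i, ∑ k, ‖pd ψ x i k‖ ^ 2

/-- the pair interaction `∑_{i<j} v(|x_i - x_j|)`, written as half the sum over ordered pairs -/
noncomputable def pot (v : ℝ → ℝ) (x : ι → E) : ℝ :=
  (1 / 2) * ∑ i, ∑ j ∈ Finset.univ.erase i, v (dist (x i) (x j))

/-- wave functions used in the variational principle: Lipschitz, compactly supported, finite potential energy -/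
structure IsState (v : ℝ → ℝ) (ψ : (ι → E) → F) : Prop where
  lip : ∃ C : ℝ≥0, LipschitzWith C ψ
  cpt : HasCompactSupport ψ
  int : Integrable (fun x => pot v x * ‖ψ x‖ ^ 2)

/-- `⟨ψ, H_N ψ⟩` -/
noncomputable def energy (μ : ℝ) (v : ℝ → ℝ) (ψ : (ι → E) → F) : ℝ :=
  ∫ x, (μ * kin ψ x + pot v x * ‖ψ x‖ ^ 2)

end defs

/-- the open cube of side `L` -/
def box (L : ℝ) : Set E := {y | ∀ k, 0 < y k ∧ y k < L}

/-- normalised bosonic `N`-particle wave functions in the cube of side `L`, vanishing outside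
(Dirichlet boundary conditions) -/
structure IsDir (v : ℝ → ℝ) (N : ℕ) (L : ℝ) (ψ : (Fin N → E) → ℂ) : Prop where
  state : IsState v ψ
  symm : ∀ (σ : Equiv.Perm (Fin N)) x, ψ (fun i => x (σ i)) = ψ x
  supp : ∀ x, ψ x ≠ 0 → ∀ i, x i ∈ box L
  norm : ∫ x, ‖ψ x‖ ^ 2 = 1

/-- normalised bosonic `N`-particle wave functions in the cube of side `L`, no boundary condition
(Neumann); only the values in the cube matter -/
structure IsNeu (v : ℝ → ℝ) (N : ℕ) (L : ℝ) (ψ : (Fin N → E) → ℂ) : Prop where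
  lip : ∃ C : ℝ≥0, LipschitzWith C ψ
  symm : ∀ (σ : Equiv.Perm (Fin N)) x, ψ (fun i => x (σ i)) = ψ x
  int : IntegrableOn (fun x => pot v x * ‖ψ x‖ ^ 2) {x | ∀ i, x i ∈ box L}
  norm : ∫ x in {x : Fin N → E | ∀ i, x i ∈ box L}, ‖ψ x‖ ^ 2 = 1

/-- the energies of bosonic states in the cube of side `L`, Dirichlet boundary conditions -/
def DirEnergies (μ : ℝ) (v : ℝ → ℝ) (N : ℕ) (L : ℝ) : Set ℝ :=
  {e | ∃ ψ : (Fin N → E) → ℂ, IsDir v N L ψ ∧ e = energy μ v ψ}

/-- the energies of bosonic states in the cube of side `L`, Neumann boundary conditions -/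
def NeuEnergies (μ : ℝ) (v : ℝ → ℝ) (N : ℕ) (L : ℝ) : Set ℝ :=
  {e | ∃ ψ : (Fin N → E) → ℂ, IsNeu v N L ψ ∧
    e = ∫ x in {x : Fin N → E | ∀ i, x i ∈ box L}, (μ * kin ψ x + pot v x * ‖ψ x‖ ^ 2)}

/-- ground state energy of `N` bosons in the cube of side `L`, Dirichlet boundary conditions -/
noncomputable def E0 (μ : ℝ) (v : ℝ → ℝ) (N : ℕ) (L : ℝ) : ℝ := sInf (DirEnergies μ v N L)

/-- ground state energy of `N` bosons in the cube of side `L`, Neumann boundary conditions -/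
noncomputable def E0N (μ : ℝ) (v : ℝ → ℝ) (N : ℕ) (L : ℝ) : ℝ := sInf (NeuEnergies μ v N L)

/-- `u` is a zero energy scattering solution: `u(0) = 0`, `u` is differentiable on `(0,∞)` and
`-2μu'' + v u = 0` on `(0,∞)` in integrated form -/
structure IsScat (μ : ℝ) (v u : ℝ → ℝ) : Prop where
  zero : u 0 = 0
  cont : ContinuousWithinAt u (Set.Ici 0) 0
  diff : ∀ r, 0 < r → DifferentiableAt ℝ u r
  int : ∀ s t, 0 < s → s ≤ t → IntervalIntegrable (fun r => v r * u r) volume s t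
  eq : ∀ s t, 0 < s → s ≤ t → 2 * μ * (deriv u t - deriv u s) = ∫ r in s..t, v r * u r

/-- `a` is the scattering length of `v`: nontrivial scattering solutions exist, and
`r - u(r)/u'(r) → a` for each of them (those that do not vanish near infinity) -/
def HasScatLen (μ : ℝ) (v : ℝ → ℝ) (a : ℝ) : Prop :=
  (∃ u, IsScat μ v u ∧ ¬ ∀ᶠ r in atTop, u r = 0) ∧
  ∀ u, IsScat μ v u → (¬ ∀ᶠ r in atTop, u r = 0) → Tendsto (fun r => r - u r / deriv u r) atTop (𝓝 a)


/-- no `N`-body bound states: `H_N ≥ 0` on all of `L²(ℝ^{3N})`, for every `N` -/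
def NoBoundStates (μ : ℝ) (v : ℝ → ℝ) : Prop :=
  ∀ (N : ℕ) (ψ : (Fin N → E) → ℂ), IsState v ψ → 0 ≤ energy μ v ψ

end BG631
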