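import Pool.Agent.H631.BG.Gas

/-! The trial state: a gas of clumps plus a few single particles. -/

open MeasureTheory Filter Topology Set
open scoped ENNReal NNReal BigOperators

namespace BG631

/-- an internal clump wave function of energy `< ε` -/
structure Clmp (μ K lam ε : ℝ) (n : ℕ) (φ : (Fin n → E) → ℝ) : Prop where
  lip : ∃ C : ℝ≥0, LipschitzWith C φ
  bdd : ∃ b, ∀ x, |φ x| ≤ b
  tr : ∀ x (s : E), φ (fun i => x i + s) = φ x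
  cl : ∀ x, φ x ≠ 0 → clump x
  pos : 0 < relInt (fun x => ‖φ x‖ ^ 2)
  en : relInt (fun x => μ * kin φ x + pot (Vin K lam) x * ‖φ x‖ ^ 2) < ε * relInt (fun x => ‖φ x‖ ^ 2)

/-- kinetic energy per clump of the clump gas -/
noncomputable def TT (τ κ : ℝ) (m : ℕ) (L : ℝ) : ℝ :=
  (1 + τ) * I0 * (m / κ) * (1 + b66 * m / κ) + (1 + 1 / τ) * (6 * L ^ 2 / κ)

theorem coord_lt (x y : E) (r : ℝ) (h : dist x y < r) (k : Fin 3) : |x k - y k| < r := by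
  have h1 : ‖(x - y) k‖ ≤ ‖x - y‖ := PiLp.norm_apply_le (x - y) k
  rw [dist_eq_norm] at h
  have h2 : (x - y) k = x k - y k := rfl
  rw [h2, Real.norm_eq_abs] at h1
  exact lt_of_le_of_lt h1 h

theorem gas (μ K lam B ε : ℝ) (hμ : 0 ≤ μ) (n : ℕ) (hn : 1 ≤ n) (φ : (Fin n → E) → ℝ) (hφ : Clmp μ K lam ε n φ)
    (m : ℕ) (L τ κ : ℝ) (hL : 4 < L) (hτ : 0 < τ) (hκ : κ = (L - 4) ^ 3 - m * b33) (h0 : 0 < κ) :
    ∃ ψ : (Fin m × Fin n → E) → ℝ, IsState (V0 K lam B) ψ ∧ (∀ x, ψ x ≠ 0 → ∀ p k, 0 < x p k ∧ x p k < L) ∧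
      0 < ∫ x, ‖ψ x‖ ^ 2 ∧
      energy μ (V0 K lam B) ψ ≤ m * (ε + μ * (n : ℝ)⁻¹ * TT τ κ m L) * ∫ x, ‖ψ x‖ ^ 2 := by
  obtain ⟨Φ, hΦ, hc, hsep, hbox, hpos, hkin⟩ := hs_closed m L τ κ hL hτ hκ h0
  obtain ⟨h1, h2, h3⟩ := composite_closed n m hn μ K lam B φ hφ.lip hφ.bdd hφ.tr hφ.cl Φ hΦ hc hsep
  refine ⟨Psi φ Φ, h1, ?_, ?_, ?_⟩
  · rintro x hx ⟨A, i⟩ k
    unfold Psi at hx
    have hA : φ (fun i => x (A, i)) ≠ 0 := by
      intro h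
      exact hx (by rw [Finset.prod_eq_zero (Finset.mem_univ A) h, zero_mul])
    have hΦx : Φ (fun A => cm (fun i => x (A, i))) ≠ 0 := by
      intro h
      exact hx (by rw [h, mul_zero])
    have h4 := JK1.dist_cm n hn (fun i => x (A, i)) (hφ.cl _ hA) i
    have h5 := coord_lt _ _ _ h4 k
    have h6 := hbox _ hΦx A k
    rw [abs_lt] at h5
    simp only at h5 h6
    constructor <;> linarith [h5.1, h5.2, h6.1, h6.2]
  · rw [h2]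
    exact mul_pos (pow_pos hφ.pos m) hpos
  · rw [h3, h2]
    set R0 := relInt (fun x => ‖φ x‖ ^ 2) with hR0
    set R1 := relInt (fun x => μ * kin φ x + pot (Vin K lam) x * ‖φ x‖ ^ 2) with hR1
    have hp : 0 < R0 := hφ.pos
    have he : R1 < ε * R0 := hφ.en
    have ha : (m : ℝ) * R1 * R0 ^ (m - 1) ≤ m * ε * R0 ^ m := by
      rcases Nat.eq_zero_or_pos m with hm | hm
      · subst hm; simp
      · have : R0 ^ m = R0 * R0 ^ (m - 1) := by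
          rw [← pow_succ']; congr 1; omega
        rw [this]
        have h7 : (m : ℝ) * R1 * R0 ^ (m - 1) ≤ m * (ε * R0) * R0 ^ (m - 1) := by gcongr
        linarith
    have hb : μ * (n : ℝ)⁻¹ * R0 ^ m * ∫ c, kin Φ c ≤ μ * (n : ℝ)⁻¹ * R0 ^ m * (m * TT τ κ m L * ∫ c, ‖Φ c‖ ^ 2) := by
      refine mul_le_mul_of_nonneg_left hkin (by positivity)
    have hc' := mul_le_mul_of_nonneg_right ha hpos.le
    calc (m : ℝ) * R1 * R0 ^ (m - 1) * (∫ c, ‖Φ c‖ ^ 2) + μ * (n : ℝ)⁻¹ * R0 ^ m * ∫ c, kin Φ c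
        ≤ m * ε * R0 ^ m * (∫ c, ‖Φ c‖ ^ 2) + μ * (n : ℝ)⁻¹ * R0 ^ m * (m * TT τ κ m L * ∫ c, ‖Φ c‖ ^ 2) :=
          add_le_add hc' hb
      _ = m * (ε + μ * (n : ℝ)⁻¹ * TT τ κ m L) * (R0 ^ m * ∫ c, ‖Φ c‖ ^ 2) := by ring

/-- places for the single particles -/
noncomputable def pl (L : ℝ) (s : ℕ) (k : Fin s) : E := !₂[L - 5, 5 + 11 * (k : ℝ), 5]

theorem pl_dist (L : ℝ) (s : ℕ) (i j : Fin s) (hij : i ≠ j) : 11 ≤ dist (pl L s i) (pl L s j) := by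
  have h1 : ‖(pl L s i - pl L s j) 1‖ ≤ ‖pl L s i - pl L s j‖ := PiLp.norm_apply_le _ 1
  rw [dist_eq_norm]
  refine le_trans ?_ h1
  have h2 : (pl L s i - pl L s j) 1 = 11 * ((i : ℝ) - (j : ℝ)) := by
    simp [pl]; ring
  rw [h2, Real.norm_eq_abs, abs_mul]
  have h3 : (1 : ℝ) ≤ |(i : ℝ) - (j : ℝ)| := by
    have h4 : ((i : ℕ) : ℤ) - ((j : ℕ) : ℤ) ≠ 0 := by
      intro h
      apply hij
      apply Fin.ext
      omega
    have h5 := Int.one_le_abs h4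
    have h6 : ((1 : ℤ) : ℝ) ≤ ((|((i : ℕ) : ℤ) - ((j : ℕ) : ℤ)| : ℤ) : ℝ) := by exact_mod_cast h5
    simpa using h6
  rw [abs_of_pos (by norm_num : (0:ℝ) < 11)]
  linarith

theorem total (μ K lam B ε C : ℝ) (hμ : 0 ≤ μ)
    (hC : ∀ (K lam B : ℝ) (s : ℕ) (p : Fin s → E), (∀ i j, i ≠ j → 11 ≤ dist (p i) (p j)) →
      ∃ ψ : (Fin s → E) → ℝ, IsState (V0 K lam B) ψ ∧ (∀ x, ψ x ≠ 0 → ∀ k, dist (x k) (p k) < 1) ∧
        0 < ∫ x, ‖ψ x‖ ^ 2 ∧ energy μ (V0 K lam B) ψ ≤ C * s * ∫ x, ‖ψ x‖ ^ 2)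
    (n : ℕ) (hn : 1 ≤ n) (φ : (Fin n → E) → ℝ) (hφ : Clmp μ K lam ε n φ)
    (m s N : ℕ) (hN : N = m * n + s) (L τ κ : ℝ) (hL : 24 < L) (hs : 11 * (s : ℝ) + 6 ≤ L) (hτ : 0 < τ)
    (hκ : κ = (L - 24) ^ 3 - m * b33) (h0 : 0 < κ) :
    ∃ ψ : (Fin N → E) → ℝ, IsState (V0 K lam B) ψ ∧ (∀ x, ψ x ≠ 0 → ∀ i, x i ∈ box L) ∧
      0 < ∫ x, ‖ψ x‖ ^ 2 ∧
      energy μ (V0 K lam B) ψ ≤ (m * (ε + μ * (n : ℝ)⁻¹ * TT τ κ m (L - 20)) + C * s) * ∫ x, ‖ψ x‖ ^ 2 := by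
  obtain ⟨ψ₁, a1, a2, a3, a4⟩ := gas μ K lam B ε hμ n hn φ hφ m (L - 20) τ κ (by linarith) hτ
    (by rw [hκ]; ring) h0
  obtain ⟨ψ₂, b1, b2, b3, b4⟩ := hC K lam B s (pl L s) (fun i j hij => pl_dist L s i j hij)
  have hb2 : ∀ x, ψ₂ x ≠ 0 → ∀ j, (L - 6 < x j 0 ∧ x j 0 < L - 4) ∧ (4 < x j 1 ∧ x j 1 < L) ∧ (4 < x j 2 ∧ x j 2 < 6) := by
    intro x hx j
    have h := b2 x hx j
    have h00 := coord_lt _ _ _ h 0
    have h01 := coord_lt _ _ _ h 1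
    have h02 := coord_lt _ _ _ h 2
    have e0 : pl L s j 0 = L - 5 := by simp [pl]
    have e1 : pl L s j 1 = 5 + 11 * (j : ℝ) := by simp [pl]
    have e2 : pl L s j 2 = 5 := by simp [pl]
    rw [e0, abs_lt] at h00
    rw [e1, abs_lt] at h01
    rw [e2, abs_lt] at h02
    have hj : ((j : ℕ) : ℝ) + 1 ≤ s := by
      have := j.isLt
      exact_mod_cast this
    have hj0 : (0:ℝ) ≤ ((j : ℕ) : ℝ) := Nat.cast_nonneg _
    refine ⟨⟨by linarith, by linarith⟩, ⟨by linarith, by linarith⟩, ⟨by linarith, by linarith⟩⟩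
  have hfar : ∀ x₁ x₂, ψ₁ x₁ ≠ 0 → ψ₂ x₂ ≠ 0 → ∀ i j, V0 K lam B (dist (x₁ i) (x₂ j)) = 0 := by
    intro x₁ x₂ h1 h2 i j
    have h3 := a2 x₁ h1 i 0
    have h4 := (hb2 x₂ h2 j).1
    have h5 : ‖(x₁ i - x₂ j) 0‖ ≤ ‖x₁ i - x₂ j‖ := PiLp.norm_apply_le _ 0
    have h6 : (x₁ i - x₂ j) 0 = x₁ i 0 - x₂ j 0 := rfl
    have h7 : 9 ≤ dist (x₁ i) (x₂ j) := by
      rw [dist_eq_norm]
      refine le_trans ?_ h5
      rw [h6, Real.norm_eq_abs, abs_sub_comm]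
      refine le_trans ?_ (le_abs_self _)
      linarith [h3.2, h4.1]
    unfold V0
    rw [if_neg (by linarith), if_neg (by linarith), if_neg (by linarith)]
  obtain ⟨c1, c2, c3⟩ := JL.tensor μ (V0 K lam B) ψ₁ ψ₂ a1 b1 hfar
  set Ψ : ((Fin m × Fin n) ⊕ Fin s → E) → ℝ :=
    fun x => ψ₁ (fun i => x (Sum.inl i)) * ψ₂ (fun j => x (Sum.inr j)) with hΨ
  have hcard : Fintype.card (Fin N) = Fintype.card ((Fin m × Fin n) ⊕ Fin s) := by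
    simp [hN]
  let e : Fin N ≃ (Fin m × Fin n) ⊕ Fin s := Fintype.equivOfCardEq hcard
  have hnorm : ∫ x : Fin N → E, ‖Ψ (fun i => x (e.symm i))‖ ^ 2 = (∫ x, ‖ψ₁ x‖ ^ 2) * ∫ x, ‖ψ₂ x‖ ^ 2 := by
    rw [← c2]
    exact JR.integral_reindex e (fun x => ‖Ψ x‖ ^ 2)
  have hen : energy μ (V0 K lam B) (fun x : Fin N → E => Ψ (fun i => x (e.symm i))) =
      energy μ (V0 K lam B) ψ₁ * (∫ x, ‖ψ₂ x‖ ^ 2) + (∫ x, ‖ψ₁ x‖ ^ 2) * energy μ (V0 K lam B) ψ₂ := by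
    rw [← c3]
    exact JR.energy_reindex e μ (V0 K lam B) Ψ
  refine ⟨fun x => Ψ (fun i => x (e.symm i)), JR.isState_reindex e _ Ψ c1, ?_, ?_, ?_⟩
  · intro x hx i
    have h1 : ψ₁ (fun i => x (e.symm (Sum.inl i))) ≠ 0 := by
      intro h
      apply hx
      simp only [hΨ]
      rw [h, zero_mul]
    have h2 : ψ₂ (fun j => x (e.symm (Sum.inr j))) ≠ 0 := by
      intro h
      apply hx
      simp only [hΨ]
      rw [h, mul_zero]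
    obtain ⟨q, rfl⟩ : ∃ q, i = e.symm q := ⟨e i, by simp⟩
    intro k
    rcases q with q | q
    · have h3 := a2 _ h1 q k
      exact ⟨h3.1, by linarith [h3.2]⟩
    · have h3 := hb2 _ h2 q
      fin_cases k
      · exact ⟨by have := h3.1.1; simp only [Fin.zero_eta] at *; linarith, by have := h3.1.2; simp only [Fin.zero_eta] at *; linarith⟩
      · exact ⟨by have := h3.2.1.1; simp only [Fin.mk_one] at *; linarith, by have := h3.2.1.2; simp only [Fin.mk_one] at *; linarith⟩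
      · exact ⟨by have := h3.2.2.1; simp only [Fin.reduceFinMk] at *; linarith, by have := h3.2.2.2; simp only [Fin.reduceFinMk] at *; linarith⟩
  · rw [hnorm]; exact mul_pos a3 b3
  · rw [hnorm, hen]
    have h1 := mul_le_mul_of_nonneg_right a4 b3.le
    have h2 := mul_le_mul_of_nonneg_left b4 a3.le
    calc energy μ (V0 K lam B) ψ₁ * (∫ x, ‖ψ₂ x‖ ^ 2) + (∫ x, ‖ψ₁ x‖ ^ 2) * energy μ (V0 K lam B) ψ₂
        ≤ _ := add_le_add h1 h2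
      _ = _ := by ring

end BG631
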